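import Pool.Agent.MP_10effd_pr.Mpx
import Pool.Agent.MP_10effd_pr.Policy

set_option autoImplicit false
set_option linter.unusedSectionVars false

namespace Pool.MP_10effd_pr

open Finset

variable {V : Type} [Fintype V] [DecidableEq V]

/-- Ball of radius `k` around `x`. -/
noncomputable def ball (G : SimpleGraph V) (x : V) (k : ℕ) : Finset V :=
  Finset.univ.filter fun y => G.dist x y ≤ k

/-- The `k`-neighbourhood of the set `C`. -/
noncomputable def nb (G : SimpleGraph V) (C : Finset V) (k : ℕ) : Finset V :=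
  Finset.univ.filter fun x => ∃ c ∈ C, G.dist x c ≤ k

/-- Exponential decay from the set `C` (zero if `C` is empty). -/
noncomputable def dec (G : SimpleGraph V) (r : ℝ) (C : Finset V) (x : V) : ℝ :=
  if C.Nonempty then r ^ (dset G C x) else 0

variable (G : SimpleGraph V) [DecidableRel G.Adj]

/-- Families satisfying the one-step inequality on `N`. -/
structure Pre (ε : ℝ) (N : Finset V) (F : ℕ → V → Finset V → ℝ) : Prop where
  mono : ∀ m x S, F m x S ≤ F (m + 1) x S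
  anti : ∀ m x S S', S ⊆ S' → F m x S' ≤ F m x S
  step : ∀ P, Ker G ε P → ∀ m x S, x ∈ N →
    F (m + 1) x S ≤ 1 + ∑ y, P x y * F m y (insert y S)

/-- Families with a constant base level and penalty `L` for leaving `N`. -/
structure FamN (ε : ℝ) (N : Finset V) (L : ℝ) (F : ℕ → V → Finset V → ℝ) : Prop where
  pre : Pre G ε N F
  base : ∃ b, (∀ x S, F 0 x S = b) ∧ (∀ m x S, b ≤ F m x S) ∧ ∀ m x S, x ∉ N → F m x S ≤ b + L

/-- From `g` one can visit all of `Y` and be back at `g` at cost `q`, leaving `N` being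
penalised by `L`. -/
def CovN (ε : ℝ) (N : Finset V) (L : ℝ) (g : V) (Y : Finset V) (q : ℝ) : Prop :=
  ∀ F, FamN G ε N L F → ∀ (m : ℕ) (S : Finset V), g ∈ S → F m g S ≤ q + F m g (S ∪ Y)

/-- A session at `p`: it takes expected time `T`, visits `A` and is back at `p` with
probability `1 - ∑ ν`, and ends at `z` with probability `ν z`. -/
def Sess (ε : ℝ) (N : Finset V) (p : V) (A : Finset V) (T : ℝ) (ν : V → ℝ) : Prop :=
  ∀ F, Pre G ε N F → ∀ (m : ℕ) (S : Finset V), p ∈ S →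
    F m p S ≤ T + (1 - ∑ z, ν z) * F m p (S ∪ A) + ∑ z, ν z * F m z (insert z S)

/-- One phase at the root `o`, with active items `X`: expected cost `H`, every item stays
uncompleted with probability at most `th`. -/
def Phase (ε : ℝ) (N : Finset V) (L : ℝ) (o : V) {ι : Type} [Fintype ι] [DecidableEq ι]
    (A : ι → Finset V) (X : Finset ι) (H th : ℝ) : Prop :=
  ∀ F, FamN G ε N L F → ∀ (M : ℕ) (S₀ : Finset V) (K₀ : ℝ) (lam : ι → ℝ), (∀ u, 0 ≤ lam u) →
    (∀ m ≤ M, ∀ S, S₀ ⊆ S → o ∈ S →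
      F m o S ≤ K₀ + ∑ u ∈ X.filter (fun u => ¬ A u ⊆ S), lam u) →
    ∀ S, S₀ ⊆ S → o ∈ S →
      F M o S ≤ H + K₀ + th * ∑ u ∈ X.filter (fun u => ¬ A u ⊆ S), lam u

/-- Energy of `f` for the vertex weights `a`. -/
noncomputable def en (a f : V → ℝ) : ℝ :=
  (1 / 2) * ∑ x, ∑ y ∈ G.neighborFinset x, (a x + a y) * (f x - f y) ^ 2

/-- There is a path of length at most `k` from `x` to `y` inside `R`. -/
def PathIn (G : SimpleGraph V) (R : Finset V) (k : ℕ) (x y : V) : Prop :=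
  ∃ (n : ℕ) (v : ℕ → V), n ≤ k ∧ v 0 = x ∧ v n = y ∧ (∀ i < n, G.Adj (v i) (v (i + 1))) ∧
    ∀ i ≤ n, v i ∈ R

variable {G}

theorem mem_ball {x y : V} {k : ℕ} : y ∈ ball G x k ↔ G.dist x y ≤ k := by simp [ball]

theorem mem_nb {C : Finset V} {k : ℕ} {x : V} : x ∈ nb G C k ↔ ∃ c ∈ C, G.dist x c ≤ k := by
  simp [nb]

theorem Pre.sub {ε : ℝ} {N N' : Finset V} {F : ℕ → V → Finset V → ℝ} (h : Pre G ε N F)
    (hN : N' ⊆ N) : Pre G ε N' F :=
  ⟨h.mono, h.anti, fun P hP m x S hx => h.step P hP m x S (hN hx)⟩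

theorem Sess.sub {ε : ℝ} {N N' : Finset V} {p : V} {A : Finset V} {T : ℝ} {ν : V → ℝ}
    (h : Sess G ε N' p A T ν) (hN : N' ⊆ N) : Sess G ε N p A T ν :=
  fun F hF => h F (hF.sub hN)

theorem Pre.mono_le {ε : ℝ} {N : Finset V} {F : ℕ → V → Finset V → ℝ} (h : Pre G ε N F)
    {m m' : ℕ} (hm : m ≤ m') (x : V) (S : Finset V) : F m x S ≤ F m' x S := by
  induction m', hm using Nat.le_induction with
  | base => exact le_rfl
  | succ k _ ih => exact ih.trans (h.mono k x S)

theorem CovN.mono {ε : ℝ} {N : Finset V} {L : ℝ} {g : V} {Y : Finset V} {q q' : ℝ}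
    (h : CovN G ε N L g Y q) (hq : q ≤ q') : CovN G ε N L g Y q' :=
  fun F hF m S hS => (h F hF m S hS).trans (by linarith)

theorem CovN.subset {ε : ℝ} {N : Finset V} {L : ℝ} {g : V} {Y Y' : Finset V} {q : ℝ}
    (h : CovN G ε N L g Y q) (hY : Y' ⊆ Y) : CovN G ε N L g Y' q :=
  fun F hF m S hS => (h F hF m S hS).trans (by
    have := hF.pre.anti m g (S ∪ Y') (S ∪ Y) (Finset.union_subset_union le_rfl hY)
    linarith)

theorem CovN.union {ε : ℝ} {N : Finset V} {L : ℝ} {g : V} {Y Y' : Finset V} {q q' : ℝ}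
    (h : CovN G ε N L g Y q) (h' : CovN G ε N L g Y' q') :
    CovN G ε N L g (Y ∪ Y') (q + q') := by
  intro F hF m S hS
  have e1 := h F hF m S hS
  have e2 := h' F hF m (S ∪ Y) (Finset.mem_union_left _ hS)
  rw [Finset.union_assoc] at e2
  linarith


end Pool.MP_10effd_pr
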