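import Pool.Agent.MP_10effd_pr.LL.Defs

/-! Budget lemmas. -/

set_option autoImplicit false
set_option linter.unusedSectionVars false

namespace Pool.MP_10effd_pr

open Finset

variable {V : Type} [Fintype V] [DecidableEq V] {G : SimpleGraph V} [DecidableRel G.Adj] {ε : ℝ}

theorem budget_mem_nb {U : Finset V} {k : ℕ} {x : V} :
    x ∈ nb G U k ↔ ∃ c ∈ U, G.dist x c ≤ k := by
  unfold nb
  simp

theorem budget_mem_nb_of_dset {U : Finset V} (hU : U.Nonempty) {k : ℕ} {x : V}
    (h : dset G U x ≤ k) : x ∈ nb G U k := by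
  obtain ⟨c, hc, hd⟩ := exists_dset (G := G) hU x
  exact budget_mem_nb.2 ⟨c, hc, by omega⟩

theorem budget_dset_le_of_mem_nb {U : Finset V} {k : ℕ} {x : V} (h : x ∈ nb G U k) :
    dset G U x ≤ k := by
  obtain ⟨c, hc, hd⟩ := budget_mem_nb.1 h
  exact (dset_le hc).trans hd

theorem budget_nb_zero (hG : G.Connected) (U : Finset V) : nb G U 0 = U := by
  ext x
  rw [budget_mem_nb]
  constructor
  · rintro ⟨c, hc, hd⟩
    have h0 : G.dist x c = 0 := by omega
    rw [(hG.dist_eq_zero_iff).1 h0]
    exact hc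
  · intro hx
    exact ⟨x, hx, by rw [SimpleGraph.dist_self]⟩

namespace Lev

variable {P : Lev} {θ : ℝ} {Δ : ℕ} {c : ℝ} {ctr : ℕ → V → V} {T : ℕ}

open Classical in
theorem lowPart_top (hG : G.Connected) (i : ℕ) (hK : 0 < P.K i) (U : Finset V) :
    P.lowPart G ctr T θ (i + 1) i U = P.β i * P.Bud G θ i U
      + P.Csp i * ((U.filter fun x => P.spec G ctr T i x).card : ℝ) := by
  have hPr : ∀ x k, P.Pr G ctr i (i + 1) x k = 1 := by
    intro x k
    unfold Pr
    simp
  have hkap : ∀ k, P.kap (i + 1) i k = k := by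
    intro k
    unfold kap
    simp
  have hspec : ((U.filter fun x => P.spec G ctr T i x).card : ℝ) =
      ∑ x, ∑ k ∈ Finset.range (P.K i), (if k = 0 ∧ P.spec G ctr T i x then (1 : ℝ) else 0) *
        (if x ∈ nb G U k then 1 else 0) := by
    rw [Finset.card_filter, Nat.cast_sum]
    rw [← Finset.sum_subset (Finset.subset_univ U)]
    · refine Finset.sum_congr rfl fun x hx => ?_
      rw [Finset.sum_eq_single 0]
      · have hx0 : x ∈ nb G U 0 := by rw [budget_nb_zero hG]; exact hx
        rw [if_pos hx0]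
        by_cases hs : P.spec G ctr T i x
        · simp [hs]
        · simp [hs]
      · intro k _ hk
        rw [if_neg (fun h => hk h.1), zero_mul]
      · intro h
        exact absurd (Finset.mem_range.2 hK) h
    · intro x _ hx
      refine Finset.sum_eq_zero fun k _ => ?_
      by_cases hk : k = 0
      · subst hk
        have hx0 : x ∉ nb G U 0 := by rw [budget_nb_zero hG]; exact hx
        rw [if_neg hx0, mul_zero]
      · rw [if_neg (fun h => hk h.1), zero_mul]
  rw [hspec]
  unfold lowPart Bud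
  rw [Finset.mul_sum, Finset.mul_sum, ← Finset.sum_add_distrib]
  refine Finset.sum_congr rfl fun x _ => ?_
  rw [Finset.mul_sum, Finset.mul_sum, ← Finset.sum_add_distrib]
  refine Finset.sum_congr rfl fun k _ => ?_
  rw [hPr, hkap, mul_one]
  unfold cf cb
  by_cases hs : k = 0 ∧ P.spec G ctr T i x
  · rw [if_pos hs, if_pos hs]
    ring
  · rw [if_neg hs, if_neg hs]
    ring

open Classical in
/-- the summand of the budget -/
noncomputable def budget_tm (P : Lev) (G : SimpleGraph V) (θ : ℝ) (i : ℕ) (U : Finset V) (x : V)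
    (k : ℕ) : ℝ :=
  ((if k = 2 * P.D i then 1 else 0) + (if 2 * P.D i ≤ k then θ ^ (k - 2 * P.D i) else 0)) *
    (if x ∈ nb G U k then 1 else 0)

theorem budget_Bud_eq (i : ℕ) (U : Finset V) :
    P.Bud G θ i U = ∑ x, ∑ k ∈ Finset.range (P.K i), budget_tm P G θ i U x k := rfl

theorem budget_tm_nonneg (h0 : 0 < θ) (i : ℕ) (U : Finset V) (x : V) (k : ℕ) :
    0 ≤ budget_tm P G θ i U x k := by
  unfold budget_tm
  refine mul_nonneg (add_nonneg ?_ ?_) ?_
  · split_ifs <;> norm_num
  · split_ifs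
    · exact pow_nonneg h0.le _
    · exact le_rfl
  · split_ifs <;> norm_num

theorem budget_row_nonneg (h0 : 0 < θ) (i : ℕ) (U : Finset V) (x : V) :
    0 ≤ ∑ k ∈ Finset.range (P.K i), budget_tm P G θ i U x k :=
  Finset.sum_nonneg fun k _ => budget_tm_nonneg h0 i U x k

theorem Bud_nonneg (h0 : 0 < θ) (i : ℕ) (U : Finset V) : 0 ≤ P.Bud G θ i U := by
  rw [budget_Bud_eq]
  exact Finset.sum_nonneg fun x _ => budget_row_nonneg h0 i U x

theorem budget_dec_nonneg {r : ℝ} (hr : 0 ≤ r) (C : Finset V) (x : V) : 0 ≤ dec G r C x := by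
  unfold dec
  split_ifs
  · exact pow_nonneg hr _
  · exact le_rfl

theorem tl_nonneg (h0 : 0 < θ) (i : ℕ) (N U : Finset V) : 0 ≤ P.tl G θ i N U := by
  unfold tl
  exact Finset.sum_nonneg fun x _ => budget_dec_nonneg h0.le U x

/-- one term of the row, `k = 2 D` -/
theorem budget_row_ge_one (h0 : 0 < θ) {i : ℕ} (hK : 2 * P.D i < P.K i) {U : Finset V} {x : V}
    (hx : x ∈ nb G U (2 * P.D i)) :
    1 ≤ ∑ k ∈ Finset.range (P.K i), budget_tm P G θ i U x k := by
  have h1 : budget_tm P G θ i U x (2 * P.D i) ≤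
      ∑ k ∈ Finset.range (P.K i), budget_tm P G θ i U x k :=
    Finset.single_le_sum (f := fun k => budget_tm P G θ i U x k)
      (fun k _ => budget_tm_nonneg h0 i U x k) (Finset.mem_range.2 hK)
  refine le_trans ?_ h1
  unfold budget_tm
  rw [if_pos rfl, if_pos le_rfl, if_pos hx, Nat.sub_self, pow_zero]
  norm_num

theorem budget_row_ge_pow (h0 : 0 < θ) {i k : ℕ} (hk1 : 2 * P.D i ≤ k) (hk2 : k < P.K i)
    {U : Finset V} {x : V} (hx : x ∈ nb G U k) :
    θ ^ (k - 2 * P.D i) ≤ ∑ k ∈ Finset.range (P.K i), budget_tm P G θ i U x k := by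
  have h1 : budget_tm P G θ i U x k ≤
      ∑ k ∈ Finset.range (P.K i), budget_tm P G θ i U x k :=
    Finset.single_le_sum (f := fun k => budget_tm P G θ i U x k)
      (fun k _ => budget_tm_nonneg h0 i U x k) (Finset.mem_range.2 hk2)
  refine le_trans ?_ h1
  unfold budget_tm
  rw [if_pos hk1, if_pos hx, mul_one]
  have : (0 : ℝ) ≤ if k = 2 * P.D i then 1 else 0 := by split_ifs <;> norm_num
  linarith

theorem card_nb_le_Bud (h0 : 0 < θ) {i r : ℕ} (hK : 2 * P.D i < P.K i) (hr : r ≤ 2 * P.D i)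
    (U : Finset V) : ((nb G U r).card : ℝ) ≤ P.Bud G θ i U := by
  rw [budget_Bud_eq]
  have h1 : ((nb G U r).card : ℝ) = ∑ x ∈ nb G U r, (1 : ℝ) := by simp
  rw [h1]
  refine le_trans (Finset.sum_le_sum (g := fun x =>
    ∑ k ∈ Finset.range (P.K i), budget_tm P G θ i U x k) ?_) ?_
  · intro x hx
    refine budget_row_ge_one h0 hK ?_
    obtain ⟨c, hc, hd⟩ := budget_mem_nb.1 hx
    exact budget_mem_nb.2 ⟨c, hc, hd.trans hr⟩
  · exact Finset.sum_le_sum_of_subset_of_nonneg (Finset.subset_univ _)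
      fun x _ _ => budget_row_nonneg h0 i U x

open Classical in
/-- the pointwise comparison gives the comparison of the sums -/
theorem budget_sum (h0 : 0 < θ) {i : ℕ} {N U : Finset V} {f : V → ℝ} {A : ℝ} (hA : 0 ≤ A)
    (hf : ∀ x ∈ N, f x ≤ A * (∑ k ∈ Finset.range (P.K i), budget_tm P G θ i U x k)
      + if x ∉ nb G U (P.K i - 1) then dec G θ U x else 0) :
    ∑ x ∈ N, f x ≤ A * P.Bud G θ i U + P.tl G θ i N U := by
  refine (Finset.sum_le_sum hf).trans ?_
  rw [Finset.sum_add_distrib, ← Finset.mul_sum]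
  refine add_le_add (mul_le_mul_of_nonneg_left ?_ hA) ?_
  · rw [budget_Bud_eq]
    exact Finset.sum_le_sum_of_subset_of_nonneg (Finset.subset_univ _)
      fun x _ _ => budget_row_nonneg h0 i U x
  · unfold tl
    rw [← Finset.sum_filter]
    refine le_of_eq ?_
    refine Finset.sum_congr ?_ fun _ _ => rfl
    ext x
    simp

theorem dec_le_Bud (hG : G.Connected) (h0 : 0 < θ) (h1 : θ < 1) {i : ℕ} (hK : 2 * P.D i < P.K i)
    (N U : Finset V) :
    ∑ x ∈ N, dec G (θ ^ 2) (nb G U (P.D i)) x ≤ P.Bud G θ i U + P.tl G θ i N U := by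
  classical
  have key := budget_sum (P := P) (G := G) (θ := θ) h0 (i := i) (N := N) (U := U)
    (f := fun x => dec G (θ ^ 2) (nb G U (P.D i)) x) (A := 1) zero_le_one ?_
  · rw [one_mul] at key
    exact key
  intro x _
  rw [one_mul]
  have hrow := budget_row_nonneg (P := P) (G := G) h0 i U x
  have htl : (0 : ℝ) ≤ if x ∉ nb G U (P.K i - 1) then dec G θ U x else 0 := by
    split_ifs
    · exact le_rfl
    · exact budget_dec_nonneg h0.le U x
  rcases U.eq_empty_or_nonempty with hU | hU
  · have hn : nb G U (P.D i) = ∅ := by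
      rw [hU]
      ext y
      rw [budget_mem_nb]
      simp
    have hz : dec G (θ ^ 2) (nb G U (P.D i)) x = 0 := by
      unfold dec
      rw [hn]
      simp
    rw [hz]
    exact add_nonneg hrow htl
  · have hsub : U ⊆ nb G U (P.D i) := fun y hy =>
      budget_mem_nb.2 ⟨y, hy, by rw [SimpleGraph.dist_self]; exact Nat.zero_le _⟩
    have hne : (nb G U (P.D i)).Nonempty := hU.mono hsub
    have hdec : dec G (θ ^ 2) (nb G U (P.D i)) x = (θ ^ 2) ^ dset G (nb G U (P.D i)) x := by
      unfold dec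
      rw [if_pos hne]
    have hdist : dset G U x ≤ dset G (nb G U (P.D i)) x + P.D i := by
      obtain ⟨y, hy, hyd⟩ := exists_dset (G := G) hne x
      obtain ⟨c, hc, hcd⟩ := budget_mem_nb.1 hy
      have h2 : G.dist x c ≤ G.dist x y + G.dist y c := hG.dist_triangle
      have h3 := dset_le (G := G) (x := x) hc
      omega
    rw [hdec, ← pow_mul]
    rcases Nat.lt_or_ge (2 * P.D i) (dset G U x) with h2 | h2
    · rcases Nat.lt_or_ge (dset G U x) (P.K i) with h3 | h3
      · have hx : x ∈ nb G U (dset G U x) := budget_mem_nb_of_dset hU le_rfl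
        have h4 := budget_row_ge_pow (P := P) (G := G) h0 h2.le h3 hx
        have h5 : θ ^ (2 * dset G (nb G U (P.D i)) x) ≤ θ ^ (dset G U x - 2 * P.D i) :=
          pow_le_pow_of_le_one h0.le h1.le (by omega)
        linarith
      · have hx : x ∉ nb G U (P.K i - 1) := by
          intro h
          have := budget_dset_le_of_mem_nb h
          omega
        rw [if_pos hx]
        have h4 : dec G θ U x = θ ^ dset G U x := by
          unfold dec
          rw [if_pos hU]
        rw [h4]
        have h5 : θ ^ (2 * dset G (nb G U (P.D i)) x) ≤ θ ^ (dset G U x) :=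
          pow_le_pow_of_le_one h0.le h1.le (by omega)
        linarith
    · have hx : x ∈ nb G U (2 * P.D i) := budget_mem_nb_of_dset hU h2
      have h4 := budget_row_ge_one (P := P) (G := G) h0 hK hx
      have h5 : θ ^ (2 * dset G (nb G U (P.D i)) x) ≤ 1 := pow_le_one₀ h0.le h1.le
      linarith

theorem tl_le_Bud (hG : G.Connected) (h0 : 0 < θ) (h1 : θ < 1) {i : ℕ} (hK : 2 * P.D i < P.K i)
    {N U U' : Finset V} (hU : U' ⊆ U) :
    P.tl G θ (i - 1) N U' ≤ (θ ^ (P.K (i - 1)) + θ ^ (2 * P.D i)) * P.Bud G θ i U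
      + P.tl G θ i N U := by
  classical
  have hA : 0 ≤ θ ^ (P.K (i - 1)) + θ ^ (2 * P.D i) :=
    add_nonneg (pow_nonneg h0.le _) (pow_nonneg h0.le _)
  have key := budget_sum (P := P) (G := G) (θ := θ) h0 (i := i) (N := N \ nb G U' (P.K (i - 1) - 1))
    (U := U) (f := fun x => dec G θ U' x) hA ?_
  · refine key.trans (add_le_add le_rfl ?_)
    unfold tl
    refine Finset.sum_le_sum_of_subset_of_nonneg ?_ fun x _ _ => budget_dec_nonneg h0.le U x
    exact Finset.sdiff_subset_sdiff Finset.sdiff_subset (Finset.Subset.refl _)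
  intro x hx
  rw [Finset.mem_sdiff] at hx
  have hrow := budget_row_nonneg (P := P) (G := G) h0 i U x
  have htl : (0 : ℝ) ≤ if x ∉ nb G U (P.K i - 1) then dec G θ U x else 0 := by
    split_ifs
    · exact le_rfl
    · exact budget_dec_nonneg h0.le U x
  rcases U'.eq_empty_or_nonempty with hU' | hU'
  · have hz : dec G θ U' x = 0 := by
      unfold dec
      rw [hU']
      simp
    simp only [hz]
    exact add_nonneg (mul_nonneg hA hrow) htl
  · have hUne : U.Nonempty := hU'.mono hU
    have hdec : dec G θ U' x = θ ^ dset G U' x := by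
      unfold dec
      rw [if_pos hU']
    have hd1 : P.K (i - 1) ≤ dset G U' x := by
      by_contra hlt
      push Not at hlt
      exact hx.2 (budget_mem_nb_of_dset hU' (by omega))
    have hd2 : dset G U x ≤ dset G U' x := by
      obtain ⟨c, hc, hcd⟩ := exists_dset (G := G) hU' x
      rw [← hcd]
      exact dset_le (hU hc)
    simp only [hdec]
    rcases Nat.lt_or_ge (2 * P.D i) (dset G U x) with h2 | h2
    · rcases Nat.lt_or_ge (dset G U x) (P.K i) with h3 | h3
      · have hx' : x ∈ nb G U (dset G U x) := budget_mem_nb_of_dset hUne le_rfl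
        have h4 := budget_row_ge_pow (P := P) (G := G) h0 h2.le h3 hx'
        have h5 : θ ^ dset G U' x ≤ θ ^ (2 * P.D i) * θ ^ (dset G U x - 2 * P.D i) := by
          rw [← pow_add]
          exact pow_le_pow_of_le_one h0.le h1.le (by omega)
        have h6 : θ ^ (2 * P.D i) * θ ^ (dset G U x - 2 * P.D i) ≤
            θ ^ (2 * P.D i) * ∑ k ∈ Finset.range (P.K i), budget_tm P G θ i U x k :=
          mul_le_mul_of_nonneg_left h4 (pow_nonneg h0.le _)
        have h7 : 0 ≤ θ ^ (P.K (i - 1)) * ∑ k ∈ Finset.range (P.K i), budget_tm P G θ i U x k :=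
          mul_nonneg (pow_nonneg h0.le _) hrow
        rw [add_mul]
        linarith
      · have hx' : x ∉ nb G U (P.K i - 1) := by
          intro h
          have := budget_dset_le_of_mem_nb h
          omega
        rw [if_pos hx']
        have h4 : dec G θ U x = θ ^ dset G U x := by
          unfold dec
          rw [if_pos hUne]
        rw [h4]
        have h5 : θ ^ dset G U' x ≤ θ ^ (dset G U x) :=
          pow_le_pow_of_le_one h0.le h1.le hd2
        have h7 := mul_nonneg hA hrow
        linarith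
    · have hx' : x ∈ nb G U (2 * P.D i) := budget_mem_nb_of_dset hUne h2
      have h4 := budget_row_ge_one (P := P) (G := G) h0 hK hx'
      have h5 : θ ^ dset G U' x ≤ θ ^ (P.K (i - 1)) :=
        pow_le_pow_of_le_one h0.le h1.le hd1
      have h6 : θ ^ (P.K (i - 1)) * 1 ≤
          θ ^ (P.K (i - 1)) * ∑ k ∈ Finset.range (P.K i), budget_tm P G θ i U x k :=
        mul_le_mul_of_nonneg_left h4 (pow_nonneg h0.le _)
      have h7 : 0 ≤ θ ^ (2 * P.D i) * ∑ k ∈ Finset.range (P.K i), budget_tm P G θ i U x k :=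
        mul_nonneg (pow_nonneg h0.le _) hrow
      rw [add_mul]
      linarith

theorem tl_le_card (h0 : 0 < θ) (h1 : θ < 1) {i : ℕ} (hK : 0 < P.K i) (N U : Finset V) :
    P.tl G θ i N U ≤ N.card * θ ^ (P.K i) := by
  unfold tl
  have hpt : ∀ x ∈ N \ nb G U (P.K i - 1), dec G θ U x ≤ θ ^ (P.K i) := by
    intro x hx
    rw [Finset.mem_sdiff] at hx
    unfold dec
    split_ifs with hU
    · refine pow_le_pow_of_le_one h0.le h1.le ?_
      by_contra hlt
      push Not at hlt
      exact hx.2 (budget_mem_nb_of_dset hU (by omega))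
    · exact pow_nonneg h0.le _
  refine (Finset.sum_le_card_nsmul _ _ _ hpt).trans ?_
  rw [nsmul_eq_mul]
  refine mul_le_mul_of_nonneg_right ?_ (pow_nonneg h0.le _)
  exact_mod_cast Finset.card_le_card Finset.sdiff_subset

end Lev

end Pool.MP_10effd_pr
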