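import Pool.Agent.MP_10effd_pr.LL.Defs

/-! Derandomisation level by level. -/

set_option autoImplicit false
set_option linter.unusedSectionVars false

namespace Pool.MP_10effd_pr

open Finset

variable {V : Type} [Fintype V] [DecidableEq V] {G : SimpleGraph V} [DecidableRel G.Adj] {ε : ℝ}

namespace Lev

variable {P : Lev} {θ : ℝ} {Δ : ℕ} {c : ℝ} {ctr : ℕ → V → V} {T : ℕ}

/-- Some value is at most the average. -/
private theorem exists_le_avg {Ω : Type} [Fintype Ω] (pr : Ω → ℝ) (h0 : ∀ ω, 0 ≤ pr ω)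
    (h1 : ∑ ω, pr ω = 1) (f : Ω → ℝ) : ∃ ω, f ω ≤ ∑ ω, pr ω * f ω := by
  by_contra hcon
  push Not at hcon
  set A : ℝ := ∑ ω, pr ω * f ω with hA
  have hne : ∃ ω, 0 < pr ω := by
    by_contra hz
    push Not at hz
    have : ∑ ω, pr ω ≤ 0 := Finset.sum_nonpos (fun ω _ => hz ω)
    linarith
  obtain ⟨ω0, hω0⟩ := hne
  have h2 : ∑ ω, pr ω * A < ∑ ω, pr ω * f ω := by
    apply Finset.sum_lt_sum
    · intro ω _
      exact mul_le_mul_of_nonneg_left (hcon ω).le (h0 ω)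
    · exact ⟨ω0, Finset.mem_univ _, mul_lt_mul_of_pos_left (hcon ω0) hω0⟩
  rw [← Finset.sum_mul, h1, one_mul] at h2
  exact lt_irrefl _ h2

/-- Choosing the levels one after the other. -/
theorem choose_levels {γ : Type} [Fintype γ] (Ls : Finset ℕ) (Ω : ℕ → Type)
    [∀ s, Fintype (Ω s)] (pr : ∀ s, Ω s → ℝ) (h0 : ∀ s ω, 0 ≤ pr s ω)
    (h1 : ∀ s, ∑ ω, pr s ω = 1) (φ : γ → ∀ s, Ω s → ℝ) (hφ : ∀ j s ω, 0 ≤ φ j s ω)
    (b : γ → ℕ → ℝ) (hb : ∀ j, ∀ s ∈ Ls, ∑ ω, pr s ω * φ j s ω ≤ b j s) (w : γ → ℝ)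
    (hw : ∀ j, 0 ≤ w j) :
    ∃ ω : ∀ s, Ω s, ∑ j, w j * ∏ s ∈ Ls, φ j s (ω s) ≤ ∑ j, w j * ∏ s ∈ Ls, b j s := by
  classical
  have hne : ∀ s, Nonempty (Ω s) := by
    intro s
    by_contra hE
    rw [not_nonempty_iff] at hE
    have := h1 s
    rw [Finset.univ_eq_empty, Finset.sum_empty] at this
    exact zero_ne_one this
  revert w
  induction Ls using Finset.induction_on with
  | empty =>
    intro w hw
    refine ⟨fun s => (hne s).some, ?_⟩
    simp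
  | insert s Ls' hs ih =>
    intro w hw
    have hb' : ∀ j, ∀ s' ∈ Ls', ∑ ω, pr s' ω * φ j s' ω ≤ b j s' :=
      fun j s' hs' => hb j s' (Finset.mem_insert_of_mem hs')
    have hbs : ∀ j, ∑ ω, pr s ω * φ j s ω ≤ b j s :=
      fun j => hb j s (Finset.mem_insert_self s Ls')
    have hb0 : ∀ j, 0 ≤ b j s := fun j =>
      (Finset.sum_nonneg (fun ω _ => mul_nonneg (h0 s ω) (hφ j s ω))).trans (hbs j)
    obtain ⟨ω', hω'⟩ := ih hb' (fun j => w j * b j s) (fun j => mul_nonneg (hw j) (hb0 j))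
    obtain ⟨o, ho⟩ := exists_le_avg (pr s) (h0 s) (h1 s)
      (fun o => ∑ j, w j * (φ j s o * ∏ s' ∈ Ls', φ j s' (ω' s')))
    refine ⟨Function.update ω' s o, ?_⟩
    have e1 : ∀ j, ∏ s' ∈ insert s Ls', φ j s' (Function.update ω' s o s')
        = φ j s o * ∏ s' ∈ Ls', φ j s' (ω' s') := by
      intro j
      rw [Finset.prod_insert hs, Function.update_self]
      congr 1
      apply Finset.prod_congr rfl
      intro s' hs'
      rw [Function.update_of_ne]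
      rintro rfl
      exact hs hs'
    have e2 : ∀ j, ∏ s' ∈ insert s Ls', b j s' = b j s * ∏ s' ∈ Ls', b j s' :=
      fun j => Finset.prod_insert hs
    have e3 : ∑ o, pr s o * ∑ j, w j * (φ j s o * ∏ s' ∈ Ls', φ j s' (ω' s'))
        = ∑ j, w j * ((∑ o, pr s o * φ j s o) * ∏ s' ∈ Ls', φ j s' (ω' s')) := by
      simp only [Finset.mul_sum, Finset.sum_mul]
      rw [Finset.sum_comm]
      apply Finset.sum_congr rfl
      intro j _
      apply Finset.sum_congr rfl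
      intro o _
      ring
    have e4 : ∑ j, w j * ((∑ o, pr s o * φ j s o) * ∏ s' ∈ Ls', φ j s' (ω' s'))
        ≤ ∑ j, w j * b j s * ∏ s' ∈ Ls', φ j s' (ω' s') := by
      apply Finset.sum_le_sum
      intro j _
      have h2 : (∑ o, pr s o * φ j s o) * ∏ s' ∈ Ls', φ j s' (ω' s')
          ≤ b j s * ∏ s' ∈ Ls', φ j s' (ω' s') :=
        mul_le_mul_of_nonneg_right (hbs j) (Finset.prod_nonneg (fun s' _ => hφ j s' _))
      calc w j * ((∑ o, pr s o * φ j s o) * ∏ s' ∈ Ls', φ j s' (ω' s'))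
          ≤ w j * (b j s * ∏ s' ∈ Ls', φ j s' (ω' s')) :=
            mul_le_mul_of_nonneg_left h2 (hw j)
        _ = w j * b j s * ∏ s' ∈ Ls', φ j s' (ω' s') := by ring
    calc ∑ j, w j * ∏ s' ∈ insert s Ls', φ j s' (Function.update ω' s o s')
        = ∑ j, w j * (φ j s o * ∏ s' ∈ Ls', φ j s' (ω' s')) :=
          Finset.sum_congr rfl (fun j _ => by rw [e1 j])
      _ ≤ ∑ o, pr s o * ∑ j, w j * (φ j s o * ∏ s' ∈ Ls', φ j s' (ω' s')) := ho
      _ = ∑ j, w j * ((∑ o, pr s o * φ j s o) * ∏ s' ∈ Ls', φ j s' (ω' s')) := e3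
      _ ≤ ∑ j, w j * b j s * ∏ s' ∈ Ls', φ j s' (ω' s') := e4
      _ ≤ ∑ j, w j * b j s * ∏ s' ∈ Ls', b j s' := hω'
      _ = ∑ j, w j * ∏ s' ∈ insert s Ls', b j s' :=
          Finset.sum_congr rfl (fun j _ => by rw [e2 j]; ring)

end Lev

end Pool.MP_10effd_pr
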