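import Pool.Agent.MP_10effd_pr.LL.Defs

/-! Random clusterings: the expected number of cells near a vertex. -/

set_option autoImplicit false
set_option linter.unusedSectionVars false

namespace Pool.MP_10effd_pr

open Finset

variable {V : Type} [Fintype V] [DecidableEq V] {G : SimpleGraph V} [DecidableRel G.Adj] {ε : ℝ}

theorem Near.mono_slack {s s' : ℕ} (h : s ≤ s') {x u : V} {δ : V → ℕ} (hN : Near G s x u δ) :
    Near G s' x u δ := by
  intro w hw
  have := hN w hw
  omega

open Classical in
/-- Expected number of centres of the points of a ball, in a thin ball. -/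
theorem sum_image_card_le {q : ℝ} (hq0 : 0 < q) (hq1 : q < 1) (M r Lc : ℕ) (x : V)
    (hr : 2 * r ≤ 7 * M) (hthin : (ball G x (8 * M)).card ≤ Lc)
    (cc : (V → Fin (M + 1)) → V → V)
    (hnear : ∀ δ : V → Fin (M + 1), ∀ x y, Near G (G.dist x y) x (cc δ y) (fun v => δ v)) :
    ∑ δ : V → Fin (M + 1), pw q M δ * (((ball G x r).image (cc δ)).card : ℝ)
      ≤ (q ^ (2 * r + 1))⁻¹ * (1 + Lc * q ^ (M + 1)) := by
  have hsub : ∀ δ : V → Fin (M + 1), (((ball G x r).image (cc δ)).card : ℝ)
      ≤ ∑ u ∈ ball G x (8 * M), if Near G r x u (fun v => δ v) then (1 : ℝ) else 0 := by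
    intro δ
    rw [Finset.sum_boole]
    norm_cast
    apply Finset.card_le_card
    intro u hu
    rw [Finset.mem_image] at hu
    obtain ⟨y, hy, rfl⟩ := hu
    rw [mem_ball] at hy
    have hN := (hnear δ x y).mono_slack hy
    rw [Finset.mem_filter, mem_ball]
    refine ⟨?_, hN⟩
    by_cases hxu : x = cc δ y
    · rw [← hxu, SimpleGraph.dist_self]; omega
    · have h1 := hN x hxu
      rw [SimpleGraph.dist_self] at h1
      have h2 := (δ (cc δ y)).2
      simp only at h1
      omega
  have e1 : ∑ δ : V → Fin (M + 1), pw q M δ * (((ball G x r).image (cc δ)).card : ℝ)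
      ≤ ∑ u ∈ ball G x (8 * M), ∑ δ : V → Fin (M + 1), pw q M δ *
        (if Near G r x u (fun v => δ v) then (1 : ℝ) else 0) := by
    rw [Finset.sum_comm]
    apply Finset.sum_le_sum
    intro δ _
    rw [← Finset.mul_sum]
    exact mul_le_mul_of_nonneg_left (hsub δ) (pw_nonneg hq0 hq1 M δ)
  have hqp : 0 < q ^ (2 * r + 1) := by positivity
  rw [← div_eq_inv_mul, le_div_iff₀ hqp, mul_comm]
  refine (mul_le_mul_of_nonneg_left e1 hqp.le).trans ?_
  rw [Finset.mul_sum]
  refine (Finset.sum_le_sum fun u _ => near_win (G := G) hq0 hq1 M r x u).trans ?_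
  rw [Finset.sum_add_distrib, Finset.sum_comm]
  apply add_le_add
  · refine le_trans (Finset.sum_le_sum (g := fun δ => pw q M δ) ?_) (pw_sum (V := V) q M).le
    intro δ _
    rw [← Finset.mul_sum]
    have hp := pw_nonneg (V := V) hq0 hq1 M δ
    have : (∑ u ∈ ball G x (8 * M), if Win G x u (fun v => δ v) then (1 : ℝ) else 0) ≤ 1 := by
      rw [Finset.sum_boole]
      have : ((ball G x (8 * M)).filter fun u => Win G x u (fun v => δ v)).card ≤ 1 := by
        rw [Finset.card_le_one]
        intro a ha b hb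
        rw [Finset.mem_filter] at ha hb
        by_contra hne
        have h1 := ha.2 b (Ne.symm hne)
        have h2 := hb.2 a hne
        omega
      exact_mod_cast this
    nlinarith
  · rw [Finset.sum_const, nsmul_eq_mul]
    apply mul_le_mul_of_nonneg_right _ (by positivity)
    exact_mod_cast hthin

namespace Lev

variable {P : Lev} {θ : ℝ} {Δ : ℕ} {c : ℝ} {ctr : ℕ → V → V} {T : ℕ}

theorem one_le_cost {q : ℝ} (hq0 : 0 < q) (hq1 : q < 1) (r Lc M : ℕ) :
    1 ≤ (q ^ r)⁻¹ * (1 + (Lc : ℝ) * q ^ M) := by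
  have h1 : 1 ≤ (q ^ r)⁻¹ := by
    rw [one_le_inv₀ (by positivity)]
    exact pow_le_one₀ hq0.le hq1.le
  have h2 : 1 ≤ 1 + (Lc : ℝ) * q ^ M := by
    have : 0 ≤ (Lc : ℝ) * q ^ M := by positivity
    linarith
  nlinarith

open Classical in
/-- A random clustering of radius `P.M s`. -/
theorem exists_random (hP : P.Good θ Δ c) (hG : G.Connected) {s : ℕ} (hs : 1 ≤ s) :
    ∃ (Ω : Type) (_ : Fintype Ω) (pr : Ω → ℝ) (cc : Ω → V → V),
      (∀ ω, 0 ≤ pr ω) ∧ ∑ ω, pr ω = 1 ∧ (∀ ω, Clustering G (cc ω) (P.M s)) ∧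
      (∀ x κ, 2 * (κ + 1) ≤ 7 * P.M s →
        ∑ ω, pr ω * ((1 + P.eta s) * P.nt G (fun _ => cc ω) s x κ) ≤ P.ee s κ) ∧
      (∀ x l κ R, κ = P.kap s l 0 → R = P.g (l - 1) + 1 → 2 * (κ + 1) ≤ 7 * P.M s →
        2 * R ≤ 7 * P.M s →
        ∑ ω, pr ω * (if P.sp G (fun _ => cc ω) s x R
          then (1 + P.eta s) * P.nt G (fun _ => cc ω) s x κ else 0) ≤ P.es l s) := by
  have hq0 := hP.q0 s hs
  have hq1 := hP.q1 s hs
  have heta : 0 ≤ P.eta s := by unfold eta; positivity
  have hex : ∀ δ : V → Fin (P.M s + 1), ∃ ctr : V → V, Clustering G ctr (P.M s) ∧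
      ∀ x y, Near G (G.dist x y) x (ctr y) (fun v => (δ v : ℕ)) := fun δ =>
    exists_ctr hG (P.M s) (fun v => (δ v : ℕ)) (fun v => by
      have := (δ v).2; omega)
  choose cc hcc hnear using hex
  have hcard : ∀ x r, 2 * r ≤ 7 * P.M s → (ball G x (8 * P.M s)).card < P.Lc s →
      ∑ δ : V → Fin (P.M s + 1), pw (P.q s) (P.M s) δ * (((ball G x r).image (cc δ)).card : ℝ)
      ≤ (P.q s ^ (2 * r + 1))⁻¹ * (1 + P.Lc s * P.q s ^ (P.M s + 1)) := fun x r hr hthin =>
    sum_image_card_le hq0 hq1 (P.M s) r (P.Lc s) x hr hthin.le cc hnear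
  refine ⟨V → Fin (P.M s + 1), inferInstance, pw (P.q s) (P.M s), cc,
    fun δ => pw_nonneg hq0 hq1 _ δ, pw_sum _ _, hcc, ?_, ?_⟩
  · intro x κ hκ
    have e1 : ∑ ω, pw (P.q s) (P.M s) ω * ((1 + P.eta s) * P.nt G (fun _ => cc ω) s x κ)
        = (1 + P.eta s) * ∑ ω, pw (P.q s) (P.M s) ω * P.nt G (fun _ => cc ω) s x κ := by
      rw [Finset.mul_sum]
      apply Finset.sum_congr rfl
      intro ω _
      ring
    rw [e1]
    unfold ee
    apply mul_le_mul_of_nonneg_left _ (by linarith)
    unfold nt
    by_cases hth : P.Lc s ≤ (ball G x (8 * P.M s)).card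
    · simp only [if_pos hth, mul_one]
      rw [pw_sum]
      exact one_le_cost hq0 hq1 _ _ _
    · simp only [if_neg hth]
      exact hcard x (κ + 1) hκ (by omega)
  · intro x l κ R hκ' hR' hκ hR
    have hes : P.es l s = (1 + P.eta s) * (2 * ((P.q s ^ (2 * max R (κ + 1) + 1))⁻¹ *
        (1 + P.Lc s * P.q s ^ (P.M s + 1)) - 1)) := by
      unfold es
      rw [hκ', hR']
      ring
    rw [hes]
    have e1 : ∑ ω, pw (P.q s) (P.M s) ω * (if P.sp G (fun _ => cc ω) s x R
          then (1 + P.eta s) * P.nt G (fun _ => cc ω) s x κ else 0)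
        = (1 + P.eta s) * ∑ ω, pw (P.q s) (P.M s) ω * (if P.sp G (fun _ => cc ω) s x R
          then P.nt G (fun _ => cc ω) s x κ else 0) := by
      rw [Finset.mul_sum]
      apply Finset.sum_congr rfl
      intro ω _
      split_ifs <;> ring
    rw [e1]
    apply mul_le_mul_of_nonneg_left _ (by linarith)
    by_cases hth : P.Lc s ≤ (ball G x (8 * P.M s)).card
    · have hz : ∑ ω, pw (P.q s) (P.M s) ω * (if P.sp G (fun _ => cc ω) s x R
          then P.nt G (fun _ => cc ω) s x κ else 0) = 0 := by
        apply Finset.sum_eq_zero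
        intro ω _
        rw [if_neg, mul_zero]
        rintro ⟨h, _⟩
        omega
      rw [hz]
      have := one_le_cost hq0 hq1 (2 * max R (κ + 1) + 1) (P.Lc s) (P.M s + 1)
      linarith
    · have hr : 2 * max R (κ + 1) ≤ 7 * P.M s := by
        rcases le_total R (κ + 1) with h | h
        · rw [max_eq_right h]; exact hκ
        · rw [max_eq_left h]; exact hR
      have h2 := hcard x (max R (κ + 1)) hr (by omega)
      have e2 : ∑ ω, pw (P.q s) (P.M s) ω * (if P.sp G (fun _ => cc ω) s x R
          then P.nt G (fun _ => cc ω) s x κ else 0)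
          ≤ ∑ ω, pw (P.q s) (P.M s) ω *
            (2 * ((((ball G x (max R (κ + 1))).image (cc ω)).card : ℝ) - 1)) := by
        apply Finset.sum_le_sum
        intro ω _
        apply mul_le_mul_of_nonneg_left _ (pw_nonneg hq0 hq1 _ ω)
        have hmono : ∀ k, k ≤ max R (κ + 1) →
            (ball G x k).image (cc ω) ⊆ (ball G x (max R (κ + 1))).image (cc ω) := by
          intro k hk
          apply Finset.image_subset_image
          intro y hy
          rw [mem_ball] at hy ⊢
          exact hy.trans hk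
        by_cases hsp : P.sp G (fun _ => cc ω) s x R
        · rw [if_pos hsp]
          obtain ⟨_, x1, hx1, x2, hx2, hne⟩ := hsp
          have hn2 : 2 ≤ ((ball G x (max R (κ + 1))).image (cc ω)).card := by
            have hlt : 1 < ((ball G x (max R (κ + 1))).image (cc ω)).card := by
              rw [Finset.one_lt_card]
              exact ⟨cc ω x1, hmono R (le_max_left _ _) (Finset.mem_image_of_mem _ hx1),
                cc ω x2, hmono R (le_max_left _ _) (Finset.mem_image_of_mem _ hx2), hne⟩
            omega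
          unfold nt
          rw [if_neg hth]
          have h3 : (((ball G x (κ + 1)).image (cc ω)).card : ℝ)
              ≤ (((ball G x (max R (κ + 1))).image (cc ω)).card : ℝ) := by
            exact_mod_cast Finset.card_le_card (hmono (κ + 1) (le_max_right _ _))
          have h4 : (2 : ℝ) ≤ (((ball G x (max R (κ + 1))).image (cc ω)).card : ℝ) := by
            exact_mod_cast hn2
          linarith
        · rw [if_neg hsp]
          have hn1 : 1 ≤ ((ball G x (max R (κ + 1))).image (cc ω)).card := by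
            rw [Nat.one_le_iff_ne_zero, ← Nat.pos_iff_ne_zero, Finset.card_pos]
            exact ⟨cc ω x, Finset.mem_image_of_mem _ (by
              rw [mem_ball, SimpleGraph.dist_self]; omega)⟩
          have h4 : (1 : ℝ) ≤ (((ball G x (max R (κ + 1))).image (cc ω)).card : ℝ) := by
            exact_mod_cast hn1
          linarith
      refine e2.trans ?_
      have e3 : ∑ ω, pw (P.q s) (P.M s) ω *
            (2 * ((((ball G x (max R (κ + 1))).image (cc ω)).card : ℝ) - 1))
          = 2 * (∑ ω, pw (P.q s) (P.M s) ω *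
            (((ball G x (max R (κ + 1))).image (cc ω)).card : ℝ) - 1) := by
        have h5 := pw_sum (V := V) (P.q s) (P.M s)
        rw [mul_sub, Finset.mul_sum, mul_one]
        have : ∀ ω : V → Fin (P.M s + 1), pw (P.q s) (P.M s) ω *
            (2 * ((((ball G x (max R (κ + 1))).image (cc ω)).card : ℝ) - 1))
            = 2 * (pw (P.q s) (P.M s) ω *
              (((ball G x (max R (κ + 1))).image (cc ω)).card : ℝ))
              - 2 * pw (P.q s) (P.M s) ω := by
          intro ω; ring
        rw [Finset.sum_congr rfl fun ω _ => this ω, Finset.sum_sub_distrib, ← Finset.mul_sum,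
          ← Finset.mul_sum, h5]
        ring
      rw [e3]
      linarith

end Lev

end Pool.MP_10effd_pr
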