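import Pool.Agent.MP_10effd_pr.LL.Defs

/-! A crude bound for the cost of one cell. -/

set_option autoImplicit false
set_option linter.unusedSectionVars false

namespace Pool.MP_10effd_pr

open Finset

variable {V : Type} [Fintype V] [DecidableEq V] {G : SimpleGraph V} [DecidableRel G.Adj] {ε : ℝ}

namespace Lev

variable {P : Lev} {θ : ℝ} {Δ : ℕ} {c : ℝ} {ctr : ℕ → V → V} {T : ℕ}

theorem low_crude_one_le_Lc (hP : P.Good θ Δ c) {s : ℕ} (hs : 1 ≤ s) : (1 : ℝ) ≤ P.Lc s := by
  have h1 := hP.M1 s hs
  have h2 := hP.LcM s hs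
  have : 1 ≤ P.Lc s := by omega
  exact_mod_cast this

theorem low_crude_eta_le (hP : P.Good θ Δ c) {s : ℕ} (hs : 1 ≤ s) :
    0 ≤ P.eta s ∧ 1 + P.eta s ≤ 19 := by
  have h1 : (100 : ℝ) ≤ P.M s := by exact_mod_cast hP.M1 s hs
  unfold eta
  constructor
  · positivity
  · have : (18 : ℝ) / P.M s ≤ 18 := by
      rw [div_le_iff₀ (by linarith)]
      nlinarith
    linarith

theorem low_crude_nt_le (hP : P.Good θ Δ c) {s : ℕ} (hs : 1 ≤ s) (x : V) {κ : ℕ}
    (hκ : κ + 1 ≤ 2 * P.M s) : 0 ≤ P.nt G ctr s x κ ∧ P.nt G ctr s x κ ≤ P.Lc s := by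
  unfold nt
  split_ifs with h
  · exact ⟨zero_le_one, low_crude_one_le_Lc hP hs⟩
  · refine ⟨Nat.cast_nonneg _, ?_⟩
    have h1 : ((ball G x (κ + 1)).image (ctr s)).card ≤ P.Lc s := by
      calc ((ball G x (κ + 1)).image (ctr s)).card ≤ (ball G x (κ + 1)).card :=
            Finset.card_image_le
        _ ≤ (ball G x (8 * P.M s)).card := by
            apply Finset.card_le_card
            intro y hy
            rw [mem_ball] at hy ⊢
            omega
        _ ≤ P.Lc s := by omega
    exact_mod_cast h1

theorem low_crude_Pr_le (hP : P.Good θ Δ c) {i l : ℕ} (x : V) {k : ℕ}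
    (hk : k < P.K l) : 0 ≤ P.Pr G ctr l i x k ∧
      P.Pr G ctr l i x k ≤ ∏ s ∈ Finset.Ico 1 i, (19 * (P.Lc s : ℝ)) := by
  have hf : ∀ s ∈ Finset.Ico (l + 1) i,
      0 ≤ (1 + P.eta s) * P.nt G ctr s x (P.kap s l k) ∧
      (1 + P.eta s) * P.nt G ctr s x (P.kap s l k) ≤ 19 * (P.Lc s : ℝ) := by
    intro s hs
    rw [Finset.mem_Ico] at hs
    have hs1 : 1 ≤ s := by omega
    obtain ⟨a1, a2⟩ := low_crude_eta_le hP hs1
    obtain ⟨b1, b2⟩ := low_crude_nt_le (G := G) (ctr := ctr) hP hs1 x
      (hP.kapM s l k (by omega) hk)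
    exact ⟨mul_nonneg (by linarith) b1, mul_le_mul a2 b2 b1 (by norm_num)⟩
  unfold Pr
  constructor
  · exact Finset.prod_nonneg fun s hs => (hf s hs).1
  · calc ∏ s ∈ Finset.Ico (l + 1) i, ((1 + P.eta s) * P.nt G ctr s x (P.kap s l k))
        ≤ ∏ s ∈ Finset.Ico (l + 1) i, (19 * (P.Lc s : ℝ)) :=
          Finset.prod_le_prod (fun s hs => (hf s hs).1) fun s hs => (hf s hs).2
      _ ≤ ∏ s ∈ Finset.Ico 1 i, (19 * (P.Lc s : ℝ)) := by
          apply Finset.prod_le_prod_of_subset_of_one_le
          · intro s hs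
            rw [Finset.mem_Ico] at hs ⊢
            omega
          · intro s hs
            rw [Finset.mem_Ico] at hs
            have := low_crude_one_le_Lc hP (s := s) (by omega)
            linarith
          · intro s hs _
            rw [Finset.mem_Ico] at hs
            have := low_crude_one_le_Lc hP hs.1
            linarith

open Classical in
theorem low_crude_cf (hP : P.Good θ Δ c) (h0 : 0 < θ) (h1 : θ < 1) (l : ℕ) (x : V) :
    (∀ k, 0 ≤ P.cf G ctr T θ l x k) ∧
    ∑ k ∈ Finset.range (P.K l), P.cf G ctr T θ l x k ≤ P.β l * (1 + P.K l) + P.Csp l := by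
  have hβ := hP.β0 l
  have hC := hP.Csp0 l
  have hcb : ∀ k, 0 ≤ P.cb θ l k := by
    intro k
    unfold cb
    apply mul_nonneg hβ.le
    apply add_nonneg
    · split_ifs <;> norm_num
    · split_ifs
      · positivity
      · exact le_rfl
  constructor
  · intro k
    unfold cf
    apply add_nonneg (hcb k)
    split_ifs
    · exact hC
    · exact le_rfl
  · unfold cf
    rw [Finset.sum_add_distrib]
    apply add_le_add
    · unfold cb
      rw [← Finset.mul_sum]
      apply mul_le_mul_of_nonneg_left _ hβ.le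
      rw [Finset.sum_add_distrib]
      apply add_le_add
      · rw [Finset.sum_ite_eq']
        split_ifs <;> norm_num
      · calc ∑ k ∈ Finset.range (P.K l),
              (if 2 * P.D l ≤ k then θ ^ (k - 2 * P.D l) else 0)
            ≤ ∑ k ∈ Finset.range (P.K l), (1 : ℝ) := by
              apply Finset.sum_le_sum
              intro k _
              split_ifs
              · exact pow_le_one₀ h0.le h1.le
              · norm_num
          _ = P.K l := by simp
    · calc ∑ k ∈ Finset.range (P.K l), (if k = 0 ∧ P.spec G ctr T l x then P.Csp l else 0)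
          ≤ ∑ k ∈ Finset.range (P.K l), (if k = 0 then P.Csp l else 0) := by
            apply Finset.sum_le_sum
            intro k _
            by_cases hk : k = 0
            · simp only [hk, true_and, if_true]
              split_ifs
              · exact le_rfl
              · exact hC
            · simp [hk]
        _ ≤ P.Csp l := by
            rw [Finset.sum_ite_eq']
            split_ifs
            · exact le_rfl
            · exact hC

/-- Crude bound for the cost of one cell. -/
theorem low_crude (hP : P.Good θ Δ c) (h0 : 0 < θ) (h1 : θ < 1) (hG : G.Connected) {i : ℕ}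
    (hi : 1 ≤ i) (hc : Clustering G (ctr i) (P.M i)) {u : V} (hu : ctr i u = u)
    (hthin : ∀ x ∈ cl (ctr i) u, (ball G x (16 * P.M i)).card < P.Lc i) :
    P.LowF G ctr T θ i (nb G (cl (ctr i) u) 1) ≤ (P.Lc i : ℝ) ^ 8 := by
  classical
  set U := nb G (cl (ctr i) u) 1 with hU
  set Pz : ℝ := ∏ s ∈ Finset.Ico 1 i, (19 * (P.Lc s : ℝ)) with hPz
  have hPz0 : 0 ≤ Pz := Finset.prod_nonneg fun s _ => by positivity
  have hM := hP.M1 i hi
  have hcardB : ((ball G u (16 * P.M i)).card : ℝ) ≤ P.Lc i := by
    have := hthin u (mem_cl.2 hu)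
    exact_mod_cast this.le
  -- the neighbourhoods are inside the ball
  have hin : ∀ l < i, ∀ k < P.K l, ∀ x, x ∈ nb G U (P.kap i l k) → x ∈ ball G u (16 * P.M i) := by
    intro l hl k hk x hx
    obtain ⟨y, hy, hxy⟩ := mem_nb.1 hx
    obtain ⟨z, hz, hyz⟩ := mem_nb.1 hy
    have hzu : G.dist z u ≤ P.M i := by
      have := hc.rad z
      rwa [mem_cl.1 hz] at this
    have hkap := hP.kapM i l k hl hk
    rw [mem_ball, SimpleGraph.dist_comm]
    have t1 := hG.dist_triangle (u := x) (v := y) (w := u)
    have t2 := hG.dist_triangle (u := y) (v := z) (w := u)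
    omega
  have hlow : ∀ l ∈ Finset.range i, P.lowPart G ctr T θ i l U ≤
      (P.β l * (1 + P.K l) + P.Csp l) * Pz * P.Lc i := by
    intro l hl
    rw [Finset.mem_range] at hl
    unfold lowPart
    calc ∑ x, ∑ k ∈ Finset.range (P.K l), P.cf G ctr T θ l x k * P.Pr G ctr l i x k *
          (if x ∈ nb G U (P.kap i l k) then 1 else 0)
        ≤ ∑ x, ∑ k ∈ Finset.range (P.K l), (P.cf G ctr T θ l x k * Pz) *
          (if x ∈ ball G u (16 * P.M i) then 1 else 0) := by
          apply Finset.sum_le_sum
          intro x _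
          apply Finset.sum_le_sum
          intro k hk
          rw [Finset.mem_range] at hk
          have hcf := (low_crude_cf (G := G) (ctr := ctr) (T := T) hP h0 h1 l x).1 k
          obtain ⟨p1, p2⟩ := low_crude_Pr_le (G := G) (ctr := ctr) (i := i) hP x hk
          by_cases hx : x ∈ nb G U (P.kap i l k)
          · rw [if_pos hx, if_pos (hin l hl k hk x hx), mul_one, mul_one]
            exact mul_le_mul_of_nonneg_left p2 hcf
          · rw [if_neg hx, mul_zero]
            apply mul_nonneg (mul_nonneg hcf hPz0)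
            split_ifs <;> norm_num
      _ = ∑ x, (∑ k ∈ Finset.range (P.K l), P.cf G ctr T θ l x k) * Pz *
          (if x ∈ ball G u (16 * P.M i) then 1 else 0) := by
          apply Finset.sum_congr rfl
          intro x _
          rw [Finset.sum_mul, Finset.sum_mul]
      _ ≤ ∑ x, (P.β l * (1 + P.K l) + P.Csp l) * Pz *
          (if x ∈ ball G u (16 * P.M i) then 1 else 0) := by
          apply Finset.sum_le_sum
          intro x _
          apply mul_le_mul_of_nonneg_right
          · exact mul_le_mul_of_nonneg_right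
              (low_crude_cf (G := G) (ctr := ctr) (T := T) hP h0 h1 l x).2 hPz0
          · split_ifs <;> norm_num
      _ = (P.β l * (1 + P.K l) + P.Csp l) * Pz * (ball G u (16 * P.M i)).card := by
          rw [← Finset.mul_sum]
          congr 1
          simp
      _ ≤ (P.β l * (1 + P.K l) + P.Csp l) * Pz * P.Lc i := by
          apply mul_le_mul_of_nonneg_left hcardB
          apply mul_nonneg _ hPz0
          have a1 := (hP.β0 l).le
          have a2 := hP.Csp0 l
          positivity
  unfold LowF
  calc ∑ l ∈ Finset.range i, P.lowPart G ctr T θ i l U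
      ≤ ∑ l ∈ Finset.range i, (P.β l * (1 + P.K l) + P.Csp l) * Pz * P.Lc i :=
        Finset.sum_le_sum hlow
    _ = ((∑ l ∈ Finset.range i, (P.β l * (1 + P.K l) + P.Csp l)) * Pz) * P.Lc i := by
        rw [Finset.sum_mul, Finset.sum_mul]
    _ ≤ (P.Lc i : ℝ) ^ 7 * P.Lc i :=
        mul_le_mul_of_nonneg_right (hP.crude i hi) (Nat.cast_nonneg _)
    _ = (P.Lc i : ℝ) ^ 8 := by ring

end Lev

end Pool.MP_10effd_pr
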