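import Pool.Agent.MP_10effd_pr.LL.Defs0

/-! Definitions for the multi-scale induction. -/

set_option autoImplicit false
set_option linter.unusedSectionVars false

namespace Pool.MP_10effd_pr

open Finset

variable {V : Type} [Fintype V] [DecidableEq V]

/-- Scale parameters. `M i` radius of the cells of level `i` (`i ≥ 1`), `Lc i` the thickness
threshold, `D i` the hub distance, `g i` the connectivity threshold, `v i` size of jobs,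
`mm i` the collar, `β`, `Csp` the cost coefficients, `cc i` the factor for the upper levels,
`tt i` the factor for the tails, `q i` the parameter of the random clusterings. -/
structure Lev where
  M : ℕ → ℕ
  Lc : ℕ → ℕ
  D : ℕ → ℕ
  g : ℕ → ℕ
  v : ℕ → ℕ
  mm : ℕ → ℕ
  β : ℕ → ℝ
  Csp : ℕ → ℝ
  cc : ℕ → ℝ
  tt : ℕ → ℝ
  q : ℕ → ℝ

namespace Lev

variable (P : Lev)

/-- Range of the distances at level `l`. -/
def K (l : ℕ) : ℕ := if l = 0 then 1 else P.M (l + 1)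

/-- Loss of the jobs of level `s`. -/
noncomputable def eta (s : ℕ) : ℝ := 18 / (P.M s : ℝ)

/-- Penalty for leaving the neighbourhood, level `t`. -/
noncomputable def Lam (t : ℕ) : ℝ := (P.Lc t : ℝ) ^ 40

/-- Distances accumulated between the levels `l` and `i`. -/
def kap (i l k : ℕ) : ℕ := k + ∑ j ∈ Finset.Ico (l + 1) i, (2 * P.M j + 1)

/-- Number of cells (images of the centre map) within distance `κ + 1`; `1` at thick points. -/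
noncomputable def nt (G : SimpleGraph V) (ctr : ℕ → V → V) (s : ℕ) (x : V) (κ : ℕ) : ℝ :=
  if P.Lc s ≤ (ball G x (8 * P.M s)).card then 1
  else (((ball G x (κ + 1)).image (ctr s)).card : ℝ)

/-- Overcount of a vertex `x` between the levels `l` and `i`. -/
noncomputable def Pr (G : SimpleGraph V) (ctr : ℕ → V → V) (l i : ℕ) (x : V) (k : ℕ) : ℝ :=
  ∏ s ∈ Finset.Ico (l + 1) i, ((1 + P.eta s) * P.nt G ctr s x (P.kap s l k))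

/-- `x` is within distance `R` of the boundary of a cell of level `s`, in the thin part. -/
def sp (G : SimpleGraph V) (ctr : ℕ → V → V) (s : ℕ) (x : V) (R : ℕ) : Prop :=
  (ball G x (8 * P.M s)).card < P.Lc s ∧
    ∃ x1 ∈ ball G x R, ∃ x2 ∈ ball G x R, ctr s x1 ≠ ctr s x2

/-- Special vertices for the level `l` (in a hierarchy of height `T`). -/
def spec (G : SimpleGraph V) (ctr : ℕ → V → V) (T l : ℕ) (x : V) : Prop :=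
  ∃ s, l < s ∧ s ≤ T ∧ P.sp G ctr s x (P.g (l - 1) + 1)

/-- Basic cost coefficients; `θ` is the decay rate. -/
noncomputable def cb (θ : ℝ) (l k : ℕ) : ℝ :=
  P.β l * ((if k = 2 * P.D l then 1 else 0) + (if 2 * P.D l ≤ k then θ ^ (k - 2 * P.D l) else 0))

open Classical in
/-- Cost coefficients. -/
noncomputable def cf (G : SimpleGraph V) (ctr : ℕ → V → V) (T : ℕ) (θ : ℝ) (l : ℕ) (x : V)
    (k : ℕ) : ℝ :=
  P.cb θ l k + (if k = 0 ∧ P.spec G ctr T l x then P.Csp l else 0)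

open Classical in
/-- The part of the cost of `U` (at level `i`) coming from level `l`. -/
noncomputable def lowPart (G : SimpleGraph V) (ctr : ℕ → V → V) (T : ℕ) (θ : ℝ) (i l : ℕ)
    (U : Finset V) : ℝ :=
  ∑ x, ∑ k ∈ Finset.range (P.K l), P.cf G ctr T θ l x k * P.Pr G ctr l i x k *
    (if x ∈ nb G U (P.kap i l k) then 1 else 0)

/-- The cost of `U` at level `i`. -/
noncomputable def LowF (G : SimpleGraph V) (ctr : ℕ → V → V) (T : ℕ) (θ : ℝ) (i : ℕ)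
    (U : Finset V) : ℝ :=
  ∑ l ∈ Finset.range i, P.lowPart G ctr T θ i l U

/-- The same with half of the top part. -/
noncomputable def LowH (G : SimpleGraph V) (ctr : ℕ → V → V) (T : ℕ) (θ : ℝ) (i : ℕ)
    (U : Finset V) : ℝ :=
  ∑ l ∈ Finset.range (i - 1), P.lowPart G ctr T θ i l U
    + P.lowPart G ctr T θ i (i - 1) U / 2

open Classical in
/-- The budget of the level `i`. -/
noncomputable def Bud (G : SimpleGraph V) (θ : ℝ) (i : ℕ) (U : Finset V) : ℝ :=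
  ∑ x, ∑ k ∈ Finset.range (P.K i),
    ((if k = 2 * P.D i then 1 else 0) + (if 2 * P.D i ≤ k then θ ^ (k - 2 * P.D i) else 0)) *
    (if x ∈ nb G U k then 1 else 0)

/-- The tail of the decay beyond the range of level `i`. -/
noncomputable def tl (G : SimpleGraph V) (θ : ℝ) (i : ℕ) (N U : Finset V) : ℝ :=
  ∑ x ∈ N \ nb G U (P.K i - 1), dec G θ U x

/-- Weight of the routes of level `l`, with the logarithmic factor. -/
noncomputable def Wc (l : ℕ) : ℝ := (P.D (l + 1) : ℝ) ^ 3 * (3 * P.D (l + 1) + 2)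

/-- Cost of the routes of level `l`. -/
noncomputable def W (G : SimpleGraph V) (θ : ℝ) (l : ℕ) (N R : Finset V) : ℝ :=
  P.Wc l * ∑ x ∈ N, dec G (θ ^ 4) R x

/-- Hubs `Z`, with routes `Rt z l` (`i ≤ l < t`) to the root `o`. -/
structure Up (G : SimpleGraph V) [DecidableRel G.Adj] (t i : ℕ) (Y : Finset V) (o : V)
    (Z : Finset V) (Rt : V → ℕ → Finset V) (Rf : ℕ → Finset V) : Prop where
  oZ : o ∈ Z
  sub : ∀ z ∈ Z, ∀ l, i ≤ l → l < t → Rt z l ⊆ Rf l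
  far : ∀ l, i ≤ l → l < t → Rf l ⊆ nb G Y (P.D (t - 1))
  spread : ∀ z ∈ Z, ∀ l, i ≤ l → l < t → ∀ y ∈ Rt z l, G.dist z y + 2 * P.D i ≤ 3 * P.D (l + 1)
  res : ∀ z ∈ Z, ∀ a f : V → ℝ, (∀ x, 0 ≤ a x) →
    (∀ l, i ≤ l → l < t → ∀ x ∈ Rt z l, (P.D (l + 1) : ℝ) ^ 3 ≤ a x) →
    |f z - f o| ≤ (∑ l ∈ Finset.Ico i t, 1 / (P.D (l + 1) : ℝ)) * Real.sqrt (en G a f)

/-- The situation at level `i` inside a cell of level `t`. -/
structure Ctx (G : SimpleGraph V) [DecidableRel G.Adj] (ctr : ℕ → V → V) (t i : ℕ)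
    (N Y U S : Finset V) (o : V) (Z : Finset V) (Rt : V → ℕ → Finset V) (Rf : ℕ → Finset V) :
    Prop where
  oY : o ∈ Y
  UY : U ⊆ Y
  YN : nb G Y (P.mm t - 1) ⊆ N
  SY : S ⊆ nb G Y (P.D (t - 1))
  big : ∀ x ∈ U, o ∉ comp G U x → P.g (i - 1) ≤ (comp G U x).card
  bd : ∀ x ∈ U, ∀ y, G.Adj x y → y ∉ U → ∃ s, i ≤ s ∧ s ≤ t ∧
    (ball G x (9 * P.M s)).card < P.Lc s ∧
    ∃ x1 ∈ ball G x 1, ∃ x2 ∈ ball G x 1, ctr s x1 ≠ ctr s x2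
  acc : ∀ x ∈ U, ∃ z ∈ Z, PathIn G S (P.D i) x z
  up : P.Up G t i Y o Z Rt Rf

/-- Covering the rest at level `i`. -/
def RestCov (G : SimpleGraph V) [DecidableRel G.Adj] (ε θ : ℝ) (ctr : ℕ → V → V) (T i : ℕ) :
    Prop :=
  ∀ (t : ℕ) (N Y U S : Finset V) (o : V) (Z : Finset V) (Rt : V → ℕ → Finset V)
    (Rf : ℕ → Finset V), i ≤ t → t ≤ T → P.Ctx G ctr t i N Y U S o Z Rt Rf →
    CovN G ε N (P.Lam t) o U
      (P.LowH G ctr T θ i U + P.tt i * P.tl G θ (i - 1) N U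
        + ((P.D i : ℝ) ^ 10)⁻¹ * ∑ x ∈ N, dec G (θ ^ 2) S x
        + P.cc i * ∑ l ∈ Finset.Ico i t, P.W G θ l N (Rf l))

/-- Covering one cell of level `t` with its `1`-neighbourhood, inside `N`. -/
def HubCov (G : SimpleGraph V) [DecidableRel G.Adj] (ε θ : ℝ) (ctr : ℕ → V → V) (T t : ℕ) :
    Prop :=
  ∀ (N : Finset V) (u : V), ctr t u = u → (∀ x ∈ cl (ctr t) u, (ball G x (16 * P.M t)).card < P.Lc t) →
    nb G (cl (ctr t) u) (P.mm t) ⊆ N → N.card ≤ P.Lc t ^ 5 → ∀ o ∈ cl (ctr t) u,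
    CovN G ε N (P.Lam t) o (nb G (cl (ctr t) u) 1)
      (P.LowF G ctr T θ t (nb G (cl (ctr t) u) 1))

/-- Floor weight of the jobs of level `i`. -/
noncomputable def Fl (θ : ℝ) (i : ℕ) : ℝ := 2 / (1 - θ ^ 32) * ((P.Lc i : ℝ) ^ 27)⁻¹

/-- Length of the local routes of the medium jobs. -/
def lam (i : ℕ) : ℕ := 96 * P.M i + 1

/-- Cost factor of the local routes of the medium jobs. -/
noncomputable def Wl (i : ℕ) : ℝ := (P.lam i : ℝ) ^ 3 * (3 * P.lam i + 2)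

/-- Expected overcount at level `s` at distance `κ`. -/
noncomputable def ee (s κ : ℕ) : ℝ :=
  (1 + P.eta s) * ((P.q s ^ (2 * κ + 3))⁻¹ * (1 + P.Lc s * P.q s ^ (P.M s + 1)))

/-- Expected overcount at level `s` on the special vertices of level `l`. -/
noncomputable def es (l s : ℕ) : ℝ :=
  2 * (1 + P.eta s) * ((P.q s ^ (2 * max (P.g (l - 1) + 1) (P.kap s l 0 + 1) + 1))⁻¹ *
    (1 + P.Lc s * P.q s ^ (P.M s + 1)) - 1)

/-- The total cost per vertex in a hierarchy of height `T`. -/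
noncomputable def total (θ : ℝ) (T : ℕ) : ℝ :=
  ∑ l ∈ Finset.range T,
    (∑ k ∈ Finset.range (P.K l), P.cb θ l k * ∏ s ∈ Finset.Ico (l + 1) (T + 1), P.ee s (P.kap s l k)
      + P.Csp l * ∑ s' ∈ Finset.Ico (l + 1) (T + 1),
          P.es l s' * ∏ s ∈ (Finset.Ico (l + 1) (T + 1)).erase s', P.ee s (P.kap s l 0))

/-- The numerical conditions, integers. -/
structure GoodA (Δ : ℕ) : Prop where
  M1 : ∀ i, 1 ≤ i → 100 ≤ P.M i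
  Mmono : ∀ i j, 1 ≤ i → i ≤ j → P.M i ≤ P.M j
  D0 : P.D 0 = 0
  D1 : ∀ i, 1 ≤ i → 100 ≤ P.D i
  Dmono : ∀ i j, i ≤ j → P.D i ≤ P.D j
  Ddbl : ∀ i, 2 * P.D i ≤ P.D (i + 1)
  Dv : ∀ i, 1 ≤ i → P.v i + 96 * P.M i + 1 ≤ P.D i
  Dm : ∀ i, 1 ≤ i → P.mm i + 2 * P.M i + 1 ≤ P.D i
  DK : ∀ i, 2 * P.D i < P.K i
  mm8 : ∀ i, 1 ≤ i → 2 * P.mm i + 2 ≤ 16 * P.M i
  Dmm : ∀ t, 1 ≤ t → P.D (t - 1) + 1 ≤ P.mm t
  v1 : ∀ i, 1 ≤ i → 1 ≤ P.v i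
  vg : ∀ i, 1 ≤ i → P.v i ≤ P.g i
  g0 : P.g 0 = 0
  gLc : ∀ i, 1 ≤ i → P.g (i - 1) ≤ P.Lc i
  gM : ∀ i, 1 ≤ i → P.g (i - 1) + 1 ≤ P.M (i + 1)
  LcM : ∀ i, 1 ≤ i → 2 * P.M i ≤ P.Lc i
  gsz : ∀ i, 1 ≤ i → P.g i + P.Lc i + Δ * P.Lc i * P.g i ≤ P.Lc i ^ 3
  kapM : ∀ i l k, l < i → k < P.K l → P.kap i l k + 1 ≤ 2 * P.M i

/-- The numerical conditions, reals. -/
structure GoodC (θ : ℝ) (c : ℝ) : Prop where
  far : ∀ t, 1 ≤ t → P.Lam t * (θ ^ 8) ^ (P.mm t - 1 - P.D (t - 1)) ≤ 1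
  Dsum : ∀ t, ∑ l ∈ Finset.range t, 1 / (P.D (l + 1) : ℝ) ≤ 1 / 4
  crude : ∀ i, 1 ≤ i → (∑ l ∈ Finset.range i, (P.β l * (1 + P.K l) + P.Csp l)) *
    ∏ s ∈ Finset.Ico 1 i, (19 * (P.Lc s : ℝ)) ≤ (P.Lc i : ℝ) ^ 7
  β0 : ∀ i, 0 < P.β i
  βM : ∀ i, 1 ≤ i → P.β i ≤ 1 / (P.M i : ℝ)
  Csp0 : ∀ i, 0 ≤ P.Csp i
  tt1 : P.tt 1 = 0
  ttS : ∀ i, 1 ≤ i → P.tt (i + 1) = P.tt i + 1 / (P.M i : ℝ)
  cc1 : P.cc 1 = 2 * c
  ccS : ∀ i, 1 ≤ i → P.cc (i + 1) = P.cc i + 2 * c + 2 * c * (1 + P.M i)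
  job1 : ∀ i, 1 ≤ i → (1 + P.eta i) ≤ P.β i / 32 * P.v i
  fl : ∀ i, 1 ≤ i → 2 * c * (1 + P.M i) * P.Fl θ i * (P.mm i + 3) ≤ P.β i / 32
  dten : ∀ i, 1 ≤ i → ((P.D i : ℝ) ^ 10)⁻¹ ≤ P.β i / 32
  tail : ∀ i, 1 ≤ i → P.tt i * (θ ^ (P.K (i - 1)) + θ ^ (2 * P.D i)) ≤ P.β i / 32
  hub1 : ∀ t, 1 ≤ t → ((P.D t : ℝ) ^ 10)⁻¹ ≤ P.β (t - 1) / 8
  hub2 : ∀ t, 1 ≤ t → (P.tt t + 1) * (P.Lc t : ℝ) ^ 5 * θ ^ (P.K (t - 1)) ≤ P.β (t - 1) / 8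
  q0 : ∀ i, 1 ≤ i → 0 < P.q i
  q1 : ∀ i, 1 ≤ i → P.q i < 1

/-- The numerical conditions involving a cut-off distance. -/
structure GoodK (θ : ℝ) (Δ : ℕ) (c : ℝ) : Prop where
  /-- first level -/
  k2_0 : ∃ k : ℕ, 2 * c * P.Wc 0 * (θ ^ 2) ^ k ≤ ((P.D 1 : ℝ) ^ 10)⁻¹ ∧
    2 * c * P.Wc 0 * (P.D 1 + 1) * (Δ : ℝ) ^ (k + 1) ≤ P.β 0 / 2
  /-- hub routes and large pieces -/
  k2 : ∀ i, 1 ≤ i → ∃ k : ℕ, P.cc (i + 1) * P.Wc i * (θ ^ 2) ^ k ≤ ((P.D (i + 1) : ℝ) ^ 10)⁻¹ ∧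
    P.cc (i + 1) * P.Wc i * (P.D (i + 1) + 1) * (Δ : ℝ) ^ (k + 1) ≤ P.β i / 32 * P.Lc i ∧
    c * (1 + P.M i) * P.Wc i * (P.D (i + 1) + 1) * (Δ : ℝ) ^ (k + 1) ≤ P.β i / 32 * P.g i
  /-- medium jobs -/
  k1 : ∀ i, 1 ≤ i → ∃ k : ℕ, c * (1 + P.M i) * P.Wl i * (θ ^ 2) ^ k ≤ P.β i / 32 ∧
    c * (1 + P.M i) * P.Wl i * (P.lam i + 1) * (Δ : ℝ) ^ (k + 1) ≤ P.β i / 32 * P.v i
  /-- special vertices -/
  k0 : ∀ i, 1 ≤ i → ∃ k : ℕ, 2 * c * P.Wc (i - 1) * (θ ^ 2) ^ k ≤ P.β i / 32 ∧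
    2 * c * P.Wc (i - 1) * (P.D i + 1) * (Δ : ℝ) ^ (k + 1) ≤ P.Csp i / 2

/-- All numerical conditions. -/
structure Good (θ : ℝ) (Δ : ℕ) (c : ℝ) : Prop extends P.GoodA Δ, P.GoodC θ c, P.GoodK θ Δ c

end Lev

/-- The sequence `b₁, b₂ = 2 ^ (b₁ - 2), …` (index shifted by one). -/
def bseq (b : ℕ) : ℕ → ℕ
  | 0 => b
  | n + 1 => 2 ^ (bseq b n - 2)

/-- The concrete parameters: with `b i = bseq b (i - 1)`, `M i = 16 ^ b i`,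
`v i = 16 ^ (A1 b i)`, `D i = 2 v i`, `g i = 16 ^ (A2 b (i+1))`, `Lc i = 16 ^ (A3 b (i+1))`,
`Csp i = 16 ^ (A4 b i)`. -/
noncomputable def par (b A1 A2 A3 A4 : ℕ) (c : ℝ) : Lev where
  M i := 16 ^ bseq b (i - 1)
  Lc i := 16 ^ (A3 * bseq b i)
  D i := if i = 0 then 0 else 2 * 16 ^ (A1 * bseq b (i - 1))
  g i := if i = 0 then 0 else 16 ^ (A2 * bseq b i)
  v i := 16 ^ (A1 * bseq b (i - 1))
  mm i := 4 * 16 ^ bseq b (i - 1)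
  β i := if i = 0 then ((16 : ℝ) ^ (A3 * bseq b 1)) ^ 6 else 1 / (16 : ℝ) ^ bseq b (i - 1)
  Csp i := if i = 0 then 0 else 16 ^ (A4 * bseq b (i - 1))
  cc i := 2 * c + ∑ j ∈ Finset.Ico 1 i, (2 * c + 2 * c * (1 + (16 : ℝ) ^ bseq b (j - 1)))
  tt i := ∑ j ∈ Finset.Ico 1 i, 1 / (16 : ℝ) ^ bseq b (j - 1)
  q i := 1 - 1 / 4 ^ bseq b (i - 1)

end Pool.MP_10effd_pr
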