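import Pool.Agent.MP_10effd_pr.LL.Basic

/-! Definitions for the stages. -/

set_option autoImplicit false
set_option linter.unusedSectionVars false

namespace Pool.MP_10effd_pr

open Finset

variable {V : Type} [Fintype V] [DecidableEq V]

/-- The macroscopic kernel: edge weights `a x + a y`, compensation flow `J`, and the
unsuccessful sessions (`P z` = set of items with port `z`). -/
noncomputable def mk (G : SimpleGraph V) [DecidableRel G.Adj] {ι : Type} [Fintype ι]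
    [DecidableEq ι] (a : V → ℝ) (J : V → V → ℝ) (r : ℝ) (X : Finset ι) (p : ι → V)
    (ν : ι → V → ℝ) (x y : V) : ℝ :=
  (if G.Adj x y then a x + a y + J x y else 0) + r * ∑ u ∈ X.filter (fun u => p u = x), ν u y

/-- The data of a balanced macroscopic kernel. -/
structure Bal (G : SimpleGraph V) [DecidableRel G.Adj] {ι : Type} [Fintype ι] [DecidableEq ι]
    (N : Finset V) (a : V → ℝ) (J : V → V → ℝ) (r : ℝ) (X : Finset ι) (p : ι → V)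
    (ν : ι → V → ℝ) : Prop where
  r0 : 0 < r
  a0 : ∀ x, 0 < a x
  anti : ∀ x y, J x y = - J y x
  supp : ∀ x y, x ∉ N → J x y = 0
  adj : ∀ x y, ¬ G.Adj x y → J x y = 0
  pos : ∀ x y, G.Adj x y → 0 < a x + a y + J x y
  nu0 : ∀ u ∈ X, ∀ z, 0 ≤ ν u z
  nuN : ∀ u ∈ X, ∀ z, z ∉ N → ν u z = 0
  pN : ∀ u ∈ X, p u ∈ N
  bal : ∀ x, 2 * ∑ y, J x y =
    r * ∑ u ∈ X, ν u x - r * ∑ u ∈ X.filter (fun u => p u = x), ∑ z, ν u z

/-- The hypotheses of a stage: items with ports `p u`, sessions `(A u, T u, ν u)` whose failures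
end in `Nu u`; routes `R u l` (`l ∈ Ls`) carrying the weight `w l` from the port to the root. -/
structure StageHyp (G : SimpleGraph V) [DecidableRel G.Adj] (ε θ : ℝ) (Δ : ℕ) (N : Finset V)
    (L : ℝ) (o : V) {ι : Type} [Fintype ι] [DecidableEq ι]
    (p : ι → V) (A Nu : ι → Finset V) (T : ι → ℝ) (ν : ι → V → ℝ) (Ls : Finset ℕ)
    (R : ι → ℕ → Finset V) (w : ℕ → ℝ) (σ : ℕ → ℕ) (lF m' : ℕ) (τ νm : ℝ) : Prop where
  oN : o ∈ N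
  L1 : 1 ≤ L
  τ0 : 0 < τ
  τ1 : τ ≤ 1
  νm0 : 0 ≤ νm
  νm1 : νm ≤ 1 / 2
  T0 : ∀ u, 0 ≤ T u
  nu0 : ∀ u z, 0 ≤ ν u z
  nu1 : ∀ u, ∑ z, ν u z ≤ νm
  nuS : ∀ u z, z ∉ Nu u → ν u z = 0
  pNu : ∀ u, p u ∈ Nu u
  cNu : ∀ u, ∀ z ∈ Nu u, conn G (Nu u) z (p u)
  sess : ∀ u, Sess G ε N (p u) (A u) (T u) (ν u)
  lFs : lF ∈ Ls
  NuR : ∀ u, Nu u ⊆ R u lF
  w0 : ∀ l ∈ Ls, 0 < w l
  flow : ∀ x, τ * ∑ u ∈ Finset.univ.filter (fun u => x ∈ Nu u), ∑ z, ν u z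
    ≤ (1 - θ ^ 32) / 2 * w lF
  res : ∀ u, ∀ a f : V → ℝ, (∀ x, 0 ≤ a x) → (∀ l ∈ Ls, ∀ x ∈ R u l, w l ≤ a x) →
    (f (p u) - f o) ^ 2 ≤ en G a f
  far : ∀ u, ∀ l ∈ Ls, nb G (R u l) m' ⊆ N
  far' : L * (θ ^ 8) ^ m' ≤ 1
  cnt : ∀ l ∈ Ls, ∀ x k, (((Finset.univ.filter fun u => x ∈ nb G (R u l) k).card : ℕ) : ℝ)
    ≤ (Δ : ℝ) ^ (k + σ l)

/-- The vertex weights of a phase with active items `X`. -/
noncomputable def wt (G : SimpleGraph V) (θ : ℝ) {ι : Type} (Ls : Finset ℕ)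
    (R : ι → ℕ → Finset V) (w : ℕ → ℝ) (X : Finset ι) (x : V) : ℝ :=
  ∑ l ∈ Ls, w l * dec G (θ ^ 16) (X.biUnion fun u => R u l) x

/-- The conclusion of the stage theorem for one graph. -/
def StageOK (G : SimpleGraph V) [DecidableRel G.Adj] (ε θ : ℝ) (Δ : ℕ)
    (c : ℝ) : Prop :=
  ∀ (N : Finset V) (L : ℝ) (o : V) (ι : Type) [Fintype ι] [DecidableEq ι]
    (p : ι → V) (A Nu : ι → Finset V) (T : ι → ℝ) (ν : ι → V → ℝ) (Ls : Finset ℕ)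
    (R : ι → ℕ → Finset V) (w : ℕ → ℝ) (σ : ℕ → ℕ) (lF m' : ℕ) (τ νm : ℝ),
    StageHyp G ε θ Δ N L o p A Nu T ν Ls R w σ lF m' τ νm →
    CovN G ε N L o (Finset.univ.biUnion A)
      (c * (1 + 1 / τ) * ∑ l ∈ Ls, w l * (σ l + 1) *
          ∑ x ∈ N, dec G (θ ^ 4) (Finset.univ.biUnion fun u => R u l) x
        + (17 * τ + 1 / (1 - νm)) * ∑ u, T u)

end Pool.MP_10effd_pr
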