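import Pool.Agent.MP_10effd_pr.LL.Basic

set_option autoImplicit false
set_option linter.unusedSectionVars false

namespace Pool.MP_10effd_pr

open Finset

variable {V : Type} [Fintype V] [DecidableEq V] {G : SimpleGraph V} [DecidableRel G.Adj]

private theorem near_pred (hG : G.Connected) {x y : V} {k : ℕ} (h : G.dist x y ≤ k + 1)
    (hxy : x ≠ y) : ∃ w, G.dist x w ≤ k ∧ G.Adj w y := by
  obtain ⟨p, hp⟩ := hG.exists_walk_length_eq_dist y x
  cases p with
  | nil => exact absurd rfl hxy
  | cons hadj p =>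
    rename_i w
    refine ⟨w, ?_, hadj.symm⟩
    have h1 := SimpleGraph.dist_le p
    rw [SimpleGraph.Walk.length_cons] at hp
    rw [SimpleGraph.dist_comm] at h1
    rw [SimpleGraph.dist_comm] at h
    omega

theorem card_ball_le (hG : G.Connected) {Δ : ℕ} (hΔ : 2 ≤ Δ) (hdeg : ∀ x, G.degree x ≤ Δ)
    (x : V) (k : ℕ) : (ball G x k).card ≤ Δ ^ (k + 1) := by
  have key : ∀ k, (ball G x k).card + 1 ≤ Δ ^ (k + 1) := by
    intro k
    induction k with
    | zero =>
      have h1 : ball G x 0 ⊆ {x} := by
        intro y hy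
        rw [mem_ball, Nat.le_zero, hG.dist_eq_zero_iff] at hy
        rw [Finset.mem_singleton]
        exact hy.symm
      have h2 := Finset.card_le_card h1
      rw [Finset.card_singleton] at h2
      rw [zero_add, pow_one]
      omega
    | succ k ih =>
      have h1 : ball G x (k + 1) ⊆ insert x ((ball G x k).biUnion fun w => G.neighborFinset w) := by
        intro y hy
        rw [mem_ball] at hy
        rw [Finset.mem_insert]
        by_cases hxy : x = y
        · exact Or.inl hxy.symm
        · right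
          obtain ⟨w, hw, hwy⟩ := near_pred hG hy hxy
          rw [Finset.mem_biUnion]
          exact ⟨w, mem_ball.mpr hw, (G.mem_neighborFinset w y).mpr hwy⟩
      have h2 := Finset.card_le_card h1
      have h3 := Finset.card_insert_le x ((ball G x k).biUnion fun w => G.neighborFinset w)
      have h4 : ((ball G x k).biUnion fun w => G.neighborFinset w).card
          ≤ (ball G x k).card * Δ := by
        apply Finset.card_biUnion_le_card_mul
        intro w _
        rw [G.card_neighborFinset_eq_degree]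
        exact hdeg w
      have h5 : (ball G x k).card * Δ + Δ ≤ Δ ^ (k + 1) * Δ := by
        calc (ball G x k).card * Δ + Δ = ((ball G x k).card + 1) * Δ := by ring
          _ ≤ Δ ^ (k + 1) * Δ := Nat.mul_le_mul_right _ ih
      rw [pow_succ]
      omega
  have := key k
  omega

theorem card_nb_le (hG : G.Connected) {Δ : ℕ} (hΔ : 2 ≤ Δ) (hdeg : ∀ x, G.degree x ≤ Δ)
    (C : Finset V) (k : ℕ) : (nb G C k).card ≤ C.card * Δ ^ (k + 1) := by
  have h1 : nb G C k ⊆ C.biUnion fun c => ball G c k := by
    intro x hx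
    rw [mem_nb] at hx
    obtain ⟨c, hc, hxc⟩ := hx
    rw [Finset.mem_biUnion]
    refine ⟨c, hc, ?_⟩
    rw [mem_ball, SimpleGraph.dist_comm]
    exact hxc
  exact (Finset.card_le_card h1).trans
    (Finset.card_biUnion_le_card_mul _ _ _ fun c _ => card_ball_le hG hΔ hdeg c k)

theorem nb_nb_subset (hG : G.Connected) (C : Finset V) (k l : ℕ) :
    nb G (nb G C k) l ⊆ nb G C (k + l) := by
  intro x hx
  rw [mem_nb] at hx ⊢
  obtain ⟨y, hy, hxy⟩ := hx
  rw [mem_nb] at hy
  obtain ⟨c, hc, hyc⟩ := hy
  refine ⟨c, hc, ?_⟩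
  have := hG.dist_triangle (u := x) (v := y) (w := c)
  omega

theorem dec_nonneg {r : ℝ} (hr : 0 ≤ r) (C : Finset V) (x : V) : 0 ≤ dec G r C x := by
  unfold dec
  split_ifs
  · exact pow_nonneg hr _
  · exact le_rfl

theorem dec_le_one {r : ℝ} (hr : 0 ≤ r) (hr1 : r ≤ 1) (C : Finset V) (x : V) :
    dec G r C x ≤ 1 := by
  unfold dec
  split_ifs
  · exact pow_le_one₀ hr hr1
  · exact zero_le_one

private theorem dset_anti {C C' : Finset V} (h : C ⊆ C') (hC : C.Nonempty) (x : V) :
    dset G C' x ≤ dset G C x := by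
  obtain ⟨c, hc, hcx⟩ := exists_dset (G := G) hC x
  rw [← hcx]
  exact dset_le (h hc)

theorem dec_mono {r : ℝ} (hr : 0 ≤ r) (hr1 : r ≤ 1) {C C' : Finset V} (h : C ⊆ C') (x : V) :
    dec G r C x ≤ dec G r C' x := by
  by_cases hC : C.Nonempty
  · unfold dec
    rw [if_pos hC, if_pos (hC.mono h)]
    exact pow_le_pow_of_le_one hr hr1 (dset_anti h hC x)
  · have : dec G r C x = 0 := by
      unfold dec
      rw [if_neg hC]
    rw [this]
    exact dec_nonneg hr C' x

theorem dec_rate_mono {r r' : ℝ} (hr : 0 ≤ r) (hr1 : r ≤ r') (C : Finset V) (x : V) :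
    dec G r C x ≤ dec G r' C x := by
  unfold dec
  split_ifs
  · exact pow_le_pow_left₀ hr hr1 _
  · exact le_rfl

theorem nb_mono {C C' : Finset V} {k l : ℕ} (hC : C ⊆ C') (hk : k ≤ l) :
    nb G C k ⊆ nb G C' l := by
  intro x hx
  rw [mem_nb] at hx ⊢
  obtain ⟨c, hc, hxc⟩ := hx
  exact ⟨c, hC hc, hxc.trans hk⟩

theorem subset_nb (C : Finset V) (k : ℕ) : C ⊆ nb G C k := by
  intro x hx
  rw [mem_nb]
  refine ⟨x, hx, ?_⟩
  rw [SimpleGraph.dist_self]
  exact Nat.zero_le _

theorem ball_subset_ball (hG : G.Connected) {x y : V} {k l : ℕ} (h : G.dist x y + k ≤ l) :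
    ball G x k ⊆ ball G y l := by
  intro z hz
  rw [mem_ball] at hz ⊢
  have h1 := hG.dist_triangle (u := y) (v := x) (w := z)
  have h2 : G.dist y x = G.dist x y := SimpleGraph.dist_comm
  omega

/-- Few sources: near part by counting, far part by decay. -/
theorem near_far (hG : G.Connected) {Δ : ℕ} (hΔ : 2 ≤ Δ) (hdeg : ∀ x, G.degree x ≤ Δ)
    {r : ℝ} (hr : 0 < r) (hr1 : r < 1) {N R S : Finset V} (hRS : R ⊆ S) (k : ℕ) :
    ∑ x ∈ N, dec G (r ^ 2) R x ≤ (R.card : ℝ) * (Δ : ℝ) ^ (k + 1)
      + r ^ k * ∑ x ∈ N, dec G r S x := by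
  have hpt : ∀ x, dec G (r ^ 2) R x ≤ (if x ∈ nb G R k then (1 : ℝ) else 0)
      + r ^ k * dec G r S x := by
    intro x
    have hS := dec_nonneg (G := G) hr.le S x
    have hrk : (0 : ℝ) ≤ r ^ k := pow_nonneg hr.le _
    by_cases hx : x ∈ nb G R k
    · rw [if_pos hx]
      have h1 := dec_le_one (G := G) (r := r ^ 2) (pow_nonneg hr.le _)
        (pow_le_one₀ hr.le hr1.le) R x
      have h2 := mul_nonneg hrk hS
      linarith
    · rw [if_neg hx, zero_add]
      by_cases hR : R.Nonempty
      · have hRS' : S.Nonempty := hR.mono hRS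
        have hd : k < dset G R x := by
          by_contra hcon
          push Not at hcon
          obtain ⟨c, hc, hcx⟩ := exists_dset (G := G) hR x
          apply hx
          rw [mem_nb]
          exact ⟨c, hc, hcx.trans_le hcon⟩
        unfold dec
        rw [if_pos hR, if_pos hRS']
        calc (r ^ 2) ^ (dset G R x) = r ^ (dset G R x) * r ^ (dset G R x) := by
              rw [← pow_mul, ← pow_add]
              congr 1
              ring
          _ ≤ r ^ k * r ^ (dset G S x) := by
              apply mul_le_mul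
              · exact pow_le_pow_of_le_one hr.le hr1.le hd.le
              · exact pow_le_pow_of_le_one hr.le hr1.le (dset_anti hRS hR x)
              · exact pow_nonneg hr.le _
              · exact hrk
      · have : dec G (r ^ 2) R x = 0 := by
          unfold dec
          rw [if_neg hR]
        rw [this]
        exact mul_nonneg hrk hS
  calc ∑ x ∈ N, dec G (r ^ 2) R x
      ≤ ∑ x ∈ N, ((if x ∈ nb G R k then (1 : ℝ) else 0) + r ^ k * dec G r S x) :=
        Finset.sum_le_sum fun x _ => hpt x
    _ = ∑ x ∈ N, (if x ∈ nb G R k then (1 : ℝ) else 0) + r ^ k * ∑ x ∈ N, dec G r S x := by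
        rw [Finset.sum_add_distrib, Finset.mul_sum]
    _ ≤ (R.card : ℝ) * (Δ : ℝ) ^ (k + 1) + r ^ k * ∑ x ∈ N, dec G r S x := by
        have h1 : ∑ x ∈ N, (if x ∈ nb G R k then (1 : ℝ) else 0)
            = ((N.filter fun x => x ∈ nb G R k).card : ℝ) := by
          rw [Finset.sum_ite, Finset.sum_const_zero, add_zero, Finset.sum_const, nsmul_eq_mul,
            mul_one]
        have h2 : (N.filter fun x => x ∈ nb G R k).card ≤ (nb G R k).card :=
          Finset.card_le_card fun x hx => (Finset.mem_filter.mp hx).2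
        have h3 := h2.trans (card_nb_le hG hΔ hdeg R k)
        have h4 : ((N.filter fun x => x ∈ nb G R k).card : ℝ) ≤ (R.card : ℝ) * (Δ : ℝ) ^ (k + 1) := by
          exact_mod_cast h3
        rw [h1]
        linarith

/-- Maximal separated sets. -/
theorem exists_net (hG : G.Connected) (Th : Finset V) (m Lc : ℕ)
    (hTh : ∀ y ∈ Th, Lc ≤ (ball G y m).card) :
    ∃ Z : Finset V, Z ⊆ Th ∧ (∀ y ∈ Th, ∃ z ∈ Z, G.dist y z ≤ 2 * m) ∧
      Z.card * Lc ≤ (nb G Th m).card := by
  classical
  obtain ⟨Z, hZ, hmax⟩ := Finset.exists_max_image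
    (Th.powerset.filter fun Z => ∀ a ∈ Z, ∀ b ∈ Z, a ≠ b → 2 * m < G.dist a b) Finset.card
    ⟨∅, by
      rw [Finset.mem_filter]
      refine ⟨Finset.empty_mem_powerset _, ?_⟩
      intro a ha
      simp at ha⟩
  rw [Finset.mem_filter, Finset.mem_powerset] at hZ
  obtain ⟨hZT, hsep⟩ := hZ
  refine ⟨Z, hZT, ?_, ?_⟩
  · intro y hy
    by_contra hcon
    push Not at hcon
    have hyZ : y ∉ Z := by
      intro h
      have := hcon y h
      rw [SimpleGraph.dist_self] at this
      omega
    have h1 := hmax (insert y Z) (by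
      rw [Finset.mem_filter, Finset.mem_powerset]
      refine ⟨Finset.insert_subset hy hZT, ?_⟩
      intro a ha b hb hab
      rw [Finset.mem_insert] at ha hb
      rcases ha with rfl | ha
      · rcases hb with rfl | hb
        · exact absurd rfl hab
        · exact hcon b hb
      · rcases hb with rfl | hb
        · rw [SimpleGraph.dist_comm]
          exact hcon a ha
        · exact hsep a ha b hb hab)
    rw [Finset.card_insert_of_notMem hyZ] at h1
    omega
  · have hdisj : ∀ a ∈ Z, ∀ b ∈ Z, a ≠ b → Disjoint (ball G a m) (ball G b m) := by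
      intro a ha b hb hab
      rw [Finset.disjoint_left]
      intro x hxa hxb
      rw [mem_ball] at hxa hxb
      have h1 := hsep a ha b hb hab
      have h2 := hG.dist_triangle (u := a) (v := x) (w := b)
      have h3 : G.dist x b = G.dist b x := SimpleGraph.dist_comm
      omega
    have h1 : Z.card * Lc ≤ (Z.biUnion fun z => ball G z m).card := by
      rw [Finset.card_biUnion hdisj]
      calc Z.card * Lc = ∑ z ∈ Z, Lc := by rw [Finset.sum_const, smul_eq_mul]
        _ ≤ ∑ z ∈ Z, (ball G z m).card := Finset.sum_le_sum fun z hz => hTh z (hZT hz)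
    refine h1.trans (Finset.card_le_card ?_)
    intro x hx
    rw [Finset.mem_biUnion] at hx
    obtain ⟨z, hz, hxz⟩ := hx
    rw [mem_ball] at hxz
    rw [mem_nb]
    refine ⟨z, hZT hz, ?_⟩
    rw [SimpleGraph.dist_comm]
    exact hxz

end Pool.MP_10effd_pr
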