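import Pool.Agent.MP_10effd_pr.LL.Basic

/-! Paths inside a set of vertices. -/

set_option autoImplicit false
set_option linter.unusedSectionVars false

namespace Pool.MP_10effd_pr

open Finset

variable {V : Type} [Fintype V] [DecidableEq V] {G : SimpleGraph V} [DecidableRel G.Adj] {ε : ℝ}

theorem PathIn.refl {R : Finset V} {x : V} (hx : x ∈ R) (k : ℕ) : PathIn G R k x x :=
  ⟨0, fun _ => x, Nat.zero_le _, rfl, rfl, fun i hi => absurd hi (Nat.not_lt_zero i),
    fun _ _ => hx⟩

theorem PathIn.symm {R : Finset V} {k : ℕ} {x y : V} (h : PathIn G R k x y) :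
    PathIn G R k y x := by
  obtain ⟨n, v, hn, h0, h1, hadj, hR⟩ := h
  refine ⟨n, fun i => v (n - i), hn, by simpa using h1, by simpa using h0, ?_, ?_⟩
  · intro i hi
    have := hadj (n - (i + 1)) (by omega)
    have e : n - (i + 1) + 1 = n - i := by omega
    rw [e] at this
    exact this.symm
  · intro i _
    exact hR (n - i) (Nat.sub_le _ _)

theorem PathIn.mono {R R' : Finset V} {k k' : ℕ} {x y : V} (h : PathIn G R k x y)
    (hR : R ⊆ R') (hk : k ≤ k') : PathIn G R' k' x y := by
  obtain ⟨n, v, hn, h0, h1, hadj, hR1⟩ := h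
  exact ⟨n, v, hn.trans hk, h0, h1, hadj, fun i hi => hR (hR1 i hi)⟩

theorem PathIn.trans {R : Finset V} {k l : ℕ} {x y z : V} (h : PathIn G R k x y)
    (h' : PathIn G R l y z) : PathIn G R (k + l) x z := by
  obtain ⟨n, v, hn, h0, h1, hadj, hR⟩ := h
  obtain ⟨n', v', hn', h0', h1', hadj', hR'⟩ := h'
  refine ⟨n + n', fun i => if i ≤ n then v i else v' (i - n), by omega, ?_, ?_, ?_, ?_⟩
  · simpa using h0
  · by_cases hz : n' = 0
    · subst hz
      simp only [add_zero, le_refl, if_true]
      rw [h1, ← h0', h1']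
    · simp only [show ¬ (n + n' ≤ n) by omega, if_false, Nat.add_sub_cancel_left]
      exact h1'
  · intro i hi
    rcases Nat.lt_trichotomy i n with hlt | heq | hgt
    · simp only [hlt.le, if_true, show i + 1 ≤ n by omega]
      exact hadj i hlt
    · subst heq
      simp only [le_refl, if_true, show ¬ (i + 1 ≤ i) by omega, if_false,
        Nat.add_sub_cancel_left]
      have := hadj' 0 (by omega)
      rw [h0', ← h1] at this
      simpa using this
    · simp only [show ¬ (i ≤ n) by omega, show ¬ (i + 1 ≤ n) by omega, if_false]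
      have := hadj' (i - n) (by omega)
      have e : i - n + 1 = i + 1 - n := by omega
      rw [e] at this
      exact this
  · intro i hi
    by_cases hle : i ≤ n
    · simp only [hle, if_true]; exact hR i hle
    · simp only [hle, if_false]; exact hR' (i - n) (by omega)

/-- A shortest path inside `R` is injective. -/
theorem PathIn.exists_inj {R : Finset V} {k : ℕ} {x y : V} (h : PathIn G R k x y) :
    ∃ (n : ℕ) (v : ℕ → V), n ≤ k ∧ v 0 = x ∧ v n = y ∧ (∀ i < n, G.Adj (v i) (v (i + 1))) ∧
      (∀ i ≤ n, v i ∈ R) ∧ ∀ i ≤ n, ∀ j ≤ n, v i = v j → i = j := by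
  classical
  have hex : ∃ n, ∃ v : ℕ → V, v 0 = x ∧ v n = y ∧ (∀ i < n, G.Adj (v i) (v (i + 1))) ∧
      ∀ i ≤ n, v i ∈ R := by
    obtain ⟨n, v, _, h0, h1, hadj, hR⟩ := h
    exact ⟨n, v, h0, h1, hadj, hR⟩
  obtain ⟨v, h0, h1, hadj, hR⟩ := Nat.find_spec hex
  have hk : Nat.find hex ≤ k := by
    obtain ⟨n, v', hn, h0', h1', hadj', hR'⟩ := h
    exact (Nat.find_min' hex ⟨v', h0', h1', hadj', hR'⟩).trans hn
  set n := Nat.find hex with hndef
  have key : ∀ i j, i < j → j ≤ n → v i ≠ v j := by
    intro i j hij hj heq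
    have hlt : n - (j - i) < n := by omega
    apply Nat.find_min hex hlt
    refine ⟨fun t => if t ≤ i then v t else v (t + (j - i)), ?_, ?_, ?_, ?_⟩
    · simpa using h0
    · by_cases hle : n - (j - i) ≤ i
      · have hnj : n = j := by omega
        simp only [hle, if_true]
        have : n - (j - i) = i := by omega
        rw [this, heq, ← hnj, h1]
      · simp only [hle, if_false]
        have : n - (j - i) + (j - i) = n := by omega
        rw [this, h1]
    · intro t ht
      rcases Nat.lt_trichotomy t i with hlt' | heq' | hgt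
      · simp only [hlt'.le, if_true, show t + 1 ≤ i by omega]
        exact hadj t (by omega)
      · subst heq'
        simp only [le_refl, if_true, show ¬ (t + 1 ≤ t) by omega, if_false]
        rw [heq]
        have := hadj j (by omega)
        have e : t + 1 + (j - t) = j + 1 := by omega
        rw [e]
        exact this
      · simp only [show ¬ (t ≤ i) by omega, show ¬ (t + 1 ≤ i) by omega, if_false]
        have := hadj (t + (j - i)) (by omega)
        have e : t + 1 + (j - i) = t + (j - i) + 1 := by omega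
        rw [e]
        exact this
    · intro t ht
      by_cases hle : t ≤ i
      · simp only [hle, if_true]; exact hR t (by omega)
      · simp only [hle, if_false]; exact hR _ (by omega)
  refine ⟨n, v, hk, h0, h1, hadj, hR, ?_⟩
  intro i hi j hj hij
  rcases Nat.lt_trichotomy i j with hlt | heq | hgt
  · exact absurd hij (key i j hlt hj)
  · exact heq
  · exact absurd hij.symm (key j i hgt hi)

theorem seq_walk {n : ℕ} {v : ℕ → V} (hadj : ∀ i < n, G.Adj (v i) (v (i + 1))) :
    ∀ j i, i ≤ j → j ≤ n → G.dist (v i) (v j) ≤ j - i := by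
  have key : ∀ d i, i + d ≤ n → ∃ w : G.Walk (v i) (v (i + d)), w.length = d := by
    intro d
    induction d with
    | zero => intro i _; exact ⟨SimpleGraph.Walk.nil, rfl⟩
    | succ d ih =>
      intro i hi
      obtain ⟨w, hw⟩ := ih i (by omega)
      have h1 := hadj (i + d) (by omega)
      refine ⟨w.concat h1, ?_⟩
      rw [SimpleGraph.Walk.length_concat, hw]
  intro j i hij hj
  obtain ⟨w, hw⟩ := key (j - i) i (by omega)
  have e : i + (j - i) = j := by omega
  have h2 : G.dist (v i) (v (i + (j - i))) ≤ j - i := (SimpleGraph.dist_le w).trans_eq hw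
  rwa [e] at h2

theorem PathIn.res {R : Finset V} {k : ℕ} {x y : V} (h : PathIn G R k x y) :
    ∃ P : Finset V, P ⊆ R ∧ P.card ≤ k + 1 ∧ P ⊆ ball G x k ∧ x ∈ P ∧ y ∈ P ∧
      ∀ (a f : V → ℝ) (w : ℝ), (∀ v, 0 ≤ a v) → 0 < w → (∀ v ∈ P, w ≤ a v) →
        (f x - f y) ^ 2 ≤ k / w * en G a f := by
  obtain ⟨n, v, hn, h0, h1, hadj, hR, hinj⟩ := h.exists_inj
  refine ⟨(Finset.range (n + 1)).image v, ?_, ?_, ?_, ?_, ?_, ?_⟩
  · intro z hz
    rw [Finset.mem_image] at hz
    obtain ⟨i, hi, rfl⟩ := hz
    exact hR i (by rw [Finset.mem_range] at hi; omega)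
  · refine Finset.card_image_le.trans ?_
    rw [Finset.card_range]
    omega
  · intro z hz
    rw [Finset.mem_image] at hz
    obtain ⟨i, hi, rfl⟩ := hz
    rw [Finset.mem_range] at hi
    rw [mem_ball, ← h0]
    have := seq_walk hadj i 0 (Nat.zero_le _) (by omega)
    omega
  · rw [Finset.mem_image]
    exact ⟨0, by simp, h0⟩
  · rw [Finset.mem_image]
    exact ⟨n, by simp, h1⟩
  · intro a f w ha hw hwa
    have hP : ∀ i ≤ n, w ≤ a (v i) := fun i hi =>
      hwa (v i) (Finset.mem_image.mpr ⟨i, by simp; omega, rfl⟩)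
    -- telescoping and Cauchy-Schwarz
    have htel : f x - f y = ∑ i ∈ Finset.range n, (f (v i) - f (v (i + 1))) := by
      rw [Finset.sum_range_sub', h0, h1]
    have hcs : (f x - f y) ^ 2 ≤ n * ∑ i ∈ Finset.range n, (f (v i) - f (v (i + 1))) ^ 2 := by
      rw [htel]
      have := sq_sum_le_card_mul_sum_sq (s := Finset.range n)
        (f := fun i => f (v i) - f (v (i + 1)))
      rwa [Finset.card_range] at this
    have hen : w * ∑ i ∈ Finset.range n, (f (v i) - f (v (i + 1))) ^ 2 ≤ en G a f := by
      unfold en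
      have hnn : ∀ z : V, 0 ≤ ∑ y ∈ G.neighborFinset z, (a z + a y) * (f z - f y) ^ 2 :=
        fun z => Finset.sum_nonneg fun y _ =>
          mul_nonneg (add_nonneg (ha z) (ha y)) (sq_nonneg _)
      have e1 : ∑ z ∈ (Finset.range n).image v, ∑ y ∈ G.neighborFinset z,
          (a z + a y) * (f z - f y) ^ 2 ≤ ∑ z, ∑ y ∈ G.neighborFinset z,
          (a z + a y) * (f z - f y) ^ 2 :=
        Finset.sum_le_sum_of_subset_of_nonneg (Finset.subset_univ _) fun z _ _ => hnn z
      rw [Finset.sum_image] at e1
      · have e2 : ∑ i ∈ Finset.range n, 2 * w * (f (v i) - f (v (i + 1))) ^ 2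
            ≤ ∑ i ∈ Finset.range n, ∑ y ∈ G.neighborFinset (v i),
              (a (v i) + a y) * (f (v i) - f y) ^ 2 := by
          apply Finset.sum_le_sum
          intro i hi
          rw [Finset.mem_range] at hi
          have e3 : (a (v i) + a (v (i + 1))) * (f (v i) - f (v (i + 1))) ^ 2
              ≤ ∑ y ∈ G.neighborFinset (v i), (a (v i) + a y) * (f (v i) - f y) ^ 2 :=
            Finset.single_le_sum (f := fun y => (a (v i) + a y) * (f (v i) - f y) ^ 2)
              (fun y _ => mul_nonneg (add_nonneg (ha _) (ha _)) (sq_nonneg _))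
              (by rw [SimpleGraph.mem_neighborFinset]; exact hadj i hi)
          refine le_trans ?_ e3
          apply mul_le_mul_of_nonneg_right _ (sq_nonneg _)
          have := hP i hi.le
          have := hP (i + 1) hi
          linarith
        have e4 : ∑ i ∈ Finset.range n, 2 * w * (f (v i) - f (v (i + 1))) ^ 2
            = 2 * (w * ∑ i ∈ Finset.range n, (f (v i) - f (v (i + 1))) ^ 2) := by
          rw [Finset.mul_sum, Finset.mul_sum]
          exact Finset.sum_congr rfl fun i _ => by ring
        rw [e4] at e2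
        linarith
      · intro i hi j hj hij
        rw [Finset.mem_coe, Finset.mem_range] at hi hj
        exact hinj i hi.le j hj.le hij
    have hS0 : 0 ≤ ∑ i ∈ Finset.range n, (f (v i) - f (v (i + 1))) ^ 2 :=
      Finset.sum_nonneg fun i _ => sq_nonneg _
    have hnk : (n : ℝ) ≤ k := by exact_mod_cast hn
    calc (f x - f y) ^ 2 ≤ n * ∑ i ∈ Finset.range n, (f (v i) - f (v (i + 1))) ^ 2 := hcs
      _ ≤ k * ∑ i ∈ Finset.range n, (f (v i) - f (v (i + 1))) ^ 2 :=
          mul_le_mul_of_nonneg_right hnk hS0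
      _ = k / w * (w * ∑ i ∈ Finset.range n, (f (v i) - f (v (i + 1))) ^ 2) := by
          field_simp
      _ ≤ k / w * en G a f := by
          apply mul_le_mul_of_nonneg_left hen
          positivity

/-- A geodesic that starts or ends in `U`. -/
theorem pathIn_of_dist (hG : G.Connected) {U : Finset V} {x y : V} {k : ℕ}
    (hU : x ∈ U ∨ y ∈ U) (h : G.dist x y ≤ k) : PathIn G (nb G U k) k x y := by
  obtain ⟨w, hw⟩ := hG.exists_walk_length_eq_dist x y
  have hadj : ∀ i < w.length, G.Adj (w.getVert i) (w.getVert (i + 1)) := fun i hi =>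
    w.adj_getVert_succ hi
  refine ⟨w.length, w.getVert, hw ▸ h, w.getVert_zero, w.getVert_length, hadj, ?_⟩
  intro i hi
  rw [mem_nb]
  rcases hU with hx | hy
  · refine ⟨x, hx, ?_⟩
    have := seq_walk hadj i 0 (Nat.zero_le _) hi
    rw [w.getVert_zero] at this
    rw [SimpleGraph.dist_comm]
    omega
  · refine ⟨y, hy, ?_⟩
    have := seq_walk hadj w.length i hi le_rfl
    rw [w.getVert_length] at this
    omega

/-- Inside a connected set, paths of length at most its size. -/
theorem conn_pathIn {C : Finset V} {x y : V} (hx : x ∈ C) (h : conn G C x y) :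
    PathIn G C C.card x y := by
  have key : ∃ k, PathIn G C k x y := by
    induction h with
    | refl => exact ⟨0, PathIn.refl hx 0⟩
    | @tail b c _ hbc ih =>
      obtain ⟨k, hk⟩ := ih
      refine ⟨k + 1, hk.trans ⟨1, fun i => if i = 0 then b else c, le_rfl, by simp, by simp,
        ?_, ?_⟩⟩
      · intro i hi
        have : i = 0 := by omega
        subst this
        simpa using hbc.1
      · intro i _
        by_cases hi : i = 0
        · simp only [hi, if_true]; exact hbc.2.1
        · simp only [hi, if_false]; exact hbc.2.2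
  obtain ⟨k, hk⟩ := key
  obtain ⟨n, v, _, h0, h1, hadj, hR, hinj⟩ := hk.exists_inj
  refine ⟨n, v, ?_, h0, h1, hadj, hR⟩
  have e1 : ((Finset.range (n + 1)).image v).card = n + 1 := by
    rw [Finset.card_image_of_injOn, Finset.card_range]
    intro i hi j hj hij
    rw [Finset.mem_coe, Finset.mem_range] at hi hj
    exact hinj i (by omega) j (by omega) hij
  have e2 : (Finset.range (n + 1)).image v ⊆ C := by
    intro z hz
    rw [Finset.mem_image] at hz
    obtain ⟨i, hi, rfl⟩ := hz
    rw [Finset.mem_range] at hi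
    exact hR i (by omega)
  have e3 := Finset.card_le_card e2
  omega

theorem dist_le_card_of_conn {C : Finset V} {x y : V} (hx : x ∈ C) (h : conn G C x y) :
    G.dist x y ≤ C.card := by
  obtain ⟨n, v, hn, h0, h1, hadj, _⟩ := conn_pathIn hx h
  have := seq_walk hadj n 0 (Nat.zero_le _) le_rfl
  rw [h0, h1] at this
  omega

end Pool.MP_10effd_pr
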