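import Pool.Agent.MP_10effd_pr.LL.Defs
import Pool.Agent.MP_10effd_pr.LL.Near
import Pool.Agent.MP_10effd_pr.LL.Path

/-! Going down one level (uses `PathIn.res`, `pathIn_of_dist`). -/

set_option autoImplicit false
set_option linter.unusedSectionVars false

namespace Pool.MP_10effd_pr

open Finset

variable {V : Type} [Fintype V] [DecidableEq V] {G : SimpleGraph V} [DecidableRel G.Adj] {ε : ℝ}

namespace Lev

variable {P : Lev} {θ : ℝ} {Δ : ℕ} {c : ℝ} {ctr : ℕ → V → V} {T : ℕ}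

theorem down_en_nonneg {a f : V → ℝ} (ha : ∀ x, 0 ≤ a x) : 0 ≤ en G a f := by
  unfold en
  refine mul_nonneg (by norm_num) (Finset.sum_nonneg fun x _ => Finset.sum_nonneg fun y _ => ?_)
  exact mul_nonneg (add_nonneg (ha x) (ha y)) (sq_nonneg _)

/-- The context of the next level. -/
theorem ctx_down (hG : G.Connected) (hP : P.Good θ Δ c) {t i : ℕ} (hi : 1 ≤ i)
    (hit : i + 1 ≤ t) {N Y U S : Finset V} {o : V} {Z : Finset V}
    {Rt : V → ℕ → Finset V} {Rf : ℕ → Finset V}
    (hctx : P.Ctx G ctr t (i + 1) N Y U S o Z Rt Rf) {J Eb U' Zn : Finset V}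
    (hU' : U' ⊆ U) (hEb : Eb ⊆ U) (hdis : Disjoint U' J)
    (hsat : ∀ x ∈ J, ∀ x', ctr i x' = ctr i x → x' ∈ J)
    (hthin : ∀ x ∈ J, (ball G x (16 * P.M i)).card < P.Lc i)
    (hthick : ∀ x ∈ Eb ∪ U', G.dist x o ≤ P.v i ∨
        ∃ y ∈ U, G.dist x y ≤ P.v i ∧ P.Lc i ≤ (ball G y (48 * P.M i)).card)
    (hbig : ∀ x ∈ U', o ∉ comp G U' x → P.g (i - 1) ≤ (comp G U' x).card)
    (hbd : ∀ x ∈ U', ∀ y, G.Adj x y → y ∉ U' → y ∈ J ∨ y ∉ U)
    (hZn : Zn ⊆ U) (hnet : ∀ y ∈ U, P.Lc i ≤ (ball G y (48 * P.M i)).card →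
      ∃ z ∈ Zn, G.dist y z ≤ 96 * P.M i) :
    ∃ (Rt' : V → ℕ → Finset V) (Rf' : ℕ → Finset V),
      P.Up G t i Y o (insert o Zn) Rt' Rf' ∧
      P.Ctx G ctr t i N Y U' (nb G U (P.D i)) o (insert o Zn) Rt' Rf' ∧
      (∀ l, i < l → Rf' l = Rf l) ∧ Rf' i ⊆ S ∧ (Rf' i).card ≤ Zn.card * (P.D (i + 1) + 1) ∧
      (∀ x ∈ Eb ∪ U', ∃ z ∈ insert o Zn, PathIn G (nb G U (P.D i)) (P.D i) x z) := by
  classical
  -- the access paths of the new hubs
  have hacc : ∀ z : V, ∃ (z' : V) (Q : Finset V), z ∈ Zn → z' ∈ Z ∧ Q ⊆ S ∧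
      Q.card ≤ P.D (i + 1) + 1 ∧ Q ⊆ ball G z (P.D (i + 1)) ∧ z' ∈ Q ∧
      ∀ (a f : V → ℝ) (w : ℝ), (∀ v, 0 ≤ a v) → 0 < w → (∀ v ∈ Q, w ≤ a v) →
        (f z - f z') ^ 2 ≤ (P.D (i + 1) : ℕ) / w * en G a f := by
    intro z
    by_cases hz : z ∈ Zn
    · obtain ⟨z', hz', hpath⟩ := hctx.acc z (hZn hz)
      obtain ⟨Q, h1, h2, h3, -, h5, h6⟩ := hpath.res
      exact ⟨z', Q, fun _ => ⟨hz', h1, h2, h3, h5, h6⟩⟩
    · exact ⟨z, ∅, fun h => absurd h hz⟩
  choose zt Q hQ using hacc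
  have hD1 : (100 : ℕ) ≤ P.D (i + 1) := hP.D1 (i + 1) (by omega)
  have hD0 : (0 : ℝ) < (P.D (i + 1) : ℝ) := by exact_mod_cast (show 0 < P.D (i + 1) by omega)
  have hDd := hP.Ddbl i
  let Rt' : V → ℕ → Finset V := fun z l =>
    if z = o then ∅ else if l = i then Q z else Rt (zt z) l
  let Rf' : ℕ → Finset V := fun l => if l = i then Zn.biUnion Q else Rf l
  have hRto : ∀ l, Rt' o l = ∅ := fun l => if_pos rfl
  have hRti : ∀ z, z ≠ o → Rt' z i = Q z := fun z hz => by
    simp only [Rt', if_neg hz, if_true]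
  have hRtl : ∀ z l, z ≠ o → l ≠ i → Rt' z l = Rt (zt z) l := fun z l hz hl => by
    simp only [Rt', if_neg hz, if_neg hl]
  have hRfi : Rf' i = Zn.biUnion Q := if_pos rfl
  have hRfl : ∀ l, l ≠ i → Rf' l = Rf l := fun l hl => if_neg hl
  have hRfS : Rf' i ⊆ S := by
    rw [hRfi]
    exact Finset.biUnion_subset.2 fun z hz => (hQ z hz).2.1
  have hup : P.Up G t i Y o (insert o Zn) Rt' Rf' := by
    refine ⟨Finset.mem_insert_self _ _, ?_, ?_, ?_, ?_⟩
    · intro z hz l h1 h2
      by_cases hzo : z = o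
      · subst hzo
        rw [hRto]
        exact Finset.empty_subset _
      · have hz' : z ∈ Zn := (Finset.mem_insert.1 hz).resolve_left hzo
        by_cases hl : l = i
        · subst hl
          rw [hRti z hzo, hRfi]
          exact Finset.subset_biUnion_of_mem Q hz'
        · rw [hRtl z l hzo hl, hRfl l hl]
          exact hctx.up.sub _ (hQ z hz').1 l (by omega) h2
    · intro l h1 h2
      by_cases hl : l = i
      · subst hl
        exact hRfS.trans hctx.SY
      · rw [hRfl l hl]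
        exact hctx.up.far l (by omega) h2
    · intro z hz l h1 h2 y hy
      by_cases hzo : z = o
      · subst hzo
        rw [hRto] at hy
        exact absurd hy (Finset.notMem_empty _)
      · have hz' : z ∈ Zn := (Finset.mem_insert.1 hz).resolve_left hzo
        obtain ⟨q1, q2, q3, q4, q5, q6⟩ := hQ z hz'
        by_cases hl : l = i
        · subst hl
          rw [hRti z hzo] at hy
          have := mem_ball.1 (q4 hy)
          omega
        · rw [hRtl z l hzo hl] at hy
          have e1 := hctx.up.spread _ q1 l (by omega) h2 y hy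
          have e2 := mem_ball.1 (q4 q5)
          have e3 : G.dist z y ≤ G.dist z (zt z) + G.dist (zt z) y := hG.dist_triangle
          omega
    · intro z hz a f ha hR
      have hen : 0 ≤ Real.sqrt (en G a f) := Real.sqrt_nonneg _
      by_cases hzo : z = o
      · subst hzo
        rw [sub_self, abs_zero]
        refine mul_nonneg (Finset.sum_nonneg fun l _ => ?_) hen
        positivity
      · have hz' : z ∈ Zn := (Finset.mem_insert.1 hz).resolve_left hzo
        obtain ⟨q1, q2, q3, q4, q5, q6⟩ := hQ z hz'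
        have e1 := q6 a f ((P.D (i + 1) : ℝ) ^ 3) ha (by positivity) (fun v hv =>
          hR i le_rfl (by omega) v (by rw [hRti z hzo]; exact hv))
        have e2 : |f z - f (zt z)| ≤ 1 / (P.D (i + 1) : ℝ) * Real.sqrt (en G a f) := by
          apply abs_le_of_sq_le_sq _ (by positivity)
          rw [mul_pow, Real.sq_sqrt (down_en_nonneg ha)]
          refine e1.trans (le_of_eq ?_)
          field_simp
        have e3 := hctx.up.res (zt z) q1 a f ha (fun l h1 h2 x hx =>
          hR l (by omega) h2 x (by rw [hRtl z l hzo (by omega)]; exact hx))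
        have e4 : ∑ l ∈ Finset.Ico i t, 1 / (P.D (l + 1) : ℝ) = 1 / (P.D (i + 1) : ℝ) +
            ∑ l ∈ Finset.Ico (i + 1) t, 1 / (P.D (l + 1) : ℝ) :=
          Finset.sum_eq_sum_Ico_succ_bot (by omega) _
        rw [e4, add_mul]
        have e5 : f z - f o = (f z - f (zt z)) + (f (zt z) - f o) := by ring
        rw [e5]
        exact (abs_add_le _ _).trans (add_le_add e2 e3)
  have haccess : ∀ x ∈ Eb ∪ U', ∃ z ∈ insert o Zn,
      PathIn G (nb G U (P.D i)) (P.D i) x z := by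
    intro x hx
    have hxU : x ∈ U := by
      rcases Finset.mem_union.1 hx with h | h
      · exact hEb h
      · exact hU' h
    have hDv := hP.Dv i hi
    rcases hthick x hx with h | ⟨y, hy, h1, h2⟩
    · exact ⟨o, Finset.mem_insert_self _ _, pathIn_of_dist hG (Or.inl hxU) (by omega)⟩
    · obtain ⟨z, hz, h3⟩ := hnet y hy h2
      have h4 : G.dist x z ≤ G.dist x y + G.dist y z := hG.dist_triangle
      exact ⟨z, Finset.mem_insert_of_mem hz, pathIn_of_dist hG (Or.inl hxU) (by omega)⟩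
  refine ⟨Rt', Rf', hup, ⟨hctx.oY, hU'.trans hctx.UY, hctx.YN, ?_, hbig, ?_, ?_, hup⟩, ?_, hRfS,
    ?_, haccess⟩
  · intro x hx
    obtain ⟨y, hy, hd⟩ := mem_nb.1 hx
    exact mem_nb.2 ⟨y, hctx.UY hy, hd.trans (hP.Dmono i (t - 1) (by omega))⟩
  · intro x hx y hxy hy
    rcases hbd x hx y hxy hy with h | h
    · refine ⟨i, le_rfl, by omega, ?_, x, ?_, y, ?_, ?_⟩
      · refine lt_of_le_of_lt (Finset.card_le_card ?_) (hthin y h)
        intro z hz
        rw [mem_ball] at hz ⊢
        have h1 : G.dist y z ≤ G.dist y x + G.dist x z := hG.dist_triangle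
        have h2 : G.dist y x = 1 := SimpleGraph.dist_eq_one_iff_adj.mpr hxy.symm
        have h3 := hP.M1 i hi
        omega
      · rw [mem_ball, SimpleGraph.dist_self]
        exact Nat.zero_le _
      · rw [mem_ball, SimpleGraph.dist_eq_one_iff_adj.mpr hxy]
      · intro hctr
        exact Finset.disjoint_left.1 hdis hx (hsat y h x hctr)
    · obtain ⟨s, h1, h2, h3⟩ := hctx.bd x (hU' hx) y hxy h
      exact ⟨s, by omega, h2, h3⟩
  · intro x hx
    exact haccess x (Finset.mem_union_right _ hx)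
  · intro l hl
    exact hRfl l (by omega)
  · rw [hRfi]
    refine Finset.card_biUnion_le.trans ?_
    refine (Finset.sum_le_sum fun z hz => (hQ z hz).2.2.1).trans ?_
    rw [Finset.sum_const, smul_eq_mul]

end Lev

end Pool.MP_10effd_pr
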