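import Pool.Agent.MP_10effd_pr.LL.Defs0

/-! Energy identity and cost bound for a balanced macroscopic kernel. -/

set_option autoImplicit false
set_option linter.unusedSectionVars false

namespace Pool.MP_10effd_pr

open Finset

variable {V : Type} [Fintype V] [DecidableEq V] {G : SimpleGraph V} [DecidableRel G.Adj] {ε : ℝ}

section energy

variable {ι : Type} [Fintype ι] [DecidableEq ι] {N : Finset V} {a : V → ℝ}
    {J : V → V → ℝ} {r : ℝ} {X : Finset ι} {p : ι → V} {ν : ι → V → ℝ}

theorem mk_eq (hB : Bal G N a J r X p ν) (x y : V) :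
    mk G a J r X p ν x y = (if G.Adj x y then a x + a y else 0) + J x y
      + r * ∑ u ∈ X.filter (fun u => p u = x), ν u y := by
  unfold mk
  split_ifs with h
  · ring
  · rw [hB.adj x y h]; ring

theorem mk_nonneg (hB : Bal G N a J r X p ν) (x y : V) : 0 ≤ mk G a J r X p ν x y := by
  unfold mk
  have h1 : 0 ≤ r * ∑ u ∈ X.filter (fun u => p u = x), ν u y :=
    mul_nonneg hB.r0.le (sum_nonneg fun u hu => hB.nu0 u (mem_of_mem_filter u hu) y)
  split_ifs with h
  · have := (hB.pos x y h).le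
    linarith
  · linarith

theorem mk_bal (hB : Bal G N a J r X p ν) (x : V) :
    ∑ y, mk G a J r X p ν x y = ∑ y, mk G a J r X p ν y x := by
  have e1 : ∑ y, mk G a J r X p ν x y = ∑ y, (if G.Adj x y then a x + a y else 0) + ∑ y, J x y
      + r * ∑ u ∈ X.filter (fun u => p u = x), ∑ z, ν u z := by
    simp_rw [mk_eq hB]
    rw [sum_add_distrib, sum_add_distrib, ← mul_sum, sum_comm (s := univ)]
  have e2 : ∑ y, mk G a J r X p ν y x = ∑ y, (if G.Adj x y then a x + a y else 0) - ∑ y, J x y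
      + r * ∑ u ∈ X, ν u x := by
    simp_rw [mk_eq hB]
    rw [sum_add_distrib, sum_add_distrib, ← mul_sum]
    have e3 : ∑ y, (if G.Adj y x then a y + a x else 0) =
        ∑ y, (if G.Adj x y then a x + a y else 0) := by
      apply sum_congr rfl
      intro y _
      by_cases h : G.Adj x y
      · rw [if_pos h, if_pos h.symm, add_comm]
      · rw [if_neg h, if_neg fun h' => h h'.symm]
    have e4 : ∑ y, J y x = - ∑ y, J x y := by
      rw [← sum_neg_distrib]
      exact sum_congr rfl fun y _ => hB.anti y x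
    have e5 : ∑ y, ∑ u ∈ X.filter (fun u => p u = y), ν u x = ∑ u ∈ X, ν u x := by
      rw [← Finset.sum_fiberwise X p (fun u => ν u x)]
    rw [e3, e4, e5]
    ring
  have := hB.bal x
  rw [e1, e2]
  linarith

/-- energy identity -/
theorem energy_id (K : V → V → ℝ) (hK : ∀ x, ∑ y, K x y = ∑ y, K y x) (f : V → ℝ) :
    ∑ x, f x * ∑ y, K x y * (f x - f y) = (1 / 2) * ∑ x, ∑ y, K x y * (f x - f y) ^ 2 := by
  have e1 : ∑ x, ∑ y, K x y * f y ^ 2 = ∑ x, ∑ y, K x y * f x ^ 2 := by
    rw [sum_comm]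
    apply sum_congr rfl
    intro y _
    rw [← sum_mul, ← sum_mul, hK]
  have e2 : ∑ x, ∑ y, K x y * (f x - f y) ^ 2 = ∑ x, ∑ y, K x y * f x ^ 2
      - 2 * ∑ x, ∑ y, K x y * (f x * f y) + ∑ x, ∑ y, K x y * f y ^ 2 := by
    rw [mul_sum, ← sum_sub_distrib, ← sum_add_distrib]
    apply sum_congr rfl
    intro x _
    rw [mul_sum, ← sum_sub_distrib, ← sum_add_distrib]
    apply sum_congr rfl
    intro y _
    ring
  have e3 : ∑ x, f x * ∑ y, K x y * (f x - f y) = ∑ x, ∑ y, K x y * f x ^ 2
      - ∑ x, ∑ y, K x y * (f x * f y) := by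
    rw [← sum_sub_distrib]
    apply sum_congr rfl
    intro x _
    rw [mul_sum, ← sum_sub_distrib]
    apply sum_congr rfl
    intro y _
    ring
  rw [e3, e2, e1]
  ring

theorem en_le (hB : Bal G N a J r X p ν) (f : V → ℝ) :
    en G a f ≤ (1 / 2) * ∑ x, ∑ y, mk G a J r X p ν x y * (f x - f y) ^ 2 := by
  unfold en
  have e1 : ∑ x, ∑ y, mk G a J r X p ν x y * (f x - f y) ^ 2 =
      ∑ x, ∑ y, (if G.Adj x y then a x + a y else 0) * (f x - f y) ^ 2
      + ∑ x, ∑ y, J x y * (f x - f y) ^ 2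
      + ∑ x, ∑ y, (r * ∑ u ∈ X.filter (fun u => p u = x), ν u y) * (f x - f y) ^ 2 := by
    rw [← sum_add_distrib, ← sum_add_distrib]
    apply sum_congr rfl
    intro x _
    rw [← sum_add_distrib, ← sum_add_distrib]
    apply sum_congr rfl
    intro y _
    rw [mk_eq hB]
    ring
  have e2 : ∑ x, ∑ y, J x y * (f x - f y) ^ 2 = 0 := by
    have h1 : ∑ x, ∑ y, J x y * (f x - f y) ^ 2 = - ∑ x, ∑ y, J x y * (f x - f y) ^ 2 := by
      conv_lhs => rw [sum_comm]
      rw [← sum_neg_distrib]
      apply sum_congr rfl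
      intro x _
      rw [← sum_neg_distrib]
      apply sum_congr rfl
      intro y _
      rw [hB.anti y x]
      ring
    linarith
  have e3 : 0 ≤ ∑ x, ∑ y, (r * ∑ u ∈ X.filter (fun u => p u = x), ν u y) * (f x - f y) ^ 2 := by
    apply sum_nonneg
    intro x _
    apply sum_nonneg
    intro y _
    exact mul_nonneg (mul_nonneg hB.r0.le
      (sum_nonneg fun u hu => hB.nu0 u (mem_of_mem_filter u hu) y)) (sq_nonneg _)
  have e4 : ∑ x, ∑ y ∈ G.neighborFinset x, (a x + a y) * (f x - f y) ^ 2 =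
      ∑ x, ∑ y, (if G.Adj x y then a x + a y else 0) * (f x - f y) ^ 2 := by
    apply sum_congr rfl
    intro x _
    have : G.neighborFinset x = univ.filter (fun y => G.Adj x y) := by
      ext y; simp
    rw [this, sum_filter]
    apply sum_congr rfl
    intro y _
    split_ifs <;> ring
  rw [e4, e1, e2]
  linarith

/-- Energy identity: the probability `f o` that a phase ends before the item is completed. -/
theorem energy_bound {ι : Type} [Fintype ι] [DecidableEq ι] {N : Finset V} {a : V → ℝ}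
    {J : V → V → ℝ} {r : ℝ} {X : Finset ι} {p : ι → V} {ν : ι → V → ℝ}
    (hB : Bal G N a J r X p ν) {o pu : V} (ho : o ∈ N) (hpu : pu ∈ N) {κ q : ℝ} (hκ : 0 < κ)
    (hq : 0 < q) {f : V → ℝ} (hf0 : ∀ x, 0 ≤ f x) (hfN : ∀ x, x ∉ N → f x = 0)
    (hf : ∀ x ∈ N, ∑ y, mk G a J r X p ν x y * (f x - f y)
      + ((if x = pu then q else 0) + (if x = o then κ else 0)) * f x = if x = o then κ else 0)
    (hres : (f pu - f o) ^ 2 ≤ en G a f) :
    f o ≤ κ * (1 + 1 / q) / (1 + κ * (1 + 1 / q)) := by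
  have h1 : ∑ x, f x * ∑ y, mk G a J r X p ν x y * (f x - f y)
      + (q * f pu ^ 2 + κ * f o ^ 2) = κ * f o := by
    have e1 : ∀ x, f x * ∑ y, mk G a J r X p ν x y * (f x - f y)
        + ((if x = pu then q * f x ^ 2 else 0) + (if x = o then κ * f x ^ 2 else 0)) =
        if x = o then κ * f x else 0 := by
      intro x
      by_cases hx : x ∈ N
      · have := hf x hx
        have h2 : f x * ∑ y, mk G a J r X p ν x y * (f x - f y)
          + f x * (((if x = pu then q else 0) + (if x = o then κ else 0)) * f x) =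
            f x * (if x = o then κ else 0) := by
          rw [← mul_add, this]
        rw [mul_ite, mul_zero, mul_comm (f x) κ] at h2
        rw [← h2]
        congr 1
        split_ifs <;> ring
      · rw [hfN x hx]
        have hxo : x ≠ o := fun h => hx (h ▸ ho)
        have hxp : x ≠ pu := fun h => hx (h ▸ hpu)
        simp [hxo, hxp]
    have e2 := sum_congr (s₁ := (univ : Finset V)) rfl fun x _ => e1 x
    rw [sum_add_distrib, sum_add_distrib, sum_ite_eq' univ pu, sum_ite_eq' univ o,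
      sum_ite_eq' univ o] at e2
    simpa using e2
  rw [energy_id _ (mk_bal hB)] at h1
  have h2 := en_le hB f
  set A := f o with hA
  set B := f pu with hBdef
  have hA0 : 0 ≤ A := hf0 o
  have h3 : (A - B) ^ 2 + q * B ^ 2 ≤ κ * A - κ * A ^ 2 := by
    have : (B - A) ^ 2 = (A - B) ^ 2 := by ring
    nlinarith
  have h4 : q * A ^ 2 ≤ (1 + q) * (κ * A - κ * A ^ 2) := by
    have h5 : q * A ^ 2 ≤ (1 + q) * ((A - B) ^ 2 + q * B ^ 2) := by
      nlinarith [sq_nonneg (A - (1 + q) * B)]
    have h6 : (1 + q) * ((A - B) ^ 2 + q * B ^ 2) ≤ (1 + q) * (κ * A - κ * A ^ 2) :=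
      mul_le_mul_of_nonneg_left h3 (by linarith)
    linarith
  have hden : 0 < 1 + κ * (1 + 1 / q) := by positivity
  rw [le_div_iff₀ hden]
  rcases hA0.eq_or_lt with h0 | h0
  · rw [← h0]
    simp only [zero_mul]
    positivity
  · have h7 : q * A ≤ (1 + q) * (κ - κ * A) := by
      have : A * (q * A) ≤ A * ((1 + q) * (κ - κ * A)) := by nlinarith
      exact le_of_mul_le_mul_left this h0
    have h8 : A * (q + κ * (1 + q)) ≤ κ * (1 + q) := by nlinarith
    have e1 : A * (1 + κ * (1 + 1 / q)) = A * (q + κ * (1 + q)) / q := by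
      field_simp
      ring
    have e2 : κ * (1 + 1 / q) = κ * (1 + q) / q := by
      field_simp
      ring
    rw [e1, e2]
    exact div_le_div_of_nonneg_right h8 hq.le

/-- The expected cost of a phase. -/
theorem cost_bound {ι : Type} [Fintype ι] [DecidableEq ι] {N : Finset V} {a : V → ℝ}
    {J : V → V → ℝ} {r : ℝ} {X : Finset ι} {p : ι → V} {ν : ι → V → ℝ}
    (hB : Bal G N a J r X p ν) {o : V} (ho : o ∈ N) {κ L : ℝ} (hκ : 0 < κ) (hL : 0 ≤ L)
    {T : ι → ℝ} {h : V → ℝ} (hh0 : ∀ x, 0 ≤ h x) (hhN : ∀ x, x ∉ N → h x = L)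
    (hh : ∀ x ∈ N, ∑ y, mk G a J r X p ν x y * (h x - h y) + (if x = o then κ else 0) * h x
      = ∑ y ∈ G.neighborFinset x, (a x + a y + J x y)
        + r * ∑ u ∈ X.filter (fun u => p u = x), T u) :
    h o ≤ (∑ x ∈ N, ∑ y ∈ G.neighborFinset x, (a x + a y) + r * ∑ u ∈ X, T u
      + L * ∑ x ∈ N, ∑ y ∈ (G.neighborFinset x).filter (fun y => y ∉ N), (a x + a y)) / κ := by
  have hnb : ∀ x, G.neighborFinset x = univ.filter (fun y => G.Adj x y) := by
    intro x; ext y; simp
  have hJout : ∀ x y, y ∉ N → J x y = 0 := by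
    intro x y hy
    rw [hB.anti, hB.supp y x hy, neg_zero]
  -- sum of the equation over N
  have s1 : ∑ x ∈ N, ∑ y, mk G a J r X p ν x y * (h x - h y) + κ * h o =
      ∑ x ∈ N, ∑ y ∈ G.neighborFinset x, (a x + a y)
      + ∑ x ∈ N, ∑ y ∈ G.neighborFinset x, J x y
      + r * ∑ u ∈ X, T u := by
    have e1 := sum_congr (s₁ := N) rfl hh
    rw [sum_add_distrib, sum_add_distrib, ← mul_sum] at e1
    have e2 : ∑ x ∈ N, (if x = o then κ else 0) * h x = κ * h o := by
      have : ∀ x ∈ N, (if x = o then κ else 0) * h x = if x = o then κ * h x else 0 := by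
        intro x _; split_ifs <;> ring
      rw [sum_congr rfl this, sum_ite_eq' N o, if_pos ho]
    have e3 : ∑ x ∈ N, ∑ u ∈ X.filter (fun u => p u = x), T u = ∑ u ∈ X, T u := by
      rw [← Finset.sum_fiberwise_of_maps_to (s := X) (t := N) (g := p) hB.pN T]
    have e4 : ∑ x ∈ N, ∑ y ∈ G.neighborFinset x, (a x + a y + J x y) =
        ∑ x ∈ N, ∑ y ∈ G.neighborFinset x, (a x + a y)
        + ∑ x ∈ N, ∑ y ∈ G.neighborFinset x, J x y := by
      rw [← sum_add_distrib]
      exact sum_congr rfl fun x _ => sum_add_distrib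
    rw [e2, e3, e4] at e1
    exact e1
  have s2 : ∑ x ∈ N, ∑ y ∈ G.neighborFinset x, J x y = 0 := by
    have e1 : ∑ x ∈ N, ∑ y ∈ G.neighborFinset x, J x y = ∑ x ∈ N, ∑ y ∈ N, J x y := by
      apply sum_congr rfl
      intro x _
      have h1 : ∑ y ∈ G.neighborFinset x, J x y = ∑ y, J x y := by
        apply sum_subset (subset_univ _)
        intro y _ hy
        exact hB.adj x y (by simpa using hy)
      have h2 : ∑ y ∈ N, J x y = ∑ y, J x y := by
        apply sum_subset (subset_univ _)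
        intro y _ hy
        exact hJout x y hy
      rw [h1, h2]
    have e2 : ∑ x ∈ N, ∑ y ∈ N, J x y = - ∑ x ∈ N, ∑ y ∈ N, J x y := by
      conv_lhs => rw [sum_comm]
      rw [← sum_neg_distrib]
      apply sum_congr rfl
      intro x _
      rw [← sum_neg_distrib]
      exact sum_congr rfl fun y _ => hB.anti y x
    linarith
  -- lower bound of the kernel part
  have s3 : - (L * ∑ x ∈ N, ∑ y ∈ (G.neighborFinset x).filter (fun y => y ∉ N), (a x + a y)) ≤
      ∑ x ∈ N, ∑ y, mk G a J r X p ν x y * (h x - h y) := by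
    have e1 : ∑ x ∈ N, ∑ y, mk G a J r X p ν x y * (h x - h y) =
        ∑ x ∈ N, h x * ∑ y, mk G a J r X p ν y x
        - ∑ x ∈ N, ∑ y, mk G a J r X p ν x y * h y := by
      rw [← sum_sub_distrib]
      apply sum_congr rfl
      intro x _
      rw [← mk_bal hB, mul_sum, ← sum_sub_distrib]
      apply sum_congr rfl
      intro y _
      ring
    have e2 : ∑ x ∈ N, ∑ y ∈ N, mk G a J r X p ν y x * h x ≤
        ∑ x ∈ N, h x * ∑ y, mk G a J r X p ν y x := by
      apply sum_le_sum
      intro x _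
      rw [← sum_mul, mul_comm]
      apply mul_le_mul_of_nonneg_left _ (hh0 x)
      exact sum_le_sum_of_subset_of_nonneg (subset_univ _) fun y _ _ => mk_nonneg hB y x
    have e3 : ∑ x ∈ N, ∑ y, mk G a J r X p ν x y * h y =
        ∑ x ∈ N, ∑ y ∈ N, mk G a J r X p ν x y * h y
        + L * ∑ x ∈ N, ∑ y ∈ (G.neighborFinset x).filter (fun y => y ∉ N), (a x + a y) := by
      rw [mul_sum, ← sum_add_distrib]
      apply sum_congr rfl
      intro x _
      have h1 : ∑ y, mk G a J r X p ν x y * h y = ∑ y ∈ N, mk G a J r X p ν x y * h y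
          + ∑ y ∈ univ.filter (fun y => y ∉ N), mk G a J r X p ν x y * h y := by
        rw [← sum_filter_add_sum_filter_not univ (fun y => y ∈ N)]
        congr 1
        apply sum_congr _ (fun _ _ => rfl)
        ext y; simp
      rw [h1]
      congr 1
      have h2 : (G.neighborFinset x).filter (fun y => y ∉ N) =
          (univ.filter (fun y => y ∉ N)).filter (fun y => G.Adj x y) := by
        ext y
        simp [and_comm]
      rw [h2, mul_sum, sum_filter (fun y => G.Adj x y)]
      apply sum_congr rfl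
      intro y hy
      have hyN : y ∉ N := (mem_filter.1 hy).2
      rw [hhN y hyN, mk_eq hB, hJout x y hyN]
      have h3 : ∑ u ∈ X.filter (fun u => p u = x), ν u y = 0 :=
        sum_eq_zero fun u hu => hB.nuN u (mem_of_mem_filter u hu) y hyN
      rw [h3]
      split_ifs <;> ring
    have e4 : ∑ x ∈ N, ∑ y ∈ N, mk G a J r X p ν x y * h y =
        ∑ x ∈ N, ∑ y ∈ N, mk G a J r X p ν y x * h x := sum_comm
    rw [e1, e3, e4]
    linarith
  rw [le_div_iff₀ hκ]
  rw [s2] at s1
  linarith

end energy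

end Pool.MP_10effd_pr
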