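import Pool.Agent.MP_10effd_pr.LL.Defs0

/-! Unit flows along a simple path. -/

set_option autoImplicit false
set_option linter.unusedSectionVars false

namespace Pool.MP_10effd_pr

open Finset

variable {V : Type} [Fintype V] [DecidableEq V] {G : SimpleGraph V} [DecidableRel G.Adj] {ε : ℝ}

theorem flow_path {H : SimpleGraph V} {z p : V} (w : H.Walk z p) (hw : w.IsPath) :
    ∃ φ : V → V → ℝ, (∀ x y, φ x y = - φ y x) ∧ (∀ x y, |φ x y| ≤ 1) ∧
      (∀ x y, ¬ H.Adj x y → φ x y = 0) ∧ (∀ x y, x ∉ w.support → φ x y = 0) ∧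
      ∀ x, ∑ y, φ x y = (if x = z then 1 else 0) - (if x = p then 1 else 0) := by
  induction w with
  | nil =>
    refine ⟨fun _ _ => 0, by simp, by simp, by simp, by simp, by simp⟩
  | @cons u v t h q ih =>
    rw [SimpleGraph.Walk.cons_isPath_iff] at hw
    obtain ⟨φ, h1, h2, h3, h4, h5⟩ := ih hw.1
    have huv : u ≠ v := h.ne
    have h4' : ∀ y, φ y u = 0 := by
      intro y
      rw [h1 y u, h4 u y hw.2, neg_zero]
    refine ⟨fun x y => φ x y + (if x = u ∧ y = v then 1 else 0)
      - (if x = v ∧ y = u then 1 else 0), ?_, ?_, ?_, ?_, ?_⟩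
    · intro x y
      have e1 : (if x = u ∧ y = v then (1 : ℝ) else 0) = (if y = v ∧ x = u then 1 else 0) := by
        congr 1
        exact propext and_comm
      have e2 : (if x = v ∧ y = u then (1 : ℝ) else 0) = (if y = u ∧ x = v then 1 else 0) := by
        congr 1
        exact propext and_comm
      simp only
      rw [h1 x y, e1, e2]
      ring
    · intro x y
      simp only
      by_cases hx : x = u ∧ y = v
      · obtain ⟨rfl, rfl⟩ := hx
        rw [h4 x y hw.2]
        have : ¬ (x = y ∧ y = x) := fun hh => huv hh.1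
        rw [if_pos ⟨rfl, rfl⟩, if_neg this]
        simp
      · rw [if_neg hx]
        by_cases hy : x = v ∧ y = u
        · obtain ⟨rfl, rfl⟩ := hy
          rw [h4' x, if_pos ⟨rfl, rfl⟩]
          simp
        · rw [if_neg hy]
          simpa using h2 x y
    · intro x y hxy
      have hx : ¬ (x = u ∧ y = v) := by
        rintro ⟨rfl, rfl⟩
        exact hxy h
      have hy : ¬ (x = v ∧ y = u) := by
        rintro ⟨rfl, rfl⟩
        exact hxy h.symm
      simp only
      rw [if_neg hx, if_neg hy, h3 x y hxy]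
      ring
    · intro x y hx
      rw [SimpleGraph.Walk.support_cons, List.mem_cons, not_or] at hx
      have hx1 : ¬ (x = u ∧ y = v) := fun hh => hx.1 hh.1
      have hx2 : ¬ (x = v ∧ y = u) := by
        rintro ⟨rfl, rfl⟩
        exact hx.2 q.start_mem_support
      simp only
      rw [if_neg hx1, if_neg hx2, h4 x y hx.2]
      ring
    · intro x
      simp only
      rw [Finset.sum_sub_distrib, Finset.sum_add_distrib, h5 x]
      have e1 : ∑ y, (if x = u ∧ y = v then (1 : ℝ) else 0) = if x = u then 1 else 0 := by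
        by_cases hx : x = u
        · simp [hx]
        · simp [hx]
      have e2 : ∑ y, (if x = v ∧ y = u then (1 : ℝ) else 0) = if x = v then 1 else 0 := by
        by_cases hx : x = v
        · simp [hx]
        · simp [hx]
      rw [e1, e2]
      ring

theorem exists_flow {R : Finset V} {z p : V} (h : conn G R z p) :
    ∃ φ : V → V → ℝ, (∀ x y, φ x y = - φ y x) ∧ (∀ x y, |φ x y| ≤ 1) ∧
      (∀ x y, ¬ (G.Adj x y ∧ x ∈ R ∧ y ∈ R) → φ x y = 0) ∧
      ∀ x, ∑ y, φ x y = (if x = z then 1 else 0) - (if x = p then 1 else 0) := by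
  classical
  let H : SimpleGraph V :=
    { Adj := fun x y => G.Adj x y ∧ x ∈ R ∧ y ∈ R
      symm := ⟨fun x y hxy => ⟨hxy.1.symm, hxy.2.2, hxy.2.1⟩⟩
      loopless := ⟨fun x hx => G.loopless.irrefl x hx.1⟩ }
  have hreach : H.Reachable z p := by
    unfold conn at h
    induction h with
    | refl => exact SimpleGraph.Reachable.refl _
    | tail _ hbc ih =>
      refine ih.trans (SimpleGraph.Adj.reachable ?_)
      exact hbc
  obtain ⟨w⟩ := hreach
  obtain ⟨φ, h1, h2, h3, _, h5⟩ := flow_path (w.bypass) (w.bypass_isPath)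
  exact ⟨φ, h1, h2, h3, h5⟩

end Pool.MP_10effd_pr
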