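import Pool.Agent.MP_10effd_pr.LL.Defs

/-! Costs of the lower levels: positivity and the recursion. -/

set_option autoImplicit false
set_option linter.unusedSectionVars false

namespace Pool.MP_10effd_pr

open Finset

variable {V : Type} [Fintype V] [DecidableEq V] {G : SimpleGraph V} [DecidableRel G.Adj] {ε : ℝ}

namespace Lev

variable {P : Lev} {θ : ℝ} {Δ : ℕ} {c : ℝ} {ctr : ℕ → V → V} {T : ℕ}

theorem low_eta_nonneg (P : Lev) (s : ℕ) : 0 ≤ P.eta s := by
  unfold eta; positivity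

theorem low_nt_nonneg (s : ℕ) (x : V) (κ : ℕ) : 0 ≤ P.nt G ctr s x κ := by
  unfold nt
  split_ifs
  · exact zero_le_one
  · exact Nat.cast_nonneg _

theorem low_Pr_nonneg (l i : ℕ) (x : V) (k : ℕ) : 0 ≤ P.Pr G ctr l i x k := by
  unfold Pr
  refine Finset.prod_nonneg fun s _ => ?_
  have := low_eta_nonneg P s
  exact mul_nonneg (by linarith) (low_nt_nonneg _ _ _)

theorem low_cf_nonneg (hP : P.Good θ Δ c) (h0 : 0 < θ) (l : ℕ) (x : V) (k : ℕ) :
    0 ≤ P.cf G ctr T θ l x k := by
  classical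
  have hβ := (hP.β0 l).le
  have hC := hP.Csp0 l
  unfold cf cb
  refine add_nonneg (mul_nonneg hβ (add_nonneg ?_ ?_)) ?_
  · split_ifs <;> norm_num
  · split_ifs
    · positivity
    · exact le_rfl
  · split_ifs
    · exact hC
    · exact le_rfl

theorem low_lowPart_nonneg (hP : P.Good θ Δ c) (h0 : 0 < θ) (i l : ℕ) (U : Finset V) :
    0 ≤ P.lowPart G ctr T θ i l U := by
  classical
  unfold lowPart
  refine Finset.sum_nonneg fun x _ => Finset.sum_nonneg fun k _ => ?_
  refine mul_nonneg (mul_nonneg (low_cf_nonneg hP h0 _ _ _) (low_Pr_nonneg _ _ _ _)) ?_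
  split_ifs <;> norm_num

theorem LowH_nonneg (hP : P.Good θ Δ c) (h0 : 0 < θ) (i : ℕ) (U : Finset V) :
    0 ≤ P.LowH G ctr T θ i U := by
  unfold LowH
  have h1 : 0 ≤ ∑ l ∈ Finset.range (i - 1), P.lowPart G ctr T θ i l U :=
    Finset.sum_nonneg fun l _ => low_lowPart_nonneg hP h0 _ _ _
  have h2 : 0 ≤ P.lowPart G ctr T θ i (i - 1) U := low_lowPart_nonneg hP h0 _ _ _
  positivity

theorem LowH_le (hP : P.Good θ Δ c) (h0 : 0 < θ) {i : ℕ} (hi : 1 ≤ i) (U : Finset V) :
    P.LowH G ctr T θ i U ≤ P.LowF G ctr T θ i U := by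
  obtain ⟨j, rfl⟩ : ∃ j, i = j + 1 := ⟨i - 1, by omega⟩
  unfold LowH LowF
  rw [Finset.sum_range_succ]
  have h2 : 0 ≤ P.lowPart G ctr T θ (j + 1) j U := low_lowPart_nonneg hP h0 _ _ _
  simp only [Nat.add_sub_cancel]
  linarith

theorem low_kap_succ (P : Lev) {i l : ℕ} (hl : l < i) (k : ℕ) :
    P.kap (i + 1) l k = P.kap i l k + (2 * P.M i + 1) := by
  unfold kap
  rw [Finset.sum_Ico_succ_top (by omega : l + 1 ≤ i)]
  ring

theorem low_Pr_succ {i l : ℕ} (hl : l < i) (x : V) (k : ℕ) :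
    P.Pr G ctr l (i + 1) x k =
      P.Pr G ctr l i x k * ((1 + P.eta i) * P.nt G ctr i x (P.kap i l k)) := by
  unfold Pr
  rw [Finset.prod_Ico_succ_top (by omega : l + 1 ≤ i)]

/-- The combinatorial inequality behind the recursion. -/
theorem low_term (hG : G.Connected) {i : ℕ}
    (hc : Clustering G (ctr i) (P.M i)) {U U' J : Finset V} (hU : U' ⊆ U) (hUJ : Disjoint U' J)
    (hsat : ∀ x ∈ J, ∀ x', ctr i x' = ctr i x → x' ∈ J)
    (hJU : ∀ x ∈ J, ∃ y ∈ U, ctr i y = ctr i x)
    (hthin : ∀ x ∈ J, (ball G x (16 * P.M i)).card < P.Lc i) (x : V) {κ : ℕ}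
    (hκ : κ + 1 ≤ 2 * P.M i) [DecidablePred fun u => x ∈ nb G (nb G (cl (ctr i) u) 1) κ]
    [Decidable (x ∈ nb G U' κ)] [Decidable (x ∈ nb G U (κ + (2 * P.M i + 1)))] :
    (if x ∈ nb G U' κ then (1 : ℝ) else 0) + (1 + P.eta i) *
      ∑ u ∈ J.filter (fun u => ctr i u = u),
        (if x ∈ nb G (nb G (cl (ctr i) u) 1) κ then (1 : ℝ) else 0)
      ≤ (1 + P.eta i) * P.nt G ctr i x κ *
        (if x ∈ nb G U (κ + (2 * P.M i + 1)) then (1 : ℝ) else 0) := by
  classical
  have hη := low_eta_nonneg P i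
  have hcc : ∀ y, ctr i (ctr i y) = ctr i y := fun y => hc.ctr_ctr hG _ y rfl
  -- a centre near `x`
  have hnear : ∀ u ∈ J.filter (fun u => ctr i u = u), x ∈ nb G (nb G (cl (ctr i) u) 1) κ →
      ∃ y ∈ J, ctr i y = u ∧ G.dist x y ≤ κ + 1 := by
    intro u hu hx
    rw [Finset.mem_filter] at hu
    obtain ⟨z, hz, hxz⟩ := mem_nb.1 hx
    obtain ⟨y, hy, hzy⟩ := mem_nb.1 hz
    rw [mem_cl] at hy
    refine ⟨y, hsat u hu.1 y (by rw [hy, hu.2]), hy, ?_⟩
    have := hG.dist_triangle (u := x) (v := z) (w := y)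
    omega
  have hsum : ∑ u ∈ J.filter (fun u => ctr i u = u),
        (if x ∈ nb G (nb G (cl (ctr i) u) 1) κ then (1 : ℝ) else 0) =
      (((J.filter (fun u => ctr i u = u)).filter
        (fun u => x ∈ nb G (nb G (cl (ctr i) u) 1) κ)).card : ℝ) := by
    rw [Finset.sum_boole]
  rw [hsum]
  set S1 := (J.filter (fun u => ctr i u = u)).filter
        (fun u => x ∈ nb G (nb G (cl (ctr i) u) 1) κ) with hS1
  have hU'U : x ∈ nb G U' κ → x ∈ nb G U (κ + (2 * P.M i + 1)) := by
    intro hx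
    obtain ⟨y, hy, hxy⟩ := mem_nb.1 hx
    exact mem_nb.2 ⟨y, hU hy, by omega⟩
  by_cases hth : P.Lc i ≤ (ball G x (8 * P.M i)).card
  · -- thick
    have hS1e : S1 = ∅ := by
      rw [Finset.eq_empty_iff_forall_notMem]
      intro u hu
      rw [hS1, Finset.mem_filter] at hu
      obtain ⟨y, hyJ, hyu, hxy⟩ := hnear u hu.1 hu.2
      have h1 := hthin y hyJ
      have h2 : ball G x (8 * P.M i) ⊆ ball G y (16 * P.M i) := by
        intro w hw
        rw [mem_ball] at hw ⊢
        have := hG.dist_triangle (u := y) (v := x) (w := w)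
        have hs : G.dist y x = G.dist x y := SimpleGraph.dist_comm
        omega
      have := Finset.card_le_card h2
      omega
    rw [hS1e]
    have hnt : P.nt G ctr i x κ = 1 := by unfold nt; rw [if_pos hth]
    rw [hnt]
    by_cases hx : x ∈ nb G U' κ
    · rw [if_pos hx, if_pos (hU'U hx)]
      simp
      exact hη
    · rw [if_neg hx]
      simp only [Finset.card_empty, Nat.cast_zero, mul_zero, add_zero, mul_one]
      split_ifs <;> linarith
  · -- thin
    have hnt : P.nt G ctr i x κ = (((ball G x (κ + 1)).image (ctr i)).card : ℝ) := by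
      unfold nt; rw [if_neg hth]
    rw [hnt]
    have hsub : S1 ⊆ (ball G x (κ + 1)).image (ctr i) := by
      intro u hu
      rw [hS1, Finset.mem_filter] at hu
      obtain ⟨y, hyJ, hyu, hxy⟩ := hnear u hu.1 hu.2
      exact Finset.mem_image.2 ⟨y, mem_ball.2 hxy, hyu⟩
    by_cases hx : x ∈ nb G U' κ
    · rw [if_pos hx, if_pos (hU'U hx)]
      obtain ⟨y, hy, hxy⟩ := mem_nb.1 hx
      have hyS : ctr i y ∉ S1 := by
        intro h
        rw [hS1, Finset.mem_filter, Finset.mem_filter] at h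
        have : y ∈ J := hsat _ h.1.1 y (by rw [hcc])
        exact (Finset.disjoint_left.1 hUJ hy) this
      have hyI : ctr i y ∈ (ball G x (κ + 1)).image (ctr i) :=
        Finset.mem_image.2 ⟨y, mem_ball.2 (by omega), rfl⟩
      have hins : insert (ctr i y) S1 ⊆ (ball G x (κ + 1)).image (ctr i) :=
        Finset.insert_subset hyI hsub
      have hcard := Finset.card_le_card hins
      rw [Finset.card_insert_of_notMem hyS] at hcard
      have hcard' : (S1.card : ℝ) + 1 ≤ (((ball G x (κ + 1)).image (ctr i)).card : ℝ) := by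
        exact_mod_cast hcard
      have := mul_le_mul_of_nonneg_left hcard' (by linarith : (0 : ℝ) ≤ 1 + P.eta i)
      rw [mul_one]
      linarith
    · rw [if_neg hx, zero_add]
      by_cases hne : S1.Nonempty
      · obtain ⟨u, hu⟩ := hne
        have hu' := hu
        rw [hS1, Finset.mem_filter] at hu'
        obtain ⟨y, hyJ, hyu, hxy⟩ := hnear u hu'.1 hu'.2
        obtain ⟨y', hy'U, hy'⟩ := hJU u (Finset.mem_filter.1 hu'.1).1
        have hcu : ctr i u = u := (Finset.mem_filter.1 hu'.1).2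
        have hxU : x ∈ nb G U (κ + (2 * P.M i + 1)) := by
          refine mem_nb.2 ⟨y', hy'U, ?_⟩
          have h1 := hc.rad y
          have h2 := hc.rad y'
          rw [hyu] at h1
          rw [hy', hcu] at h2
          have h3 := hG.dist_triangle (u := x) (v := y) (w := y')
          have h4 := hG.dist_triangle (u := y) (v := u) (w := y')
          have hs : G.dist u y' = G.dist y' u := SimpleGraph.dist_comm
          omega
        rw [if_pos hxU, mul_one]
        have hcard' : (S1.card : ℝ) ≤ (((ball G x (κ + 1)).image (ctr i)).card : ℝ) := by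
          exact_mod_cast Finset.card_le_card hsub
        exact mul_le_mul_of_nonneg_left hcard' (by linarith)
      · rw [Finset.not_nonempty_iff_eq_empty] at hne
        rw [hne]
        simp only [Finset.card_empty, Nat.cast_zero, mul_zero]
        split_ifs
        · positivity
        · simp

/-- The recursion for the costs of the lower levels. -/
theorem low_rec (hP : P.Good θ Δ c) (h0 : 0 < θ) (hG : G.Connected) {i : ℕ} (hi : 1 ≤ i)
    (hc : Clustering G (ctr i) (P.M i)) {U U' J : Finset V} (hU : U' ⊆ U) (hUJ : Disjoint U' J)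
    (hsat : ∀ x ∈ J, ∀ x', ctr i x' = ctr i x → x' ∈ J)
    (hJU : ∀ x ∈ J, ∃ y ∈ U, ctr i y = ctr i x)
    (hthin : ∀ x ∈ J, (ball G x (16 * P.M i)).card < P.Lc i) :
    P.LowF G ctr T θ i U' + (1 + P.eta i) *
      ∑ u ∈ J.filter (fun u => ctr i u = u), P.LowF G ctr T θ i (nb G (cl (ctr i) u) 1)
      ≤ ∑ l ∈ Finset.range i, P.lowPart G ctr T θ (i + 1) l U := by
  classical
  have e1 : ∑ u ∈ J.filter (fun u => ctr i u = u), P.LowF G ctr T θ i (nb G (cl (ctr i) u) 1)
      = ∑ l ∈ Finset.range i, ∑ u ∈ J.filter (fun u => ctr i u = u),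
          P.lowPart G ctr T θ i l (nb G (cl (ctr i) u) 1) := by
    unfold LowF
    rw [Finset.sum_comm]
  rw [e1]
  unfold LowF
  rw [Finset.mul_sum, ← Finset.sum_add_distrib]
  refine Finset.sum_le_sum fun l hl => ?_
  rw [Finset.mem_range] at hl
  have e2 : ∑ u ∈ J.filter (fun u => ctr i u = u),
          P.lowPart G ctr T θ i l (nb G (cl (ctr i) u) 1) =
      ∑ x, ∑ k ∈ Finset.range (P.K l), P.cf G ctr T θ l x k * P.Pr G ctr l i x k *
        ∑ u ∈ J.filter (fun u => ctr i u = u),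
          (if x ∈ nb G (nb G (cl (ctr i) u) 1) (P.kap i l k) then (1 : ℝ) else 0) := by
    unfold lowPart
    rw [Finset.sum_comm]
    refine Finset.sum_congr rfl fun x _ => ?_
    rw [Finset.sum_comm]
    refine Finset.sum_congr rfl fun k _ => ?_
    rw [Finset.mul_sum]
  rw [e2]
  unfold lowPart
  rw [Finset.mul_sum, ← Finset.sum_add_distrib]
  refine Finset.sum_le_sum fun x _ => ?_
  rw [Finset.mul_sum, ← Finset.sum_add_distrib]
  refine Finset.sum_le_sum fun k hk => ?_
  rw [Finset.mem_range] at hk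
  have hκ := hP.kapM i l k hl hk
  have hA : 0 ≤ P.cf G ctr T θ l x k * P.Pr G ctr l i x k :=
    mul_nonneg (low_cf_nonneg hP h0 _ _ _) (low_Pr_nonneg _ _ _ _)
  have hterm := low_term (P := P) (ctr := ctr) hG hc hU hUJ hsat hJU hthin x hκ
  rw [low_Pr_succ hl, low_kap_succ P hl]
  have := mul_le_mul_of_nonneg_left hterm hA
  calc P.cf G ctr T θ l x k * P.Pr G ctr l i x k *
        (if x ∈ nb G U' (P.kap i l k) then (1 : ℝ) else 0) +
      (1 + P.eta i) * (P.cf G ctr T θ l x k * P.Pr G ctr l i x k *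
        ∑ u ∈ J.filter (fun u => ctr i u = u),
          (if x ∈ nb G (nb G (cl (ctr i) u) 1) (P.kap i l k) then (1 : ℝ) else 0))
      = P.cf G ctr T θ l x k * P.Pr G ctr l i x k *
        ((if x ∈ nb G U' (P.kap i l k) then (1 : ℝ) else 0) + (1 + P.eta i) *
          ∑ u ∈ J.filter (fun u => ctr i u = u),
            (if x ∈ nb G (nb G (cl (ctr i) u) 1) (P.kap i l k) then (1 : ℝ) else 0)) := by ring
    _ ≤ _ := this
    _ = _ := by ring

end Lev

end Pool.MP_10effd_pr
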