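import Pool.Agent.MP_10effd_pr.LL.Defs
import Pool.Agent.MP_10effd_pr.LL.Count
import Pool.Agent.MP_10effd_pr.LL.Choose
import Pool.Agent.MP_10effd_pr.LL.Low

/-! LIN-Hier: the good hierarchy. -/

set_option autoImplicit false
set_option linter.unusedSectionVars false

namespace Pool.MP_10effd_pr

open Finset

variable {V : Type} [Fintype V] [DecidableEq V] {G : SimpleGraph V} [DecidableRel G.Adj] {ε : ℝ}

namespace Lev

variable {P : Lev} {θ : ℝ} {Δ : ℕ} {c : ℝ} {ctr : ℕ → V → V} {T : ℕ}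

theorem hier_eta_nonneg (s : ℕ) : 0 ≤ P.eta s := by
  unfold eta
  positivity

theorem hier_nt_nonneg (s : ℕ) (x : V) (κ : ℕ) : 0 ≤ P.nt G ctr s x κ := by
  unfold nt
  split_ifs
  · exact zero_le_one
  · exact Nat.cast_nonneg _

theorem hier_K_pos (hP : P.Good θ Δ c) (l : ℕ) : 0 < P.K l := by
  have := hP.DK l
  omega

/-- all levels at once, with a dummy level `0` -/
theorem hier_random (hP : P.Good θ Δ c) (hG : G.Connected) (s : ℕ) :
    ∃ (Ω : Type) (_ : Fintype Ω) (pr : Ω → ℝ) (cc : Ω → V → V),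
      (∀ ω, 0 ≤ pr ω) ∧ ∑ ω, pr ω = 1 ∧ (1 ≤ s → (∀ ω, Clustering G (cc ω) (P.M s))) ∧
      (1 ≤ s → ∀ x κ, 2 * (κ + 1) ≤ 7 * P.M s →
        ∑ ω, pr ω * ((1 + P.eta s) * P.nt G (fun _ => cc ω) s x κ) ≤ P.ee s κ) ∧
      (1 ≤ s → ∀ x l κ R, κ = P.kap s l 0 → R = P.g (l - 1) + 1 → 2 * (κ + 1) ≤ 7 * P.M s →
        2 * R ≤ 7 * P.M s →
        ∑ ω, pr ω * (@ite _ (P.sp G (fun _ => cc ω) s x R) (Classical.propDecidable _)
          ((1 + P.eta s) * P.nt G (fun _ => cc ω) s x κ) 0) ≤ P.es l s) := by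
  rcases Nat.eq_zero_or_pos s with rfl | hs
  · refine ⟨Unit, inferInstance, fun _ => 1, fun _ x => x, fun _ => zero_le_one, by simp, ?_, ?_, ?_⟩
    · intro h; omega
    · intro h; omega
    · intro h; omega
  · obtain ⟨Ω, hΩ, pr, cc, h1, h2, h3, h4, h5⟩ := exists_random (P := P) hP hG hs
    exact ⟨Ω, hΩ, pr, cc, h1, h2, fun _ => h3, fun _ => h4, fun _ => h5⟩

open Classical in
/-- The good hierarchy. -/
theorem exists_hier (hP : P.Good θ Δ c) (hθ0 : 0 < θ) (hG : G.Connected) (T : ℕ) :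
    ∃ ctr : ℕ → V → V, (∀ s, 1 ≤ s → s ≤ T → Clustering G (ctr s) (P.M s)) ∧
      ∑ l ∈ Finset.range T, ∑ x : V, ∑ k ∈ Finset.range (P.K l),
        P.cf G ctr T θ l x k * P.Pr G ctr l (T + 1) x k
      ≤ P.total θ T * Fintype.card V := by
  have hr := hier_random (P := P) (G := G) hP hG
  choose Ω hΩ pr cc h0 h1 h2 h3 h4 using hr
  let S1 : Finset (Σ _ : ℕ, V × ℕ) := (range T).sigma (fun l => univ ×ˢ range (P.K l))
  let S2 : Finset (Σ _ : ℕ, V × ℕ) := (range T).sigma (fun l => univ ×ˢ Ico (l + 1) (T + 1))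
  let f0 : ℕ → V → ℕ → ∀ s, Ω s → ℝ := fun l x k s ω =>
    (1 + P.eta s) * P.nt G (fun _ => cc s ω) s x (P.kap s l k)
  let f1 : ℕ → V → ℕ → ∀ s, Ω s → ℝ := fun l x s' s ω =>
    if s = s' then (if P.sp G (fun _ => cc s ω) s x (P.g (l - 1) + 1) then f0 l x 0 s ω else 0)
    else f0 l x 0 s ω
  have hf0 : ∀ l x k s ω, 0 ≤ f0 l x k s ω := by
    intro l x k s ω
    exact mul_nonneg (by linarith [hier_eta_nonneg (P := P) s]) (hier_nt_nonneg _ _ _)
  have hf1 : ∀ l x k s ω, 0 ≤ f1 l x k s ω := by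
    intro l x k s ω
    simp only [f1]
    split_ifs
    · exact hf0 _ _ _ _ _
    · exact le_rfl
    · exact hf0 _ _ _ _ _
  let φ : S1 ⊕ S2 → ∀ s, Ω s → ℝ := fun j s ω => Sum.elim
    (fun j : S1 => if j.1.1 + 1 ≤ s then f0 j.1.1 j.1.2.1 j.1.2.2 s ω else 1)
    (fun j : S2 => if j.1.1 + 1 ≤ s then f1 j.1.1 j.1.2.1 j.1.2.2 s ω else 1) j
  let b : S1 ⊕ S2 → ℕ → ℝ := fun j s => Sum.elim
    (fun j : S1 => if j.1.1 + 1 ≤ s then P.ee s (P.kap s j.1.1 j.1.2.2) else 1)
    (fun j : S2 => if j.1.1 + 1 ≤ s then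
      (if s = j.1.2.2 then P.es j.1.1 s else P.ee s (P.kap s j.1.1 0)) else 1) j
  let w : S1 ⊕ S2 → ℝ := Sum.elim (fun j : S1 => P.cb θ j.1.1 j.1.2.2) (fun j : S2 => P.Csp j.1.1)
  have hcb : ∀ l k, 0 ≤ P.cb θ l k := by
    intro l k
    unfold cb
    apply mul_nonneg (hP.β0 l).le
    apply add_nonneg
    · split_ifs
      · exact zero_le_one
      · exact le_rfl
    · split_ifs
      · exact (pow_pos hθ0 _).le
      · exact le_rfl
  have hbd0 : ∀ l s k x, k < P.K l → l + 1 ≤ s →
      ∑ ω, pr s ω * f0 l x k s ω ≤ P.ee s (P.kap s l k) := by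
    intro l s k x hk hls
    apply h3 s (by omega)
    have := hP.kapM s l k (by omega) hk
    omega
  have hbd1 : ∀ l s x, l + 1 ≤ s →
      ∑ ω, pr s ω * (if P.sp G (fun _ => cc s ω) s x (P.g (l - 1) + 1) then f0 l x 0 s ω else 0) ≤
        P.es l s := by
    intro l s x hls
    apply h4 s (by omega) x l _ _ rfl rfl
    · have := hP.kapM s l 0 (by omega) (hier_K_pos hP l)
      omega
    · rcases Nat.eq_zero_or_pos l with rfl | hl
      · have h5 := hP.g0
        have h6 := hP.M1 s (by omega)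
        simp only [Nat.zero_sub, h5]
        omega
      · have h5 := hP.gM l hl
        have h6 := hP.Mmono (l + 1) s (by omega) (by omega)
        omega
  have hchoose := choose_levels (γ := S1 ⊕ S2) (Ico 1 (T + 1)) Ω pr h0 h1 φ ?_ b ?_ w ?_
  · obtain ⟨ω, hω⟩ := hchoose
    refine ⟨fun s => cc s (ω s), fun s hs _ => h2 s hs (ω s), ?_⟩
    have hprod : ∀ (l : ℕ), ∀ F : ℕ → ℝ,
        ∏ s ∈ Ico 1 (T + 1), (if l + 1 ≤ s then F s else 1) = ∏ s ∈ Ico (l + 1) (T + 1), F s := by
      intro l F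
      rw [← Finset.prod_filter]
      apply Finset.prod_congr _ (fun _ _ => rfl)
      ext s
      simp only [mem_filter, mem_Ico]
      omega
    have hL : ∑ j, w j * ∏ s ∈ Ico 1 (T + 1), φ j s (ω s) =
        (∑ l ∈ range T, ∑ x : V, ∑ k ∈ range (P.K l),
          P.cb θ l k * ∏ s ∈ Ico (l + 1) (T + 1), f0 l x k s (ω s)) +
        ∑ l ∈ range T, ∑ x : V, ∑ s' ∈ Ico (l + 1) (T + 1),
          P.Csp l * ∏ s ∈ Ico (l + 1) (T + 1), f1 l x s' s (ω s) := by
      rw [Fintype.sum_sum_type]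
      congr 1
      · simp only [w, φ, Sum.elim_inl, hprod]
        rw [Finset.sum_coe_sort S1 (fun j => P.cb θ j.1 j.2.2 *
          ∏ s ∈ Ico (j.1 + 1) (T + 1), f0 j.1 j.2.1 j.2.2 s (ω s))]
        rw [Finset.sum_sigma]
        apply Finset.sum_congr rfl
        intro l _
        rw [Finset.sum_product]
      · simp only [w, φ, Sum.elim_inr, hprod]
        rw [Finset.sum_coe_sort S2 (fun j => P.Csp j.1 *
          ∏ s ∈ Ico (j.1 + 1) (T + 1), f1 j.1 j.2.1 j.2.2 s (ω s))]
        rw [Finset.sum_sigma]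
        apply Finset.sum_congr rfl
        intro l _
        rw [Finset.sum_product]
    have hR : ∑ j, w j * ∏ s ∈ Ico 1 (T + 1), b j s = P.total θ T * Fintype.card V := by
      have hR1 : ∑ j, w j * ∏ s ∈ Ico 1 (T + 1), b j s =
        (∑ l ∈ range T, ∑ x : V, ∑ k ∈ range (P.K l),
          P.cb θ l k * ∏ s ∈ Ico (l + 1) (T + 1), P.ee s (P.kap s l k)) +
        ∑ l ∈ range T, ∑ x : V, ∑ s' ∈ Ico (l + 1) (T + 1),
          P.Csp l * ∏ s ∈ Ico (l + 1) (T + 1),
            (if s = s' then P.es l s else P.ee s (P.kap s l 0)) := by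
        rw [Fintype.sum_sum_type]
        congr 1
        · simp only [w, b, Sum.elim_inl, hprod]
          rw [Finset.sum_coe_sort S1 (fun j => P.cb θ j.1 j.2.2 *
            ∏ s ∈ Ico (j.1 + 1) (T + 1), P.ee s (P.kap s j.1 j.2.2))]
          rw [Finset.sum_sigma]
          apply Finset.sum_congr rfl
          intro l _
          rw [Finset.sum_product]
        · simp only [w, b, Sum.elim_inr, hprod]
          rw [Finset.sum_coe_sort S2 (fun j => P.Csp j.1 *
            ∏ s ∈ Ico (j.1 + 1) (T + 1),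
              (if s = j.2.2 then P.es j.1 s else P.ee s (P.kap s j.1 0)))]
          rw [Finset.sum_sigma]
          apply Finset.sum_congr rfl
          intro l _
          rw [Finset.sum_product]
      rw [hR1, total, Finset.sum_mul, ← Finset.sum_add_distrib]
      apply Finset.sum_congr rfl
      intro l _
      rw [Finset.sum_const, Finset.sum_const, Finset.card_univ, nsmul_eq_mul, nsmul_eq_mul,
        ← mul_add, mul_comm]
      congr 2
      rw [Finset.mul_sum]
      apply Finset.sum_congr rfl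
      intro s' hs'
      congr 1
      rw [← Finset.mul_prod_erase _ _ hs', if_pos rfl]
      congr 1
      apply Finset.prod_congr rfl
      intro s hs
      rw [if_neg (Finset.ne_of_mem_erase hs)]
    rw [hL, hR] at hω
    refine le_trans ?_ hω
    rw [← Finset.sum_add_distrib]
    apply Finset.sum_le_sum
    intro l hl
    rw [mem_range] at hl
    rw [← Finset.sum_add_distrib]
    apply Finset.sum_le_sum
    intro x _
    have e1 : ∀ k, P.Pr G (fun s => cc s (ω s)) l (T + 1) x k =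
        ∏ s ∈ Ico (l + 1) (T + 1), f0 l x k s (ω s) := fun k => rfl
    have e2 : ∀ k, 0 ≤ ∏ s ∈ Ico (l + 1) (T + 1), f0 l x k s (ω s) := fun k =>
      Finset.prod_nonneg fun s _ => hf0 _ _ _ _ _
    have e3 : ∀ s', 0 ≤ P.Csp l * ∏ s ∈ Ico (l + 1) (T + 1), f1 l x s' s (ω s) := fun s' =>
      mul_nonneg (hP.Csp0 l) (Finset.prod_nonneg fun s _ => hf1 _ _ _ _ _)
    simp only [cf, add_mul, Finset.sum_add_distrib, e1]
    apply add_le_add le_rfl
    rw [Finset.sum_eq_single_of_mem 0 (mem_range.2 (hier_K_pos hP l))]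
    · by_cases hsp : P.spec G (fun s => cc s (ω s)) T l x
      · rw [if_pos ⟨rfl, hsp⟩]
        obtain ⟨s', hs1, hs2, hs3⟩ := hsp
        have hs' : s' ∈ Ico (l + 1) (T + 1) := by rw [mem_Ico]; omega
        refine le_trans (le_of_eq ?_) (Finset.single_le_sum (fun s'' _ => e3 s'') hs')
        congr 1
        apply Finset.prod_congr rfl
        intro s _
        simp only [f1]
        by_cases hss : s = s'
        · subst hss
          rw [if_pos rfl]
          have hs3' : P.sp G (fun _ => cc s (ω s)) s x (P.g (l - 1) + 1) := hs3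
          rw [if_pos hs3']
        · rw [if_neg hss]
      · rw [if_neg (fun h => hsp h.2), zero_mul]
        exact Finset.sum_nonneg fun s'' _ => e3 s''
    · intro k _ hk
      rw [if_neg (fun h => hk h.1), zero_mul]
  · intro j s ω
    rcases j with j | j
    · simp only [φ, Sum.elim_inl]
      split_ifs
      · exact hf0 _ _ _ _ _
      · exact zero_le_one
    · simp only [φ, Sum.elim_inr]
      split_ifs
      · exact hf1 _ _ _ _ _
      · exact zero_le_one
  · intro j s hs
    rw [mem_Ico] at hs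
    rcases j with j | j
    · obtain ⟨⟨l, x, k⟩, hj⟩ := j
      simp only [S1, mem_sigma, mem_product, mem_range] at hj
      simp only [φ, b, Sum.elim_inl]
      split_ifs with hls
      · exact hbd0 l s k x hj.2.2 hls
      · simp only [mul_one]
        rw [h1 s]
    · obtain ⟨⟨l, x, s'⟩, hj⟩ := j
      simp only [S2, mem_sigma, mem_product, mem_range, mem_Ico] at hj
      simp only [φ, b, Sum.elim_inr]
      by_cases hls : l + 1 ≤ s
      · simp only [if_pos hls, f1]
        by_cases hss : s = s'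
        · simp only [if_pos hss]
          exact hbd1 l s x hls
        · simp only [if_neg hss]
          exact hbd0 l s 0 x (hier_K_pos hP l) hls
      · simp only [if_neg hls, mul_one]
        rw [h1 s]
  · intro j
    rcases j with j | j
    · exact hcb _ _
    · exact hP.Csp0 _

end Lev

end Pool.MP_10effd_pr
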