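import Pool.Agent.MP_10effd_pr.LL.Defs
import Pool.Agent.MP_10effd_pr.LL.Near
import Pool.Agent.MP_10effd_pr.LL.Path
import Pool.Agent.MP_10effd_pr.LL.Budget
import Pool.Agent.MP_10effd_pr.LL.Low

/-! From the rest to a whole cell (row Hub). -/

set_option autoImplicit false
set_option linter.unusedSectionVars false

namespace Pool.MP_10effd_pr

open Finset

variable {V : Type} [Fintype V] [DecidableEq V] {G : SimpleGraph V} [DecidableRel G.Adj] {ε : ℝ}

theorem hub_path_refl {R : Finset V} {x : V} (hx : x ∈ R) : PathIn G R 0 x x :=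
  ⟨0, fun _ => x, le_rfl, rfl, rfl, fun i hi => by omega, fun _ _ => hx⟩

theorem hub_path_mono {R R' : Finset V} {k k' : ℕ} {x y : V} (h : PathIn G R k x y)
    (hR : R ⊆ R') (hk : k ≤ k') : PathIn G R' k' x y := by
  obtain ⟨n, v, h1, h2, h3, h4, h5⟩ := h
  exact ⟨n, v, h1.trans hk, h2, h3, h4, fun i hi => hR (h5 i hi)⟩

theorem hub_path_cons {R : Finset V} {k : ℕ} {x y z : V} (hxy : G.Adj x y) (hx : x ∈ R)
    (h : PathIn G R k y z) : PathIn G R (k + 1) x z := by
  obtain ⟨n, v, h1, h2, h3, h4, h5⟩ := h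
  refine ⟨n + 1, fun i => if i = 0 then x else v (i - 1), by omega, by simp, by simp [h3], ?_, ?_⟩
  · intro i hi
    rcases Nat.eq_zero_or_pos i with h0 | h0
    · subst h0
      simp [h2, hxy]
    · obtain ⟨j, rfl⟩ : ∃ j, i = j + 1 := ⟨i - 1, by omega⟩
      simpa using h4 j (by omega)
  · intro i hi
    rcases Nat.eq_zero_or_pos i with h0 | h0
    · subst h0
      simpa using hx
    · obtain ⟨j, rfl⟩ : ∃ j, i = j + 1 := ⟨i - 1, by omega⟩
      simpa using h5 j (by omega)

theorem hub_path_symm {R : Finset V} {k : ℕ} {x y : V} (h : PathIn G R k x y) :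
    PathIn G R k y x := by
  obtain ⟨n, v, h1, h2, h3, h4, h5⟩ := h
  refine ⟨n, fun i => v (n - i), h1, by simpa using h3, by simpa using h2, ?_, ?_⟩
  · intro i hi
    have := (h4 (n - (i + 1)) (by omega)).symm
    rwa [show n - (i + 1) + 1 = n - i by omega] at this
  · intro i _
    exact h5 (n - i) (by omega)

theorem hub_path_trans {R : Finset V} {k' : ℕ} {y z : V} (h' : PathIn G R k' y z) :
    ∀ (k : ℕ) (x : V), PathIn G R k x y → PathIn G R (k + k') x z := by
  intro k
  induction k with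
  | zero =>
    rintro x ⟨n, v, h1, h2, h3, -, -⟩
    have hn : n = 0 := by omega
    subst hn
    have hxy : x = y := h2.symm.trans h3
    subst hxy
    simpa using h'
  | succ k ih =>
    rintro x ⟨n, v, h1, h2, h3, h4, h5⟩
    rcases Nat.eq_zero_or_pos n with h0 | h0
    · subst h0
      have hxy : x = y := h2.symm.trans h3
      subst hxy
      exact hub_path_mono h' le_rfl (by omega)
    · have hp : PathIn G R k (v 1) y := by
        refine ⟨n - 1, fun i => v (i + 1), by omega, rfl, ?_, ?_, ?_⟩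
        · change v (n - 1 + 1) = y
          rw [Nat.sub_add_cancel h0]
          exact h3
        · intro i hi
          exact h4 (i + 1) (by omega)
        · intro i hi
          exact h5 (i + 1) (by omega)
      have hx : x ∈ R := by
        rw [← h2]
        exact h5 0 (by omega)
      have hadj : G.Adj x (v 1) := by
        rw [← h2]
        exact h4 0 h0
      have := hub_path_cons hadj hx (ih _ hp)
      rwa [show k + k' + 1 = k + 1 + k' by omega] at this

theorem hub_path_conn {R : Finset V} {k : ℕ} : ∀ {x y : V}, PathIn G R k x y → conn G R x y := by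
  induction k with
  | zero =>
    rintro x y ⟨n, v, h1, h2, h3, -, -⟩
    have hn : n = 0 := by omega
    subst hn
    have hxy : x = y := h2.symm.trans h3
    subst hxy
    exact Relation.ReflTransGen.refl
  | succ k ih =>
    rintro x y ⟨n, v, h1, h2, h3, h4, h5⟩
    rcases Nat.eq_zero_or_pos n with h0 | h0
    · subst h0
      have hxy : x = y := h2.symm.trans h3
      subst hxy
      exact Relation.ReflTransGen.refl
    · have hp : PathIn G R k (v 1) y := by
        refine ⟨n - 1, fun i => v (i + 1), by omega, rfl, ?_, ?_, ?_⟩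
        · change v (n - 1 + 1) = y
          rw [Nat.sub_add_cancel h0]
          exact h3
        · intro i hi
          exact h4 (i + 1) (by omega)
        · intro i hi
          exact h5 (i + 1) (by omega)
      have hx : x ∈ R := by
        rw [← h2]
        exact h5 0 (by omega)
      have hadj : G.Adj x (v 1) := by
        rw [← h2]
        exact h4 0 h0
      exact Relation.ReflTransGen.head ⟨hadj, hx, h5 1 h0⟩ (ih hp)

theorem hub_path_cl {ctr : V → V} {M : ℕ} (h : Clustering G ctr M) (hG : G.Connected) :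
    ∀ (k : ℕ) (x : V), G.dist x (ctr x) = k → PathIn G (cl ctr (ctr x)) k x (ctr x) := by
  intro k
  induction k with
  | zero =>
    intro x hk
    have hx : x = ctr x := (hG.dist_eq_zero_iff).mp hk
    have h1 : PathIn G (cl ctr (ctr x)) 0 x x := hub_path_refl (mem_cl.mpr rfl)
    exact hx ▸ h1
  | succ k ih =>
    intro x hk
    have hxu : x ≠ ctr x := by
      intro e
      rw [← e, SimpleGraph.dist_self] at hk
      omega
    obtain ⟨y, hxy, hy, hd⟩ := h.geo x hxu
    have := ih y (by rw [hy]; omega)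
    rw [hy] at this
    exact hub_path_cons hxy (mem_cl.mpr rfl) this

namespace Lev

variable {P : Lev} {θ : ℝ} {Δ : ℕ} {c : ℝ} {ctr : ℕ → V → V} {T : ℕ}

theorem hub_tt_nonneg (hP : P.Good θ Δ c) : ∀ t, 1 ≤ t → 0 ≤ P.tt t := by
  intro t ht
  induction t, ht using Nat.le_induction with
  | base => rw [hP.tt1]
  | succ t ht ih =>
    rw [hP.ttS t ht]
    positivity

/-- From the rest to a whole cell. -/
theorem hub_step (hG : G.Connected) (hΔ : 2 ≤ Δ) (hdeg : ∀ x, G.degree x ≤ Δ)
    (hP : P.Good θ Δ c) (hθ0 : 0 < θ) (hθ1 : θ < 1) {t : ℕ} (ht : 1 ≤ t) (htT : t ≤ T)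
    (hc : Clustering G (ctr t) (P.M t)) (hrest : P.RestCov G ε θ ctr T t) :
    P.HubCov G ε θ ctr T t := by
  classical
  intro N u hu hthin hN hNc o ho
  set C := cl (ctr t) u with hC
  set U := nb G C 1 with hU
  set S := nb G U (P.D (t - 1)) with hS
  have hCU : C ⊆ U := by
    intro x hx
    rw [hU, mem_nb]
    exact ⟨x, hx, by simp⟩
  have hUS : U ⊆ S := by
    intro x hx
    rw [hS, mem_nb]
    exact ⟨x, hx, by simp⟩
  have hoU : o ∈ U := hCU ho
  have huC : u ∈ C := by
    rw [hC, mem_cl]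
    exact hu
  -- paths inside the cell
  have hp1 : ∀ x ∈ C, PathIn G C (P.M t) x u := by
    intro x hx
    have hx' : ctr t x = u := by
      rw [hC, mem_cl] at hx
      exact hx
    have h1 := hub_path_cl hc hG _ x rfl
    rw [hx'] at h1
    exact hub_path_mono h1 le_rfl (by
      have := hc.rad x
      rwa [hx'] at this)
  have hp2 : ∀ x ∈ U, PathIn G U (2 * P.M t + 1) x o := by
    intro x hx
    have hx0 := hx
    rw [hU, mem_nb] at hx
    obtain ⟨y, hy, hxy⟩ := hx
    have h1 : PathIn G U (P.M t + P.M t) y o :=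
      hub_path_mono (hub_path_trans (hub_path_symm (hp1 o ho)) _ _ (hp1 y hy)) hCU le_rfl
    rcases Nat.lt_or_ge (G.dist x y) 1 with h2 | h2
    · have h3 : x = y := (hG.dist_eq_zero_iff).mp (by omega)
      subst h3
      exact hub_path_mono h1 le_rfl (by omega)
    · have h3 : G.Adj x y := SimpleGraph.dist_eq_one_iff_adj.mp (by omega)
      exact hub_path_mono (hub_path_cons h3 hx0 h1) le_rfl (by omega)
  have hDm := hP.Dm t ht
  have hDmm := hP.Dmm t ht
  have hctx : P.Ctx G ctr t t N U U S o {o} (fun _ _ => ∅) (fun _ => ∅) := by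
    refine ⟨hoU, le_rfl, ?_, le_rfl, ?_, ?_, ?_, ?_⟩
    · intro x hx
      apply hN
      rw [mem_nb] at hx ⊢
      obtain ⟨y, hy, hxy⟩ := hx
      rw [hU, mem_nb] at hy
      obtain ⟨z, hz, hyz⟩ := hy
      exact ⟨z, hz, by
        have := hG.dist_triangle (u := x) (v := y) (w := z)
        omega⟩
    · intro x hx hox
      exfalso
      exact hox (mem_comp.mpr ⟨hoU, hub_path_conn (hp2 x hx)⟩)
    · intro x hx y hxy hy
      rw [hU, mem_nb] at hx
      obtain ⟨z, hz, hxz⟩ := hx
      refine ⟨t, le_rfl, le_rfl, ?_, z, ?_, y, ?_, ?_⟩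
      · refine lt_of_le_of_lt (Finset.card_le_card ?_) (hthin z hz)
        intro w hw
        rw [mem_ball] at hw ⊢
        have h1 := hG.dist_triangle (u := z) (v := x) (w := w)
        have h2 : G.dist z x = G.dist x z := SimpleGraph.dist_comm
        have h3 := hP.M1 t ht
        omega
      · rw [mem_ball]
        exact hxz
      · rw [mem_ball]
        exact (SimpleGraph.dist_eq_one_iff_adj.mpr hxy).le
      · intro h
        apply hy
        apply hCU
        rw [hC, mem_cl] at hz ⊢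
        rw [← h, hz]
    · intro x hx
      exact ⟨o, Finset.mem_singleton_self o, hub_path_mono (hp2 x hx) hUS (by omega)⟩
    · refine ⟨Finset.mem_singleton_self o, ?_, ?_, ?_, ?_⟩
      · intro z _ l h1 h2
        omega
      · intro l h1 h2
        omega
      · intro z _ l h1 h2
        omega
      · intro z hz a f _ _
        rw [Finset.mem_singleton] at hz
        subst hz
        simp
  have hmain := hrest t N U U S o {o} (fun _ _ => ∅) (fun _ => ∅) le_rfl htT hctx
  refine hmain.mono ?_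
  rw [Finset.Ico_self, Finset.sum_empty, mul_zero, add_zero]
  obtain ⟨i, rfl⟩ : ∃ i, t = i + 1 := ⟨t - 1, by omega⟩
  simp only [Nat.add_sub_cancel] at hS hDmm ⊢
  have hK : 2 * P.D i < P.K i := hP.DK i
  have hBud0 : (1 : ℝ) ≤ P.Bud G θ i U := by
    have h1 := card_nb_le_Bud (G := G) (P := P) hθ0 (i := i) (r := 0) hK (by omega) U
    refine le_trans ?_ h1
    have h2 : 0 < (nb G U 0).card := Finset.card_pos.mpr ⟨o, by
      rw [mem_nb]
      exact ⟨o, hoU, by simp⟩⟩
    exact_mod_cast h2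
  have hdec := dec_le_Bud (P := P) hG hθ0 hθ1 hK N U
  have htl := tl_le_card (P := P) (G := G) hθ0 hθ1 (i := i) (by omega) N U
  have htl0 := tl_nonneg (P := P) (G := G) hθ0 i N U
  have htt := hub_tt_nonneg hP (i + 1) ht
  have hβ := hP.β0 i
  have hCsp := hP.Csp0 i
  have hh1 := hP.hub1 (i + 1) ht
  have hh2 := hP.hub2 (i + 1) ht
  simp only [Nat.add_sub_cancel] at hh1 hh2
  have hD1 : (1 : ℝ) ≤ (P.D (i + 1) : ℝ) := by
    have := hP.D1 (i + 1) ht
    exact_mod_cast (by omega : 1 ≤ P.D (i + 1))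
  have hinv0 : (0 : ℝ) ≤ ((P.D (i + 1) : ℝ) ^ 10)⁻¹ := by positivity
  have hinv1 : ((P.D (i + 1) : ℝ) ^ 10)⁻¹ ≤ 1 := inv_le_one_of_one_le₀ (one_le_pow₀ hD1)
  have hθK : (0 : ℝ) < θ ^ P.K i := pow_pos hθ0 _
  have hNc' : (N.card : ℝ) ≤ (P.Lc (i + 1) : ℝ) ^ 5 := by exact_mod_cast hNc
  have e1 : P.tt (i + 1) * P.tl G θ i N U
      + ((P.D (i + 1) : ℝ) ^ 10)⁻¹ * ∑ x ∈ N, dec G (θ ^ 2) S x ≤
      P.β i / 2 * P.Bud G θ i U := by
    have f1 : ((P.D (i + 1) : ℝ) ^ 10)⁻¹ * ∑ x ∈ N, dec G (θ ^ 2) S x ≤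
        ((P.D (i + 1) : ℝ) ^ 10)⁻¹ * (P.Bud G θ i U + P.tl G θ i N U) :=
      mul_le_mul_of_nonneg_left hdec hinv0
    have f2 : ((P.D (i + 1) : ℝ) ^ 10)⁻¹ * P.tl G θ i N U ≤ 1 * P.tl G θ i N U :=
      mul_le_mul_of_nonneg_right hinv1 htl0
    have f3 : ((P.D (i + 1) : ℝ) ^ 10)⁻¹ * P.Bud G θ i U ≤ P.β i / 8 * P.Bud G θ i U :=
      mul_le_mul_of_nonneg_right hh1 (by linarith)
    have f4 : (P.tt (i + 1) + 1) * P.tl G θ i N U ≤
        (P.tt (i + 1) + 1) * ((P.Lc (i + 1) : ℝ) ^ 5 * θ ^ P.K i) := by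
      refine mul_le_mul_of_nonneg_left (htl.trans ?_) (by linarith)
      exact mul_le_mul_of_nonneg_right hNc' hθK.le
    have f5 : P.β i / 8 * 1 ≤ P.β i / 8 * P.Bud G θ i U :=
      mul_le_mul_of_nonneg_left hBud0 (by linarith)
    have f6 : 0 ≤ P.β i * P.Bud G θ i U := mul_nonneg hβ.le (by linarith)
    nlinarith [f1, f2, f3, f4, f5, f6, hh2]
  have e2 : P.LowH G ctr T θ (i + 1) U + P.lowPart G ctr T θ (i + 1) i U / 2
      = P.LowF G ctr T θ (i + 1) U := by
    unfold LowH LowF
    rw [Finset.sum_range_succ]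
    simp only [Nat.add_sub_cancel]
    ring
  have e3 := lowPart_top (P := P) (θ := θ) (ctr := ctr) (T := T) hG i (by omega) U
  have e4 : 0 ≤ P.Csp i * ((U.filter fun x => P.spec G ctr T i x).card : ℝ) := by positivity
  linarith

end Lev

end Pool.MP_10effd_pr
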