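import Pool.Agent.MP_10effd_pr.LL.Basic

/-! Repeating the phases until everything is completed. -/

set_option autoImplicit false
set_option linter.unusedSectionVars false

namespace Pool.MP_10effd_pr

open Finset

variable {V : Type} [Fintype V] [DecidableEq V] {G : SimpleGraph V} [DecidableRel G.Adj] {ε : ℝ}

/-- The potential of the set `X` of active items. -/
noncomputable def iteratePsi {ι γ : Type} [Fintype γ] [DecidableEq ι] (I : γ → Finset ι)
    (a : γ → ℝ) (T : ι → ℝ) (s θ : ℝ) (X : Finset ι) : ℝ :=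
  2 / (1 - θ) * ∑ j, a j * Real.log (1 + ((I j ∩ X).card : ℝ)) + s / (1 - θ) * ∑ u ∈ X, T u

/-- The weight of the item `u` when `X` is active. -/
noncomputable def iterateLam {ι γ : Type} [Fintype γ] [DecidableEq ι] (I : γ → Finset ι)
    (a : γ → ℝ) (T : ι → ℝ) (s θ : ℝ) (X : Finset ι) (u : ι) : ℝ :=
  2 / (1 - θ) * ∑ j, (if u ∈ I j then a j / (1 + ((I j ∩ X).card : ℝ)) else 0)
    + s / (1 - θ) * T u

theorem iterate_log {k k' : ℕ} :
    Real.log (1 + (k' : ℝ)) ≤ Real.log (1 + (k : ℝ)) - ((k : ℝ) - k') / (1 + (k : ℝ)) := by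
  have hk : (0 : ℝ) < 1 + k := by positivity
  have hk' : (0 : ℝ) < 1 + k' := by positivity
  have h := Real.log_le_sub_one_of_pos (div_pos hk' hk)
  rw [Real.log_div hk'.ne' hk.ne'] at h
  have e : (1 + (k' : ℝ)) / (1 + k) - 1 = - (((k : ℝ) - k') / (1 + k)) := by
    field_simp
    ring
  linarith

theorem iterate_sum_lam {ι γ : Type} [Fintype γ] [DecidableEq ι] (I : γ → Finset ι)
    (a : γ → ℝ) (T : ι → ℝ) (s θ : ℝ) (X Y : Finset ι) :
    ∑ u ∈ Y, iterateLam I a T s θ X u =
      2 / (1 - θ) * ∑ j, a j * (((I j ∩ Y).card : ℝ) / (1 + ((I j ∩ X).card : ℝ)))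
        + s / (1 - θ) * ∑ u ∈ Y, T u := by
  unfold iterateLam
  rw [Finset.sum_add_distrib, ← Finset.mul_sum, ← Finset.mul_sum, Finset.sum_comm]
  congr 2
  refine Finset.sum_congr rfl fun j _ => ?_
  rw [← Finset.sum_filter, Finset.sum_const, Finset.filter_mem_eq_inter, Finset.inter_comm Y,
    nsmul_eq_mul]
  ring

theorem iterate_lam_nonneg {ι γ : Type} [Fintype γ] [DecidableEq ι] {I : γ → Finset ι}
    {a : γ → ℝ} {T : ι → ℝ} {s θ : ℝ} (hT : ∀ u, 0 ≤ T u) (ha : ∀ j, 0 ≤ a j) (hs : 0 ≤ s)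
    (hθ1 : θ < 1) (X : Finset ι) (u : ι) : 0 ≤ iterateLam I a T s θ X u := by
  unfold iterateLam
  have h1 : 0 < 1 - θ := by linarith
  refine add_nonneg (mul_nonneg (by positivity) (Finset.sum_nonneg fun j _ => ?_))
    (mul_nonneg (by positivity) (hT u))
  split_ifs
  · exact div_nonneg (ha j) (by positivity)
  · exact le_rfl

/-- Concavity of the potential. -/
theorem iterate_psi_sub {ι γ : Type} [Fintype γ] [DecidableEq ι] {I : γ → Finset ι}
    {a : γ → ℝ} {T : ι → ℝ} {s θ : ℝ} (ha : ∀ j, 0 ≤ a j)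
    (hθ1 : θ < 1) {X X' : Finset ι} (_hX : X' ⊆ X) :
    iteratePsi I a T s θ X' ≤ iteratePsi I a T s θ X
      - ∑ u ∈ X, iterateLam I a T s θ X u + ∑ u ∈ X', iterateLam I a T s θ X u := by
  have h1 : 0 < 1 - θ := by linarith
  rw [iterate_sum_lam, iterate_sum_lam]
  unfold iteratePsi
  have key : ∑ j, a j * Real.log (1 + ((I j ∩ X').card : ℝ)) ≤
      ∑ j, a j * Real.log (1 + ((I j ∩ X).card : ℝ))
      - ∑ j, a j * (((I j ∩ X).card : ℝ) / (1 + ((I j ∩ X).card : ℝ)))
      + ∑ j, a j * (((I j ∩ X').card : ℝ) / (1 + ((I j ∩ X).card : ℝ))) := by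
    rw [← Finset.sum_sub_distrib, ← Finset.sum_add_distrib]
    refine Finset.sum_le_sum fun j _ => ?_
    have h := iterate_log (k := (I j ∩ X).card) (k' := (I j ∩ X').card)
    have h2 := mul_le_mul_of_nonneg_left h (ha j)
    rw [sub_div] at h2
    linarith
  have key2 := mul_le_mul_of_nonneg_left key (show (0 : ℝ) ≤ 2 / (1 - θ) by positivity)
  linarith

/-- The potential is larger than the expected cost of a phase. -/
theorem iterate_lam_ge {ι γ : Type} [Fintype γ] [DecidableEq ι] {I : γ → Finset ι}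
    {a : γ → ℝ} {T : ι → ℝ} {s θ : ℝ} (ha : ∀ j, 0 ≤ a j)
    (hθ1 : θ < 1) (X : Finset ι) :
    ∑ j ∈ Finset.univ.filter (fun j => (I j ∩ X).Nonempty), a j + s * ∑ u ∈ X, T u
      ≤ (1 - θ) * ∑ u ∈ X, iterateLam I a T s θ X u := by
  have h1 : 0 < 1 - θ := by linarith
  rw [iterate_sum_lam]
  have e : (1 - θ) * (2 / (1 - θ) * ∑ j, a j * (((I j ∩ X).card : ℝ) / (1 + ((I j ∩ X).card : ℝ)))
        + s / (1 - θ) * ∑ u ∈ X, T u) =
      2 * ∑ j, a j * (((I j ∩ X).card : ℝ) / (1 + ((I j ∩ X).card : ℝ)))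
        + s * ∑ u ∈ X, T u := by
    field_simp
  rw [e, Finset.sum_filter]
  refine add_le_add ?_ le_rfl
  rw [Finset.mul_sum]
  refine Finset.sum_le_sum fun j _ => ?_
  split_ifs with h
  · have hc : (1 : ℝ) ≤ ((I j ∩ X).card : ℝ) := by
      exact_mod_cast Finset.card_pos.mpr h
    have h2 : (1 : ℝ) / 2 ≤ ((I j ∩ X).card : ℝ) / (1 + ((I j ∩ X).card : ℝ)) := by
      rw [div_le_div_iff₀ (by norm_num) (by positivity)]
      linarith
    have := mul_le_mul_of_nonneg_left h2 (ha j)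
    linarith
  · have : 0 ≤ a j * (((I j ∩ X).card : ℝ) / (1 + ((I j ∩ X).card : ℝ))) :=
      mul_nonneg (ha j) (by positivity)
    linarith

theorem iterate_psi_nonneg {ι γ : Type} [Fintype γ] [DecidableEq ι] {I : γ → Finset ι}
    {a : γ → ℝ} {T : ι → ℝ} {s θ : ℝ} (hT : ∀ u, 0 ≤ T u) (ha : ∀ j, 0 ≤ a j) (hs : 0 ≤ s)
    (hθ1 : θ < 1) (X : Finset ι) : 0 ≤ iteratePsi I a T s θ X := by
  have h1 : 0 < 1 - θ := by linarith
  unfold iteratePsi
  refine add_nonneg (mul_nonneg (by positivity) (Finset.sum_nonneg fun j _ => ?_))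
    (mul_nonneg (by positivity) (Finset.sum_nonneg fun u _ => hT u))
  refine mul_nonneg (ha j) (Real.log_nonneg ?_)
  have : (0 : ℝ) ≤ ((I j ∩ X).card : ℝ) := by positivity
  linarith

/-- Repeating the phases until everything is completed. -/
theorem iterate_phase {N : Finset V} {L : ℝ} {o : V} {ι : Type} [Fintype ι] [DecidableEq ι]
    {A : ι → Finset V} {T : ι → ℝ} (hT : ∀ u, 0 ≤ T u) {γ : Type} [Fintype γ]
    (I : γ → Finset ι) {a : γ → ℝ} (ha : ∀ j, 0 ≤ a j) {s θ : ℝ} (hs : 0 ≤ s) (hθ0 : 0 ≤ θ)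
    (hθ1 : θ < 1)
    (hph : ∀ X : Finset ι, X.Nonempty → ∃ H, 0 < H ∧
      H ≤ ∑ j ∈ Finset.univ.filter (fun j => (I j ∩ X).Nonempty), a j + s * ∑ u ∈ X, T u ∧
      Phase G ε N L o A X H θ) :
    CovN G ε N L o (Finset.univ.biUnion A)
      (2 / (1 - θ) * ∑ j, a j * Real.log (1 + (I j).card) + s / (1 - θ) * ∑ u, T u) := by
  classical
  intro F hF M Ss ho
  set c0 : ℝ := F M o (Ss ∪ Finset.univ.biUnion A) with hc0
  set act : Finset V → Finset ι := fun S => Finset.univ.filter (fun u => ¬ A u ⊆ S) with hact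
  set Ψ : Finset ι → ℝ := iteratePsi I a T s θ with hΨ
  have h1 : 0 < 1 - θ := by linarith
  have hΨ0 : ∀ X, 0 ≤ Ψ X := fun X => iterate_psi_nonneg hT ha hs hθ1 X
  -- positivity of the potential of nonempty sets
  have hlam0 : ∀ X u, 0 ≤ iterateLam I a T s θ X u :=
    fun X u => iterate_lam_nonneg hT ha hs hθ1 X u
  have hΨpos : ∀ X : Finset ι, X.Nonempty → 0 < Ψ X := by
    intro X hX
    obtain ⟨H, hH, hle, -⟩ := hph X hX
    have e1 := iterate_lam_ge (I := I) (T := T) (s := s) ha hθ1 X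
    have e2 := iterate_psi_sub (I := I) (T := T) (s := s) ha hθ1 (Finset.empty_subset X)
    have e3 := iterate_psi_nonneg (I := I) hT ha hs hθ1 ∅
    rw [Finset.sum_empty] at e2
    have e4 : 0 < ∑ u ∈ X, iterateLam I a T s θ X u := by
      by_contra hcon
      push Not at hcon
      have := mul_nonpos_of_nonneg_of_nonpos h1.le hcon
      linarith
    show 0 < iteratePsi I a T s θ X
    linarith
  -- the empty case
  have hempty : ∀ m ≤ M, ∀ S, Ss ⊆ S → act S = ∅ → F m o S ≤ c0 := by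
    intro m hm S hS hX
    have hsub : Ss ∪ Finset.univ.biUnion A ⊆ S := by
      refine Finset.union_subset hS (Finset.biUnion_subset.mpr fun u _ => ?_)
      by_contra hcon
      have : u ∈ act S := by simp [hact, hcon]
      rw [hX] at this
      simp at this
    exact (hF.pre.mono_le hm o S).trans (hF.pre.anti M o _ _ hsub)
  -- main claim
  have main : ∀ m ≤ M, ∀ S, Ss ⊆ S → (act S).Nonempty → F m o S ≤ c0 + Ψ (act S) := by
    by_contra hcon
    push Not at hcon
    obtain ⟨m1, hm1, S1, hS1, hX1, hlt1⟩ := hcon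
    set W : Finset (ℕ × Finset V) := (Finset.range (M + 1)) ×ˢ
      (Finset.univ.filter fun S => Ss ⊆ S ∧ (act S).Nonempty) with hW
    have hmemW : ∀ w : ℕ × Finset V, w ∈ W ↔ w.1 ≤ M ∧ Ss ⊆ w.2 ∧ (act w.2).Nonempty := by
      intro w
      simp [hW]
    have hWne : W.Nonempty := ⟨(m1, S1), (hmemW _).mpr ⟨hm1, hS1, hX1⟩⟩
    obtain ⟨w, hw, hmax⟩ := Finset.exists_max_image W
      (fun w => (F w.1 o w.2 - c0) / Ψ (act w.2)) hWne
    set ϱ : ℝ := (F w.1 o w.2 - c0) / Ψ (act w.2) with hϱ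
    obtain ⟨hwM, hwS, hwX⟩ := (hmemW w).mp hw
    have hϱ1 : 1 < ϱ := by
      have h2 := hmax (m1, S1) ((hmemW _).mpr ⟨hm1, hS1, hX1⟩)
      have h3 : 1 < (F m1 o S1 - c0) / Ψ (act S1) := by
        rw [lt_div_iff₀ (hΨpos _ hX1)]
        linarith
      exact lt_of_lt_of_le h3 h2
    have hup : ∀ m ≤ M, ∀ S, Ss ⊆ S → F m o S ≤ c0 + ϱ * Ψ (act S) := by
      intro m hm S hS
      rcases (act S).eq_empty_or_nonempty with hX | hX
      · have h2 := hempty m hm S hS hX
        have h3 : 0 ≤ ϱ * Ψ (act S) := mul_nonneg (by linarith) (hΨ0 _)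
        linarith
      · have h2 := hmax (m, S) ((hmemW _).mpr ⟨hm, hS, hX⟩)
        rw [div_le_iff₀ (hΨpos _ hX)] at h2
        linarith
    obtain ⟨H, hH, hle, hP⟩ := hph (act w.2) hwX
    have hlamge := iterate_lam_ge (I := I) (T := T) (s := s) ha hθ1 (act w.2)
    set Λ : ℝ := ∑ u ∈ act w.2, iterateLam I a T s θ (act w.2) u with hΛ
    have hPh := hP F hF w.1 w.2 (c0 + ϱ * (Ψ (act w.2) - Λ))
      (fun u => ϱ * iterateLam I a T s θ (act w.2) u)
      (fun u => mul_nonneg (by linarith) (hlam0 _ u)) ?_ w.2 le_rfl (hwS ho)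
    · have e1 : (act w.2).filter (fun u => ¬ A u ⊆ w.2) = act w.2 := by
        simp only [hact, Finset.filter_filter, and_self]
      rw [e1, ← Finset.mul_sum, ← hΛ] at hPh
      have e2 : F w.1 o w.2 = c0 + ϱ * Ψ (act w.2) := by
        rw [hϱ, div_mul_cancel₀ _ (hΨpos _ hwX).ne']
        ring
      have e3 : ϱ * H ≤ ϱ * ((1 - θ) * Λ) :=
        mul_le_mul_of_nonneg_left (hle.trans hlamge) (by linarith)
      have e4 : H < ϱ * H := by nlinarith
      have e5 : ϱ * ((1 - θ) * Λ) = ϱ * Λ - θ * (ϱ * Λ) := by ring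
      have e6 : ϱ * (Ψ (act w.2) - Λ) = ϱ * Ψ (act w.2) - ϱ * Λ := by ring
      linarith
    · intro m hm S hS _
      have hsub : act S ⊆ act w.2 := by
        intro u hu
        simp only [hact, Finset.mem_filter, Finset.mem_univ, true_and] at hu ⊢
        exact fun h => hu (h.trans hS)
      have e1 : (act w.2).filter (fun u => ¬ A u ⊆ S) = act S := by
        ext u
        simp only [Finset.mem_filter]
        constructor
        · rintro ⟨-, h⟩
          simp only [hact, Finset.mem_filter, Finset.mem_univ, true_and]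
          exact h
        · intro h
          refine ⟨hsub h, ?_⟩
          simp only [hact, Finset.mem_filter, Finset.mem_univ, true_and] at h
          exact h
      rw [e1, ← Finset.mul_sum]
      have e2 := hup m (hm.trans hwM) S (hwS.trans hS)
      have e3 := iterate_psi_sub (I := I) (T := T) (s := s) ha hθ1 hsub
      have e4 := mul_le_mul_of_nonneg_left e3 (show (0 : ℝ) ≤ ϱ by linarith)
      have e5 : ϱ * (iteratePsi I a T s θ (act w.2)
          - ∑ u ∈ act w.2, iterateLam I a T s θ (act w.2) u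
          + ∑ u ∈ act S, iterateLam I a T s θ (act w.2) u)
          = ϱ * (Ψ (act w.2) - Λ) + ϱ * ∑ u ∈ act S, iterateLam I a T s θ (act w.2) u := by
        simp only [hΨ, hΛ]
        ring
      have e6 : ϱ * iteratePsi I a T s θ (act S) = ϱ * Ψ (act S) := rfl
      linarith
  -- conclusion
  have hfin : F M o Ss ≤ c0 + Ψ (act Ss) := by
    rcases (act Ss).eq_empty_or_nonempty with hX | hX
    · have := hempty M le_rfl Ss le_rfl hX
      have := hΨ0 (act Ss)
      linarith
    · exact main M le_rfl Ss le_rfl hX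
  have hmono : Ψ (act Ss) ≤
      2 / (1 - θ) * ∑ j, a j * Real.log (1 + (I j).card) + s / (1 - θ) * ∑ u, T u := by
    simp only [hΨ, iteratePsi]
    refine add_le_add (mul_le_mul_of_nonneg_left (Finset.sum_le_sum fun j _ => ?_)
      (by positivity)) (mul_le_mul_of_nonneg_left ?_ (by positivity))
    · refine mul_le_mul_of_nonneg_left (Real.log_le_log (by positivity) ?_) (ha j)
      have : ((I j ∩ act Ss).card : ℝ) ≤ ((I j).card : ℝ) := by
        exact_mod_cast Finset.card_le_card Finset.inter_subset_left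
      linarith
    · exact Finset.sum_le_sum_of_subset_of_nonneg (Finset.subset_univ _) fun u _ _ => hT u
  linarith

end Pool.MP_10effd_pr
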