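import Pool.Agent.MP_10effd_pr.LL.Basic

/-! A covering bound with an exit penalty gives a session (finite-horizon dynamic programming). -/

set_option autoImplicit false
set_option linter.unusedSectionVars false

namespace Pool.MP_10effd_pr

open Finset

variable {V : Type} [Fintype V] [DecidableEq V] {G : SimpleGraph V} [DecidableRel G.Adj] {ε : ℝ}

/-- Finite-horizon value of the game that ends when `K` is visited and the walk is at `p`
(cost `0`), or when the walk leaves `N` (cost `L`). -/
noncomputable def gval (G : SimpleGraph V) [DecidableRel G.Adj] (ε : ℝ) (N : Finset V) (L : ℝ)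
    (p : V) (K : Finset V) : ℕ → V → Finset V → ℝ
  | 0, _, _ => 0
  | m + 1, x, S =>
      if x = p ∧ K ⊆ S then 0 else if x ∈ N then
        1 + (1 - ε) * ((∑ y ∈ G.neighborFinset x, gval G ε N L p K m y (insert y S))
            / (G.degree x : ℝ))
          + ε * ⨅ y : {y // G.Adj x y}, gval G ε N L p K m y.1 (insert y.1 S)
      else L

section gval

variable {N : Finset V} {L : ℝ} {p : V} {K : Finset V}

theorem gval_nonneg (h0 : 0 < ε) (h1 : ε < 1) (hd : ∀ x, 0 < G.degree x) (hL : 0 ≤ L) :
    ∀ (m : ℕ) (x : V) (S : Finset V), 0 ≤ gval G ε N L p K m x S := by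
  intro m
  induction m with
  | zero => intro x S; simp [gval]
  | succ m ih =>
    intro x S
    rw [gval]
    split_ifs with h h'
    · exact le_rfl
    swap
    · exact hL
    · have h2 : 0 ≤ ∑ y ∈ G.neighborFinset x, gval G ε N L p K m y (insert y S) :=
        Finset.sum_nonneg fun y _ => ih _ _
      have h3 := inf_nonneg (F := fun y => gval G ε N L p K m y (insert y S)) (hd x)
        fun y _ => ih _ _
      have h4 : 0 ≤ (∑ y ∈ G.neighborFinset x, gval G ε N L p K m y (insert y S))
          / (G.degree x : ℝ) := by positivity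
      have h5 : 0 ≤ 1 - ε := by linarith
      have := mul_nonneg h5 h4
      have := mul_nonneg h0.le h3
      linarith

theorem gval_succ_mono (h0 : 0 < ε) (h1 : ε < 1) (hd : ∀ x, 0 < G.degree x) (hL : 0 ≤ L) :
    ∀ (m : ℕ) (x : V) (S : Finset V), gval G ε N L p K m x S ≤ gval G ε N L p K (m + 1) x S := by
  intro m
  induction m with
  | zero => intro x S; rw [gval]; exact gval_nonneg h0 h1 hd hL _ _ _
  | succ m ih =>
    intro x S
    rw [gval]
    conv_rhs => rw [gval]
    split_ifs with h h'
    · exact le_rfl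
    swap
    · exact le_rfl
    · have h2 : ∑ y ∈ G.neighborFinset x, gval G ε N L p K m y (insert y S)
          ≤ ∑ y ∈ G.neighborFinset x, gval G ε N L p K (m + 1) y (insert y S) :=
        Finset.sum_le_sum fun y _ => ih _ _
      have h3 := inf_mono (F := fun y => gval G ε N L p K m y (insert y S))
        (F' := fun y => gval G ε N L p K (m + 1) y (insert y S)) (hd x) fun y _ => ih _ _
      have h5 : 0 ≤ 1 - ε := by linarith
      have h6 := div_le_div_of_nonneg_right h2 (Nat.cast_nonneg (α := ℝ) (G.degree x))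
      have := mul_le_mul_of_nonneg_left h6 h5
      have := mul_le_mul_of_nonneg_left h3 h0.le
      linarith

theorem gval_anti (h0 : 0 < ε) (h1 : ε < 1) (hd : ∀ x, 0 < G.degree x) (hL : 0 ≤ L) :
    ∀ (m : ℕ) (x : V) (S S' : Finset V), S ⊆ S' →
      gval G ε N L p K m x S' ≤ gval G ε N L p K m x S := by
  intro m
  induction m with
  | zero => intro x S S' _; simp [gval]
  | succ m ih =>
    intro x S S' hS
    by_cases h : x = p ∧ K ⊆ S'
    · have : gval G ε N L p K (m + 1) x S' = 0 := by rw [gval, if_pos h]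
      rw [this]
      exact gval_nonneg h0 h1 hd hL _ _ _
    · have h' : ¬ (x = p ∧ K ⊆ S) := fun hh => h ⟨hh.1, hh.2.trans hS⟩
      rw [gval, gval, if_neg h, if_neg h']
      split_ifs with hN
      swap
      · exact le_rfl
      · have h2 : ∑ y ∈ G.neighborFinset x, gval G ε N L p K m y (insert y S')
            ≤ ∑ y ∈ G.neighborFinset x, gval G ε N L p K m y (insert y S) :=
          Finset.sum_le_sum fun y _ => ih _ _ _ (Finset.insert_subset_insert y hS)
        have h3 := inf_mono (F := fun y => gval G ε N L p K m y (insert y S'))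
          (F' := fun y => gval G ε N L p K m y (insert y S)) (hd x)
            fun y _ => ih _ _ _ (Finset.insert_subset_insert y hS)
        have h5 : 0 ≤ 1 - ε := by linarith
        have h6 := div_le_div_of_nonneg_right h2 (Nat.cast_nonneg (α := ℝ) (G.degree x))
        have := mul_le_mul_of_nonneg_left h6 h5
        have := mul_le_mul_of_nonneg_left h3 h0.le
        linarith

/-- A kernel dominates the optimal choice. -/
theorem ker_opt {P : V → V → ℝ} (hP : Ker G ε P) (hd : ∀ x, 0 < G.degree x)
    (F : V → ℝ) (x : V) :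
    (1 - ε) * ((∑ y ∈ G.neighborFinset x, F y) / (G.degree x : ℝ))
      + ε * (⨅ y : {y // G.Adj x y}, F y.1) ≤ ∑ y, P x y * F y := by
  rw [← hP.sum_nbr x F]
  set I := ⨅ y : {y // G.Adj x y}, F y.1 with hI
  have hdeg : (0 : ℝ) < G.degree x := by exact_mod_cast hd x
  have hs1 : ∑ y ∈ G.neighborFinset x, P x y = 1 := by
    have := hP.sum_nbr x (fun _ => (1 : ℝ))
    simp only [mul_one] at this
    rw [this, hP.sum_one]
  have key : ∑ y ∈ G.neighborFinset x, (P x y - (1 - ε) / (G.degree x : ℝ)) * I
      ≤ ∑ y ∈ G.neighborFinset x, (P x y - (1 - ε) / (G.degree x : ℝ)) * F y := by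
    apply Finset.sum_le_sum
    intro y hy
    rw [SimpleGraph.mem_neighborFinset] at hy
    exact mul_le_mul_of_nonneg_left (inf_le hy F) (sub_nonneg.mpr (hP.lower x y hy))
  have e1 : ∑ y ∈ G.neighborFinset x, (P x y - (1 - ε) / (G.degree x : ℝ)) * I = ε * I := by
    rw [← Finset.sum_mul, Finset.sum_sub_distrib, hs1, Finset.sum_const,
      SimpleGraph.card_neighborFinset_eq_degree, nsmul_eq_mul]
    field_simp
    ring
  have e2 : ∑ y ∈ G.neighborFinset x, (P x y - (1 - ε) / (G.degree x : ℝ)) * F y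
      = ∑ y ∈ G.neighborFinset x, P x y * F y
        - (1 - ε) * ((∑ y ∈ G.neighborFinset x, F y) / (G.degree x : ℝ)) := by
    simp only [sub_mul, Finset.sum_sub_distrib, ← Finset.mul_sum]
    ring
  rw [e1, e2] at key
  linarith

theorem gval_fam (h0 : 0 < ε) (h1 : ε < 1) (hd : ∀ x, 0 < G.degree x) (hL : 0 < L)
    (hp : p ∈ N) : FamN G ε N L (gval G ε N L p K) := by
  refine ⟨⟨gval_succ_mono h0 h1 hd hL.le, gval_anti h0 h1 hd hL.le, ?_⟩, 0, ?_, ?_, ?_⟩
  · intro P hP m x S hx
    have hn : 0 ≤ ∑ y, P x y * gval G ε N L p K m y (insert y S) :=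
      Finset.sum_nonneg fun y _ => mul_nonneg (hP.nonneg h1 x y) (gval_nonneg h0 h1 hd hL.le _ _ _)
    rw [gval]
    split_ifs with h
    · linarith
    · have := ker_opt hP hd (fun y => gval G ε N L p K m y (insert y S)) x
      linarith
  · intro x S; rw [gval]
  · intro m x S; exact gval_nonneg h0 h1 hd hL.le m x S
  · intro m x S hx
    rw [zero_add]
    cases m with
    | zero => rw [gval]; exact hL.le
    | succ m =>
      have hxp : ¬ (x = p ∧ K ⊆ S) := fun hh => hx (hh.1 ▸ hp)
      rw [gval, if_neg hxp, if_neg hx]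

/-- The optimal kernel towards a chosen neighbour. -/
theorem exists_ker (h0 : 0 < ε) (h1 : ε < 1) (hd : ∀ x, 0 < G.degree x) (F : V → ℝ) (x : V) :
    ∃ P : V → V → ℝ, Ker G ε P ∧ ∑ y, P x y * F y =
      (1 - ε) * ((∑ y ∈ G.neighborFinset x, F y) / (G.degree x : ℝ))
      + ε * (⨅ y : {y // G.Adj x y}, F y.1) := by
  have hex : ∀ z : V, ∃ y, G.Adj z y ∧ F y = ⨅ y : {y // G.Adj z y}, F y.1 :=
    fun z => exists_inf (hd z) F
  choose c hc hc' using hex
  have hsum : ∀ (z : V) (H : V → ℝ),
      ∑ y, ((if G.Adj z y then (1 - ε) / (G.degree z : ℝ) else 0) + (if y = c z then ε else 0))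
        * H y = (1 - ε) * ((∑ y ∈ G.neighborFinset z, H y) / (G.degree z : ℝ)) + ε * H (c z) := by
    intro z H
    simp only [add_mul, Finset.sum_add_distrib, ite_mul, zero_mul]
    congr 1
    · rw [← Finset.sum_filter]
      have : Finset.univ.filter (fun y => G.Adj z y) = G.neighborFinset z := by
        ext y; simp
      rw [this, ← Finset.mul_sum]
      ring
    · rw [Finset.sum_ite_eq' Finset.univ (c z) (fun y => ε * H y)]
      simp
  refine ⟨fun z y => (if G.Adj z y then (1 - ε) / (G.degree z : ℝ) else 0)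
    + (if y = c z then ε else 0), ⟨?_, ?_, ?_⟩, ?_⟩
  · intro z y hzy
    have hne : y ≠ c z := fun h => hzy (h ▸ hc z)
    simp [hzy, hne]
  · intro z y hzy
    simp only [if_pos hzy]
    have : 0 ≤ (if y = c z then ε else 0) := by split_ifs <;> linarith
    linarith
  · intro z
    have := hsum z (fun _ => 1)
    simp only [mul_one] at this
    rw [this, Finset.sum_const, SimpleGraph.card_neighborFinset_eq_degree, nsmul_eq_mul, mul_one]
    have hdeg : (0 : ℝ) < G.degree z := by exact_mod_cast hd z
    rw [div_self hdeg.ne']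
    ring
  · rw [hsum x F, hc' x]

/-- The finite-horizon plan. -/
theorem plan_aux (h0 : 0 < ε) (h1 : ε < 1) (hd : ∀ x, 0 < G.degree x) (hL : 0 < L) :
    ∀ (k : ℕ) (x : V) (S : Finset V), x ∈ S → x ∈ nb G N 1 →
      ∃ (T μ : ℝ) (ex tm : V → ℝ), 0 ≤ T ∧ 0 ≤ μ ∧ (∀ z, 0 ≤ ex z) ∧ (∀ z, 0 ≤ tm z) ∧
        μ + ∑ z, ex z + ∑ z, tm z = 1 ∧ T + L * ∑ z, ex z = gval G ε N L p K k x S ∧
        k * ∑ z, tm z ≤ T ∧ (∀ z, z ∉ nb G N 1 → ex z = 0 ∧ tm z = 0) ∧
        ∀ F, Pre G ε N F → ∀ m : ℕ,
          F m x S ≤ T + μ * F m p K + ∑ z, (ex z + tm z) * F m z {z} := by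
  intro k
  induction k with
  | zero =>
    intro x S hx hxN
    refine ⟨0, 0, fun _ => 0, fun z => if z = x then 1 else 0, le_rfl, le_rfl, fun _ => le_rfl,
      fun z => by positivity, by simp, by simp [gval], by simp, ?_, ?_⟩
    · intro z hz
      exact ⟨rfl, if_neg fun h => hz (by rw [h]; exact hxN)⟩
    · intro F hF m
      have h := hF.anti m x {x} S (Finset.singleton_subset_iff.mpr hx)
      have e : ∑ z, ((0 : ℝ) + if z = x then 1 else 0) * F m z {z} = F m x {x} := by
        simp only [zero_add, ite_mul, one_mul, zero_mul]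
        rw [Finset.sum_ite_eq' Finset.univ x (fun z => F m z {z})]
        simp
      rw [e]
      linarith
  | succ k ih =>
    intro x S hx hxN
    by_cases hA : x = p ∧ K ⊆ S
    · refine ⟨0, 1, fun _ => 0, fun _ => 0, le_rfl, zero_le_one, fun _ => le_rfl,
        fun _ => le_rfl, by simp, ?_, by simp, fun _ _ => ⟨rfl, rfl⟩, ?_⟩
      · rw [gval, if_pos hA]; simp
      · intro F hF m
        have h := hF.anti m x K S hA.2
        rw [hA.1] at h ⊢
        simpa using h
    by_cases hB : x ∉ N
    · refine ⟨0, 0, fun z => if z = x then 1 else 0, fun _ => 0, le_rfl, le_rfl,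
        fun z => by positivity, fun _ => le_rfl, by simp, ?_, by simp, ?_, ?_⟩
      · rw [gval, if_neg hA, if_neg hB]; simp
      · intro z hz
        exact ⟨if_neg fun h => hz (by rw [h]; exact hxN), rfl⟩
      · intro F hF m
        have h := hF.anti m x {x} S (Finset.singleton_subset_iff.mpr hx)
        have e : ∑ z, ((if z = x then (1 : ℝ) else 0) + 0) * F m z {z} = F m x {x} := by
          simp only [add_zero, ite_mul, one_mul, zero_mul]
          rw [Finset.sum_ite_eq' Finset.univ x (fun z => F m z {z})]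
          simp
        rw [e]
        linarith
    rw [not_not] at hB
    obtain ⟨P, hP, hPeq⟩ := exists_ker h0 h1 hd (fun y => gval G ε N L p K k y (insert y S)) x
    -- plans for the neighbours
    have hih : ∀ y : V, ∃ (T μ : ℝ) (ex tm : V → ℝ), G.Adj x y →
        (0 ≤ T ∧ 0 ≤ μ ∧ (∀ z, 0 ≤ ex z) ∧ (∀ z, 0 ≤ tm z) ∧
        μ + ∑ z, ex z + ∑ z, tm z = 1 ∧
        T + L * ∑ z, ex z = gval G ε N L p K k y (insert y S) ∧
        k * ∑ z, tm z ≤ T ∧ (∀ z, z ∉ nb G N 1 → ex z = 0 ∧ tm z = 0) ∧
        ∀ F, Pre G ε N F → ∀ m : ℕ,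
          F m y (insert y S) ≤ T + μ * F m p K + ∑ z, (ex z + tm z) * F m z {z}) := by
      intro y
      by_cases hxy : G.Adj x y
      · have hy : y ∈ nb G N 1 := by
          rw [mem_nb]
          refine ⟨x, hB, ?_⟩
          rw [SimpleGraph.dist_comm]
          exact (SimpleGraph.dist_eq_one_iff_adj.mpr hxy).le
        obtain ⟨T, μ, ex, tm, hh⟩ := ih y (insert y S) (Finset.mem_insert_self _ _) hy
        exact ⟨T, μ, ex, tm, fun _ => hh⟩
      · exact ⟨0, 0, fun _ => 0, fun _ => 0, fun hh => absurd hh hxy⟩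
    choose T μ ex tm hh using hih
    have hP0 : ∀ y, 0 ≤ P x y := fun y => hP.nonneg h1 x y
    have hPz : ∀ y, ¬ G.Adj x y → P x y = 0 := fun y hy => hP.supp x y hy
    -- weighted comparison along neighbours
    have hle : ∀ f g : V → ℝ, (∀ y, G.Adj x y → f y ≤ g y) →
        ∑ y, P x y * f y ≤ ∑ y, P x y * g y := by
      intro f g hfg
      apply Finset.sum_le_sum
      intro y _
      by_cases hxy : G.Adj x y
      · exact mul_le_mul_of_nonneg_left (hfg y hxy) (hP0 y)
      · rw [hPz y hxy, zero_mul, zero_mul]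
    have heq : ∀ f g : V → ℝ, (∀ y, G.Adj x y → f y = g y) →
        ∑ y, P x y * f y = ∑ y, P x y * g y := fun f g hfg =>
      le_antisymm (hle f g fun y hy => (hfg y hy).le) (hle g f fun y hy => (hfg y hy).ge)
    have hnn : ∀ f : V → ℝ, (∀ y, G.Adj x y → 0 ≤ f y) → 0 ≤ ∑ y, P x y * f y := by
      intro f hf
      have := hle (fun _ => 0) f hf
      simpa using this
    have hswap : ∀ f : V → V → ℝ, ∑ z, ∑ y, P x y * f y z = ∑ y, P x y * ∑ z, f y z := by
      intro f
      rw [Finset.sum_comm]
      exact Finset.sum_congr rfl fun y _ => by rw [Finset.mul_sum]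
    have hone : ∑ y, P x y = 1 := hP.sum_one x
    refine ⟨1 + ∑ y, P x y * T y, ∑ y, P x y * μ y, fun z => ∑ y, P x y * ex y z,
      fun z => ∑ y, P x y * tm y z, ?_, ?_, ?_, ?_, ?_, ?_, ?_, ?_, ?_⟩
    · have := hnn T fun y hy => (hh y hy).1
      linarith
    · exact hnn μ fun y hy => (hh y hy).2.1
    · intro z
      exact hnn (fun y => ex y z) fun y hy => (hh y hy).2.2.1 z
    · intro z
      exact hnn (fun y => tm y z) fun y hy => (hh y hy).2.2.2.1 z
    · rw [hswap, hswap, ← Finset.sum_add_distrib, ← Finset.sum_add_distrib]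
      have := heq (fun y => μ y + ∑ z, ex y z + ∑ z, tm y z) (fun _ => 1)
        fun y hy => (hh y hy).2.2.2.2.1
      simp only [mul_one] at this
      rw [hone] at this
      rw [← this]
      exact Finset.sum_congr rfl fun y _ => by ring
    · rw [hswap, gval, if_neg hA, if_pos hB]
      have := heq (fun y => T y + L * ∑ z, ex y z)
        (fun y => gval G ε N L p K k y (insert y S)) fun y hy => (hh y hy).2.2.2.2.2.1
      rw [add_assoc, add_assoc, ← hPeq, ← this, Finset.mul_sum, ← Finset.sum_add_distrib]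
      congr 1
      exact Finset.sum_congr rfl fun y _ => by ring
    · rw [hswap]
      have h2 := hle (fun y => ((k : ℝ) + 1) * ∑ z, tm y z) (fun y => T y + 1) ?_
      · have e1 : ∑ y, P x y * (T y + 1) = 1 + ∑ y, P x y * T y := by
          simp only [mul_add, mul_one, Finset.sum_add_distrib, hone]
          ring
        rw [e1] at h2
        refine le_trans (le_of_eq ?_) h2
        push_cast
        rw [Finset.mul_sum]
        exact Finset.sum_congr rfl fun y _ => by ring
      · intro y hy
        obtain ⟨-, hmu, hex, hto, hsum, -, hk, -⟩ := hh y hy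
        have h3 : 0 ≤ ∑ z, ex y z := Finset.sum_nonneg fun z _ => hex z
        have h4 : ((k : ℝ) + 1) * ∑ z, tm y z = k * ∑ z, tm y z + ∑ z, tm y z := by ring
        rw [h4]
        linarith
    · intro z hz
      constructor
      · apply Finset.sum_eq_zero
        intro y _
        by_cases hxy : G.Adj x y
        · rw [((hh y hxy).2.2.2.2.2.2.2.1 z hz).1, mul_zero]
        · rw [hPz y hxy, zero_mul]
      · apply Finset.sum_eq_zero
        intro y _
        by_cases hxy : G.Adj x y
        · rw [((hh y hxy).2.2.2.2.2.2.2.1 z hz).2, mul_zero]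
        · rw [hPz y hxy, zero_mul]
    · intro F hF m
      have e1 := hF.mono m x S
      have e2 := hF.step P hP m x S hB
      have e3 := hle (fun y => F m y (insert y S))
        (fun y => T y + μ y * F m p K + ∑ z, (ex y z + tm y z) * F m z {z})
        fun y hy => (hh y hy).2.2.2.2.2.2.2.2 F hF m
      have e4 : ∑ y, P x y * (T y + μ y * F m p K + ∑ z, (ex y z + tm y z) * F m z {z})
          = ∑ y, P x y * T y + (∑ y, P x y * μ y) * F m p K
            + ∑ z, ((∑ y, P x y * ex y z) + ∑ y, P x y * tm y z) * F m z {z} := by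
        have e5 : ∑ z, ((∑ y, P x y * ex y z) + ∑ y, P x y * tm y z) * F m z {z}
            = ∑ y, P x y * ∑ z, (ex y z + tm y z) * F m z {z} := by
          rw [← hswap]
          apply Finset.sum_congr rfl
          intro z _
          rw [← Finset.sum_add_distrib, Finset.sum_mul]
          exact Finset.sum_congr rfl fun y _ => by ring
        rw [e5, Finset.sum_mul, ← Finset.sum_add_distrib, ← Finset.sum_add_distrib]
        exact Finset.sum_congr rfl fun y _ => by ring
      rw [e4] at e3
      linarith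

end gval

/-- A covering bound with a penalty gives a session that rarely fails. -/
theorem exists_plan (h0 : 0 < ε) (h1 : ε < 1) (hd : ∀ x, 0 < G.degree x)
    {N : Finset V} {L B : ℝ} (hL : 0 < L) (hB : 0 ≤ B) {p : V} (hp : p ∈ N) {K : Finset V}
    (h : CovN G ε N L p K B) :
    ∃ (T : ℝ) (ν : V → ℝ), 0 ≤ T ∧ (∀ z, 0 ≤ ν z) ∧ (∀ z, z ∉ nb G N 1 → ν z = 0) ∧
      ∑ z, ν z ≤ 1 ∧ T + L * ∑ z, ν z ≤ B + 1 ∧ Sess G ε N p K T ν := by
  have hfam := gval_fam (K := K) h0 h1 hd hL hp
  have hval : ∀ m, gval G ε N L p K m p {p} ≤ B := by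
    intro m
    have h2 := h _ hfam m {p} (Finset.mem_singleton_self p)
    have h3 : gval G ε N L p K m p ({p} ∪ K) = 0 := by
      cases m with
      | zero => rw [gval]
      | succ m => rw [gval, if_pos ⟨rfl, Finset.subset_union_right⟩]
    rw [h3, add_zero] at h2
    exact h2
  obtain ⟨k, hk⟩ := exists_nat_ge (max 1 (L * B))
  have hk1 : (1 : ℝ) ≤ k := (le_max_left _ _).trans hk
  have hk2 : L * B ≤ k := (le_max_right _ _).trans hk
  have hpN : p ∈ nb G N 1 := by
    rw [mem_nb]
    exact ⟨p, hp, by simp⟩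
  obtain ⟨T, μ, ex, tm, hT, hμ, hex, hto, hsum, hgv, hkt, hsupp, hF⟩ :=
    plan_aux (N := N) (p := p) (K := K) h0 h1 hd hL k p {p} (Finset.mem_singleton_self p) hpN
  have hb := hval k
  have hex0 : 0 ≤ ∑ z, ex z := Finset.sum_nonneg fun z _ => hex z
  have hto0 : 0 ≤ ∑ z, tm z := Finset.sum_nonneg fun z _ => hto z
  have hTB : T ≤ B := by
    have := mul_nonneg hL.le hex0
    linarith
  have hLt : L * ∑ z, tm z ≤ 1 := by
    have e1 : (k : ℝ) * ∑ z, tm z ≤ B := hkt.trans hTB
    have e2 : (k : ℝ) * (L * ∑ z, tm z) ≤ k * 1 := by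
      calc (k : ℝ) * (L * ∑ z, tm z) = L * (k * ∑ z, tm z) := by ring
        _ ≤ L * B := mul_le_mul_of_nonneg_left e1 hL.le
        _ ≤ k * 1 := by rw [mul_one]; exact hk2
    exact le_of_mul_le_mul_left e2 (by linarith)
  refine ⟨T, fun z => ex z + tm z, hT, fun z => add_nonneg (hex z) (hto z), ?_, ?_, ?_, ?_⟩
  · intro z hz
    change ex z + tm z = 0
    rw [(hsupp z hz).1, (hsupp z hz).2, add_zero]
  · rw [Finset.sum_add_distrib]
    linarith
  · rw [Finset.sum_add_distrib]
    have : L * (∑ z, ex z + ∑ z, tm z) = L * ∑ z, ex z + L * ∑ z, tm z := by ring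
    linarith
  · intro F hFP m S hpS
    have hpre : Pre G ε N (fun m x S' => F m x (S ∪ S')) := by
      refine ⟨fun m x S' => hFP.mono m x _, fun m x S1 S2 h12 =>
        hFP.anti m x _ _ (Finset.union_subset_union le_rfl h12), ?_⟩
      intro P hP m x S' hx
      have := hFP.step P hP m x (S ∪ S') hx
      simp only [Finset.union_insert]
      exact this
    have key := hF _ hpre m
    have e1 : S ∪ {p} = S := by
      rw [Finset.union_comm]
      exact Finset.union_eq_right.mpr (Finset.singleton_subset_iff.mpr hpS)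
    have e2 : ∀ z : V, S ∪ {z} = insert z S := by
      intro z
      rw [Finset.union_comm]
      rfl
    simp only [e1] at key
    simp only [e2] at key
    have e3 : μ = 1 - ∑ z, (ex z + tm z) := by
      rw [Finset.sum_add_distrib]
      linarith
    rw [e3] at key
    exact key

end Pool.MP_10effd_pr
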