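import Pool.Agent.MP_10effd_pr.LL.Defs0

set_option autoImplicit false
set_option linter.unusedSectionVars false

namespace Pool.MP_10effd_pr

open Finset

variable {V : Type} [Fintype V] [DecidableEq V] {G : SimpleGraph V} [DecidableRel G.Adj] {ε : ℝ}

/-- visited set after the covers from the gates in `S` -/
private def tourU (Γ : Finset V) (K : V → Finset V) (S₀ S : Finset V) : Finset V :=
  S₀ ∪ S ∪ (S ∩ Γ).biUnion K

private def tourG (Γ : Finset V) (K : V → Finset V) (q : V → ℝ) (S₀ : Finset V)
    (F : ℕ → V → Finset V → ℝ) (m : ℕ) (x : V) (S : Finset V) : ℝ :=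
  F m x (tourU Γ K S₀ S) + ∑ g ∈ S ∩ Γ, q g

private theorem tour_ne (S : Finset V) :
    (Finset.univ.filter (fun S' : Finset V => S ⊆ S')).Nonempty :=
  ⟨S, Finset.mem_filter.mpr ⟨Finset.mem_univ _, Finset.Subset.refl S⟩⟩

private noncomputable def tourE (Γ : Finset V) (K : V → Finset V) (q : V → ℝ) (S₀ : Finset V)
    (F : ℕ → V → Finset V → ℝ) (m : ℕ) (x : V) (S : Finset V) : ℝ :=
  (Finset.univ.filter (fun S' : Finset V => S ⊆ S')).sup' (tour_ne S)
    (fun S' => tourG Γ K q S₀ F m x S')

private theorem le_tourE {Γ : Finset V} {K : V → Finset V} {q : V → ℝ} {S₀ : Finset V}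
    {F : ℕ → V → Finset V → ℝ} {m : ℕ} {x : V} {S S' : Finset V} (h : S ⊆ S') :
    tourG Γ K q S₀ F m x S' ≤ tourE Γ K q S₀ F m x S :=
  Finset.le_sup' (fun S' => tourG Γ K q S₀ F m x S')
    (Finset.mem_filter.mpr ⟨Finset.mem_univ _, h⟩)

private theorem tourE_le {Γ : Finset V} {K : V → Finset V} {q : V → ℝ} {S₀ : Finset V}
    {F : ℕ → V → Finset V → ℝ} {m : ℕ} {x : V} {S : Finset V} {c : ℝ}
    (h : ∀ S', S ⊆ S' → tourG Γ K q S₀ F m x S' ≤ c) :
    tourE Γ K q S₀ F m x S ≤ c :=
  Finset.sup'_le _ _ fun S' hS' => h S' (Finset.mem_filter.mp hS').2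

/-- Cover `Y` from `y`; whenever a gate `g` is met for the first time, cover `K g` from `g`. -/
theorem cov_gates (h1 : ε < 1) {N : Finset V} {L : ℝ} {y : V} {Y Γ : Finset V} {K : V → Finset V}
    {q : V → ℝ} {q0 : ℝ} (hy : y ∉ Γ) (hΓ : Γ ⊆ Y) (hq : ∀ g ∈ Γ, 0 ≤ q g)
    (hY : CovN G ε N L y Y q0) (hK : ∀ g ∈ Γ, CovN G ε N L g (K g) (q g)) :
    CovN G ε N L y (Y ∪ Γ.biUnion K) (q0 + ∑ g ∈ Γ, q g) := by
  intro F hF m₀ S₀ hS₀
  obtain ⟨b, hb0, hbm, hbN⟩ := hF.base
  have hqle : ∀ S : Finset V, ∑ g ∈ S ∩ Γ, q g ≤ ∑ g ∈ Γ, q g := fun S =>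
    Finset.sum_le_sum_of_subset_of_nonneg Finset.inter_subset_right fun g hg _ => hq g hg
  have huniv : ∀ m x, tourG Γ K q S₀ F m x Finset.univ
      = F m x (tourU Γ K S₀ Finset.univ) + ∑ g ∈ Γ, q g := by
    intro m x
    rw [tourG, Finset.univ_inter]
  have hE : FamN G ε N L (tourE Γ K q S₀ F) := by
    refine ⟨⟨?_, ?_, ?_⟩, b + ∑ g ∈ Γ, q g, ?_, ?_, ?_⟩
    · intro m x S
      refine tourE_le fun S' hS' => le_trans ?_ (le_tourE hS')
      have := hF.pre.mono m x (tourU Γ K S₀ S')
      unfold tourG
      linarith
    · intro m x S S' hSS'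
      exact tourE_le fun S'' hS'' => le_tourE (hSS'.trans hS'')
    · intro P hP m x S hx
      refine tourE_le fun S' hS' => ?_
      have hstep := hF.pre.step P hP m x (tourU Γ K S₀ S') hx
      have hz : ∀ z, F m z (insert z (tourU Γ K S₀ S')) + ∑ g ∈ S' ∩ Γ, q g
          ≤ tourE Γ K q S₀ F m z (insert z S) := by
        intro z
        refine le_trans ?_ (le_tourE (Finset.insert_subset_insert z hS'))
        by_cases hzS : z ∈ S'
        · rw [Finset.insert_eq_of_mem hzS]
          have : z ∈ tourU Γ K S₀ S' := by
            unfold tourU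
            exact Finset.mem_union_left _ (Finset.mem_union_right _ hzS)
          rw [Finset.insert_eq_of_mem this]
          exact le_rfl
        · by_cases hzΓ : z ∈ Γ
          · have e1 : insert z S' ∩ Γ = insert z (S' ∩ Γ) := by
              rw [Finset.insert_inter_of_mem hzΓ]
            have e2 : z ∉ S' ∩ Γ := fun h => hzS (Finset.mem_inter.mp h).1
            have e3 : tourU Γ K S₀ (insert z S') = insert z (tourU Γ K S₀ S') ∪ K z := by
              unfold tourU
              rw [e1, Finset.biUnion_insert]
              ext a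
              simp only [Finset.mem_union, Finset.mem_insert]
              tauto
            have hc := hK z hzΓ F hF m (insert z (tourU Γ K S₀ S')) (Finset.mem_insert_self _ _)
            unfold tourG
            rw [e3, e1, Finset.sum_insert e2]
            linarith
          · have e1 : insert z S' ∩ Γ = S' ∩ Γ := by
              rw [Finset.insert_inter_of_notMem hzΓ]
            have e3 : tourU Γ K S₀ (insert z S') = insert z (tourU Γ K S₀ S') := by
              unfold tourU
              rw [e1]
              ext a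
              simp only [Finset.mem_union, Finset.mem_insert]
              tauto
            unfold tourG
            rw [e3, e1]
      have hsum : ∑ z, P x z * (F m z (insert z (tourU Γ K S₀ S')) + ∑ g ∈ S' ∩ Γ, q g)
          ≤ ∑ z, P x z * tourE Γ K q S₀ F m z (insert z S) :=
        Finset.sum_le_sum fun z _ => mul_le_mul_of_nonneg_left (hz z) (hP.nonneg h1 x z)
      have hsum' : ∑ z, P x z * (F m z (insert z (tourU Γ K S₀ S')) + ∑ g ∈ S' ∩ Γ, q g)
          = ∑ z, P x z * F m z (insert z (tourU Γ K S₀ S')) + ∑ g ∈ S' ∩ Γ, q g := by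
        simp only [mul_add, Finset.sum_add_distrib]
        rw [← Finset.sum_mul, hP.sum_one x, one_mul]
      unfold tourG
      linarith
    · intro x S
      apply le_antisymm
      · refine tourE_le fun S' _ => ?_
        unfold tourG
        rw [hb0]
        have := hqle S'
        linarith
      · have h := le_tourE (Γ := Γ) (K := K) (q := q) (S₀ := S₀) (F := F) (m := 0) (x := x)
          (Finset.subset_univ S)
        rw [huniv, hb0] at h
        exact h
    · intro m x S
      have h := le_tourE (Γ := Γ) (K := K) (q := q) (S₀ := S₀) (F := F) (m := m) (x := x)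
        (Finset.subset_univ S)
      rw [huniv] at h
      have := hbm m x (tourU Γ K S₀ Finset.univ)
      linarith
    · intro m x S hx
      refine tourE_le fun S' _ => ?_
      unfold tourG
      have := hbN m x (tourU Γ K S₀ S') hx
      have := hqle S'
      linarith
  have key := hY (tourE Γ K q S₀ F) hE m₀ {y} (Finset.mem_singleton_self y)
  have k1 : F m₀ y S₀ ≤ tourE Γ K q S₀ F m₀ y {y} := by
    have h := le_tourE (Γ := Γ) (K := K) (q := q) (S₀ := S₀) (F := F) (m := m₀) (x := y)
      (Finset.Subset.refl {y})
    have e1 : ({y} : Finset V) ∩ Γ = ∅ := by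
      rw [Finset.singleton_inter_of_notMem hy]
    have e2 : tourU Γ K S₀ {y} = S₀ := by
      unfold tourU
      rw [e1, Finset.biUnion_empty, Finset.union_empty]
      ext a
      simp only [Finset.mem_union, Finset.mem_singleton]
      constructor
      · rintro (h | rfl)
        · exact h
        · exact hS₀
      · exact Or.inl
    unfold tourG at h
    rw [e1, e2, Finset.sum_empty, add_zero] at h
    exact h
  have k2 : tourE Γ K q S₀ F m₀ y ({y} ∪ Y)
      ≤ ∑ g ∈ Γ, q g + F m₀ y (S₀ ∪ (Y ∪ Γ.biUnion K)) := by
    refine tourE_le fun S' hS' => ?_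
    have hYS : Y ⊆ S' := Finset.subset_union_right.trans hS'
    have e1 : S' ∩ Γ = Γ := Finset.inter_eq_right.mpr (hΓ.trans hYS)
    have e2 : S₀ ∪ (Y ∪ Γ.biUnion K) ⊆ tourU Γ K S₀ S' := by
      unfold tourU
      rw [e1]
      intro a ha
      simp only [Finset.mem_union] at ha ⊢
      rcases ha with ha | ha | ha
      · exact Or.inl (Or.inl ha)
      · exact Or.inl (Or.inr (hYS ha))
      · exact Or.inr ha
    have := hF.pre.anti m₀ y _ _ e2
    unfold tourG
    rw [e1]
    linarith
  linarith

/-- Depth first search over the cells of a saturated connected set. -/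
theorem tour (h1 : ε < 1) (hG : G.Connected) {ctr : V → V} {M : ℕ} (hc : Clustering G ctr M)
    {N : Finset V} {L : ℝ} {X : Finset V} {cst : V → ℝ} (hcst : ∀ u, 0 ≤ cst u)
    (hX : ∀ x ∈ X, ∀ y ∈ X, conn G X x y)
    (hsat : ∀ x ∈ X, ∀ x', ctr x' = ctr x → x' ∈ X)
    (hcov : ∀ u ∈ X, ctr u = u → ∀ g ∈ cl ctr u, CovN G ε N L g (nb G (cl ctr u) 1) (cst u))
    {y : V} (hy : y ∈ X) :
    CovN G ε N L y X (∑ u ∈ X.filter (fun u => ctr u = u), cst u) := by
  have main : ∀ (n : ℕ) (X : Finset V), X.card ≤ n → (∀ x ∈ X, ∀ y ∈ X, conn G X x y) →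
      (∀ x ∈ X, ∀ x', ctr x' = ctr x → x' ∈ X) →
      (∀ u ∈ X, ctr u = u → ∀ g ∈ cl ctr u, CovN G ε N L g (nb G (cl ctr u) 1) (cst u)) →
      ∀ y ∈ X, CovN G ε N L y X (∑ u ∈ X.filter (fun u => ctr u = u), cst u) := by
    intro n
    induction n with
    | zero =>
      intro X hX _ _ _ y hy
      have : X = ∅ := Finset.card_eq_zero.mp (by omega)
      rw [this] at hy
      simp at hy
    | succ n ih =>
      intro X hXn hX hsat hcov y hy
      classical
      have hctr : ∀ x, ctr (ctr x) = ctr x := fun x => hc.ctr_ctr hG _ x rfl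
      set u := ctr y with hu
      set C := cl ctr u with hC
      have huu : ctr u = u := hctr y
      have huX : u ∈ X := hsat y hy u (by rw [huu])
      have hCX : C ⊆ X := by
        intro x hx
        rw [hC, mem_cl] at hx
        exact hsat y hy x hx
      have hyC : y ∈ C := mem_cl.mpr rfl
      have huC : u ∈ C := mem_cl.mpr huu
      set R := X \ C with hR
      have hRX : R ⊆ X := Finset.sdiff_subset
      have hRC : ∀ z ∈ R, z ∉ C := fun z hz => (Finset.mem_sdiff.mp hz).2
      have hRcard : R.card < X.card := Finset.card_lt_card (by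
        rw [Finset.ssubset_iff_of_subset hRX]
        exact ⟨y, hy, fun hyR => hRC y hyR hyC⟩)
      -- the components
      have hKsat : ∀ z ∈ R, ∀ x ∈ comp G R z, ∀ x', ctr x' = ctr x → x' ∈ comp G R z := by
        intro z hz x hx x' hx'
        have hxR := comp_subset hx
        have hclR : cl ctr (ctr x) ⊆ R := by
          intro w hw
          rw [mem_cl] at hw
          rw [hR, Finset.mem_sdiff]
          refine ⟨hsat x (hRX hxR) w hw, ?_⟩
          intro hwC
          rw [hC, mem_cl] at hwC
          apply hRC x hxR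
          rw [hC, mem_cl, ← hw, hwC]
        have c1 : conn G R x (ctr x) := conn_mono hclR (hc.conn_cl hG _ x rfl)
        have c2 : conn G R x' (ctr x) := by
          have := hc.conn_cl hG _ x' rfl
          rw [hx'] at this
          exact conn_mono hclR this
        rw [mem_comp] at hx ⊢
        exact ⟨hclR (mem_cl.mpr hx'), conn_trans hx.2 (conn_trans c1 (conn_symm c2))⟩
      have hKadj : ∀ z ∈ R, ∃ g ∈ comp G R z, ∃ c ∈ C, G.Adj g c := by
        intro z hz
        by_contra hcon
        push Not at hcon
        have : ∀ w, conn G X z w → w ∈ comp G R z := by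
          intro w hw
          induction hw with
          | refl => exact comp_self hz
          | @tail b c h1 h2 ih2 =>
            have hcC : c ∉ C := fun hcC => hcon b ih2 c hcC h2.1
            have hcR : c ∈ R := Finset.mem_sdiff.mpr ⟨h2.2.2, hcC⟩
            rw [mem_comp] at ih2 ⊢
            exact ⟨hcR, Relation.ReflTransGen.tail ih2.2 ⟨h2.1, ih2.1, hcR⟩⟩
        have hyR := comp_subset (this y (hX z (hRX hz) y hy))
        exact hRC y hyR hyC
      -- gates
      let pick : Finset V → V := fun K => if h : ∃ g ∈ K, ∃ c ∈ C, G.Adj g c then h.choose else y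
      have hpick : ∀ z ∈ R, pick (comp G R z) ∈ comp G R z ∧
          ∃ c ∈ C, G.Adj (pick (comp G R z)) c := by
        intro z hz
        have h := hKadj z hz
        simp only [pick, dif_pos h]
        exact h.choose_spec
      set gates := R.image fun z => pick (comp G R z) with hgates
      have hgate : ∀ g ∈ gates, g ∈ R ∧ pick (comp G R g) = g ∧ ∃ c ∈ C, G.Adj g c := by
        intro g hg
        rw [hgates, Finset.mem_image] at hg
        obtain ⟨z, hz, rfl⟩ := hg
        have := hpick z hz
        refine ⟨comp_subset this.1, ?_, this.2⟩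
        rw [comp_eq this.1]
      have hyg : y ∉ gates := fun h => hRC y (hgate y h).1 hyC
      have hgn : gates ⊆ nb G C 1 := by
        intro g hg
        obtain ⟨_, _, c, hcC, hgc⟩ := hgate g hg
        rw [mem_nb]
        exact ⟨c, hcC, (SimpleGraph.dist_eq_one_iff_adj.mpr hgc).le⟩
      have key := cov_gates (G := G) (N := N) (L := L) h1 (K := fun g => comp G R g)
        (q := fun g => ∑ w ∈ (comp G R g).filter (fun u => ctr u = u), cst w) hyg hgn
        (fun g _ => Finset.sum_nonneg fun w _ => hcst w) (hcov u huX huu y hyC)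
        (by
          intro g hg
          obtain ⟨hgR, _, _⟩ := hgate g hg
          apply ih (comp G R g)
          · have := Finset.card_le_card (comp_subset (G := G) (R := R) (z := g))
            omega
          · intro a ha b hb; exact comp_conn ha hb
          · exact hKsat g hgR
          · intro v hv hvv
            exact hcov v (hRX (comp_subset hv)) hvv
          · exact comp_self hgR)
      have hsub : X ⊆ nb G C 1 ∪ gates.biUnion fun g => comp G R g := by
        intro x hx
        rw [Finset.mem_union]
        by_cases hxC : x ∈ C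
        · left
          rw [mem_nb]
          exact ⟨x, hxC, by rw [SimpleGraph.dist_self]; omega⟩
        · right
          have hxR : x ∈ R := Finset.mem_sdiff.mpr ⟨hx, hxC⟩
          have := hpick x hxR
          rw [Finset.mem_biUnion]
          refine ⟨pick (comp G R x), Finset.mem_image.mpr ⟨x, hxR, rfl⟩, ?_⟩
          rw [comp_eq this.1]
          exact comp_self hxR
      refine (key.subset hsub).mono ?_
      have s2 : ∑ z ∈ gates, (∑ w ∈ (comp G R z).filter (fun u => ctr u = u), cst w)
          ≤ ∑ w ∈ R.filter (fun u => ctr u = u), cst w := by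
        rw [← Finset.sum_biUnion]
        · apply Finset.sum_le_sum_of_subset_of_nonneg
          · intro w hw
            rw [Finset.mem_biUnion] at hw
            obtain ⟨z, _, hw⟩ := hw
            rw [Finset.mem_filter] at hw ⊢
            exact ⟨comp_subset hw.1, hw.2⟩
          · intro w _ _
            exact hcst w
        · intro z hz z' hz' hne
          rw [Function.onFun, Finset.disjoint_left]
          intro w hw hw'
          apply hne
          have h2 := comp_eq (Finset.mem_filter.mp hw).1
          have h3 := comp_eq (Finset.mem_filter.mp hw').1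
          have h4 := (hgate z hz).2.1
          have h5 := (hgate z' hz').2.1
          rw [← h4, ← h5, ← h2, ← h3]
      have s3 : ∑ w ∈ R.filter (fun u => ctr u = u), cst w + cst u
          ≤ ∑ w ∈ X.filter (fun u => ctr u = u), cst w := by
        have hnot : u ∉ R.filter (fun u => ctr u = u) := fun h =>
          hRC u (Finset.mem_filter.mp h).1 huC
        rw [add_comm, ← Finset.sum_insert hnot]
        apply Finset.sum_le_sum_of_subset_of_nonneg
        · intro w hw
          rw [Finset.mem_insert] at hw
          rcases hw with rfl | hw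
          · exact Finset.mem_filter.mpr ⟨huX, huu⟩
          · rw [Finset.mem_filter] at hw ⊢
            exact ⟨hRX hw.1, hw.2⟩
        · intro w _ _
          exact hcst w
      linarith
  exact main X.card X le_rfl hX hsat hcov y hy

end Pool.MP_10effd_pr
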