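import Pool.Agent.MP_10effd_pr.LL.Defs
import Pool.Agent.MP_10effd_pr.LL.Near
import Pool.Agent.MP_10effd_pr.LL.Tour
import Pool.Agent.MP_10effd_pr.LL.Plan
import Pool.Agent.MP_10effd_pr.LL.Low
import Pool.Agent.MP_10effd_pr.LL.Crude

/-! A piece can be covered by a session that rarely fails. -/

set_option autoImplicit false
set_option linter.unusedSectionVars false

namespace Pool.MP_10effd_pr

open Finset

variable {V : Type} [Fintype V] [DecidableEq V] {G : SimpleGraph V} [DecidableRel G.Adj] {ε : ℝ}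

namespace Lev

variable {P : Lev} {θ : ℝ} {Δ : ℕ} {c : ℝ} {ctr : ℕ → V → V} {T : ℕ}

/-- A piece can be covered by a session that rarely fails. -/
theorem exists_job (h0 : 0 < ε) (h1 : ε < 1) (hG : G.Connected) (hd : ∀ x, 0 < G.degree x)
    (hP : P.Good θ Δ c) (hθ0 : 0 < θ) (hθ1 : θ < 1) {i : ℕ} (hi : 1 ≤ i)
    (hc : Clustering G (ctr i) (P.M i)) (hhub : P.HubCov G ε θ ctr T i)
    {Q N : Finset V} (hQ : ∀ x ∈ Q, ∀ y ∈ Q, conn G Q x y)
    (hsat : ∀ x ∈ Q, ∀ x', ctr i x' = ctr i x → x' ∈ Q)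
    (hthin : ∀ x ∈ Q, (ball G x (16 * P.M i)).card < P.Lc i)
    (hcard : Q.card ≤ P.Lc i ^ 3) (hN : nb G Q (P.mm i) ⊆ N) {p : V} (hp : p ∈ Q) :
    ∃ (Tm : ℝ) (ν : V → ℝ), 0 ≤ Tm ∧
      Tm ≤ 1 + ∑ u ∈ Q.filter (fun u => ctr i u = u), P.LowF G ctr T θ i (nb G (cl (ctr i) u) 1) ∧
      (∀ z, 0 ≤ ν z) ∧ (∀ z, z ∉ nb G Q (P.mm i + 1) → ν z = 0) ∧
      ∑ z, ν z ≤ ((P.Lc i : ℝ) ^ 28)⁻¹ ∧ Sess G ε N p Q Tm ν := by
  classical
  have hM1 := hP.M1 i hi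
  have hLM := hP.LcM i hi
  have hmm := hP.mm8 i hi
  have hLc2 : 2 ≤ P.Lc i := by omega
  have hLcR : (2 : ℝ) ≤ P.Lc i := by exact_mod_cast hLc2
  -- the size of the neighbourhood
  have hNQ : (nb G Q (P.mm i)).card ≤ P.Lc i ^ 5 := by
    have hsub : nb G Q (P.mm i) ⊆ Q.biUnion (fun x => ball G x (16 * P.M i)) := by
      intro y hy
      obtain ⟨x, hx, hxy⟩ := mem_nb.mp hy
      rw [Finset.mem_biUnion]
      refine ⟨x, hx, mem_ball.mpr ?_⟩
      rw [SimpleGraph.dist_comm]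
      omega
    calc (nb G Q (P.mm i)).card ≤ (Q.biUnion (fun x => ball G x (16 * P.M i))).card :=
          Finset.card_le_card hsub
      _ ≤ ∑ x ∈ Q, (ball G x (16 * P.M i)).card := Finset.card_biUnion_le
      _ ≤ ∑ _x ∈ Q, P.Lc i := Finset.sum_le_sum (fun x hx => (hthin x hx).le)
      _ = Q.card * P.Lc i := by rw [Finset.sum_const, smul_eq_mul]
      _ ≤ P.Lc i ^ 3 * P.Lc i := Nat.mul_le_mul_right _ hcard
      _ = P.Lc i ^ 4 := by ring
      _ ≤ P.Lc i ^ 5 := Nat.pow_le_pow_right (by omega) (by omega)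
  have hclQ : ∀ u ∈ Q, ctr i u = u → cl (ctr i) u ⊆ Q := by
    intro u hu huu x hx
    rw [mem_cl] at hx
    exact hsat u hu x (by rw [hx, huu])
  have hnn : ∀ u, 0 ≤ P.LowF G ctr T θ i (nb G (cl (ctr i) u) 1) := fun u =>
    (LowH_nonneg hP hθ0 i _).trans (LowH_le hP hθ0 hi _)
  have hcov : ∀ u ∈ Q, ctr i u = u → ∀ g ∈ cl (ctr i) u,
      CovN G ε (nb G Q (P.mm i)) (P.Lam i) g (nb G (cl (ctr i) u) 1)
        (P.LowF G ctr T θ i (nb G (cl (ctr i) u) 1)) := by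
    intro u hu huu g hg
    refine hhub _ u huu (fun x hx => hthin x (hclQ u hu huu hx)) ?_ hNQ g hg
    intro y hy
    obtain ⟨x, hx, hxy⟩ := mem_nb.mp hy
    exact mem_nb.mpr ⟨x, hclQ u hu huu hx, hxy⟩
  have htour := tour h1 hG hc (N := nb G Q (P.mm i)) (L := P.Lam i) (X := Q)
    (cst := fun u => P.LowF G ctr T θ i (nb G (cl (ctr i) u) 1)) hnn hQ hsat hcov hp
  set B : ℝ := ∑ u ∈ Q.filter (fun u => ctr i u = u),
    P.LowF G ctr T θ i (nb G (cl (ctr i) u) 1) with hB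
  have hB0 : 0 ≤ B := Finset.sum_nonneg (fun u _ => hnn u)
  have hLam : 0 < P.Lam i := by
    unfold Lam
    positivity
  have hpN : p ∈ nb G Q (P.mm i) :=
    mem_nb.mpr ⟨p, hp, by rw [SimpleGraph.dist_self]; omega⟩
  obtain ⟨Tm, ν, hT0, hν0, hνS, hν1, hTν, hsess⟩ := exists_plan h0 h1 hd hLam hB0 hpN htour
  have hsum0 : 0 ≤ ∑ z, ν z := Finset.sum_nonneg (fun z _ => hν0 z)
  refine ⟨Tm, ν, hT0, ?_, hν0, ?_, ?_, hsess.sub hN⟩
  · have : 0 ≤ P.Lam i * ∑ z, ν z := mul_nonneg hLam.le hsum0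
    linarith
  · intro z hz
    apply hνS
    intro hz'
    apply hz
    obtain ⟨y, hy, hzy⟩ := mem_nb.mp hz'
    obtain ⟨x, hx, hyx⟩ := mem_nb.mp hy
    refine mem_nb.mpr ⟨x, hx, ?_⟩
    have := hG.dist_triangle (u := z) (v := y) (w := x)
    omega
  · have hBle : B ≤ (P.Lc i : ℝ) ^ 11 := by
      have e1 : B ≤ ∑ _u ∈ Q.filter (fun u => ctr i u = u), (P.Lc i : ℝ) ^ 8 := by
        apply Finset.sum_le_sum
        intro u hu
        rw [Finset.mem_filter] at hu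
        exact low_crude hP hθ0 hθ1 hG hi hc hu.2
          (fun x hx => hthin x (hclQ u hu.1 hu.2 hx))
      rw [Finset.sum_const, nsmul_eq_mul] at e1
      have e2 : ((Q.filter (fun u => ctr i u = u)).card : ℝ) ≤ (P.Lc i : ℝ) ^ 3 := by
        have : (Q.filter (fun u => ctr i u = u)).card ≤ P.Lc i ^ 3 :=
          (Finset.card_filter_le _ _).trans hcard
        exact_mod_cast this
      calc B ≤ ((Q.filter (fun u => ctr i u = u)).card : ℝ) * (P.Lc i : ℝ) ^ 8 := e1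
        _ ≤ (P.Lc i : ℝ) ^ 3 * (P.Lc i : ℝ) ^ 8 := by
            apply mul_le_mul_of_nonneg_right e2; positivity
        _ = (P.Lc i : ℝ) ^ 11 := by ring
    have h11 : (P.Lc i : ℝ) ^ 11 + 1 ≤ (P.Lc i : ℝ) ^ 12 := by
      have e3 : (1 : ℝ) ≤ (P.Lc i : ℝ) ^ 11 := one_le_pow₀ (by linarith)
      have e4 : (P.Lc i : ℝ) ^ 12 = (P.Lc i : ℝ) ^ 11 * P.Lc i := by ring
      rw [e4]
      nlinarith
    have hkey : P.Lam i * ∑ z, ν z ≤ (P.Lc i : ℝ) ^ 12 := by linarith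
    have hpos : (0 : ℝ) < (P.Lc i : ℝ) ^ 28 := by positivity
    have hpos12 : (0 : ℝ) < (P.Lc i : ℝ) ^ 12 := by positivity
    rw [← one_div, le_div_iff₀ hpos]
    have e5 : P.Lam i = (P.Lc i : ℝ) ^ 12 * (P.Lc i : ℝ) ^ 28 := by unfold Lam; ring
    rw [e5] at hkey
    by_contra hcon
    push Not at hcon
    nlinarith

end Lev

end Pool.MP_10effd_pr
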