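import Pool.Agent.MP_10effd_pr.LL.Basic

/-! One level of the decomposition. -/

set_option autoImplicit false
set_option linter.unusedSectionVars false

namespace Pool.MP_10effd_pr

open Finset

variable {V : Type} [Fintype V] [DecidableEq V] {G : SimpleGraph V} [DecidableRel G.Adj] {ε : ℝ}

private theorem lv_levels (hG : G.Connected) {C : Finset V} {x : V} (hx : x ∈ C) {b : V}
    (hb : conn G C x b) : ∀ i ≤ G.dist x b, ∃ c ∈ C, G.dist x c = i := by
  induction hb with
  | refl =>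
    intro i hi
    rw [SimpleGraph.dist_self] at hi
    exact ⟨x, hx, by rw [SimpleGraph.dist_self]; omega⟩
  | @tail b c h1 h2 ih =>
    intro i hi
    by_cases h : i ≤ G.dist x b
    · exact ih i h
    · refine ⟨c, h2.2.2, ?_⟩
      have := hG.dist_triangle (u := x) (v := b) (w := c)
      have h3 : G.dist b c = 1 := SimpleGraph.dist_eq_one_iff_adj.mpr h2.1
      omega

private theorem lv_dist_lt (hG : G.Connected) {C : Finset V} {x : V} (hx : x ∈ C) {b : V}
    (hb : conn G C x b) : G.dist x b < C.card := by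
  have h := lv_levels hG hx hb
  have h1 : Finset.range (G.dist x b + 1) ⊆ C.image (fun c => G.dist x c) := by
    intro i hi
    rw [Finset.mem_range] at hi
    obtain ⟨c, hc, h'⟩ := h i (by omega)
    exact Finset.mem_image.mpr ⟨c, hc, h'⟩
  have h2 := (Finset.card_le_card h1).trans Finset.card_image_le
  rw [Finset.card_range] at h2
  omega

private theorem lv_exit {U C : Finset V} {x b : V} (hx : x ∈ C) (hb : conn G U x b) (hbC : b ∉ C) :
    ∃ z ∈ C, ∃ y ∈ U, y ∉ C ∧ G.Adj z y := by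
  induction hb with
  | refl => exact absurd hx hbC
  | @tail b c h1 h2 ih =>
    by_cases hb' : b ∈ C
    · exact ⟨b, hb', c, h2.2.2, hbC, h2.1⟩
    · exact ih hb'

private theorem lv_comp_sub {W T : Finset V} {x : V} (h : comp G W x ⊆ T) :
    comp G W x ⊆ comp G T x := by
  intro y hy
  exact mem_comp.mpr ⟨h hy, conn_mono h (comp_conn_aux (mem_comp.mp hy).2)⟩

private theorem lv_comp_adj {W : Finset V} {x z y : V} (hz : z ∈ comp G W x) (hy : y ∈ W)
    (hzy : G.Adj z y) : y ∈ comp G W x := by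
  rw [mem_comp] at hz ⊢
  exact ⟨hy, conn_trans hz.2 (Relation.ReflTransGen.single ⟨hzy, hz.1, hy⟩)⟩

/-- An edge leaving a set on a geodesic. -/
private theorem lv_geo_exit (hG : G.Connected) {C : Finset V} {x b : V} (hx : x ∈ C)
    (hb : b ∉ C) : ∃ z ∈ C, ∃ y, y ∉ C ∧ G.Adj z y ∧ G.dist x y ≤ G.dist x b := by
  obtain ⟨p, hp⟩ := hG.exists_walk_length_eq_dist x b
  obtain ⟨d, hd, h1, h2⟩ := p.exists_boundary_dart (C : Set V) (by exact_mod_cast hx)
    (by exact_mod_cast hb)
  refine ⟨d.fst, by exact_mod_cast h1, d.snd, by exact_mod_cast h2, d.adj, ?_⟩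
  have h3 : d.snd ∈ p.support := p.dart_snd_mem_support_of_mem_darts hd
  have h4 := SimpleGraph.dist_le (p.takeUntil d.snd h3)
  have h5 := p.length_takeUntil_le_length h3
  omega

theorem level_step (hG : G.Connected) {ctr : V → V} {M : ℕ} (hc : Clustering G ctr M)
    (hM : 1 ≤ M) {U : Finset V} {o : V} {Lc v gs gb : ℕ} (hv : v ≤ gb) (hgs : gs ≤ Lc)
    (hU : ∀ x ∈ U, o ∉ comp G U x → gb ≤ (comp G U x).card) :
    ∃ J Eb U' : Finset V,
      U ⊆ J ∪ Eb ∪ U' ∧ U' ⊆ U ∧ Eb ⊆ U ∧ Disjoint U' J ∧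
      (∀ x ∈ J, ∀ x', ctr x' = ctr x → x' ∈ J) ∧
      (∀ x ∈ J, ∃ y ∈ U, ctr y = ctr x) ∧
      (∀ x ∈ J, (ball G x (16 * M)).card < Lc) ∧
      (∀ x ∈ J, v ≤ (comp G J x).card) ∧
      (∀ x ∈ J, (comp G J x).card < gb → o ∈ comp G J x ∨
        ∃ z ∈ comp G J x, ∃ y ∈ U, G.Adj z y ∧ Lc ≤ (ball G y (48 * M)).card) ∧
      (∀ x ∈ Eb ∪ U', G.dist x o ≤ v ∨
        ∃ y ∈ U, G.dist x y ≤ v ∧ Lc ≤ (ball G y (48 * M)).card) ∧
      (∀ x ∈ U', o ∉ comp G U' x → gs ≤ (comp G U' x).card) ∧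
      (∀ x ∈ U', ∀ y, G.Adj x y → y ∉ U' → y ∈ J ∨ y ∉ U) ∧
      (∀ x ∈ Eb, ∃ x' ∈ U, G.dist x x' ≤ gs ∧ ∃ y, G.Adj x' y ∧ y ∉ U) := by
  classical
  -- the thin cells
  set X : Finset V := Finset.univ.filter (fun x => ∃ t ∈ U, (ball G t (48 * M)).card < Lc ∧
    ctr t = ctr x) with hX
  set J0 : Finset V := X.filter (fun x => v ≤ (comp G X x).card) with hJ0
  set W : Finset V := U \ J0 with hW
  let small : V → Prop := fun x => (comp G W x).card < gs ∧ o ∉ comp G W x
  let enc : V → Prop := fun x => ∀ e ∈ comp G W x, ∀ y, G.Adj e y → y ∈ comp G W x ∨ y ∈ J0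
  set Mg : Finset V := W.filter (fun x => small x ∧ enc x) with hMg
  set J : Finset V := J0 ∪ Mg with hJ
  set Eb : Finset V := W.filter (fun x => small x ∧ ¬ enc x) with hEb
  set U' : Finset V := W.filter (fun x => ¬ small x) with hU'
  have memX : ∀ x, x ∈ X ↔ ∃ t ∈ U, (ball G t (48 * M)).card < Lc ∧ ctr t = ctr x := by
    intro x; rw [hX]; simp
  have memJ0 : ∀ x, x ∈ J0 ↔ x ∈ X ∧ v ≤ (comp G X x).card := by
    intro x; rw [hJ0, Finset.mem_filter]
  have memW : ∀ x, x ∈ W ↔ x ∈ U ∧ x ∉ J0 := by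
    intro x; rw [hW, Finset.mem_sdiff]
  have memMg : ∀ x, x ∈ Mg ↔ x ∈ W ∧ small x ∧ enc x := by
    intro x; rw [hMg, Finset.mem_filter]
  have memJ : ∀ x, x ∈ J ↔ x ∈ J0 ∨ x ∈ Mg := by
    intro x; rw [hJ, Finset.mem_union]
  have memEb : ∀ x, x ∈ Eb ↔ x ∈ W ∧ small x ∧ ¬ enc x := by
    intro x; rw [hEb, Finset.mem_filter]
  have memU' : ∀ x, x ∈ U' ↔ x ∈ W ∧ ¬ small x := by
    intro x; rw [hU', Finset.mem_filter]
  have small_congr : ∀ x y, y ∈ comp G W x → (small y ↔ small x) := by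
    intro x y hy
    show ((comp G W y).card < gs ∧ o ∉ comp G W y) ↔ ((comp G W x).card < gs ∧ o ∉ comp G W x)
    rw [comp_eq hy]
  have enc_congr : ∀ x y, y ∈ comp G W x → (enc y ↔ enc x) := by
    intro x y hy
    show (∀ e ∈ comp G W y, ∀ z, G.Adj e z → z ∈ comp G W y ∨ z ∈ J0) ↔
      (∀ e ∈ comp G W x, ∀ z, G.Adj e z → z ∈ comp G W x ∨ z ∈ J0)
    rw [comp_eq hy]
  -- cells are connected
  have hcell : ∀ x x', ctr x' = ctr x → conn G (cl ctr (ctr x)) x x' := by
    intro x x' h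
    have c1 := hc.conn_cl hG _ x rfl
    have c2 := hc.conn_cl hG _ x' rfl
    rw [h] at c2
    exact conn_trans c1 (conn_symm c2)
  have hXsat : ∀ x ∈ X, ∀ x', ctr x' = ctr x → x' ∈ X := by
    intro x hx x' h
    rw [memX] at hx ⊢
    obtain ⟨t, h1, h2, h3⟩ := hx
    exact ⟨t, h1, h2, h3.trans h.symm⟩
  have hXcell : ∀ x ∈ X, ∀ x', ctr x' = ctr x → x' ∈ comp G X x := by
    intro x hx x' h
    rw [mem_comp]
    refine ⟨hXsat x hx x' h, conn_mono ?_ (hcell x x' h)⟩
    intro w hw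
    rw [mem_cl] at hw
    exact hXsat x hx w hw
  have hJ0comp : ∀ x ∈ J0, comp G X x ⊆ J0 := by
    intro x hx y hy
    rw [memJ0] at hx ⊢
    exact ⟨comp_subset hy, by rw [comp_eq hy]; exact hx.2⟩
  have hJ0sat : ∀ x ∈ J0, ∀ x', ctr x' = ctr x → x' ∈ J0 := by
    intro x hx x' h
    exact hJ0comp x hx (hXcell x ((memJ0 x).mp hx).1 x' h)
  have hMgcomp : ∀ x ∈ Mg, comp G W x ⊆ Mg := by
    intro x hx y hy
    rw [memMg] at hx ⊢
    exact ⟨comp_subset hy, (small_congr x y hy).mpr hx.2.1, (enc_congr x y hy).mpr hx.2.2⟩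
  have hJ0J : J0 ⊆ J := by rw [hJ]; exact Finset.subset_union_left
  have hMgJ : Mg ⊆ J := by rw [hJ]; exact Finset.subset_union_right
  -- distance in a cell
  have hdcell : ∀ x x', ctr x' = ctr x → G.dist x x' ≤ 2 * M := by
    intro x x' h
    have h1 := hc.rad x
    have h2 := hc.rad x'
    rw [h, SimpleGraph.dist_comm] at h2
    have h3 := hG.dist_triangle (u := x) (v := ctr x) (w := x')
    omega
  -- saturation of J
  have hMgsat : ∀ x ∈ Mg, ∀ x', ctr x' = ctr x → x' ∈ Mg := by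
    intro x hx x' h
    have hx' := (memMg x).mp hx
    by_contra hcon
    have hcon' : x' ∉ comp G W x := fun h' => hcon (hMgcomp x hx h')
    obtain ⟨z, hz, y, hy, hyc, hzy⟩ := lv_exit (comp_self hx'.1) (hcell x x' h) hcon'
    rcases hx'.2.2 z hz y hzy with h1 | h1
    · exact hyc h1
    · rw [mem_cl] at hy
      exact ((memW x).mp hx'.1).2 (hJ0sat y h1 x hy.symm)
  have hJsat : ∀ x ∈ J, ∀ x', ctr x' = ctr x → x' ∈ J := by
    intro x hx x' h
    rcases (memJ x).mp hx with h1 | h1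
    · exact hJ0J (hJ0sat x h1 x' h)
    · exact hMgJ (hMgsat x h1 x' h)
  have hJcell : ∀ x ∈ J, ∀ x', ctr x' = ctr x → x' ∈ comp G J x := by
    intro x hx x' h
    rw [mem_comp]
    refine ⟨hJsat x hx x' h, conn_mono ?_ (hcell x x' h)⟩
    intro w hw
    rw [mem_cl] at hw
    exact hJsat x hx w hw
  have hJU : ∀ x ∈ J, ∃ y ∈ U, ctr y = ctr x := by
    intro x hx
    rcases (memJ x).mp hx with h1 | h1
    · obtain ⟨t, h2, _, h3⟩ := (memX x).mp ((memJ0 x).mp h1).1
      exact ⟨t, h2, h3⟩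
    · exact ⟨x, ((memW x).mp ((memMg x).mp h1).1).1, rfl⟩
  have hballsub : ∀ x y k l, G.dist x y + k ≤ l → ball G x k ⊆ ball G y l := by
    intro x y k l h z hz
    rw [mem_ball] at hz ⊢
    have := hG.dist_triangle (u := y) (v := x) (w := z)
    rw [SimpleGraph.dist_comm (u := y) (v := x)] at this
    omega
  have hJ0thin : ∀ x ∈ J0, ∃ t, G.dist x t ≤ 2 * M ∧ (ball G t (48 * M)).card < Lc := by
    intro x hx
    obtain ⟨t, _, h2, h3⟩ := (memX x).mp ((memJ0 x).mp hx).1
    exact ⟨t, hdcell x t h3, h2⟩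
  have hJball : ∀ x ∈ J, (ball G x (16 * M)).card < Lc := by
    intro x hx
    rcases (memJ x).mp hx with h1 | h1
    · obtain ⟨t, h2, h3⟩ := hJ0thin x h1
      exact lt_of_le_of_lt (Finset.card_le_card (hballsub x t _ _ (by omega))) h3
    · have hx' := (memMg x).mp h1
      by_cases hb : ball G x (16 * M) ⊆ comp G W x
      · have := Finset.card_le_card hb
        have h2 : (comp G W x).card < gs := hx'.2.1.1
        omega
      · obtain ⟨b, hb1, hb2⟩ := Finset.not_subset.mp hb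
        obtain ⟨z, hz, y, hyc, hzy, hd⟩ := lv_geo_exit hG (comp_self hx'.1) hb2
        rw [mem_ball] at hb1
        rcases hx'.2.2 z hz y hzy with h3 | h3
        · exact absurd h3 hyc
        · obtain ⟨t, h4, h5⟩ := hJ0thin y h3
          have h6 := hG.dist_triangle (u := x) (v := y) (w := t)
          exact lt_of_le_of_lt (Finset.card_le_card (hballsub x t _ _ (by omega))) h5
  have hJ0v : ∀ x ∈ J0, v ≤ (comp G J x).card := by
    intro x hx
    have h1 : comp G X x ⊆ J := (hJ0comp x hx).trans hJ0J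
    exact ((memJ0 x).mp hx).2.trans (Finset.card_le_card (lv_comp_sub h1))
  have hJv : ∀ x ∈ J, v ≤ (comp G J x).card := by
    intro x hx
    rcases (memJ x).mp hx with h1 | h1
    · exact hJ0v x h1
    · have hx' := (memMg x).mp h1
      obtain ⟨z, hz, y, hyc, hzy, hd⟩ := lv_geo_exit hG (comp_self hx'.1) hx'.2.1.2
      rcases hx'.2.2 z hz y hzy with h3 | h3
      · exact absurd h3 hyc
      · have hzJ : z ∈ comp G J x := lv_comp_sub ((hMgcomp x h1).trans hMgJ) hz
        have hyJ : y ∈ comp G J x := lv_comp_adj hzJ (hJ0J h3) hzy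
        rw [← comp_eq hyJ]
        exact hJ0v y h3
  -- leaving a component of J
  have hJout : ∀ x ∈ J, (comp G J x).card < gb → o ∈ comp G J x ∨
        ∃ z ∈ comp G J x, ∃ y ∈ U, G.Adj z y ∧ Lc ≤ (ball G y (48 * M)).card := by
    intro x hx hlt
    by_cases ho : o ∈ comp G J x
    · exact Or.inl ho
    right
    obtain ⟨k, hkU, hkc⟩ := hJU x hx
    have hkK : k ∈ comp G J x := hJcell x hx k hkc
    have hns : ¬ comp G U k ⊆ comp G J x := by
      intro hs
      have h1 := hU k hkU (fun h => ho (hs h))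
      have h2 := Finset.card_le_card hs
      omega
    obtain ⟨b, hb1, hb2⟩ := Finset.not_subset.mp hns
    obtain ⟨z, hz, y, hy, hyc, hzy⟩ := lv_exit hkK (mem_comp.mp hb1).2 hb2
    refine ⟨z, hz, y, hy, hzy, ?_⟩
    have hyJ : y ∉ J := fun h => hyc (lv_comp_adj hz h hzy)
    have hyW : y ∈ W := (memW y).mpr ⟨hy, fun h => hyJ (hJ0J h)⟩
    have hzJ0 : z ∈ J0 := by
      rcases (memJ z).mp (comp_subset hz) with h1 | h1
      · exact h1
      · exfalso
        have hz' := (memMg z).mp h1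
        exact hyJ (hMgJ (hMgcomp z h1 (lv_comp_adj (comp_self hz'.1) hyW hzy)))
    by_contra hthin
    push Not at hthin
    have hyX : y ∈ X := (memX y).mpr ⟨y, hy, hthin, rfl⟩
    have hzX := ((memJ0 z).mp hzJ0).1
    exact hyJ (hJ0J (hJ0comp z hzJ0 (lv_comp_adj (comp_self hzX) hyX hzy)))
  have hWacc : ∀ x ∈ W, G.dist x o ≤ v ∨
        ∃ y ∈ U, G.dist x y ≤ v ∧ Lc ≤ (ball G y (48 * M)).card := by
    intro x hx
    have hxU := ((memW x).mp hx).1
    by_cases hthick : Lc ≤ (ball G x (48 * M)).card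
    · exact Or.inr ⟨x, hxU, by rw [SimpleGraph.dist_self]; omega, hthick⟩
    push Not at hthick
    have hxX : x ∈ X := (memX x).mpr ⟨x, hxU, hthick, rfl⟩
    have hlt : (comp G X x).card < v := by
      by_contra h
      push Not at h
      exact ((memW x).mp hx).2 ((memJ0 x).mpr ⟨hxX, h⟩)
    by_cases hs : comp G U x ⊆ comp G X x
    · left
      have ho : o ∈ comp G U x := by
        by_contra ho
        have h1 := hU x hxU ho
        have h2 := Finset.card_le_card hs
        omega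
      have h3 := comp_conn (comp_self hxX) (hs ho)
      have h4 := lv_dist_lt hG (comp_self hxX) h3
      omega
    · right
      obtain ⟨b, hb1, hb2⟩ := Finset.not_subset.mp hs
      obtain ⟨z, hz, y, hy, hyc, hzy⟩ := lv_exit (comp_self hxX) (mem_comp.mp hb1).2 hb2
      refine ⟨y, hy, ?_, ?_⟩
      · have h3 := comp_conn (comp_self hxX) hz
        have h4 := lv_dist_lt hG (comp_self hxX) h3
        have h5 := hG.dist_triangle (u := x) (v := z) (w := y)
        have h6 : G.dist z y = 1 := SimpleGraph.dist_eq_one_iff_adj.mpr hzy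
        omega
      · by_contra hthin
        push Not at hthin
        exact hyc (lv_comp_adj hz ((memX y).mpr ⟨y, hy, hthin, rfl⟩) hzy)
  have hU'comp : ∀ x ∈ U', comp G W x ⊆ U' := by
    intro x hx y hy
    rw [memU'] at hx ⊢
    exact ⟨comp_subset hy, fun h => hx.2 ((small_congr x y hy).mp h)⟩
  refine ⟨J, Eb, U', ?_, ?_, ?_, ?_, hJsat, hJU, hJball, hJv, hJout, ?_, ?_, ?_, ?_⟩
  · intro x hx
    by_cases h0 : x ∈ J0
    · exact Finset.mem_union_left _ (Finset.mem_union_left _ (hJ0J h0))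
    · have hxW : x ∈ W := (memW x).mpr ⟨hx, h0⟩
      by_cases hs : small x
      · by_cases he : enc x
        · exact Finset.mem_union_left _ (Finset.mem_union_left _
            (hMgJ ((memMg x).mpr ⟨hxW, hs, he⟩)))
        · exact Finset.mem_union_left _ (Finset.mem_union_right _ ((memEb x).mpr ⟨hxW, hs, he⟩))
      · exact Finset.mem_union_right _ ((memU' x).mpr ⟨hxW, hs⟩)
  · intro x hx
    exact ((memW x).mp ((memU' x).mp hx).1).1
  · intro x hx
    exact ((memW x).mp ((memEb x).mp hx).1).1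
  · rw [Finset.disjoint_left]
    intro x hx hxJ
    have hx' := (memU' x).mp hx
    rcases (memJ x).mp hxJ with h1 | h1
    · exact ((memW x).mp hx'.1).2 h1
    · exact hx'.2 ((memMg x).mp h1).2.1
  · intro x hx
    apply hWacc
    rcases Finset.mem_union.mp hx with h | h
    · exact ((memEb x).mp h).1
    · exact ((memU' x).mp h).1
  · intro x hx ho
    have hx' := (memU' x).mp hx
    have h1 : comp G W x ⊆ comp G U' x := lv_comp_sub (hU'comp x hx)
    have h2 := Finset.card_le_card h1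
    have h3 : ¬ ((comp G W x).card < gs ∧ o ∉ comp G W x) := hx'.2
    by_contra hlt
    push Not at hlt
    exact h3 ⟨by omega, fun h => ho (h1 h)⟩
  · intro x hx y hxy hyU'
    by_contra hcon
    push Not at hcon
    obtain ⟨hyJ, hyU⟩ := hcon
    have hyW : y ∈ W := (memW y).mpr ⟨hyU, fun h => hyJ (hJ0J h)⟩
    have hx' := (memU' x).mp hx
    exact hyU' (hU'comp x hx (lv_comp_adj (comp_self hx'.1) hyW hxy))
  · intro x hx
    obtain ⟨hxW, hs, he⟩ := (memEb x).mp hx
    have he' : ¬ (∀ e ∈ comp G W x, ∀ y, G.Adj e y → y ∈ comp G W x ∨ y ∈ J0) := he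
    push Not at he'
    obtain ⟨e, he1, y, hey, hyc, hyJ0⟩ := he'
    have heU := ((memW e).mp (comp_subset he1)).1
    refine ⟨e, heU, ?_, y, hey, ?_⟩
    · have h3 := comp_conn (comp_self hxW) he1
      have h4 := lv_dist_lt hG (comp_self hxW) h3
      have h5 : (comp G W x).card < gs := hs.1
      omega
    · intro hyU
      exact hyc (lv_comp_adj he1 ((memW y).mpr ⟨hyU, hyJ0⟩) hey)

end Pool.MP_10effd_pr
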