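import Pool.Agent.MP_10effd_pr.LL.Defs

/-! Integer inequalities for the concrete parameters. -/

set_option autoImplicit false
set_option linter.unusedSectionVars false

namespace Pool.MP_10effd_pr

open Finset

theorem parA_sq_le {y : ℕ} (hy : 4 ≤ y) : y ^ 2 ≤ 2 ^ y := by
  induction y, hy using Nat.le_induction with
  | base => norm_num
  | succ n hn ih =>
    have : (n + 1) ^ 2 ≤ 2 * n ^ 2 := by nlinarith
    calc (n + 1) ^ 2 ≤ 2 * n ^ 2 := this
      _ ≤ 2 * 2 ^ n := by omega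
      _ = 2 ^ (n + 1) := by ring

theorem parA_growth (A : ℕ) {x : ℕ} (hx : 3 * A + 6 ≤ x) : A * x + 1 ≤ 2 ^ (x - 2) := by
  obtain ⟨y, rfl⟩ : ∃ y, x = y + 2 := ⟨x - 2, by omega⟩
  have h1 : (y + 2 - 2) = y := by omega
  rw [h1]
  have hy : 3 * A + 4 ≤ y := by omega
  have h2 := parA_sq_le (y := y) (by omega)
  have h3 : (3 * A + 4) * y ≤ y ^ 2 := by nlinarith
  have h4 : A * (y + 2) + 1 ≤ (3 * A + 4) * y := by nlinarith
  omega

theorem parA_bseq_succ (b n : ℕ) : bseq b (n + 1) = 2 ^ (bseq b n - 2) := rfl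

theorem parA_bseq_ge {b : ℕ} (hb : 9 ≤ b) (n : ℕ) : b ≤ bseq b n := by
  induction n with
  | zero => exact le_rfl
  | succ n ih =>
    rw [parA_bseq_succ]
    have := parA_growth 1 (x := bseq b n) (by omega)
    omega

theorem parA_bseq_growth {A b : ℕ} (hb : 3 * A + 9 ≤ b) (n : ℕ) :
    A * bseq b n + 1 ≤ bseq b (n + 1) := by
  rw [parA_bseq_succ]
  apply parA_growth
  have := parA_bseq_ge (b := b) (by omega) n
  omega

theorem parA_bseq_lt {b : ℕ} (hb : 12 ≤ b) (n : ℕ) : bseq b n + 1 ≤ bseq b (n + 1) := by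
  have := parA_bseq_growth (A := 1) (b := b) (by omega) n
  omega

theorem parA_bseq_mono {b : ℕ} (hb : 12 ≤ b) : Monotone (bseq b) :=
  monotone_nat_of_le_succ fun n => (by have := parA_bseq_lt hb n; omega)

theorem parA_bseq_add {b : ℕ} (hb : 12 ≤ b) (n : ℕ) : n ≤ bseq b n := by
  induction n with
  | zero => exact Nat.zero_le _
  | succ n ih => have := parA_bseq_lt hb n; omega

theorem par_goodA {A1 A2 A3 A4 : ℕ} (hA1 : 2 ≤ A1) (hA2 : A1 ≤ A2) (hA3 : A2 ≤ A3) (Δ : ℕ)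
    (c : ℝ) : ∃ b0, ∀ b ≥ b0, (par b A1 A2 A3 A4 c).GoodA Δ := by
  refine ⟨3 * A3 + 12 + Δ, fun b hb => ?_⟩
  have hb12 : 12 ≤ b := by omega
  have hgeb := parA_bseq_ge (b := b) (by omega)
  have hlt := parA_bseq_lt hb12
  have hmono := parA_bseq_mono hb12
  have hgr : ∀ A, A ≤ A3 → ∀ n, A * bseq b n + 1 ≤ bseq b (n + 1) := by
    intro A hA n
    exact parA_bseq_growth (by omega) n
  have pm : ∀ {x y : ℕ}, x ≤ y → (16 : ℕ) ^ x ≤ 16 ^ y := fun h => Nat.pow_le_pow_right (by norm_num) h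
  have pmp : ∀ {x y : ℕ}, x + 1 ≤ y → 16 * (16 : ℕ) ^ x ≤ 16 ^ y := fun {x y} h => by
    calc 16 * 16 ^ x = 16 ^ (x + 1) := by ring
      _ ≤ 16 ^ y := pm h
  have ppos : ∀ x : ℕ, 1 ≤ 16 ^ x := fun x => Nat.one_le_pow _ _ (by norm_num)
  have pbig : ∀ n, 65536 ≤ 16 ^ bseq b n := fun n => by
    calc 65536 = 16 ^ 4 := by norm_num
      _ ≤ 16 ^ bseq b n := pm (by have := hgeb n; omega)
  -- products
  have hmulle : ∀ n, 2 * bseq b n ≤ A1 * bseq b n := fun n => Nat.mul_le_mul_right _ hA1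
  have hsq : ∀ n, 16 ^ bseq b n * 16 ^ bseq b n ≤ 16 ^ (A1 * bseq b n) := fun n => by
    rw [← pow_add]
    apply pm
    have := hmulle n
    omega
  have hMi : ∀ i, (par b A1 A2 A3 A4 c).M i = 16 ^ bseq b (i - 1) := fun i => rfl
  have hMsucc : ∀ i, 1 ≤ i → 16 * (par b A1 A2 A3 A4 c).M i ≤ (par b A1 A2 A3 A4 c).M (i + 1) := by
    intro i hi
    rw [hMi, hMi]
    apply pmp
    obtain ⟨j, rfl⟩ : ∃ j, i = j + 1 := ⟨i - 1, by omega⟩
    simpa using hlt j
  have hMpos : ∀ i, 1 ≤ (par b A1 A2 A3 A4 c).M i := fun i => ppos _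
  refine
    { M1 := ?_, Mmono := ?_, D0 := ?_, D1 := ?_, Dmono := ?_, Ddbl := ?_, Dv := ?_, Dm := ?_
      DK := ?_, mm8 := ?_, Dmm := ?_, v1 := ?_, vg := ?_, g0 := ?_, gLc := ?_, gM := ?_
      LcM := ?_, gsz := ?_, kapM := ?_ }
  · intro i _
    rw [hMi]
    have := pbig (i - 1)
    omega
  · intro i j _ hij
    rw [hMi, hMi]
    exact pm (hmono (by omega))
  · rfl
  · intro i hi
    show 100 ≤ (if i = 0 then 0 else 2 * 16 ^ (A1 * bseq b (i - 1)))
    rw [if_neg (by omega)]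
    have h1 := pbig (i - 1)
    have h2 := hsq (i - 1)
    nlinarith
  · intro i j hij
    show (if i = 0 then 0 else 2 * 16 ^ (A1 * bseq b (i - 1)))
      ≤ (if j = 0 then 0 else 2 * 16 ^ (A1 * bseq b (j - 1)))
    by_cases hi : i = 0
    · rw [if_pos hi]; exact Nat.zero_le _
    · rw [if_neg hi, if_neg (by omega)]
      have : A1 * bseq b (i - 1) ≤ A1 * bseq b (j - 1) := Nat.mul_le_mul_left _ (hmono (by omega))
      have := pm this
      omega
  · intro i
    show 2 * (if i = 0 then 0 else 2 * 16 ^ (A1 * bseq b (i - 1)))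
      ≤ (if i + 1 = 0 then 0 else 2 * 16 ^ (A1 * bseq b (i + 1 - 1)))
    by_cases hi : i = 0
    · rw [if_pos hi]; exact Nat.zero_le _
    · rw [if_neg hi, if_neg (by omega)]
      obtain ⟨j, rfl⟩ : ∃ j, i = j + 1 := ⟨i - 1, by omega⟩
      have h1 : A1 * bseq b j + 1 ≤ A1 * bseq b (j + 1) := by
        have := hlt j
        nlinarith
      have := pmp h1
      simp only [Nat.add_sub_cancel]
      omega
  · intro i hi
    show 16 ^ (A1 * bseq b (i - 1)) + 96 * 16 ^ bseq b (i - 1) + 1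
      ≤ (if i = 0 then 0 else 2 * 16 ^ (A1 * bseq b (i - 1)))
    rw [if_neg (by omega)]
    have h1 := pbig (i - 1)
    have h2 := hsq (i - 1)
    nlinarith
  · intro i hi
    show 4 * 16 ^ bseq b (i - 1) + 2 * 16 ^ bseq b (i - 1) + 1
      ≤ (if i = 0 then 0 else 2 * 16 ^ (A1 * bseq b (i - 1)))
    rw [if_neg (by omega)]
    have h1 := pbig (i - 1)
    have h2 := hsq (i - 1)
    nlinarith
  · intro i
    show 2 * (if i = 0 then 0 else 2 * 16 ^ (A1 * bseq b (i - 1)))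
      < (if i = 0 then 1 else 16 ^ bseq b (i + 1 - 1))
    by_cases hi : i = 0
    · rw [if_pos hi, if_pos hi]; norm_num
    · rw [if_neg hi, if_neg hi]
      obtain ⟨j, rfl⟩ : ∃ j, i = j + 1 := ⟨i - 1, by omega⟩
      simp only [Nat.add_sub_cancel]
      have h1 := pmp (hgr A1 (by omega) j)
      have h2 := ppos (A1 * bseq b j)
      omega
  · intro i _
    show 2 * (4 * 16 ^ bseq b (i - 1)) + 2 ≤ 16 * 16 ^ bseq b (i - 1)
    have h1 := pbig (i - 1)
    omega
  · intro t ht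
    show (if t - 1 = 0 then 0 else 2 * 16 ^ (A1 * bseq b (t - 1 - 1))) + 1
      ≤ 4 * 16 ^ bseq b (t - 1)
    by_cases h : t - 1 = 0
    · rw [if_pos h]
      have := pbig (t - 1)
      omega
    · rw [if_neg h]
      obtain ⟨j, rfl⟩ : ∃ j, t = j + 2 := ⟨t - 2, by omega⟩
      have e1 : j + 2 - 1 - 1 = j := by omega
      have e2 : j + 2 - 1 = j + 1 := by omega
      rw [e1, e2]
      have h1 := pmp (hgr A1 (by omega) j)
      have h2 := ppos (A1 * bseq b j)
      omega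
  · intro i _
    exact ppos _
  · intro i hi
    show 16 ^ (A1 * bseq b (i - 1)) ≤ (if i = 0 then 0 else 16 ^ (A2 * bseq b i))
    rw [if_neg (by omega)]
    exact pm (Nat.mul_le_mul hA2 (hmono (by omega)))
  · rfl
  · intro i hi
    show (if i - 1 = 0 then 0 else 16 ^ (A2 * bseq b (i - 1))) ≤ 16 ^ (A3 * bseq b i)
    by_cases h : i - 1 = 0
    · rw [if_pos h]; exact Nat.zero_le _
    · rw [if_neg h]
      exact pm (Nat.mul_le_mul hA3 (hmono (by omega)))
  · intro i hi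
    show (if i - 1 = 0 then 0 else 16 ^ (A2 * bseq b (i - 1))) + 1 ≤ 16 ^ bseq b (i + 1 - 1)
    by_cases h : i - 1 = 0
    · rw [if_pos h]
      have := ppos (bseq b (i + 1 - 1))
      omega
    · rw [if_neg h]
      obtain ⟨j, rfl⟩ : ∃ j, i = j + 1 := ⟨i - 1, by omega⟩
      simp only [Nat.add_sub_cancel]
      have h1 := pmp (hgr A2 (by omega) j)
      have h2 := ppos (A2 * bseq b j)
      omega
  · intro i hi
    show 2 * 16 ^ bseq b (i - 1) ≤ 16 ^ (A3 * bseq b i)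
    obtain ⟨j, rfl⟩ : ∃ j, i = j + 1 := ⟨i - 1, by omega⟩
    simp only [Nat.add_sub_cancel]
    have h1 : bseq b j + 1 ≤ A3 * bseq b (j + 1) := by
      have := hlt j
      nlinarith [Nat.zero_le (bseq b (j + 1))]
    have := pmp h1
    omega
  · intro i hi
    show (if i = 0 then 0 else 16 ^ (A2 * bseq b i)) + 16 ^ (A3 * bseq b i)
      + Δ * 16 ^ (A3 * bseq b i) * (if i = 0 then 0 else 16 ^ (A2 * bseq b i))
      ≤ (16 ^ (A3 * bseq b i)) ^ 3
    rw [if_neg (by omega)]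
    have h1 : 16 ^ (A2 * bseq b i) ≤ 16 ^ (A3 * bseq b i) := pm (Nat.mul_le_mul_right _ hA3)
    have h2 : Δ + 2 ≤ 16 ^ (A3 * bseq b i) := by
      have h3 : Δ + 2 ≤ A3 * bseq b i := by
        have := hgeb i
        nlinarith
      exact h3.trans (Nat.lt_pow_self (by norm_num)).le
    have h4 := ppos (A3 * bseq b i)
    generalize 16 ^ (A3 * bseq b i) = L at *
    generalize 16 ^ (A2 * bseq b i) = g at *
    have h5 : Δ * L * g ≤ Δ * L * L := Nat.mul_le_mul_left _ h1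
    have h6 : (Δ + 2) * (L * L) ≤ L * (L * L) := Nat.mul_le_mul_right _ h2
    have h7 : L ≤ L * L := by nlinarith
    calc g + L + Δ * L * g ≤ L * L + L * L + Δ * L * L := by omega
      _ = (Δ + 2) * (L * L) := by ring
      _ ≤ L * (L * L) := h6
      _ = L ^ 3 := by ring
  · intro i l k hli hk
    have key : ∀ i, l + 1 ≤ i → (par b A1 A2 A3 A4 c).M (l + 1)
        + ∑ j ∈ Finset.Ico (l + 1) i, (2 * (par b A1 A2 A3 A4 c).M j + 1)
        ≤ 2 * (par b A1 A2 A3 A4 c).M i := by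
      intro i hi
      induction i, hi using Nat.le_induction with
      | base =>
        simp only [Finset.Ico_self, Finset.sum_empty]
        omega
      | succ n hn ih =>
        rw [Finset.sum_Ico_succ_top hn]
        have h1 := hMsucc n (by omega)
        have h2 := hMpos n
        omega
    have h1 := key i hli
    have h2 : k + 1 ≤ (par b A1 A2 A3 A4 c).M (l + 1) := by
      have hk' : k < (if l = 0 then 1 else (par b A1 A2 A3 A4 c).M (l + 1)) := hk
      by_cases hl : l = 0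
      · rw [if_pos hl] at hk'
        have := hMpos (l + 1)
        omega
      · rw [if_neg hl] at hk'
        exact hk'
    show k + ∑ j ∈ Finset.Ico (l + 1) i, (2 * (par b A1 A2 A3 A4 c).M j + 1) + 1
      ≤ 2 * (par b A1 A2 A3 A4 c).M i
    omega

theorem par_Lc {A1 A2 A3 A4 : ℕ} (hA1 : 2 ≤ A1) (hA2 : A1 ≤ A2) (hA3 : A2 ≤ A3) (c : ℝ) :
    ∃ b0, ∀ b ≥ b0, ∀ n : ℕ, ∃ T, 1 ≤ T ∧ n < (par b A1 A2 A3 A4 c).Lc T := by
  refine ⟨12, fun b hb n => ⟨n + 1, by omega, ?_⟩⟩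
  show n < 16 ^ (A3 * bseq b (n + 1))
  have h1 := parA_bseq_add (b := b) hb (n + 1)
  have h2 : n + 1 ≤ A3 * bseq b (n + 1) := by nlinarith
  calc n < n + 1 := by omega
    _ ≤ A3 * bseq b (n + 1) := h2
    _ ≤ 16 ^ (A3 * bseq b (n + 1)) := (Nat.lt_pow_self (by norm_num)).le

end Pool.MP_10effd_pr
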