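import Pool.Agent.MP_10effd_pr.LL.Defs

/-! The real inequalities for the concrete parameters. -/

set_option autoImplicit false
set_option linter.unusedSectionVars false

namespace Pool.MP_10effd_pr

open Finset

theorem parC_pow_ge (A : ℕ) : ∀ y : ℕ, A * (4 * A + 11 + y) ≤ 2 ^ (4 * A + 8 + y) := by
  intro y
  induction y with
  | zero =>
    have h1 : A < 2 ^ A := Nat.lt_two_pow_self
    have h2 : 1 ≤ 2 ^ A := Nat.one_le_two_pow
    have h3 : 2 ^ (4 * A + 8 + 0) = 2 ^ A * 2 ^ A * (2 ^ A * 2 ^ A) * 256 := by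
      rw [add_zero, pow_add, show 4 * A = A + A + (A + A) by ring, pow_add, pow_add]; norm_num
    rw [h3]
    generalize 2 ^ A = z at *
    have h4 : z * z ≤ z * z * (z * z) := Nat.le_mul_of_pos_right _ (by positivity)
    nlinarith
  | succ y ih =>
    have h3 : 2 ^ (4 * A + 8 + (y + 1)) = 2 * 2 ^ (4 * A + 8 + y) := by
      rw [← add_assoc, pow_succ]; ring
    rw [h3]
    nlinarith [Nat.zero_le (A * y), Nat.zero_le A]

theorem parC_grow (A : ℕ) : ∃ b0 : ℕ, 2 ≤ b0 ∧ ∀ b ≥ b0, ∀ n, b + n ≤ bseq b n ∧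
    A * (bseq b n + 1) ≤ bseq b (n + 1) ∧ 2 ≤ bseq b n := by
  refine ⟨4 * (A + 1) + 10, by omega, ?_⟩
  intro b hb
  have key : ∀ x, 4 * (A + 1) + 10 ≤ x → (A + 1) * (x + 1) ≤ 2 ^ (x - 2) := by
    intro x hx
    obtain ⟨y, rfl⟩ := Nat.exists_eq_add_of_le hx
    have := parC_pow_ge (A + 1) y
    have e : 4 * (A + 1) + 10 + y - 2 = 4 * (A + 1) + 8 + y := by omega
    rw [e]
    calc (A + 1) * (4 * (A + 1) + 10 + y + 1) = (A + 1) * (4 * (A + 1) + 11 + y) := by ring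
      _ ≤ _ := this
  have h1 : ∀ n, b + n ≤ bseq b n := by
    intro n
    induction n with
    | zero => exact le_rfl
    | succ n ih =>
      have h := key (bseq b n) (by omega)
      show b + (n + 1) ≤ 2 ^ (bseq b n - 2)
      nlinarith [Nat.zero_le (A * (bseq b n + 1))]
  intro n
  have h := key (bseq b n) (by have := h1 n; omega)
  refine ⟨h1 n, ?_, ?_⟩
  · show A * (bseq b n + 1) ≤ 2 ^ (bseq b n - 2)
    nlinarith [Nat.zero_le (bseq b n + 1)]
  · have := h1 n; omega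

theorem parC_theta {θ : ℝ} (h0 : 0 < θ) (h1 : θ < 1) (A : ℕ) :
    ∃ x0 : ℕ, ∀ x ≥ x0, (16 : ℝ) ^ (A * 2 ^ x) * θ ^ (16 ^ x) ≤ 1 := by
  obtain ⟨n, hn⟩ := exists_pow_lt_of_lt_one (show (0 : ℝ) < 1 / 16 by norm_num) h1
  refine ⟨n * A, ?_⟩
  intro x hx
  have e1 : n * (A * 2 ^ x) ≤ 16 ^ x := by
    have : x < 8 ^ x := Nat.lt_pow_self (by norm_num)
    calc n * (A * 2 ^ x) = (n * A) * 2 ^ x := by ring
      _ ≤ 8 ^ x * 2 ^ x := Nat.mul_le_mul (by omega) le_rfl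
      _ = 16 ^ x := by rw [← mul_pow]; norm_num
  have e2 : θ ^ (16 ^ x) ≤ θ ^ (n * (A * 2 ^ x)) := pow_le_pow_of_le_one h0.le h1.le e1
  have e3 : θ ^ (n * (A * 2 ^ x)) ≤ (1 / 16) ^ (A * 2 ^ x) := by
    rw [pow_mul]; exact pow_le_pow_left₀ (by positivity) hn.le _
  calc (16 : ℝ) ^ (A * 2 ^ x) * θ ^ (16 ^ x) ≤ (16 : ℝ) ^ (A * 2 ^ x) * (1 / 16) ^ (A * 2 ^ x) :=
        mul_le_mul_of_nonneg_left (e2.trans e3) (by positivity)
    _ = 1 := by rw [← mul_pow]; norm_num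

theorem parC_Dsum (b A1 : ℕ) (hA1 : 1 ≤ A1) (hb : ∀ n, b + n ≤ bseq b n) (hb1 : 1 ≤ b) (t : ℕ) :
    ∑ l ∈ Finset.range t, 1 / (((2 * 16 ^ (A1 * bseq b l) : ℕ)) : ℝ) ≤
      1 / 4 * (1 - (1 / 16) ^ t) := by
  induction t with
  | zero => simp
  | succ t ih =>
    rw [Finset.sum_range_succ]
    have h1 : t + 1 ≤ A1 * bseq b t := by
      have := hb t
      nlinarith
    have h2 : (16 : ℝ) ^ (t + 1) ≤ 16 ^ (A1 * bseq b t) := pow_le_pow_right₀ (by norm_num) h1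
    have h3 : 1 / (((2 * 16 ^ (A1 * bseq b t) : ℕ)) : ℝ) ≤ 1 / 2 * (1 / 16) ^ (t + 1) := by
      push_cast
      rw [one_div, mul_inv, one_div, one_div, inv_pow]
      gcongr
    have h4 : (0 : ℝ) < (1 / 16) ^ t := by positivity
    rw [pow_succ] at h3 ⊢
    linarith

theorem parC_crude (b A3 A4 : ℕ) (hA3 : 1 ≤ A3)
    (hb : ∀ n, (8 * A3 + 3 + A4) * (bseq b n + 1) ≤ bseq b (n + 1)) (hb2 : ∀ n, 1 ≤ bseq b n)
    (β K Csp Lc : ℕ → ℝ) (hLc : ∀ i, Lc i = 16 ^ (A3 * bseq b i))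
    (hβ0 : β 0 = (Lc 1) ^ 6) (hK0 : K 0 = 1) (hC0 : Csp 0 = 0)
    (hβ : ∀ i, 0 ≤ β (i + 1) ∧ β (i + 1) ≤ 1)
    (hK : ∀ i, K (i + 1) = 16 ^ (bseq b (i + 1)))
    (hC : ∀ i, Csp (i + 1) = 16 ^ (A4 * bseq b i)) (i : ℕ) :
    1 ≤ ∑ l ∈ Finset.range (i + 1), (β l * (1 + K l) + Csp l) ∧
    (∑ l ∈ Finset.range (i + 1), (β l * (1 + K l) + Csp l)) *
    ∏ s ∈ Finset.Ico 1 (i + 1), (19 * (Lc s)) ≤ (Lc (i + 1)) ^ 7 := by
  induction i with
  | zero =>
    have h16 : (2 : ℝ) ≤ Lc 1 := by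
      rw [hLc]
      calc (2 : ℝ) ≤ 16 ^ 1 := by norm_num
        _ ≤ 16 ^ (A3 * bseq b 1) := pow_le_pow_right₀ (by norm_num) (by nlinarith [hb2 1])
    have h6 : (1 : ℝ) ≤ Lc 1 ^ 6 := one_le_pow₀ (by linarith)
    simp only [zero_add, Finset.range_one, Finset.sum_singleton, hβ0, hK0, hC0, Finset.Ico_self,
      Finset.prod_empty]
    constructor
    · linarith
    · rw [pow_succ _ 6]; nlinarith
  | succ i ih =>
    obtain ⟨ih1, ih2⟩ := ih
    have hP : (0 : ℝ) ≤ ∏ s ∈ Finset.Ico 1 (i + 1), (19 * (Lc s)) :=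
      Finset.prod_nonneg fun s _ => by rw [hLc]; positivity
    have hL : ∀ n, (1 : ℝ) ≤ Lc n := fun n => by rw [hLc]; exact one_le_pow₀ (by norm_num)
    rw [Finset.sum_range_succ, Finset.prod_Ico_succ_top (by omega)]
    set S := ∑ l ∈ Finset.range (i + 1), (β l * (1 + K l) + Csp l) with hS
    set Q := ∏ s ∈ Finset.Ico 1 (i + 1), (19 * (Lc s)) with hQ
    set L := Lc (i + 1) with hLdef
    have hβi := hβ i
    have hKi : 0 ≤ K (i + 1) := by rw [hK]; positivity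
    have hCi : 0 ≤ Csp (i + 1) := by rw [hC]; positivity
    have hx : 0 ≤ β (i + 1) * (1 + K (i + 1)) := mul_nonneg hβi.1 (by linarith)
    have hQ7 : Q ≤ L ^ 7 := by nlinarith
    refine ⟨by linarith, ?_⟩
    set X : ℝ := 16 ^ (bseq b (i + 1)) with hX
    have hX1 : 1 ≤ X := one_le_pow₀ (by norm_num)
    have hCX : Csp (i + 1) ≤ X := by
      rw [hC, hX]
      apply pow_le_pow_right₀ (by norm_num)
      have := hb i
      nlinarith [Nat.zero_le (bseq b i), Nat.zero_le (A3 * (bseq b i + 1))]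
    have hKX : β (i + 1) * (1 + K (i + 1)) ≤ 1 + X := by
      rw [hK, ← hX]; nlinarith
    have h1 : (S + (β (i + 1) * (1 + K (i + 1)) + Csp (i + 1))) * (Q * (19 * L)) ≤
        19 * L ^ 8 * (4 * X) := by
      have e1 : S * Q ≤ L ^ 7 := ih2
      have e2 : (β (i + 1) * (1 + K (i + 1)) + Csp (i + 1)) * Q ≤ (1 + 2 * X) * L ^ 7 := by
        apply mul_le_mul (by linarith) hQ7 hP (by linarith)
      have e3 : (S + (β (i + 1) * (1 + K (i + 1)) + Csp (i + 1))) * Q ≤ (4 * X) * L ^ 7 := by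
        have : (0 : ℝ) ≤ L ^ 7 := by have := hL (i + 1); positivity
        nlinarith
      have hL0 : 0 ≤ 19 * L := by have := hL (i + 1); linarith
      calc _ = ((S + (β (i + 1) * (1 + K (i + 1)) + Csp (i + 1))) * Q) * (19 * L) := by ring
        _ ≤ ((4 * X) * L ^ 7) * (19 * L) := mul_le_mul_of_nonneg_right e3 hL0
        _ = _ := by ring
    have h2 : 19 * L ^ 8 * (4 * X) ≤ (Lc (i + 1 + 1)) ^ 7 := by
      rw [hLdef, hLc, hLc, hX, ← pow_mul, ← pow_mul]
      have e1 : (19 : ℝ) * 4 ≤ 16 ^ 2 := by norm_num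
      have e2 : 2 + A3 * bseq b (i + 1) * 8 + bseq b (i + 1) ≤ A3 * bseq b (i + 1 + 1) * 7 := by
        have := hb (i + 1)
        have h3 := hb2 (i + 1)
        generalize bseq b (i + 1) = z at *
        generalize bseq b (i + 1 + 1) = w at *
        have : (8 * A3 + 3) * (z + 1) ≤ w := by nlinarith [Nat.zero_le (A4 * (z + 1))]
        have h5 : w ≤ A3 * w := Nat.le_mul_of_pos_left _ hA3
        nlinarith [Nat.zero_le (A3 * z)]
      calc 19 * (16 : ℝ) ^ (A3 * bseq b (i + 1) * 8) * (4 * 16 ^ bseq b (i + 1))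
          = (19 * 4) * (16 ^ (A3 * bseq b (i + 1) * 8) * 16 ^ bseq b (i + 1)) := by ring
        _ ≤ 16 ^ 2 * (16 ^ (A3 * bseq b (i + 1) * 8) * 16 ^ bseq b (i + 1)) :=
            mul_le_mul_of_nonneg_right e1 (by positivity)
        _ = 16 ^ (2 + A3 * bseq b (i + 1) * 8 + bseq b (i + 1)) := by rw [pow_add, pow_add]; ring
        _ ≤ _ := pow_le_pow_right₀ (by norm_num) e2
    exact h1.trans h2

theorem parC_tt (M : ℕ → ℕ) (hM : ∀ j, j + 1 ≤ M j) (i : ℕ) :
    0 ≤ ∑ j ∈ Finset.Ico 1 i, 1 / (16 : ℝ) ^ M (j - 1) ∧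
    ∑ j ∈ Finset.Ico 1 i, 1 / (16 : ℝ) ^ M (j - 1) ≤ 1 := by
  refine ⟨Finset.sum_nonneg fun j _ => by positivity, ?_⟩
  have h : ∀ i, ∑ j ∈ Finset.Ico 1 (i + 1), 1 / (16 : ℝ) ^ M (j - 1) ≤ 1 - (1 / 16) ^ i := by
    intro i
    induction i with
    | zero => simp
    | succ i ih =>
      rw [Finset.sum_Ico_succ_top (by omega)]
      have h1 : 1 / (16 : ℝ) ^ M (i + 1 - 1) ≤ (1 / 16) ^ (i + 1) := by
        rw [one_div, one_div, inv_pow]
        gcongr
        · norm_num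
        · have := hM i; simpa using this
      have h4 : (0 : ℝ) < (1 / 16) ^ i := by positivity
      rw [pow_succ] at h1 ⊢
      linarith
  rcases i with _ | i
  · simp
  · have := h i
    have h4 : (0 : ℝ) < (1 / 16) ^ i := by positivity
    linarith

theorem par_goodC {A1 A2 A3 A4 : ℕ} (hA1 : 2 ≤ A1) (hA2 : A1 ≤ A2) (hA3 : A2 ≤ A3)
    {θ : ℝ} (h0 : 0 < θ) (h1 : θ < 1) {c : ℝ} (hc : 1 ≤ c) :
    ∃ b0, ∀ b ≥ b0, (par b A1 A2 A3 A4 c).GoodC θ c := by
  obtain ⟨x0, hx0⟩ := parC_theta h0 h1 (40 * A3 + 10)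
  obtain ⟨n1, hn1⟩ := pow_unbounded_of_one_lt (2 * c * (2 * 7 * 32) * (2 / (1 - θ ^ 32)))
    (show (1 : ℝ) < 16 by norm_num)
  obtain ⟨b0, hb02, hb0⟩ := parC_grow (8 * A3 + 3 + A4 + A1 + 10)
  refine ⟨b0 + x0 + n1 + 10, ?_⟩
  intro b hb
  have hg : ∀ n, b + n ≤ bseq b n := fun n => (hb0 b (by omega) n).1
  have hgA : ∀ n, (8 * A3 + 3 + A4 + A1 + 10) * (bseq b n + 1) ≤ bseq b (n + 1) :=
    fun n => (hb0 b (by omega) n).2.1
  have hg2 : ∀ n, 2 ≤ bseq b n := fun n => (hb0 b (by omega) n).2.2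
  have hsucc : ∀ n, bseq b (n + 1) = 2 ^ (bseq b n - 2) := fun n => rfl
  have hsucc' : ∀ n, bseq b (n + 1) ≤ 2 ^ (bseq b n) := fun n => by
    rw [hsucc]; exact Nat.pow_le_pow_right (by norm_num) (by omega)
  -- decay
  have hdec : ∀ n, (16 : ℝ) ^ (40 * A3 * bseq b (n + 1) + 10 * bseq b n + 10) *
      θ ^ (16 ^ bseq b n) ≤ 1 := by
    intro n
    have hx := hx0 (bseq b n) (by have := hg n; omega)
    refine le_trans (mul_le_mul_of_nonneg_right (pow_le_pow_right₀ (by norm_num) ?_)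
      (by positivity)) hx
    have e1 := hsucc' n
    have e2 : 4 * (2 ^ (bseq b n - 2)) = 2 ^ (bseq b n) := by
      have : bseq b n = (bseq b n - 2) + 2 := by have := hg2 n; omega
      conv_rhs => rw [this, pow_add]
      ring
    have e3 := hsucc n
    have e4 := hgA n
    have e5 : bseq b n + 1 ≤ bseq b (n + 1) := by nlinarith [Nat.zero_le (bseq b n)]
    have e6 : 40 * A3 * bseq b (n + 1) ≤ 40 * A3 * 2 ^ (bseq b n) := Nat.mul_le_mul_left _ e1
    rw [add_mul]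
    omega
  have hLc : ∀ i, (((par b A1 A2 A3 A4 c).Lc i : ℕ) : ℝ) = 16 ^ (A3 * bseq b i) := by
    intro i; simp [par]
  have hM : ∀ i, (((par b A1 A2 A3 A4 c).M (i + 1) : ℕ) : ℝ) = 16 ^ (bseq b i) := by
    intro i; simp [par]
  have hMn : ∀ i, ((par b A1 A2 A3 A4 c).M (i + 1) : ℕ) = 16 ^ (bseq b i) := by
    intro i; simp [par]
  have hβ : ∀ i, (par b A1 A2 A3 A4 c).β (i + 1) = 1 / 16 ^ (bseq b i) := by
    intro i; simp [par]
  have hβ0 : (par b A1 A2 A3 A4 c).β 0 = (16 ^ (A3 * bseq b 1)) ^ 6 := by simp [par]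
  have hD : ∀ i, ((par b A1 A2 A3 A4 c).D (i + 1) : ℕ) = 2 * 16 ^ (A1 * bseq b i) := by
    intro i; simp [par]
  have hDr : ∀ i, (((par b A1 A2 A3 A4 c).D (i + 1) : ℕ) : ℝ) = 2 * 16 ^ (A1 * bseq b i) := by
    intro i; simp [par]
  have hD0 : ((par b A1 A2 A3 A4 c).D 0 : ℕ) = 0 := by simp [par]
  have hCs : ∀ i, (par b A1 A2 A3 A4 c).Csp (i + 1) = 16 ^ (A4 * bseq b i) := by
    intro i; simp [par]
  have hCs0 : (par b A1 A2 A3 A4 c).Csp 0 = 0 := by simp [par]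
  have hv : ∀ i, (((par b A1 A2 A3 A4 c).v (i + 1) : ℕ) : ℝ) = 16 ^ (A1 * bseq b i) := by
    intro i; simp [par]
  have hmm : ∀ i, (par b A1 A2 A3 A4 c).mm (i + 1) = 4 * 16 ^ (bseq b i) := by
    intro i; simp [par]
  have hK0 : (par b A1 A2 A3 A4 c).K 0 = 1 := by simp [Lev.K]
  have hK : ∀ i, (par b A1 A2 A3 A4 c).K (i + 1) = 16 ^ (bseq b (i + 1)) := by
    intro i; simp [Lev.K, hMn]
  have htt : ∀ i, (par b A1 A2 A3 A4 c).tt i =
      ∑ j ∈ Finset.Ico 1 i, 1 / (16 : ℝ) ^ bseq b (j - 1) := by intro i; simp [par]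
  have httb : ∀ i, 0 ≤ (par b A1 A2 A3 A4 c).tt i ∧ (par b A1 A2 A3 A4 c).tt i ≤ 1 := by
    intro i
    rw [htt]
    exact parC_tt (bseq b) (fun j => by have := hg j; omega) i
  have hcc : ∀ i, (par b A1 A2 A3 A4 c).cc i = 2 * c +
      ∑ j ∈ Finset.Ico 1 i, (2 * c + 2 * c * (1 + (16 : ℝ) ^ bseq b (j - 1))) := by
    intro i; simp [par]
  have hq : ∀ i, (par b A1 A2 A3 A4 c).q (i + 1) = 1 - 1 / 4 ^ bseq b i := by
    intro i; simp [par]
  have h16 : ∀ n, (256 : ℝ) ≤ 16 ^ bseq b n := fun n => by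
    calc (256 : ℝ) = 16 ^ 2 := by norm_num
      _ ≤ _ := pow_le_pow_right₀ (by norm_num) (hg2 n)
  have hθ16 : ∀ n, θ ^ (16 ^ bseq b n) ≤ 1 / (16 : ℝ) ^ (40 * A3 * bseq b (n + 1) +
      10 * bseq b n + 10) := fun n => by
    rw [le_div_iff₀ (by positivity), mul_comm]
    exact hdec n
  constructor
  case far =>
    intro t ht
    obtain ⟨t, rfl⟩ : ∃ s, t = s + 1 := ⟨t - 1, by omega⟩
    rw [Lev.Lam, hLc, hmm]
    simp only [Nat.add_sub_cancel]
    have e1 : 16 ^ bseq b t ≤ 4 * 16 ^ bseq b t - 1 - (par b A1 A2 A3 A4 c).D t := by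
      have e2 : (par b A1 A2 A3 A4 c).D t ≤ 2 * 16 ^ bseq b t := by
        rcases t with _ | t
        · rw [hD0]; omega
        · rw [hD]
          apply Nat.mul_le_mul_left
          apply Nat.pow_le_pow_right (by norm_num)
          have := hgA t
          nlinarith [Nat.zero_le (A3 * (bseq b t + 1)), Nat.zero_le (A4 * (bseq b t + 1))]
      have e3 : 1 ≤ 16 ^ bseq b t := Nat.one_le_pow _ _ (by norm_num)
      omega
    have e4 : (θ ^ 8) ^ (4 * 16 ^ bseq b t - 1 - (par b A1 A2 A3 A4 c).D t) ≤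
        θ ^ (16 ^ bseq b t) := by
      rw [← pow_mul]
      exact pow_le_pow_of_le_one h0.le h1.le (by omega)
    rw [← pow_mul]
    calc (16 : ℝ) ^ (A3 * bseq b (t + 1) * 40) * (θ ^ 8) ^ (4 * 16 ^ bseq b t - 1 -
          (par b A1 A2 A3 A4 c).D t)
        ≤ (16 : ℝ) ^ (40 * A3 * bseq b (t + 1) + 10 * bseq b t + 10) * θ ^ (16 ^ bseq b t) := by
          apply mul_le_mul _ e4 (by positivity) (by positivity)
          apply pow_le_pow_right₀ (by norm_num)
          nlinarith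
      _ ≤ 1 := hdec t
  case Dsum =>
    intro t
    have h := parC_Dsum b A1 (by omega) hg (by omega) t
    have h4 : (0 : ℝ) < (1 / 16) ^ t := by positivity
    refine le_trans (le_of_eq (Finset.sum_congr rfl fun l _ => ?_)) (h.trans (by linarith))
    rw [hD]
  case crude =>
    intro i hi
    obtain ⟨i, rfl⟩ : ∃ s, i = s + 1 := ⟨i - 1, by omega⟩
    have h := (parC_crude b A3 A4 (by omega) (fun n => by
        have := hgA n; nlinarith [Nat.zero_le (bseq b n + 1), Nat.zero_le (A1 * (bseq b n + 1))])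
      (fun n => by have := hg2 n; omega) (par b A1 A2 A3 A4 c).β
      (fun l => ((par b A1 A2 A3 A4 c).K l : ℝ)) (par b A1 A2 A3 A4 c).Csp
      (fun l => ((par b A1 A2 A3 A4 c).Lc l : ℝ)) hLc (by simp only [hLc]; exact hβ0)
      (by simp only [hK0]; norm_num) hCs0 (fun i => by
        rw [hβ]
        refine ⟨by positivity, ?_⟩
        rw [div_le_one (by positivity)]
        linarith [h16 i]) (fun i => by simp only [hK]; push_cast; rfl) hCs i).2
    exact h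
  case β0 =>
    intro i
    rcases i with _ | i
    · rw [hβ0]; positivity
    · rw [hβ]; positivity
  case βM =>
    intro i hi
    obtain ⟨i, rfl⟩ : ∃ s, i = s + 1 := ⟨i - 1, by omega⟩
    rw [hβ, hM]
  case Csp0 =>
    intro i
    rcases i with _ | i
    · rw [hCs0]
    · rw [hCs]; positivity
  case tt1 => rw [htt]; simp
  case ttS =>
    intro i hi
    rw [htt, htt, Finset.sum_Ico_succ_top hi]
    obtain ⟨i, rfl⟩ : ∃ s, i = s + 1 := ⟨i - 1, by omega⟩
    rw [hM]; simp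
  case cc1 => rw [hcc]; simp
  case ccS =>
    intro i hi
    rw [hcc, hcc, Finset.sum_Ico_succ_top hi]
    obtain ⟨i, rfl⟩ : ∃ s, i = s + 1 := ⟨i - 1, by omega⟩
    rw [hM]; simp only [Nat.add_sub_cancel]; ring
  case job1 =>
    intro i hi
    obtain ⟨i, rfl⟩ : ∃ s, i = s + 1 := ⟨i - 1, by omega⟩
    rw [Lev.eta, hM, hβ, hv]
    have e1 : (16 : ℝ) ^ (bseq b i) * 16 ^ (bseq b i) ≤ 16 ^ (A1 * bseq b i) := by
      rw [← pow_add]
      exact pow_le_pow_right₀ (by norm_num) (by nlinarith)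
    have e2 := h16 i
    set x : ℝ := 16 ^ bseq b i with hx
    have e3 : 18 / x ≤ 1 := by rw [div_le_one (by linarith)]; linarith
    have e4 : x / 32 ≤ 1 / x / 32 * 16 ^ (A1 * bseq b i) := by
      have : 1 / x / 32 * (x * x) ≤ 1 / x / 32 * 16 ^ (A1 * bseq b i) :=
        mul_le_mul_of_nonneg_left e1 (by positivity)
      calc x / 32 = 1 / x / 32 * (x * x) := by field_simp
        _ ≤ _ := this
    linarith
  case fl =>
    intro i hi
    obtain ⟨i, rfl⟩ : ∃ s, i = s + 1 := ⟨i - 1, by omega⟩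
    rw [Lev.Fl, hM, hβ, hmm, hLc]
    push_cast
    have e2 := h16 i
    have hθ : 0 < 1 - θ ^ 32 := by
      have : θ ^ 32 < 1 := pow_lt_one₀ h0.le h1 (by norm_num)
      linarith
    set x : ℝ := 16 ^ bseq b i with hx
    have e3 : (16 : ℝ) ^ n1 * x ^ 3 ≤ (16 ^ (A3 * bseq b (i + 1))) ^ 27 := by
      rw [hx, ← pow_mul, ← pow_mul, ← pow_add]
      apply pow_le_pow_right₀ (by norm_num)
      have h3 := hgA i
      have h4 := hg i
      have h5 : bseq b (i + 1) ≤ A3 * bseq b (i + 1) := Nat.le_mul_of_pos_left _ (by omega)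
      nlinarith [Nat.zero_le ((8 * A3 + 3 + A4 + A1) * (bseq b i + 1))]
    have hL : (0 : ℝ) < (16 ^ (A3 * bseq b (i + 1))) ^ 27 := by positivity
    set L : ℝ := (16 ^ (A3 * bseq b (i + 1))) ^ 27 with hLd
    set w : ℝ := 2 / (1 - θ ^ 32) with hw
    have hw0 : 0 < w := by positivity
    have e5 : 2 * c * (1 + x) * (w * L⁻¹) * (4 * x + 3) ≤ 2 * c * (2 * x) * (w * L⁻¹) * (7 * x) := by
      have : 0 ≤ w * L⁻¹ := by positivity
      gcongr <;> linarith
    have e6 : 2 * c * (2 * x) * (w * L⁻¹) * (7 * x) ≤ 1 / x / 32 := by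
      rw [div_div, le_div_iff₀ (by positivity)]
      have e7 : 2 * c * (2 * x) * (w * L⁻¹) * (7 * x) * (x * 32) =
          (2 * c * (2 * 7 * 32) * w) * x ^ 3 / L := by
        field_simp
      rw [e7, div_le_one hL]
      refine le_trans (mul_le_mul_of_nonneg_right hn1.le (by positivity)) e3
    exact e5.trans e6
  case dten =>
    intro i hi
    obtain ⟨i, rfl⟩ : ∃ s, i = s + 1 := ⟨i - 1, by omega⟩
    rw [hDr, hβ]
    have e1 : (16 : ℝ) ^ (bseq b i) ≤ 16 ^ (A1 * bseq b i) :=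
      pow_le_pow_right₀ (by norm_num) (by nlinarith)
    have e2 := h16 i
    set x : ℝ := 16 ^ bseq b i with hx
    rw [div_div, one_div]
    apply inv_anti₀ (by positivity)
    calc x * 32 ≤ x * x := by nlinarith
      _ = x ^ 2 := by ring
      _ ≤ x ^ 10 := pow_le_pow_right₀ (by linarith) (by norm_num)
      _ ≤ (2 * 16 ^ (A1 * bseq b i)) ^ 10 := by gcongr; linarith
  case tail =>
    intro i hi
    obtain ⟨i, rfl⟩ : ∃ s, i = s + 1 := ⟨i - 1, by omega⟩
    rcases i with _ | i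
    · rw [htt, hβ]
      simp only [zero_add, Finset.Ico_self, Finset.sum_empty, zero_mul]
      positivity
    · simp only [Nat.add_sub_cancel]
      rw [hβ, hK, hD]
      have e1 := hθ16 (i + 1)
      have e2 : θ ^ (2 * (2 * 16 ^ (A1 * bseq b (i + 1)))) ≤ θ ^ (16 ^ bseq b (i + 1)) := by
        apply pow_le_pow_of_le_one h0.le h1.le
        have : 16 ^ bseq b (i + 1) ≤ 16 ^ (A1 * bseq b (i + 1)) :=
          Nat.pow_le_pow_right (by norm_num) (by nlinarith)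
        omega
      have e3 : (64 : ℝ) * 16 ^ bseq b (i + 1) ≤
          16 ^ (40 * A3 * bseq b (i + 1 + 1) + 10 * bseq b (i + 1) + 10) := by
        calc (64 : ℝ) * 16 ^ bseq b (i + 1) ≤ 16 ^ 10 * 16 ^ bseq b (i + 1) := by
              gcongr; norm_num
          _ = 16 ^ (10 + bseq b (i + 1)) := by rw [pow_add]
          _ ≤ _ := pow_le_pow_right₀ (by norm_num) (by
            have := Nat.zero_le (40 * A3 * bseq b (i + 1 + 1)); omega)
      have e4 : θ ^ (16 ^ bseq b (i + 1)) ≤ 1 / (64 * 16 ^ bseq b (i + 1)) :=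
        e1.trans (one_div_le_one_div_of_le (by positivity) e3)
      have e5 := httb (i + 1 + 1)
      have e6 : 0 ≤ θ ^ (16 ^ bseq b (i + 1)) := by positivity
      have e7 : (1 : ℝ) / (64 * 16 ^ bseq b (i + 1)) * 2 = 1 / 16 ^ bseq b (i + 1) / 32 := by
        field_simp; norm_num
      have e8 : 0 ≤ θ ^ (2 * (2 * 16 ^ (A1 * bseq b (i + 1)))) := by positivity
      calc _ ≤ 1 * (θ ^ (16 ^ bseq b (i + 1)) + θ ^ (2 * (2 * 16 ^ (A1 * bseq b (i + 1))))) :=
            mul_le_mul_of_nonneg_right e5.2 (by linarith)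
        _ ≤ _ := by linarith
  case hub1 =>
    intro t ht
    obtain ⟨t, rfl⟩ : ∃ s, t = s + 1 := ⟨t - 1, by omega⟩
    simp only [Nat.add_sub_cancel]
    rw [hDr]
    have e1 : (16 : ℝ) ^ (bseq b t) ≤ 16 ^ (A1 * bseq b t) :=
      pow_le_pow_right₀ (by norm_num) (by nlinarith)
    have e2 := h16 t
    have e3 : ((2 * (16 : ℝ) ^ (A1 * bseq b t)) ^ 10)⁻¹ ≤ 1 / (16 ^ (bseq b t) * 8) := by
      rw [one_div]
      apply inv_anti₀ (by positivity)
      set x : ℝ := 16 ^ bseq b t with hx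
      calc x * 8 ≤ x * x := by nlinarith
        _ = x ^ 2 := by ring
        _ ≤ x ^ 10 := pow_le_pow_right₀ (by linarith) (by norm_num)
        _ ≤ (2 * 16 ^ (A1 * bseq b t)) ^ 10 := by gcongr; linarith
    refine e3.trans ?_
    rcases t with _ | t
    · rw [hβ0]
      have e4 : (1 : ℝ) ≤ (16 ^ (A3 * bseq b 1)) ^ 6 := one_le_pow₀ (one_le_pow₀ (by norm_num))
      have e5 : (1 : ℝ) / (16 ^ bseq b 0 * 8) ≤ 1 / 8 := by
        apply one_div_le_one_div_of_le (by norm_num)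
        linarith
      linarith
    · rw [hβ, div_div]
      apply one_div_le_one_div_of_le (by positivity)
      have : (16 : ℝ) ^ bseq b t ≤ 16 ^ bseq b (t + 1) :=
        pow_le_pow_right₀ (by norm_num) (by
          have := hgA t
          nlinarith [Nat.zero_le ((8 * A3 + 3 + A4 + A1) * (bseq b t + 1))])
      linarith
  case hub2 =>
    intro t ht
    obtain ⟨t, rfl⟩ : ∃ s, t = s + 1 := ⟨t - 1, by omega⟩
    simp only [Nat.add_sub_cancel]
    rw [hLc]
    rcases t with _ | t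
    · rw [hβ0, hK0, htt]
      simp only [zero_add, Finset.Ico_self, Finset.sum_empty, one_mul, pow_one]
      have e1 : (256 : ℝ) ≤ 16 ^ (A3 * bseq b 1) := by
        calc (256 : ℝ) = 16 ^ 2 := by norm_num
          _ ≤ _ := pow_le_pow_right₀ (by norm_num) (by nlinarith [hg2 1])
      set x : ℝ := 16 ^ (A3 * bseq b 1) with hx
      have e2 : x ^ 5 * θ ≤ x ^ 5 * 1 := by gcongr
      have e3 : x ^ 5 * 8 ≤ x ^ 6 := by
        rw [pow_succ x 5]; gcongr; linarith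
      linarith
    · rw [hβ, hK]
      have e1 := hθ16 (t + 1)
      have e5 := httb (t + 1 + 1)
      have e2 : ((par b A1 A2 A3 A4 c).tt (t + 1 + 1) + 1) * (16 ^ (A3 * bseq b (t + 1 + 1))) ^ 5 *
          θ ^ (16 ^ bseq b (t + 1)) ≤ 2 * (16 ^ (A3 * bseq b (t + 1 + 1))) ^ 5 *
          (1 / (16 : ℝ) ^ (40 * A3 * bseq b (t + 1 + 1) + 10 * bseq b (t + 1) + 10)) := by
        apply mul_le_mul _ e1 (by positivity) (by positivity)
        apply mul_le_mul_of_nonneg_right _ (by positivity)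
        linarith
      refine e2.trans ?_
      rw [mul_one_div, div_div, div_le_div_iff₀ (by positivity) (by positivity), one_mul]
      have e6 : bseq b t ≤ bseq b (t + 1) := by
        have := hgA t
        nlinarith [Nat.zero_le ((8 * A3 + 3 + A4 + A1) * (bseq b t + 1))]
      calc 2 * ((16 : ℝ) ^ (A3 * bseq b (t + 1 + 1))) ^ 5 * (16 ^ bseq b t * 8)
          = 16 * (16 ^ (A3 * bseq b (t + 1 + 1) * 5) * 16 ^ bseq b t) := by
            rw [← pow_mul]; ring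
        _ = 16 ^ (1 + A3 * bseq b (t + 1 + 1) * 5 + bseq b t) := by
            rw [pow_add, pow_add]; ring
        _ ≤ _ := pow_le_pow_right₀ (by norm_num) (by
            have : 0 ≤ A3 * bseq b (t + 1 + 1) := Nat.zero_le _
            nlinarith)
  case q0 =>
    intro i hi
    obtain ⟨i, rfl⟩ : ∃ s, i = s + 1 := ⟨i - 1, by omega⟩
    rw [hq]
    have : (1 : ℝ) < 4 ^ bseq b i := one_lt_pow₀ (by norm_num) (by have := hg2 i; omega)
    have : 1 / (4 : ℝ) ^ bseq b i < 1 := by rw [div_lt_one (by positivity)]; exact this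
    linarith
  case q1 =>
    intro i hi
    obtain ⟨i, rfl⟩ : ∃ s, i = s + 1 := ⟨i - 1, by omega⟩
    rw [hq]
    have : 0 < 1 / (4 : ℝ) ^ bseq b i := by positivity
    linarith

end Pool.MP_10effd_pr
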