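import Pool.Agent.MP_10effd_pr.LL.Defs

/-! The concrete parameters satisfy the conditions with a cut-off distance. -/

set_option autoImplicit false
set_option linter.unusedSectionVars false

namespace Pool.MP_10effd_pr

open Finset

namespace ParK

theorem le_two_pow_sub {x : ℕ} (hx : 5 ≤ x) : x + 1 ≤ 2 ^ (x - 2) := by
  obtain ⟨y, rfl⟩ : ∃ y, x = y + 5 := ⟨x - 5, by omega⟩
  have : y + 5 - 2 = y + 3 := by omega
  rw [this]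
  clear this hx
  induction y with
  | zero => norm_num
  | succ k ih =>
    have h : 2 ^ (k + 1 + 3) = 2 * 2 ^ (k + 3) := by ring
    rw [h]
    omega

theorem bseq_ge {b : ℕ} (hb : 5 ≤ b) (n : ℕ) : b ≤ bseq b n ∧ bseq b n + 1 ≤ bseq b (n + 1) := by
  induction n with
  | zero => exact ⟨le_rfl, le_two_pow_sub hb⟩
  | succ k ih =>
    have h1 : b ≤ bseq b (k + 1) := by omega
    exact ⟨h1, le_two_pow_sub (by omega)⟩

/-- A cut-off exponent beating a given power. -/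
theorem exists_kappa {θ : ℝ} (h0 : 0 < θ) (h1 : θ < 1) (e : ℕ) :
    ∃ κ : ℕ, ∀ C : ℝ, ∃ n0 : ℕ, ∀ n ≥ n0, C * (16 : ℝ) ^ (e * n) * (θ ^ 2) ^ (κ * n) ≤ 1 := by
  have h2 : θ ^ 2 < 1 := by nlinarith
  have h3 : (0 : ℝ) < θ ^ 2 := by positivity
  obtain ⟨κ, hκ⟩ := exists_pow_lt_of_lt_one (show (0 : ℝ) < ((16 : ℝ) ^ (e + 1))⁻¹ by positivity) h2
  refine ⟨κ, fun C => ?_⟩
  obtain ⟨n0, hn0⟩ := pow_unbounded_of_one_lt C (show (1 : ℝ) < 16 by norm_num)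
  refine ⟨n0, fun n hn => ?_⟩
  have h4 : C ≤ (16 : ℝ) ^ n := hn0.le.trans (pow_le_pow_right₀ (by norm_num) hn)
  have h5 : (θ ^ 2) ^ (κ * n) ≤ ((16 : ℝ) ^ ((e + 1) * n))⁻¹ := by
    rw [pow_mul, pow_mul (16 : ℝ) (e + 1) n, ← inv_pow]
    exact pow_le_pow_left₀ (by positivity) hκ.le n
  calc C * (16 : ℝ) ^ (e * n) * (θ ^ 2) ^ (κ * n)
      ≤ (16 : ℝ) ^ n * (16 : ℝ) ^ (e * n) * ((16 : ℝ) ^ ((e + 1) * n))⁻¹ := by
        gcongr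
    _ = 1 := by
        rw [← pow_add, show n + e * n = (e + 1) * n by ring]
        exact mul_inv_cancel₀ (by positivity)

theorem grow {Δ : ℕ} (e κ : ℕ) (C : ℝ) : ∃ n0 : ℕ, ∀ n ≥ n0,
    C * (16 : ℝ) ^ (e * n) * (Δ : ℝ) ^ (κ * n + 1) ≤ (16 : ℝ) ^ ((e + Δ * κ + 1) * n) := by
  obtain ⟨n0, hn0⟩ := pow_unbounded_of_one_lt (C * Δ) (show (1 : ℝ) < 16 by norm_num)
  refine ⟨n0, fun n hn => ?_⟩
  have h4 : C * Δ ≤ (16 : ℝ) ^ n := hn0.le.trans (pow_le_pow_right₀ (by norm_num) hn)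
  have h5 : (Δ : ℝ) ≤ (16 : ℝ) ^ Δ := by
    have : Δ < 16 ^ Δ := Nat.lt_pow_self (by norm_num)
    exact_mod_cast this.le
  have h6 : (Δ : ℝ) ^ (κ * n) ≤ (16 : ℝ) ^ (Δ * κ * n) := by
    calc (Δ : ℝ) ^ (κ * n) ≤ ((16 : ℝ) ^ Δ) ^ (κ * n) := pow_le_pow_left₀ (by positivity) h5 _
      _ = (16 : ℝ) ^ (Δ * κ * n) := by rw [← pow_mul]; ring_nf
  calc C * (16 : ℝ) ^ (e * n) * (Δ : ℝ) ^ (κ * n + 1)
      = (C * Δ) * ((16 : ℝ) ^ (e * n) * (Δ : ℝ) ^ (κ * n)) := by ring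
    _ ≤ (16 : ℝ) ^ n * ((16 : ℝ) ^ (e * n) * (16 : ℝ) ^ (Δ * κ * n)) := by
        gcongr
    _ = (16 : ℝ) ^ ((e + Δ * κ + 1) * n) := by
        rw [← pow_add, ← pow_add]; ring_nf

/-- bound for the factor of the upper levels -/
theorem cc_le {b A1 A2 A3 A4 : ℕ} (hb : 5 ≤ b) {c : ℝ} (hc : 1 ≤ c) (i : ℕ) (hi : 1 ≤ i) :
    (par b A1 A2 A3 A4 c).cc (i + 1) ≤ 14 * c * (16 : ℝ) ^ bseq b (i - 1) := by
  have key : ∀ k : ℕ, ∑ j ∈ Finset.Ico 1 (k + 2), (2 * c + 2 * c * (1 + (16 : ℝ) ^ bseq b (j - 1)))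
      ≤ 12 * c * (16 : ℝ) ^ bseq b k := by
    intro k
    induction k with
    | zero =>
      have h1 : (1 : ℝ) ≤ (16 : ℝ) ^ bseq b 0 := one_le_pow₀ (by norm_num)
      simp only [zero_add]
      rw [show Finset.Ico 1 2 = {1} by rfl, Finset.sum_singleton]
      simp only [Nat.sub_self]
      nlinarith
    | succ k ih =>
      rw [Finset.sum_Ico_succ_top (by omega)]
      have h1 : (1 : ℝ) ≤ (16 : ℝ) ^ bseq b (k + 1) := one_le_pow₀ (by norm_num)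
      have h2 : (16 : ℝ) * (16 : ℝ) ^ bseq b k ≤ (16 : ℝ) ^ bseq b (k + 1) := by
        rw [← pow_succ']
        exact pow_le_pow_right₀ (by norm_num) (bseq_ge hb k).2
      have h3 : k + 2 - 1 = k + 1 := by omega
      rw [h3]
      have h4 : c * (16 * (16 : ℝ) ^ bseq b k) ≤ c * (16 : ℝ) ^ bseq b (k + 1) := by gcongr
      have h5 : c * 1 ≤ c * (16 : ℝ) ^ bseq b (k + 1) := by gcongr
      nlinarith
  have h1 : (1 : ℝ) ≤ (16 : ℝ) ^ bseq b (i - 1) := one_le_pow₀ (by norm_num)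
  have h2 := key (i - 1)
  rw [show i - 1 + 2 = i + 1 by omega] at h2
  have h3 : c * 1 ≤ c * (16 : ℝ) ^ bseq b (i - 1) := by gcongr
  change 2 * c + ∑ j ∈ Finset.Ico 1 (i + 1), (2 * c + 2 * c * (1 + (16 : ℝ) ^ bseq b (j - 1))) ≤ _
  linarith

theorem D_succ (b A1 A2 A3 A4 : ℕ) (c : ℝ) (l : ℕ) :
    ((par b A1 A2 A3 A4 c).D (l + 1) : ℝ) = 2 * (16 : ℝ) ^ (A1 * bseq b l) := by
  simp [par]

theorem Wc_le (b A1 A2 A3 A4 : ℕ) (c : ℝ) (l : ℕ) :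
    (par b A1 A2 A3 A4 c).Wc l ≤ 64 * (16 : ℝ) ^ (4 * A1 * bseq b l) := by
  unfold Lev.Wc
  rw [D_succ]
  have h1 : (1 : ℝ) ≤ (16 : ℝ) ^ (A1 * bseq b l) := one_le_pow₀ (by norm_num)
  have h2 : (16 : ℝ) ^ (4 * A1 * bseq b l) = ((16 : ℝ) ^ (A1 * bseq b l)) ^ 4 := by
    rw [← pow_mul]; ring_nf
  rw [h2]
  set X := (16 : ℝ) ^ (A1 * bseq b l)
  have h3 : 3 * (2 * X) + 2 ≤ 8 * X := by linarith
  calc (2 * X) ^ 3 * (3 * (2 * X) + 2) ≤ (2 * X) ^ 3 * (8 * X) := by gcongr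
    _ = 64 * X ^ 4 := by ring

theorem Wc_nonneg (b A1 A2 A3 A4 : ℕ) (c : ℝ) (l : ℕ) : 0 ≤ (par b A1 A2 A3 A4 c).Wc l := by
  unfold Lev.Wc
  positivity

theorem Dp_le (b A1 A2 A3 A4 : ℕ) (c : ℝ) (l : ℕ) :
    ((par b A1 A2 A3 A4 c).D (l + 1) : ℝ) + 1 ≤ 3 * (16 : ℝ) ^ (A1 * bseq b l) := by
  rw [D_succ]
  have h1 : (1 : ℝ) ≤ (16 : ℝ) ^ (A1 * bseq b l) := one_le_pow₀ (by norm_num)
  linarith

theorem M_eq (b A1 A2 A3 A4 : ℕ) (c : ℝ) (i : ℕ) :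
    ((par b A1 A2 A3 A4 c).M i : ℝ) = (16 : ℝ) ^ bseq b (i - 1) := by
  simp [par]

theorem lam_le (b A1 A2 A3 A4 : ℕ) (c : ℝ) (i : ℕ) :
    ((par b A1 A2 A3 A4 c).lam i : ℝ) ≤ 97 * (16 : ℝ) ^ bseq b (i - 1) := by
  unfold Lev.lam
  push_cast
  rw [M_eq]
  have h1 : (1 : ℝ) ≤ (16 : ℝ) ^ bseq b (i - 1) := one_le_pow₀ (by norm_num)
  linarith

theorem Wl_le (b A1 A2 A3 A4 : ℕ) (c : ℝ) (i : ℕ) :
    (par b A1 A2 A3 A4 c).Wl i ≤ 5 * 97 ^ 4 * (16 : ℝ) ^ (4 * bseq b (i - 1)) := by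
  unfold Lev.Wl
  have h0 : (0 : ℝ) ≤ ((par b A1 A2 A3 A4 c).lam i : ℝ) := by positivity
  have hl := lam_le b A1 A2 A3 A4 c i
  have h1 : (1 : ℝ) ≤ (16 : ℝ) ^ bseq b (i - 1) := one_le_pow₀ (by norm_num)
  have h2 : (16 : ℝ) ^ (4 * bseq b (i - 1)) = ((16 : ℝ) ^ bseq b (i - 1)) ^ 4 := by
    rw [← pow_mul]; ring_nf
  rw [h2]
  set X := (16 : ℝ) ^ bseq b (i - 1)
  set y := ((par b A1 A2 A3 A4 c).lam i : ℝ)
  calc y ^ 3 * (3 * y + 2) ≤ (97 * X) ^ 3 * (3 * (97 * X) + 2 * (97 * X)) := by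
        gcongr
        linarith
    _ = 5 * 97 ^ 4 * X ^ 4 := by ring

theorem Wl_nonneg (b A1 A2 A3 A4 : ℕ) (c : ℝ) (i : ℕ) : 0 ≤ (par b A1 A2 A3 A4 c).Wl i := by
  unfold Lev.Wl
  positivity

end ParK

open ParK

theorem par_goodK {θ : ℝ} (h0 : 0 < θ) (h1 : θ < 1) {Δ : ℕ} (hΔ : 2 ≤ Δ) {c : ℝ} (hc : 1 ≤ c) :
    ∃ A1 A2 A3 A4 : ℕ, 2 ≤ A1 ∧ A1 ≤ A2 ∧ A2 ≤ A3 ∧
      ∃ b0, ∀ b ≥ b0, (par b A1 A2 A3 A4 c).GoodK θ Δ c := by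
  have hΔ0 : (0 : ℝ) ≤ (Δ : ℝ) := by positivity
  have hc0 : 0 ≤ c := by linarith
  -- medium jobs
  obtain ⟨κ1, hκ1⟩ := exists_kappa h0 h1 6
  obtain ⟨A1, hA1⟩ : ∃ A1, A1 = 7 + Δ * κ1 + 1 := ⟨_, rfl⟩
  -- hub routes
  obtain ⟨κ2, hκ2⟩ := exists_kappa h0 h1 (14 * A1 + 2)
  obtain ⟨A2, hA2⟩ : ∃ A2, A2 = (5 * A1 + 2) + Δ * κ2 + 1 := ⟨_, rfl⟩
  -- special vertices
  obtain ⟨κ0, hκ0⟩ := exists_kappa h0 h1 (4 * A1 + 1)
  obtain ⟨A4, hA4⟩ : ∃ A4, A4 = (5 * A1) + Δ * κ0 + 1 := ⟨_, rfl⟩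
  obtain ⟨n1, hn1⟩ := hκ1 (c * 2 * (5 * 97 ^ 4) * 32)
  obtain ⟨n2, hn2⟩ := grow (Δ := Δ) 7 κ1 (c * 2 * (5 * 97 ^ 4) * 98 * 32)
  obtain ⟨n3, hn3⟩ := hκ2 (14 * c * 64 * 2 ^ 10)
  obtain ⟨n4, hn4⟩ := grow (Δ := Δ) (5 * A1 + 2) κ2 (14 * c * 64 * 3 * 32)
  obtain ⟨n5, hn5⟩ := hκ0 (2 * c * 64 * 32)
  obtain ⟨n6, hn6⟩ := grow (Δ := Δ) (5 * A1) κ0 (2 * c * 64 * 3 * 2)
  refine ⟨A1, A2, A2, A4, by omega, by rw [hA2]; nlinarith [Nat.zero_le (Δ * κ2)], le_rfl,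
    5 + n1 + n2 + n3 + n4 + n5 + n6, fun b hb => ?_⟩
  have hb5 : 5 ≤ b := by omega
  have hpos : ∀ n : ℕ, (0 : ℝ) < (16 : ℝ) ^ n := fun n => by positivity
  -- the two basic estimates for the routes
  have LA : ∀ (l : ℕ) (F : ℝ), 0 ≤ F → F ≤ 14 * c * (16 : ℝ) ^ bseq b l →
      F * (par b A1 A2 A2 A4 c).Wc l * (θ ^ 2) ^ (κ2 * bseq b l)
        ≤ (((par b A1 A2 A2 A4 c).D (l + 1) : ℝ) ^ 10)⁻¹ := by
    intro l F hF0 hF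
    have hn : b ≤ bseq b l := (bseq_ge hb5 l).1
    have hW := Wc_le b A1 A2 A2 A4 c l
    have hW0 := Wc_nonneg b A1 A2 A2 A4 c l
    rw [D_succ, ← one_div, le_div_iff₀ (by positivity)]
    have h3 := hn3 (bseq b l) (by omega)
    set n := bseq b l
    have hθk : (0 : ℝ) ≤ (θ ^ 2) ^ (κ2 * n) := by positivity
    calc F * (par b A1 A2 A2 A4 c).Wc l * (θ ^ 2) ^ (κ2 * n) * (2 * (16 : ℝ) ^ (A1 * n)) ^ 10
        ≤ (14 * c * (16 : ℝ) ^ n) * (64 * (16 : ℝ) ^ (4 * A1 * n)) * (θ ^ 2) ^ (κ2 * n)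
          * (2 * (16 : ℝ) ^ (A1 * n)) ^ 10 := by gcongr
      _ = 14 * c * 64 * 2 ^ 10 * ((16 : ℝ) ^ n * (16 : ℝ) ^ (4 * A1 * n)
          * ((16 : ℝ) ^ (A1 * n)) ^ 10) * (θ ^ 2) ^ (κ2 * n) := by ring
      _ ≤ 14 * c * 64 * 2 ^ 10 * (16 : ℝ) ^ ((14 * A1 + 2) * n) * (θ ^ 2) ^ (κ2 * n) := by
          gcongr
          rw [← pow_mul, ← pow_add, ← pow_add]
          apply pow_le_pow_right₀ (by norm_num)
          nlinarith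
      _ ≤ 1 := h3
  have LB : ∀ (l : ℕ) (F : ℝ), 0 ≤ F → F ≤ 14 * c * (16 : ℝ) ^ bseq b l →
      F * (par b A1 A2 A2 A4 c).Wc l * (((par b A1 A2 A2 A4 c).D (l + 1) : ℝ) + 1)
        * (Δ : ℝ) ^ (κ2 * bseq b l + 1) * (32 * (16 : ℝ) ^ bseq b l)
        ≤ (16 : ℝ) ^ (A2 * bseq b l) := by
    intro l F hF0 hF
    have hn : b ≤ bseq b l := (bseq_ge hb5 l).1
    have hW := Wc_le b A1 A2 A2 A4 c l
    have hW0 := Wc_nonneg b A1 A2 A2 A4 c l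
    have hD := Dp_le b A1 A2 A2 A4 c l
    have h4 := hn4 (bseq b l) (by omega)
    rw [← hA2] at h4
    set n := bseq b l
    calc F * (par b A1 A2 A2 A4 c).Wc l * (((par b A1 A2 A2 A4 c).D (l + 1) : ℝ) + 1)
        * (Δ : ℝ) ^ (κ2 * n + 1) * (32 * (16 : ℝ) ^ n)
        ≤ (14 * c * (16 : ℝ) ^ n) * (64 * (16 : ℝ) ^ (4 * A1 * n)) * (3 * (16 : ℝ) ^ (A1 * n))
          * (Δ : ℝ) ^ (κ2 * n + 1) * (32 * (16 : ℝ) ^ n) := by gcongr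
      _ = 14 * c * 64 * 3 * 32 * ((16 : ℝ) ^ n * (16 : ℝ) ^ (4 * A1 * n)
          * (16 : ℝ) ^ (A1 * n) * (16 : ℝ) ^ n) * (Δ : ℝ) ^ (κ2 * n + 1) := by ring
      _ = 14 * c * 64 * 3 * 32 * (16 : ℝ) ^ ((5 * A1 + 2) * n) * (Δ : ℝ) ^ (κ2 * n + 1) := by
          rw [← pow_add, ← pow_add, ← pow_add]
          congr 3
          ring
      _ ≤ (16 : ℝ) ^ (A2 * n) := h4
  constructor
  · -- k2_0
    have hF0 : (0 : ℝ) ≤ 2 * c := by linarith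
    have hF : 2 * c ≤ 14 * c * (16 : ℝ) ^ bseq b 0 := by
      have h1 : (1 : ℝ) ≤ (16 : ℝ) ^ bseq b 0 := one_le_pow₀ (by norm_num)
      have h2 : 14 * c * 1 ≤ 14 * c * (16 : ℝ) ^ bseq b 0 := by gcongr
      linarith
    refine ⟨κ2 * bseq b 0, LA 0 (2 * c) hF0 hF, ?_⟩
    have h := LB 0 (2 * c) hF0 hF
    have hβ : (par b A1 A2 A2 A4 c).β 0 = ((16 : ℝ) ^ (A2 * bseq b 1)) ^ 6 := by simp [par]
    rw [hβ]
    have h2 : (16 : ℝ) ^ (A2 * bseq b 0) ≤ ((16 : ℝ) ^ (A2 * bseq b 1)) ^ 6 := by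
      rw [← pow_mul]
      apply pow_le_pow_right₀ (by norm_num)
      have := (bseq_ge hb5 0).2
      simp only [zero_add] at this
      nlinarith [Nat.zero_le A2, Nat.zero_le (A2 * bseq b 1)]
    have h1 : (1 : ℝ) ≤ (16 : ℝ) ^ bseq b 0 := one_le_pow₀ (by norm_num)
    have hnn : 0 ≤ 2 * c * (par b A1 A2 A2 A4 c).Wc 0 *
        (((par b A1 A2 A2 A4 c).D (0 + 1) : ℝ) + 1) * (Δ : ℝ) ^ (κ2 * bseq b 0 + 1) := by
      have := Wc_nonneg b A1 A2 A2 A4 c 0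
      positivity
    simp only [zero_add] at h hnn
    have h5 := le_mul_of_one_le_right hnn (show (1 : ℝ) ≤ (16 : ℝ) ^ bseq b 0 from h1)
    linarith
  · -- k2
    intro i hi
    have hn' : bseq b (i - 1) ≤ bseq b i := by
      obtain ⟨l, rfl⟩ : ∃ l, i = l + 1 := ⟨i - 1, by omega⟩
      have := (bseq_ge hb5 l).2
      simp only [Nat.add_sub_cancel]
      omega
    have h16 : (16 : ℝ) ^ bseq b (i - 1) ≤ (16 : ℝ) ^ bseq b i :=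
      pow_le_pow_right₀ (by norm_num) hn'
    have hcc : (par b A1 A2 A2 A4 c).cc (i + 1) ≤ 14 * c * (16 : ℝ) ^ bseq b i :=
      (cc_le hb5 hc i hi).trans (by gcongr)
    have hcc0 : 0 ≤ (par b A1 A2 A2 A4 c).cc (i + 1) := by
      change 0 ≤ 2 * c + ∑ j ∈ Finset.Ico 1 (i + 1), (2 * c + 2 * c * (1 + (16 : ℝ) ^ bseq b (j - 1)))
      positivity
    have hβ : (par b A1 A2 A2 A4 c).β i = 1 / (16 : ℝ) ^ bseq b (i - 1) := by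
      simp [par, show i ≠ 0 by omega]
    have hLc : ((par b A1 A2 A2 A4 c).Lc i : ℝ) = (16 : ℝ) ^ (A2 * bseq b i) := by simp [par]
    have hg : ((par b A1 A2 A2 A4 c).g i : ℝ) = (16 : ℝ) ^ (A2 * bseq b i) := by
      simp [par, show i ≠ 0 by omega]
    have fin : ∀ y : ℝ, 0 ≤ y → y * (32 * (16 : ℝ) ^ bseq b i) ≤ (16 : ℝ) ^ (A2 * bseq b i) →
        y ≤ 1 / (16 : ℝ) ^ bseq b (i - 1) / 32 * (16 : ℝ) ^ (A2 * bseq b i) := by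
      intro y hy h
      have e1 : 1 / (16 : ℝ) ^ bseq b (i - 1) / 32 * (16 : ℝ) ^ (A2 * bseq b i)
          = (16 : ℝ) ^ (A2 * bseq b i) / (32 * (16 : ℝ) ^ bseq b (i - 1)) := by
        field_simp
      rw [e1, le_div_iff₀ (by positivity)]
      refine le_trans ?_ h
      gcongr
    refine ⟨κ2 * bseq b i, LA i _ hcc0 hcc, ?_, ?_⟩
    · rw [hβ, hLc]
      apply fin _ _ (LB i _ hcc0 hcc)
      have := Wc_nonneg b A1 A2 A2 A4 c i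
      positivity
    · rw [hβ, hg, M_eq]
      have hF0 : 0 ≤ c * (1 + (16 : ℝ) ^ bseq b (i - 1)) := by positivity
      have hF : c * (1 + (16 : ℝ) ^ bseq b (i - 1)) ≤ 14 * c * (16 : ℝ) ^ bseq b i := by
        have h1 : (1 : ℝ) ≤ (16 : ℝ) ^ bseq b i := one_le_pow₀ (by norm_num)
        have h2 : c * (1 + (16 : ℝ) ^ bseq b (i - 1)) ≤
            c * ((16 : ℝ) ^ bseq b i + (16 : ℝ) ^ bseq b i) := by gcongr
        have h3 : 0 ≤ c * (16 : ℝ) ^ bseq b i := by positivity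
        linarith
      apply fin _ _ (LB i _ hF0 hF)
      have := Wc_nonneg b A1 A2 A2 A4 c i
      positivity
  · -- k1
    intro i hi
    have hn : b ≤ bseq b (i - 1) := (bseq_ge hb5 _).1
    have hβ : (par b A1 A2 A2 A4 c).β i = 1 / (16 : ℝ) ^ bseq b (i - 1) := by
      simp [par, show i ≠ 0 by omega]
    have hv : ((par b A1 A2 A2 A4 c).v i : ℝ) = (16 : ℝ) ^ (A1 * bseq b (i - 1)) := by simp [par]
    have hW := Wl_le b A1 A2 A2 A4 c i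
    have hW0 := Wl_nonneg b A1 A2 A2 A4 c i
    have hl := lam_le b A1 A2 A2 A4 c i
    have h1 := hn1 (bseq b (i - 1)) (by omega)
    have h2 := hn2 (bseq b (i - 1)) (by omega)
    rw [← hA1] at h2
    rw [hβ, hv, M_eq]
    set n := bseq b (i - 1)
    have h16 : (1 : ℝ) ≤ (16 : ℝ) ^ n := one_le_pow₀ (by norm_num)
    have hF : c * (1 + (16 : ℝ) ^ n) ≤ c * (2 * (16 : ℝ) ^ n) := by gcongr; linarith
    refine ⟨κ1 * n, ?_, ?_⟩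
    · rw [div_div, le_div_iff₀ (by positivity)]
      calc c * (1 + (16 : ℝ) ^ n) * (par b A1 A2 A2 A4 c).Wl i * (θ ^ 2) ^ (κ1 * n)
            * ((16 : ℝ) ^ n * 32)
          ≤ c * (2 * (16 : ℝ) ^ n) * (5 * 97 ^ 4 * (16 : ℝ) ^ (4 * n)) * (θ ^ 2) ^ (κ1 * n)
            * ((16 : ℝ) ^ n * 32) := by gcongr
        _ = c * 2 * (5 * 97 ^ 4) * 32 * ((16 : ℝ) ^ n * (16 : ℝ) ^ (4 * n) * (16 : ℝ) ^ n)
            * (θ ^ 2) ^ (κ1 * n) := by ring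
        _ = c * 2 * (5 * 97 ^ 4) * 32 * (16 : ℝ) ^ (6 * n) * (θ ^ 2) ^ (κ1 * n) := by
            rw [← pow_add, ← pow_add]
            congr 3
            ring
        _ ≤ 1 := h1
    · have e1 : 1 / (16 : ℝ) ^ n / 32 * (16 : ℝ) ^ (A1 * n)
          = (16 : ℝ) ^ (A1 * n) / (32 * (16 : ℝ) ^ n) := by
        field_simp
      rw [e1, le_div_iff₀ (by positivity)]
      have hl1 : ((par b A1 A2 A2 A4 c).lam i : ℝ) + 1 ≤ 98 * (16 : ℝ) ^ n := by linarith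
      calc c * (1 + (16 : ℝ) ^ n) * (par b A1 A2 A2 A4 c).Wl i
            * (((par b A1 A2 A2 A4 c).lam i : ℝ) + 1) * (Δ : ℝ) ^ (κ1 * n + 1)
            * (32 * (16 : ℝ) ^ n)
          ≤ c * (2 * (16 : ℝ) ^ n) * (5 * 97 ^ 4 * (16 : ℝ) ^ (4 * n)) * (98 * (16 : ℝ) ^ n)
            * (Δ : ℝ) ^ (κ1 * n + 1) * (32 * (16 : ℝ) ^ n) := by gcongr
        _ = c * 2 * (5 * 97 ^ 4) * 98 * 32 * ((16 : ℝ) ^ n * (16 : ℝ) ^ (4 * n) * (16 : ℝ) ^ n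
            * (16 : ℝ) ^ n) * (Δ : ℝ) ^ (κ1 * n + 1) := by ring
        _ = c * 2 * (5 * 97 ^ 4) * 98 * 32 * (16 : ℝ) ^ (7 * n) * (Δ : ℝ) ^ (κ1 * n + 1) := by
            rw [← pow_add, ← pow_add, ← pow_add]
            congr 3
            ring
        _ ≤ (16 : ℝ) ^ (A1 * n) := h2
  · -- k0
    intro i hi
    obtain ⟨l, rfl⟩ : ∃ l, i = l + 1 := ⟨i - 1, by omega⟩
    simp only [Nat.add_sub_cancel]
    have hn : b ≤ bseq b l := (bseq_ge hb5 _).1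
    have hβ : (par b A1 A2 A2 A4 c).β (l + 1) = 1 / (16 : ℝ) ^ bseq b l := by
      simp [par]
    have hC : (par b A1 A2 A2 A4 c).Csp (l + 1) = (16 : ℝ) ^ (A4 * bseq b l) := by
      simp [par]
    have hW := Wc_le b A1 A2 A2 A4 c l
    have hW0 := Wc_nonneg b A1 A2 A2 A4 c l
    have hD := Dp_le b A1 A2 A2 A4 c l
    have h5 := hn5 (bseq b l) (by omega)
    have h6 := hn6 (bseq b l) (by omega)
    rw [← hA4] at h6
    rw [hβ, hC]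
    set n := bseq b l
    refine ⟨κ0 * n, ?_, ?_⟩
    · rw [div_div, le_div_iff₀ (by positivity)]
      calc 2 * c * (par b A1 A2 A2 A4 c).Wc l * (θ ^ 2) ^ (κ0 * n) * ((16 : ℝ) ^ n * 32)
          ≤ 2 * c * (64 * (16 : ℝ) ^ (4 * A1 * n)) * (θ ^ 2) ^ (κ0 * n)
            * ((16 : ℝ) ^ n * 32) := by gcongr
        _ = 2 * c * 64 * 32 * ((16 : ℝ) ^ (4 * A1 * n) * (16 : ℝ) ^ n)
            * (θ ^ 2) ^ (κ0 * n) := by ring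
        _ = 2 * c * 64 * 32 * (16 : ℝ) ^ ((4 * A1 + 1) * n) * (θ ^ 2) ^ (κ0 * n) := by
            rw [← pow_add]
            congr 3
            ring
        _ ≤ 1 := h5
    · rw [le_div_iff₀ (by norm_num)]
      calc 2 * c * (par b A1 A2 A2 A4 c).Wc l * (((par b A1 A2 A2 A4 c).D (l + 1) : ℝ) + 1)
            * (Δ : ℝ) ^ (κ0 * n + 1) * 2
          ≤ 2 * c * (64 * (16 : ℝ) ^ (4 * A1 * n)) * (3 * (16 : ℝ) ^ (A1 * n))
            * (Δ : ℝ) ^ (κ0 * n + 1) * 2 := by gcongr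
        _ = 2 * c * 64 * 3 * 2 * ((16 : ℝ) ^ (4 * A1 * n) * (16 : ℝ) ^ (A1 * n))
            * (Δ : ℝ) ^ (κ0 * n + 1) := by ring
        _ = 2 * c * 64 * 3 * 2 * (16 : ℝ) ^ (5 * A1 * n) * (Δ : ℝ) ^ (κ0 * n + 1) := by
            rw [← pow_add]
            congr 3
            ring
        _ ≤ (16 : ℝ) ^ (A4 * n) := h6

end Pool.MP_10effd_pr
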