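import Pool.Agent.MP_10effd_pr.LL.Defs

/-! The total cost is bounded uniformly in the height. -/

set_option autoImplicit false
set_option linter.unusedSectionVars false

namespace Pool.MP_10effd_pr

open Finset

namespace ParT

theorem lin_le_pow (B : ℕ) : ∃ x0, 8 ≤ x0 ∧ ∀ x, x0 ≤ x → B * x ≤ 2 ^ (x - 2) := by
  refine ⟨2 * (B + 3) + 2 + 8, by omega, ?_⟩
  intro x hx
  obtain ⟨y, rfl⟩ : ∃ y, x = 2 * (B + 3) + y + 2 := ⟨x - (2 * (B + 3) + 2), by omega⟩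
  have h1 : 2 * (B + 3) + y + 2 - 2 = (B + 3) + (B + 3 + y) := by omega
  rw [h1, pow_add]
  have h2 : B + 3 + y + 1 ≤ 2 ^ (B + 3 + y) := Nat.lt_two_pow_self
  have h3 : 8 * (B + 1) ≤ 2 ^ (B + 3) := by
    have : B + 1 ≤ 2 ^ B := Nat.lt_two_pow_self
    rw [pow_add]; omega
  calc B * (2 * (B + 3) + y + 2) ≤ (8 * (B + 1)) * (B + 3 + y + 1) := by nlinarith
    _ ≤ _ := Nat.mul_le_mul h3 h2

/-- exponents -/
theorem pow2_div {a c d : ℕ} (h : a + d ≤ c) : (2 : ℝ) ^ a / 2 ^ c ≤ 1 / 2 ^ d := by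
  rw [div_le_div_iff₀ (by positivity) (by positivity), one_mul, ← pow_add]
  exact pow_le_pow_right₀ (by norm_num) h

section seq

variable {b : ℕ} (hb8 : 8 ≤ b) (hb : ∀ x, b ≤ x → 5 * x + 5 ≤ 2 ^ (x - 2))

include hb8 hb

theorem bseq_ge (n : ℕ) : b + n ≤ bseq b n := by
  induction n with
  | zero => simp [bseq]
  | succ n ih =>
    have h1 : b ≤ bseq b n := by omega
    have h2 := hb _ h1
    simp only [bseq]
    omega

theorem bseq_mono_succ (n : ℕ) : bseq b n ≤ bseq b (n + 1) := by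
  have h1 : b ≤ bseq b n := by have := bseq_ge hb8 hb n; omega
  have h2 := hb _ h1
  simp only [bseq]
  omega

theorem bseq_mono : Monotone (bseq b) := monotone_nat_of_le_succ (bseq_mono_succ hb8 hb)

theorem X_ge {s : ℕ} (_hs : 1 ≤ s) : s + 7 ≤ bseq b (s - 1) := by
  have := bseq_ge hb8 hb (s - 1); omega

theorem X_ge_b (s : ℕ) : b ≤ bseq b (s - 1) := by
  have := bseq_ge hb8 hb (s - 1); omega

theorem X_mono {s t : ℕ} (h : s ≤ t) : bseq b (s - 1) ≤ bseq b (t - 1) :=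
  bseq_mono hb8 hb (by omega)

theorem inv_X_le {s : ℕ} (hs : 1 ≤ s) : (1 : ℝ) / 2 ^ bseq b (s - 1) ≤ (1 / 2) ^ s := by
  rw [one_div_pow]
  apply one_div_le_one_div_of_le (by positivity)
  exact pow_le_pow_right₀ (by norm_num) (by have := X_ge hb8 hb hs; omega)

theorem sum_inv_X (n m : ℕ) (hn : 1 ≤ n) :
    ∑ s ∈ Finset.Ico n m, (1 : ℝ) / 2 ^ bseq b (s - 1) ≤ 2 := by
  calc ∑ s ∈ Finset.Ico n m, (1 : ℝ) / 2 ^ bseq b (s - 1)
      ≤ ∑ s ∈ Finset.Ico n m, (1 / (2 : ℝ)) ^ s :=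
        Finset.sum_le_sum fun s hs => inv_X_le hb8 hb (by have := (Finset.mem_Ico.mp hs).1; omega)
    _ ≤ ∑ s ∈ Finset.range m, (1 / (2 : ℝ)) ^ s := by
        apply Finset.sum_le_sum_of_subset_of_nonneg
        · intro s hs; exact Finset.mem_range.mpr (Finset.mem_Ico.mp hs).2
        · intro s _ _; positivity
    _ ≤ 2 := sum_geometric_two_le m

end seq


section main

variable {b A1 A2 A3 A4 : ℕ} {c : ℝ}

theorem X_succ {s : ℕ} (hs : 2 ≤ s) : bseq b (s - 1) = 2 ^ (bseq b (s - 2) - 2) := by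
  obtain ⟨t, rfl⟩ : ∃ t, s = t + 2 := ⟨s - 2, by omega⟩
  have : t + 2 - 1 = t + 1 := by omega
  rw [this, Nat.add_sub_cancel]
  rfl

theorem kap_self (l k : ℕ) : (par b A1 A2 A3 A4 c).kap (l + 1) l k = k := by
  simp [Lev.kap]

theorem K_le (hb8 : 8 ≤ b) (hb : ∀ x, b ≤ x → 5 * x + 5 ≤ 2 ^ (x - 2)) {s l k : ℕ}
    (hs : l + 2 ≤ s) (hk : k < (par b A1 A2 A3 A4 c).K l ∨ k = 0) :
    k ≤ 16 ^ bseq b (s - 2) := by
  rcases hk with hk | hk
  · unfold Lev.K at hk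
    split_ifs at hk with h0
    · have : k = 0 := by omega
      simp [this]
    · have h1 : (par b A1 A2 A3 A4 c).M (l + 1) = 16 ^ bseq b l := by
        simp [par]
      rw [h1] at hk
      exact hk.le.trans (Nat.pow_le_pow_right (by norm_num) (bseq_mono hb8 hb (by omega)))
  · simp [hk]

theorem kap_le (hb8 : 8 ≤ b) (hb : ∀ x, b ≤ x → 5 * x + 5 ≤ 2 ^ (x - 2)) {s l k : ℕ}
    (hs : l + 2 ≤ s) (hk : k < (par b A1 A2 A3 A4 c).K l ∨ k = 0) :
    (par b A1 A2 A3 A4 c).kap s l k ≤ 2 ^ (5 * bseq b (s - 2) + 2) := by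
  have h1 := K_le hb8 hb hs hk
  unfold Lev.kap
  set x := bseq b (s - 2) with hx
  have hsx : s ≤ x := by
    have := bseq_ge hb8 hb (s - 2)
    omega
  have h2 : ∀ j ∈ Finset.Ico (l + 1) s, 2 * (par b A1 A2 A3 A4 c).M j + 1 ≤ 3 * 16 ^ x := by
    intro j hj
    rw [Finset.mem_Ico] at hj
    have h3 : (par b A1 A2 A3 A4 c).M j = 16 ^ bseq b (j - 1) := rfl
    rw [h3]
    have h4 : 16 ^ bseq b (j - 1) ≤ 16 ^ x :=
      Nat.pow_le_pow_right (by norm_num) (bseq_mono hb8 hb (by omega))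
    have h5 : 1 ≤ 16 ^ x := Nat.one_le_pow _ _ (by norm_num)
    omega
  have h3 : ∑ j ∈ Finset.Ico (l + 1) s, (2 * (par b A1 A2 A3 A4 c).M j + 1)
      ≤ x * (3 * 16 ^ x) := by
    refine (Finset.sum_le_card_nsmul _ _ _ h2).trans ?_
    rw [smul_eq_mul, Nat.card_Ico]
    exact Nat.mul_le_mul (by omega) le_rfl
  have h4 : x ≤ 2 ^ x := Nat.lt_two_pow_self.le
  have h5 : 2 ^ (5 * x + 2) = 4 * (2 ^ x * 16 ^ x) := by
    have : (16 : ℕ) = 2 ^ 4 := by norm_num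
    rw [this, ← pow_mul, ← pow_add, show 5 * x + 2 = 2 + (x + 4 * x) by ring, pow_add]
    norm_num
  rw [h5]
  have h6 : 1 ≤ 2 ^ x := Nat.one_le_pow _ _ (by norm_num)
  have h7 : x * (3 * 16 ^ x) ≤ 3 * (2 ^ x * 16 ^ x) := by
    have := Nat.mul_le_mul h4 (le_refl (3 * 16 ^ x))
    linarith
  have h8 : 16 ^ x ≤ 2 ^ x * 16 ^ x := Nat.le_mul_of_pos_left _ h6
  omega

/-- the rate at level `s` -/
theorem q_inv_pow (hb8 : 8 ≤ b) (hb : ∀ x, b ≤ x → 5 * x + 5 ≤ 2 ^ (x - 2)) (s n : ℕ) :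
    0 < (par b A1 A2 A3 A4 c).q s ∧
    ((par b A1 A2 A3 A4 c).q s ^ n)⁻¹ ≤ Real.exp (2 * n / 4 ^ bseq b (s - 1)) := by
  have h1 : (par b A1 A2 A3 A4 c).q s = 1 - 1 / 4 ^ bseq b (s - 1) := rfl
  have hX := X_ge_b hb8 hb s
  set X := bseq b (s - 1)
  have h4 : (4 : ℝ) ≤ 4 ^ X := by
    calc (4 : ℝ) = 4 ^ 1 := by norm_num
      _ ≤ 4 ^ X := pow_le_pow_right₀ (by norm_num) (by omega)
  have hd0 : (0 : ℝ) < 1 / 4 ^ X := by positivity
  have hd : (1 : ℝ) / 4 ^ X ≤ 1 / 4 := one_div_le_one_div_of_le (by norm_num) h4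
  rw [h1]
  have hq : (0 : ℝ) < 1 - 1 / 4 ^ X := by linarith
  refine ⟨hq, ?_⟩
  have h2 : (1 - (1 : ℝ) / 4 ^ X)⁻¹ ≤ Real.exp (2 * (1 / 4 ^ X)) := by
    have h3 := Real.add_one_le_exp (2 * ((1 : ℝ) / 4 ^ X))
    refine le_trans ?_ h3
    rw [inv_le_iff_one_le_mul₀ hq]
    nlinarith
  rw [← inv_pow]
  calc ((1 - (1 : ℝ) / 4 ^ X)⁻¹) ^ n ≤ (Real.exp (2 * (1 / 4 ^ X))) ^ n :=
        pow_le_pow_left₀ (inv_nonneg.mpr hq.le) h2 n
    _ = Real.exp (2 * n / 4 ^ X) := by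
        rw [← Real.exp_nat_mul]; congr 1; ring

theorem Lcq_le (hb8 : 8 ≤ b) (hb : ∀ x, b ≤ x → 5 * x + 5 ≤ 2 ^ (x - 2)) {E : ℕ}
    (hE : ∀ x, b ≤ x → (4 * A3 + E) * x ≤ 2 ^ (x - 2)) {s : ℕ} (hs : 1 ≤ s) :
    0 ≤ ((par b A1 A2 A3 A4 c).Lc s : ℝ) * (par b A1 A2 A3 A4 c).q s ^
      ((par b A1 A2 A3 A4 c).M s + 1) ∧
    ((par b A1 A2 A3 A4 c).Lc s : ℝ) * (par b A1 A2 A3 A4 c).q s ^
      ((par b A1 A2 A3 A4 c).M s + 1) ≤ 1 / 2 ^ (E * bseq b (s - 1)) := by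
  have hq0 := (q_inv_pow (A1 := A1) (A2 := A2) (A3 := A3) (A4 := A4) (c := c) hb8 hb s 0).1
  refine ⟨by positivity, ?_⟩
  have h1 : (par b A1 A2 A3 A4 c).q s = 1 - 1 / 4 ^ bseq b (s - 1) := rfl
  have h2 : (par b A1 A2 A3 A4 c).M s = 16 ^ bseq b (s - 1) := rfl
  have h3 : (par b A1 A2 A3 A4 c).Lc s = 16 ^ (A3 * bseq b s) := rfl
  have h4 : bseq b s = 2 ^ (bseq b (s - 1) - 2) := by
    have := X_succ (b := b) (s := s + 1) (by omega)
    simpa using this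
  have hX := X_ge_b hb8 hb s
  rw [h3, h4, h2]
  rw [h1] at hq0 ⊢
  set X := bseq b (s - 1)
  have h5 : (1 - (1 : ℝ) / 4 ^ X) ^ (16 ^ X + 1) ≤ Real.exp (-(4 ^ X : ℕ)) := by
    have h6 : (1 - (1 : ℝ) / 4 ^ X) ≤ Real.exp (-(1 / 4 ^ X)) := by
      have := Real.add_one_le_exp (-((1 : ℝ) / 4 ^ X)); linarith
    calc (1 - (1 : ℝ) / 4 ^ X) ^ (16 ^ X + 1) ≤ (1 - (1 : ℝ) / 4 ^ X) ^ (16 ^ X) := by
          apply pow_le_pow_of_le_one hq0.le _ (by omega)
          have : (0 : ℝ) < 1 / 4 ^ X := by positivity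
          linarith
      _ ≤ (Real.exp (-(1 / 4 ^ X))) ^ (16 ^ X) := pow_le_pow_left₀ hq0.le h6 _
      _ = Real.exp (-(4 ^ X : ℕ)) := by
          rw [← Real.exp_nat_mul]
          congr 1
          push_cast
          have : (16 : ℝ) ^ X = 4 ^ X * 4 ^ X := by rw [← mul_pow]; norm_num
          rw [this]
          field_simp
  have h7 : Real.exp (-(4 ^ X : ℕ)) ≤ 1 / 2 ^ (4 ^ X) := by
    rw [Real.exp_neg, ← one_div]
    apply one_div_le_one_div_of_le (by positivity)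
    have h8 : (2 : ℝ) ≤ Real.exp 1 := by have := Real.add_one_le_exp (1 : ℝ); linarith
    calc (2 : ℝ) ^ (4 ^ X) ≤ (Real.exp 1) ^ (4 ^ X) := pow_le_pow_left₀ (by norm_num) h8 _
      _ = Real.exp ((4 ^ X : ℕ)) := by rw [← Real.exp_nat_mul]; congr 1; simp
  calc ((16 ^ (A3 * 2 ^ (X - 2)) : ℕ) : ℝ) * (1 - (1 : ℝ) / 4 ^ X) ^ (16 ^ X + 1)
      ≤ (2 : ℝ) ^ (4 * (A3 * 2 ^ (X - 2))) * (1 / 2 ^ (4 ^ X)) := by
        have h9 : ((16 ^ (A3 * 2 ^ (X - 2)) : ℕ) : ℝ) = (2 : ℝ) ^ (4 * (A3 * 2 ^ (X - 2))) := by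
          push_cast
          rw [show (16 : ℝ) = 2 ^ 4 by norm_num, ← pow_mul]
        rw [h9]
        exact mul_le_mul_of_nonneg_left (h5.trans h7) (by positivity)
    _ = (2 : ℝ) ^ (4 * (A3 * 2 ^ (X - 2))) / 2 ^ (4 ^ X) := by ring
    _ ≤ 1 / 2 ^ (E * X) := by
        apply pow2_div
        have e1 := hE X hX
        have e2 : 4 ^ X = 2 ^ (X - 2) * 2 ^ (X - 2) * 16 := by
          obtain ⟨y, hy⟩ : ∃ y, X = y + 2 := ⟨X - 2, by omega⟩
          rw [hy, Nat.add_sub_cancel, pow_add, ← mul_pow]; norm_num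
        rw [e2]
        have e3 : 1 ≤ 2 ^ (X - 2) := Nat.one_le_pow _ _ (by norm_num)
        have e4 : 1 ≤ X := by omega
        set Y := 2 ^ (X - 2) with hY
        have e5 : 4 * A3 * X + E * X ≤ Y := by rw [← add_mul]; exact e1
        have e6 : 4 * A3 ≤ 4 * A3 * X := Nat.le_mul_of_pos_right _ e4
        have e7 : 4 * A3 ≤ Y := by omega
        have e8 : 4 * A3 * Y ≤ Y * Y := Nat.mul_le_mul e7 le_rfl
        have e9 : Y ≤ Y * Y := Nat.le_mul_of_pos_left _ e3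
        calc 4 * (A3 * Y) + E * X ≤ Y * Y + Y * Y := by
              rw [← mul_assoc]; omega
          _ ≤ Y * Y * 16 := by omega


theorem ee_nonneg (hb8 : 8 ≤ b) (hb : ∀ x, b ≤ x → 5 * x + 5 ≤ 2 ^ (x - 2)) (s κ : ℕ) :
    0 ≤ (par b A1 A2 A3 A4 c).ee s κ := by
  have hq0 := (q_inv_pow (A1 := A1) (A2 := A2) (A3 := A3) (A4 := A4) (c := c) hb8 hb s 0).1
  unfold Lev.ee Lev.eta
  positivity

/-- general bound for the factors -/
theorem ee_le (hb8 : 8 ≤ b) (hb : ∀ x, b ≤ x → 5 * x + 5 ≤ 2 ^ (x - 2)) {E : ℕ} (hE1 : 1 ≤ E)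
    (hE : ∀ x, b ≤ x → (4 * A3 + E) * x ≤ 2 ^ (x - 2)) {s : ℕ} (hs : 1 ≤ s) (κ : ℕ) :
    (par b A1 A2 A3 A4 c).ee s κ ≤
      Real.exp (2 / 2 ^ bseq b (s - 1) + 2 * ((2 * κ + 3 : ℕ) : ℝ) / 4 ^ bseq b (s - 1)) := by
  obtain ⟨hL0, hL⟩ := Lcq_le (A1 := A1) (A2 := A2) (A4 := A4) (c := c) hb8 hb hE hs
  obtain ⟨hq0, hq⟩ := q_inv_pow (A1 := A1) (A2 := A2) (A3 := A3) (A4 := A4) (c := c) hb8 hb s
    (2 * κ + 3)
  have hX := X_ge_b hb8 hb s
  have hM : (par b A1 A2 A3 A4 c).M s = 16 ^ bseq b (s - 1) := rfl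
  unfold Lev.ee Lev.eta
  set X := bseq b (s - 1)
  have h1 : (18 : ℝ) / ((par b A1 A2 A3 A4 c).M s : ℝ) ≤ 1 / 2 ^ X := by
    rw [hM]
    push_cast
    rw [div_le_div_iff₀ (by positivity) (by positivity), one_mul]
    have h8 : (18 : ℝ) ≤ 8 ^ X := by
      calc (18 : ℝ) ≤ 8 ^ 2 := by norm_num
        _ ≤ 8 ^ X := pow_le_pow_right₀ (by norm_num) (by omega)
    calc (18 : ℝ) * 2 ^ X ≤ 8 ^ X * 2 ^ X := mul_le_mul_of_nonneg_right h8 (by positivity)
      _ = 16 ^ X := by rw [← mul_pow]; norm_num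
  have h2 : (1 : ℝ) / 2 ^ (E * X) ≤ 1 / 2 ^ X := by
    apply one_div_le_one_div_of_le (by positivity)
    exact pow_le_pow_right₀ (by norm_num) (Nat.le_mul_of_pos_left _ hE1)
  have h3 : 1 + (18 : ℝ) / ((par b A1 A2 A3 A4 c).M s : ℝ) ≤ Real.exp (1 / 2 ^ X) := by
    have := Real.add_one_le_exp ((1 : ℝ) / 2 ^ X); linarith
  have h4 : 1 + ((par b A1 A2 A3 A4 c).Lc s : ℝ) * (par b A1 A2 A3 A4 c).q s ^
      ((par b A1 A2 A3 A4 c).M s + 1) ≤ Real.exp (1 / 2 ^ X) := by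
    have := Real.add_one_le_exp ((1 : ℝ) / 2 ^ X); linarith
  have e : Real.exp (2 / 2 ^ X + 2 * ((2 * κ + 3 : ℕ) : ℝ) / 4 ^ X)
      = Real.exp (1 / 2 ^ X) * (Real.exp (2 * ((2 * κ + 3 : ℕ) : ℝ) / 4 ^ X)
        * Real.exp (1 / 2 ^ X)) := by
    rw [← Real.exp_add, ← Real.exp_add]; congr 1; ring
  rw [e]
  refine mul_le_mul h3 (mul_le_mul hq h4 (by positivity) (by positivity)) (by positivity)
    (by positivity)

/-- bound for the factors in the products -/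
theorem ee_kap_le (hb8 : 8 ≤ b) (hb : ∀ x, b ≤ x → 5 * x + 5 ≤ 2 ^ (x - 2)) {E : ℕ} (hE1 : 1 ≤ E)
    (hE : ∀ x, b ≤ x → (4 * A3 + E) * x ≤ 2 ^ (x - 2)) {s l k : ℕ} (hs : l + 1 ≤ s)
    (hk : k < (par b A1 A2 A3 A4 c).K l ∨ k = 0) :
    (par b A1 A2 A3 A4 c).ee s ((par b A1 A2 A3 A4 c).kap s l k) ≤
      Real.exp (3 * (1 / 2 ^ bseq b (s - 1)) +
        (if s = l + 1 then 4 * (k : ℝ) / 4 ^ bseq b l else 0)) := by
  refine (ee_le hb8 hb hE1 hE (by omega) _).trans (Real.exp_le_exp.mpr ?_)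
  have hX := X_ge_b hb8 hb s
  have h42 : (4 : ℝ) ^ bseq b (s - 1) = 2 ^ (2 * bseq b (s - 1)) := by
    rw [pow_mul]; norm_num
  by_cases h : s = l + 1
  · subst h
    rw [if_pos rfl, kap_self]
    simp only [Nat.add_sub_cancel] at hX h42 ⊢
    set X := bseq b l
    have h6 : (6 : ℝ) / 4 ^ X ≤ 1 / 2 ^ X := by
      rw [div_le_div_iff₀ (by positivity) (by positivity), one_mul]
      have h8 : (6 : ℝ) ≤ 2 ^ X := by
        calc (6 : ℝ) ≤ 2 ^ 3 := by norm_num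
          _ ≤ 2 ^ X := pow_le_pow_right₀ (by norm_num) (by omega)
      calc (6 : ℝ) * 2 ^ X ≤ 2 ^ X * 2 ^ X := mul_le_mul_of_nonneg_right h8 (by positivity)
        _ = 4 ^ X := by rw [← mul_pow]; norm_num
    have e1 : 2 * ((2 * k + 3 : ℕ) : ℝ) / 4 ^ X = 4 * (k : ℝ) / 4 ^ X + 6 / 4 ^ X := by
      push_cast; ring
    have e2 : (2 : ℝ) / 2 ^ X = 2 * (1 / 2 ^ X) := by ring
    rw [e1, e2]; linarith
  · rw [if_neg h, add_zero]
    have hk' := kap_le (A1 := A1) (A2 := A2) (A3 := A3) (A4 := A4) (c := c) hb8 hb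
      (s := s) (l := l) (k := k) (by omega) hk
    have hXs := X_succ (b := b) (s := s) (by omega)
    have hY : b ≤ bseq b (s - 2) := by have := bseq_ge hb8 hb (s - 2); omega
    have hb5 := hb _ hY
    rw [← hXs] at hb5
    set κ := (par b A1 A2 A3 A4 c).kap s l k
    set X := bseq b (s - 1)
    set Y := bseq b (s - 2)
    have h1 : 2 * (2 * κ + 3) ≤ 2 ^ (5 * Y + 5) := by
      have h5 : 2 ^ (5 * Y + 5) = 2 ^ (5 * Y + 2) * 8 := by
        rw [show 5 * Y + 5 = (5 * Y + 2) + 3 by ring, pow_add]; norm_num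
      have h6 : 6 ≤ 2 ^ (5 * Y + 2) := by
        calc 6 ≤ 2 ^ 3 := by norm_num
          _ ≤ 2 ^ (5 * Y + 2) := Nat.pow_le_pow_right (by norm_num) (by omega)
      omega
    have h2 : 2 * ((2 * κ + 3 : ℕ) : ℝ) / 4 ^ X ≤ 1 / 2 ^ X := by
      rw [h42]
      refine le_trans ?_ (pow2_div (a := 5 * Y + 5) (c := 2 * X) (d := X) (by omega))
      apply div_le_div_of_nonneg_right _ (by positivity)
      exact_mod_cast h1
    have e2 : (2 : ℝ) / 2 ^ X = 2 * (1 / 2 ^ X) := by ring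
    rw [e2]; linarith

/-- bound for the products over subsets of the levels -/
theorem prod_ee_le (hb8 : 8 ≤ b) (hb : ∀ x, b ≤ x → 5 * x + 5 ≤ 2 ^ (x - 2)) {E : ℕ}
    (hE1 : 1 ≤ E) (hE : ∀ x, b ≤ x → (4 * A3 + E) * x ≤ 2 ^ (x - 2)) {l k T : ℕ}
    (hk : k < (par b A1 A2 A3 A4 c).K l ∨ k = 0) (I : Finset ℕ)
    (hI : I ⊆ Finset.Ico (l + 1) (T + 1)) :
    ∏ s ∈ I, (par b A1 A2 A3 A4 c).ee s ((par b A1 A2 A3 A4 c).kap s l k) ≤
      Real.exp (6 + 4 * (k : ℝ) / 4 ^ bseq b l) := by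
  calc ∏ s ∈ I, (par b A1 A2 A3 A4 c).ee s ((par b A1 A2 A3 A4 c).kap s l k)
      ≤ ∏ s ∈ I, Real.exp (3 * (1 / 2 ^ bseq b (s - 1)) +
        (if s = l + 1 then 4 * (k : ℝ) / 4 ^ bseq b l else 0)) := by
        apply Finset.prod_le_prod
        · intro s _; exact ee_nonneg hb8 hb s _
        · intro s hs
          exact ee_kap_le hb8 hb hE1 hE (Finset.mem_Ico.mp (hI hs)).1 hk
    _ = Real.exp (∑ s ∈ I, (3 * (1 / 2 ^ bseq b (s - 1)) +
        (if s = l + 1 then 4 * (k : ℝ) / 4 ^ bseq b l else 0))) := (Real.exp_sum _ _).symm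
    _ ≤ _ := by
        apply Real.exp_le_exp.mpr
        rw [Finset.sum_add_distrib, ← Finset.mul_sum]
        have h1 : ∑ s ∈ I, (1 : ℝ) / 2 ^ bseq b (s - 1) ≤ 2 := by
          refine le_trans (Finset.sum_le_sum_of_subset_of_nonneg hI fun _ _ _ => by positivity) ?_
          exact sum_inv_X hb8 hb (l + 1) (T + 1) (by omega)
        have h2 : ∑ s ∈ I, (if s = l + 1 then 4 * (k : ℝ) / 4 ^ bseq b l else 0)
            ≤ 4 * (k : ℝ) / 4 ^ bseq b l := by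
          rw [Finset.sum_ite_eq']
          split_ifs
          · exact le_rfl
          · positivity
        linarith


theorem geom_le {r : ℝ} (h0 : 0 ≤ r) (h1 : r < 1) (n : ℕ) :
    ∑ j ∈ Finset.range n, r ^ j ≤ 1 / (1 - r) := by
  rw [one_div, ← tsum_geometric_of_lt_one h0 h1]
  exact (summable_geometric_of_lt_one h0 h1).sum_le_tsum _ (fun _ _ => by positivity)

theorem K_pos_lt (l : ℕ) : (par b A1 A2 A3 A4 c).β l =
    if l = 0 then ((16 : ℝ) ^ (A3 * bseq b 1)) ^ 6 else 1 / (16 : ℝ) ^ bseq b (l - 1) := rfl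

theorem β_nonneg (l : ℕ) : 0 ≤ (par b A1 A2 A3 A4 c).β l := by
  rw [K_pos_lt]; split_ifs <;> positivity

theorem D_small (hb8 : 8 ≤ b) (hb : ∀ x, b ≤ x → 5 * x + 5 ≤ 2 ^ (x - 2))
    (hD : ∀ x, b ≤ x → (4 * A1 + 4) * x ≤ 2 ^ (x - 2)) (l : ℕ) :
    8 * ((par b A1 A2 A3 A4 c).D l : ℝ) / 4 ^ bseq b l ≤ 1 := by
  have hDl : (par b A1 A2 A3 A4 c).D l = if l = 0 then 0 else 2 * 16 ^ (A1 * bseq b (l - 1)) := rfl
  rw [hDl]
  split_ifs with h
  · simp
  · have hX := X_ge_b hb8 hb l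
    have hXs : bseq b l = 2 ^ (bseq b (l - 1) - 2) := by
      have := X_succ (b := b) (s := l + 1) (by omega)
      simpa using this
    have h1 := hD _ hX
    rw [← hXs] at h1
    set X := bseq b (l - 1)
    rw [div_le_one (by positivity)]
    push_cast
    calc (8 : ℝ) * (2 * 16 ^ (A1 * X)) = 2 ^ (4 + 4 * (A1 * X)) := by
          rw [show (16 : ℝ) = 2 ^ 4 by norm_num, ← pow_mul, pow_add]; ring
      _ ≤ 2 ^ (2 * bseq b l) := by
          apply pow_le_pow_right₀ (by norm_num)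
          have e1 : (4 * A1 + 4) * X = 4 * (A1 * X) + 4 * X := by ring
          omega
      _ = 4 ^ bseq b l := by rw [pow_mul]; norm_num

theorem first_sum (hb8 : 8 ≤ b) (hb : ∀ x, b ≤ x → 5 * x + 5 ≤ 2 ^ (x - 2)) {E : ℕ}
    (hE1 : 1 ≤ E) (hE : ∀ x, b ≤ x → (4 * A3 + E) * x ≤ 2 ^ (x - 2))
    (hD : ∀ x, b ≤ x → (4 * A1 + 4) * x ≤ 2 ^ (x - 2)) {θ r : ℝ} (hθ0 : 0 < θ) (hr : r < 1)
    (hr0 : 0 ≤ r) (hθb : θ * Real.exp (4 / 4 ^ b) ≤ r) (l T : ℕ) :
    ∑ k ∈ Finset.range ((par b A1 A2 A3 A4 c).K l), (par b A1 A2 A3 A4 c).cb θ l k *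
      ∏ s ∈ Finset.Ico (l + 1) (T + 1),
        (par b A1 A2 A3 A4 c).ee s ((par b A1 A2 A3 A4 c).kap s l k)
    ≤ (par b A1 A2 A3 A4 c).β l * (Real.exp 7 * (1 + 1 / (1 - r))) := by
  have hβ := β_nonneg (b := b) (A1 := A1) (A2 := A2) (A3 := A3) (A4 := A4) (c := c) l
  have hDs := D_small (A1 := A1) (A2 := A2) (A3 := A3) (A4 := A4) (c := c) hb8 hb hD l
  set DD := (par b A1 A2 A3 A4 c).D l with hDD
  set KK := (par b A1 A2 A3 A4 c).K l with hKK
  have hy : b ≤ bseq b l := by have := bseq_ge hb8 hb l; omega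
  -- growth factor
  have hG : ∀ j : ℕ, Real.exp (6 + 4 * ((2 * DD + j : ℕ) : ℝ) / 4 ^ bseq b l) * θ ^ j
      ≤ Real.exp 7 * r ^ j := by
    intro j
    have e1 : 6 + 4 * ((2 * DD + j : ℕ) : ℝ) / 4 ^ bseq b l
        = 6 + 8 * (DD : ℝ) / 4 ^ bseq b l + j * (4 / 4 ^ bseq b l) := by push_cast; ring
    rw [e1, Real.exp_add, Real.exp_nat_mul, mul_assoc, ← mul_pow]
    refine mul_le_mul (Real.exp_le_exp.mpr (by linarith)) (pow_le_pow_left₀ (by positivity) ?_ j)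
      (by positivity) (by positivity)
    refine le_trans ?_ hθb
    rw [mul_comm]
    apply mul_le_mul_of_nonneg_left _ hθ0.le
    apply Real.exp_le_exp.mpr
    apply div_le_div_of_nonneg_left (by norm_num) (by positivity)
    exact pow_le_pow_right₀ (by norm_num) hy
  calc ∑ k ∈ Finset.range KK, (par b A1 A2 A3 A4 c).cb θ l k *
      ∏ s ∈ Finset.Ico (l + 1) (T + 1),
        (par b A1 A2 A3 A4 c).ee s ((par b A1 A2 A3 A4 c).kap s l k)
      ≤ ∑ k ∈ Finset.range KK, (par b A1 A2 A3 A4 c).β l *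
        ((if k = 2 * DD then Real.exp 7 else 0) +
          (if 2 * DD ≤ k then Real.exp 7 * r ^ (k - 2 * DD) else 0)) := by
        apply Finset.sum_le_sum
        intro k hk
        unfold Lev.cb
        rw [mul_assoc]
        apply mul_le_mul_of_nonneg_left _ hβ
        have hp := prod_ee_le (A1 := A1) (A2 := A2) (A4 := A4) (c := c) hb8 hb hE1 hE (l := l)
          (k := k) (T := T) (Or.inl (Finset.mem_range.mp hk)) _ (Finset.Subset.refl _)
        have hp0 : 0 ≤ ∏ s ∈ Finset.Ico (l + 1) (T + 1),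
            (par b A1 A2 A3 A4 c).ee s ((par b A1 A2 A3 A4 c).kap s l k) :=
          Finset.prod_nonneg fun s _ => ee_nonneg hb8 hb s _
        set Pd := ∏ s ∈ Finset.Ico (l + 1) (T + 1),
            (par b A1 A2 A3 A4 c).ee s ((par b A1 A2 A3 A4 c).kap s l k)
        rw [add_mul]
        apply add_le_add
        · split_ifs with h
          · have := hG 0
            simp only [add_zero, pow_zero, mul_one] at this
            rw [one_mul]
            refine hp.trans ?_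
            rw [h]; exact this
          · simp
        · split_ifs with h
          · have h2 := hG (k - 2 * DD)
            rw [Nat.add_sub_cancel' h] at h2
            refine le_trans ?_ h2
            rw [mul_comm]
            exact mul_le_mul_of_nonneg_right hp (by positivity)
          · simp
    _ = (par b A1 A2 A3 A4 c).β l * ((∑ k ∈ Finset.range KK, if k = 2 * DD then Real.exp 7 else 0) +
          ∑ k ∈ Finset.range KK, if 2 * DD ≤ k then Real.exp 7 * r ^ (k - 2 * DD) else 0) := by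
        rw [← Finset.mul_sum, Finset.sum_add_distrib]
    _ ≤ (par b A1 A2 A3 A4 c).β l * (Real.exp 7 + Real.exp 7 * (1 / (1 - r))) := by
        apply mul_le_mul_of_nonneg_left _ hβ
        apply add_le_add
        · rw [Finset.sum_ite_eq']
          split_ifs
          · exact le_rfl
          · positivity
        · rw [← Finset.sum_filter]
          have hf : (Finset.range KK).filter (fun k => 2 * DD ≤ k) = Finset.Ico (2 * DD) KK := by
            ext k; simp [and_comm]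
          rw [hf, Finset.sum_Ico_eq_sum_range]
          simp only [Nat.add_sub_cancel_left]
          rw [← Finset.mul_sum]
          exact mul_le_mul_of_nonneg_left (geom_le hr0 hr _) (by positivity)
    _ = _ := by ring

theorem es_le (hb8 : 8 ≤ b) (hb : ∀ x, b ≤ x → 5 * x + 5 ≤ 2 ^ (x - 2))
    (hE : ∀ x, b ≤ x → (4 * A3 + (4 * A4 + 1)) * x ≤ 2 ^ (x - 2))
    (hGx : ∀ x, b ≤ x → (4 * A2 + 4 * A4 + 5) * x + 5 ≤ 2 ^ (x - 2)) {l s : ℕ} (hl : 1 ≤ l)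
    (hs : l + 1 ≤ s) :
    0 ≤ (par b A1 A2 A3 A4 c).es l s ∧
    (par b A1 A2 A3 A4 c).Csp l * (par b A1 A2 A3 A4 c).es l s ≤ 16 * (1 / 2 ^ bseq b (s - 1)) := by
  obtain ⟨hL0, hL⟩ := Lcq_le (A1 := A1) (A2 := A2) (A4 := A4) (c := c) hb8 hb hE
    (s := s) (by omega)
  have hX := X_ge_b hb8 hb s
  have hM : (par b A1 A2 A3 A4 c).M s = 16 ^ bseq b (s - 1) := rfl
  have hC : (par b A1 A2 A3 A4 c).Csp l = 16 ^ (A4 * bseq b (l - 1)) := by
    have : (par b A1 A2 A3 A4 c).Csp l = if l = 0 then 0 else 16 ^ (A4 * bseq b (l - 1)) := rfl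
    rw [this, if_neg (by omega)]
  have hXs := X_succ (b := b) (s := s) (by omega)
  have hY : b ≤ bseq b (s - 2) := by have := bseq_ge hb8 hb (s - 2); omega
  have hXl : bseq b (l - 1) ≤ bseq b (s - 2) := bseq_mono hb8 hb (by omega)
  have hg5 := hGx _ hY
  rw [← hXs] at hg5
  -- bound for R
  have hR : max ((par b A1 A2 A3 A4 c).g (l - 1) + 1) ((par b A1 A2 A3 A4 c).kap s l 0 + 1)
      ≤ 2 ^ ((4 * A2 + 5) * bseq b (s - 2) + 2) + 1 := by
    apply max_le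
    · have hgl : (par b A1 A2 A3 A4 c).g (l - 1) =
          if l - 1 = 0 then 0 else 16 ^ (A2 * bseq b (l - 1)) := rfl
      rw [hgl]
      split_ifs
      · simp
      · apply Nat.add_le_add_right
        calc 16 ^ (A2 * bseq b (l - 1)) = 2 ^ (4 * (A2 * bseq b (l - 1))) := by
              rw [pow_mul 2 4]; norm_num
          _ ≤ 2 ^ ((4 * A2 + 5) * bseq b (s - 2) + 2) := by
              apply Nat.pow_le_pow_right (by norm_num)
              have := Nat.mul_le_mul (le_refl A2) hXl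
              nlinarith
    · apply Nat.add_le_add_right
      by_cases h : s = l + 1
      · subst h; rw [kap_self]; simp
      · refine (kap_le (A1 := A1) (A2 := A2) (A3 := A3) (A4 := A4) (c := c) hb8 hb
          (s := s) (l := l) (k := 0) (by omega) (Or.inr rfl)).trans ?_
        apply Nat.pow_le_pow_right (by norm_num)
        nlinarith
  set R := max ((par b A1 A2 A3 A4 c).g (l - 1) + 1) ((par b A1 A2 A3 A4 c).kap s l 0 + 1)
    with hRdef
  obtain ⟨hq0, hq⟩ := q_inv_pow (A1 := A1) (A2 := A2) (A3 := A3) (A4 := A4) (c := c) hb8 hb s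
    (2 * R + 1)
  have hes : (par b A1 A2 A3 A4 c).es l s = 2 * (1 + 18 / ((par b A1 A2 A3 A4 c).M s : ℝ)) *
      (((par b A1 A2 A3 A4 c).q s ^ (2 * R + 1))⁻¹ * (1 + ((par b A1 A2 A3 A4 c).Lc s : ℝ) *
        (par b A1 A2 A3 A4 c).q s ^ ((par b A1 A2 A3 A4 c).M s + 1)) - 1) := rfl
  have hq1 : (par b A1 A2 A3 A4 c).q s ≤ 1 := by
    have h1 : (par b A1 A2 A3 A4 c).q s = 1 - 1 / 4 ^ bseq b (s - 1) := rfl
    rw [h1]
    have : (0 : ℝ) < 1 / 4 ^ bseq b (s - 1) := by positivity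
    linarith
  have hηe : (18 : ℝ) / ((par b A1 A2 A3 A4 c).M s : ℝ) ≤ 1 := by
    rw [hM]
    push_cast
    rw [div_le_one (by positivity)]
    calc (18 : ℝ) ≤ 16 ^ 2 := by norm_num
      _ ≤ 16 ^ bseq b (s - 1) := pow_le_pow_right₀ (by norm_num) (by omega)
  have hη0 : 0 ≤ (18 : ℝ) / ((par b A1 A2 A3 A4 c).M s : ℝ) := by positivity
  set η := (18 : ℝ) / ((par b A1 A2 A3 A4 c).M s : ℝ)
  set Lq := ((par b A1 A2 A3 A4 c).Lc s : ℝ) *
        (par b A1 A2 A3 A4 c).q s ^ ((par b A1 A2 A3 A4 c).M s + 1) with hLq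
  set qq := ((par b A1 A2 A3 A4 c).q s ^ (2 * R + 1))⁻¹ with hqq
  have hqq1 : 1 ≤ qq := by
    rw [hqq]
    exact (one_le_inv₀ (by positivity)).mpr (pow_le_one₀ hq0.le hq1)
  set X := bseq b (s - 1)
  set Y := bseq b (s - 2)
  set Xl := bseq b (l - 1)
  have hprod1 : 1 ≤ qq * (1 + Lq) := by nlinarith
  have h0 : 0 ≤ (par b A1 A2 A3 A4 c).es l s := by
    rw [hes]
    apply mul_nonneg (by positivity) (by linarith)
  refine ⟨h0, ?_⟩
  -- the exponent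
  set w : ℝ := 2 * ((2 * R + 1 : ℕ) : ℝ) / 4 ^ X + 1 / 2 ^ ((4 * A4 + 1) * X) with hw
  have hw0 : 0 ≤ w := by positivity
  have hprod : qq * (1 + Lq) ≤ Real.exp w := by
    rw [hw, Real.exp_add]
    refine mul_le_mul hq ?_ (by positivity) (by positivity)
    have := Real.add_one_le_exp ((1 : ℝ) / 2 ^ ((4 * A4 + 1) * X)); linarith
  have hXXl : Xl ≤ X := X_mono hb8 hb (by omega)
  have hca : (16 : ℝ) ^ (A4 * Xl) = 2 ^ (4 * (A4 * Xl)) := by
    rw [show (16 : ℝ) = 2 ^ 4 by norm_num, ← pow_mul]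
  have haw : (16 : ℝ) ^ (A4 * Xl) * w ≤ 2 * (1 / 2 ^ X) := by
    have p1 : (16 : ℝ) ^ (A4 * Xl) * (2 * ((2 * R + 1 : ℕ) : ℝ) / 4 ^ X) ≤ 1 / 2 ^ X := by
      have r1 : 2 * (2 * R + 1) ≤ 2 ^ ((4 * A2 + 5) * Y + 5) := by
        have r2 : 2 ^ ((4 * A2 + 5) * Y + 5) = 2 ^ ((4 * A2 + 5) * Y + 2) * 8 := by
          rw [show (4 * A2 + 5) * Y + 5 = ((4 * A2 + 5) * Y + 2) + 3 by ring, pow_add _ _ 3]
          norm_num
        have r3 : 6 ≤ 2 ^ ((4 * A2 + 5) * Y + 2) := by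
          calc 6 ≤ 2 ^ 3 := by norm_num
            _ ≤ 2 ^ ((4 * A2 + 5) * Y + 2) := by
                apply Nat.pow_le_pow_right (by norm_num)
                have : 8 ≤ Y := by omega
                nlinarith
        omega
      have r4 : (2 : ℝ) * ((2 * R + 1 : ℕ) : ℝ) ≤ 2 ^ ((4 * A2 + 5) * Y + 5) := by
        exact_mod_cast r1
      calc (16 : ℝ) ^ (A4 * Xl) * (2 * ((2 * R + 1 : ℕ) : ℝ) / 4 ^ X)
          ≤ 2 ^ (4 * (A4 * Y)) * (2 ^ ((4 * A2 + 5) * Y + 5) / 4 ^ X) := by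
            rw [hca]
            refine mul_le_mul ?_ ?_ (by positivity) (by positivity)
            · apply pow_le_pow_right₀ (by norm_num)
              have := Nat.mul_le_mul (le_refl A4) hXl
              omega
            · exact div_le_div_of_nonneg_right r4 (by positivity)
        _ = 2 ^ (4 * (A4 * Y) + ((4 * A2 + 5) * Y + 5)) / 2 ^ (2 * X) := by
            rw [pow_add 2 (4 * (A4 * Y)), pow_mul 2 2 X]; norm_num; ring
        _ ≤ 1 / 2 ^ X := by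
            apply pow2_div
            have e1 : 4 * (A4 * Y) + ((4 * A2 + 5) * Y + 5) = (4 * A2 + 4 * A4 + 5) * Y + 5 := by
              ring
            omega
    have p2 : (16 : ℝ) ^ (A4 * Xl) * (1 / 2 ^ ((4 * A4 + 1) * X)) ≤ 1 / 2 ^ X := by
      rw [hca, mul_one_div]
      apply pow2_div
      have := Nat.mul_le_mul (le_refl A4) hXXl
      nlinarith
    rw [hw, mul_add]; linarith
  have hw1 : w ≤ 1 := by
    have h16 : (1 : ℝ) ≤ 16 ^ (A4 * Xl) := one_le_pow₀ (by norm_num)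
    have h2 : (2 : ℝ) * (1 / 2 ^ X) ≤ 1 := by
      rw [mul_one_div, div_le_one (by positivity)]
      calc (2 : ℝ) = 2 ^ 1 := by norm_num
        _ ≤ 2 ^ X := pow_le_pow_right₀ (by norm_num) (by omega)
    nlinarith
  have hexp : Real.exp w - 1 ≤ 2 * w := by
    have := Real.abs_exp_sub_one_le (x := w) (by rw [abs_of_nonneg hw0]; exact hw1)
    rw [abs_of_nonneg hw0] at this
    exact (le_abs_self _).trans this
  have hes2 : (par b A1 A2 A3 A4 c).es l s ≤ 8 * w := by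
    rw [hes]
    have h2 : qq * (1 + Lq) - 1 ≤ 2 * w := by linarith
    nlinarith
  rw [hC]
  calc (16 : ℝ) ^ (A4 * Xl) * (par b A1 A2 A3 A4 c).es l s ≤ 16 ^ (A4 * Xl) * (8 * w) :=
        mul_le_mul_of_nonneg_left hes2 (by positivity)
    _ = 8 * (16 ^ (A4 * Xl) * w) := by ring
    _ ≤ 16 * (1 / 2 ^ X) := by linarith

theorem second_sum (hb8 : 8 ≤ b) (hb : ∀ x, b ≤ x → 5 * x + 5 ≤ 2 ^ (x - 2))
    (hE : ∀ x, b ≤ x → (4 * A3 + (4 * A4 + 1)) * x ≤ 2 ^ (x - 2))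
    (hGx : ∀ x, b ≤ x → (4 * A2 + 4 * A4 + 5) * x + 5 ≤ 2 ^ (x - 2)) (l T : ℕ) :
    (par b A1 A2 A3 A4 c).Csp l * ∑ s' ∈ Finset.Ico (l + 1) (T + 1),
      (par b A1 A2 A3 A4 c).es l s' * ∏ s ∈ (Finset.Ico (l + 1) (T + 1)).erase s',
        (par b A1 A2 A3 A4 c).ee s ((par b A1 A2 A3 A4 c).kap s l 0)
    ≤ 16 * Real.exp 6 * (1 / 2) ^ l := by
  by_cases hl : l = 0
  · subst hl
    have : (par b A1 A2 A3 A4 c).Csp 0 = 0 := by simp [par]
    rw [this, zero_mul]; positivity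
  have hl1 : 1 ≤ l := by omega
  rw [Finset.mul_sum]
  have hC0 : 0 ≤ (par b A1 A2 A3 A4 c).Csp l := by
    have : (par b A1 A2 A3 A4 c).Csp l = if l = 0 then 0 else 16 ^ (A4 * bseq b (l - 1)) := rfl
    rw [this]; split_ifs <;> positivity
  calc ∑ s' ∈ Finset.Ico (l + 1) (T + 1), (par b A1 A2 A3 A4 c).Csp l *
      ((par b A1 A2 A3 A4 c).es l s' * ∏ s ∈ (Finset.Ico (l + 1) (T + 1)).erase s',
        (par b A1 A2 A3 A4 c).ee s ((par b A1 A2 A3 A4 c).kap s l 0))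
      ≤ ∑ s' ∈ Finset.Ico (l + 1) (T + 1), 16 * Real.exp 6 * (1 / 2) ^ s' := by
        apply Finset.sum_le_sum
        intro s' hs'
        have hs := (Finset.mem_Ico.mp hs').1
        obtain ⟨h0, h1⟩ := es_le (A1 := A1) (A2 := A2) (A3 := A3) (A4 := A4) (c := c) hb8 hb hE
          hGx hl1 hs
        have hp := prod_ee_le (A1 := A1) (A2 := A2) (A4 := A4) (c := c) hb8 hb
          (E := 4 * A4 + 1) (by omega) hE (l := l)
          (k := 0) (T := T) (Or.inr rfl) _ (Finset.erase_subset s' _)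
        have hp0 : 0 ≤ ∏ s ∈ (Finset.Ico (l + 1) (T + 1)).erase s',
            (par b A1 A2 A3 A4 c).ee s ((par b A1 A2 A3 A4 c).kap s l 0) :=
          Finset.prod_nonneg fun s _ => ee_nonneg hb8 hb s _
        simp only [Nat.cast_zero, mul_zero, zero_div, add_zero] at hp
        have h2 := inv_X_le hb8 hb (s := s') (by omega)
        rw [← mul_assoc]
        calc _ ≤ 16 * (1 / 2 ^ bseq b (s' - 1)) * Real.exp 6 :=
              mul_le_mul h1 hp hp0 (by positivity)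
          _ ≤ 16 * (1 / 2) ^ s' * Real.exp 6 := by
              apply mul_le_mul_of_nonneg_right _ (by positivity)
              linarith
          _ = _ := by ring
    _ = 16 * Real.exp 6 * ∑ s' ∈ Finset.Ico (l + 1) (T + 1), (1 / (2 : ℝ)) ^ s' := by
        rw [Finset.mul_sum]
    _ ≤ 16 * Real.exp 6 * (1 / 2) ^ l := by
        apply mul_le_mul_of_nonneg_left _ (by positivity)
        rw [Finset.sum_Ico_eq_sum_range]
        have : ∀ j, (1 / (2 : ℝ)) ^ (l + 1 + j) = (1 / 2) ^ l * (1 / 2) * (1 / 2) ^ j := by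
          intro j; rw [pow_add, pow_succ]
        simp only [this]
        rw [← Finset.mul_sum]
        have h2 := sum_geometric_two_le (T + 1 - (l + 1))
        have h3 : (0 : ℝ) ≤ (1 / 2) ^ l := by positivity
        nlinarith

end main

end ParT

open ParT in
theorem par_total {A1 A2 A3 A4 : ℕ} (hA1 : 2 ≤ A1) (hA2 : A1 ≤ A2) (hA3 : A2 ≤ A3)
    {θ : ℝ} (h0 : 0 < θ) (h1 : θ < 1) {c : ℝ} (hc : 1 ≤ c) :
    ∃ b0, ∀ b ≥ b0, ∃ C : ℝ, 0 < C ∧ ∀ T, (par b A1 A2 A3 A4 c).total θ T ≤ C := by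
  obtain ⟨x0, hx8, hx⟩ := lin_le_pow (4 * A1 + 4 * A2 + 4 * A3 + 4 * A4 + 20)
  -- the rate
  have hlog : 0 < Real.log ((1 + θ) / (2 * θ)) := by
    apply Real.log_pos
    rw [lt_div_iff₀ (by positivity)]; linarith
  obtain ⟨n0, hn0⟩ := exists_pow_lt_of_lt_one (div_pos hlog (by norm_num : (0 : ℝ) < 4))
    (by norm_num : (1 / 4 : ℝ) < 1)
  refine ⟨max x0 n0, fun b hbb => ?_⟩
  have hbx : x0 ≤ b := le_trans (le_max_left _ _) hbb
  have hbn : n0 ≤ b := le_trans (le_max_right _ _) hbb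
  have hb8 : 8 ≤ b := hx8.trans hbx
  have hx' : ∀ x, b ≤ x → (4 * A1 + 4 * A2 + 4 * A3 + 4 * A4 + 20) * x ≤ 2 ^ (x - 2) :=
    fun x h => hx x (hbx.trans h)
  have hb : ∀ x, b ≤ x → 5 * x + 5 ≤ 2 ^ (x - 2) := fun x h => by
    have := hx' x h; have h8 : 8 ≤ x := hb8.trans h
    refine le_trans ?_ this; nlinarith
  have hE : ∀ x, b ≤ x → (4 * A3 + (4 * A4 + 1)) * x ≤ 2 ^ (x - 2) := fun x h => by
    refine le_trans (Nat.mul_le_mul ?_ le_rfl) (hx' x h); omega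
  have hD : ∀ x, b ≤ x → (4 * A1 + 4) * x ≤ 2 ^ (x - 2) := fun x h => by
    refine le_trans (Nat.mul_le_mul ?_ le_rfl) (hx' x h); omega
  have hGx : ∀ x, b ≤ x → (4 * A2 + 4 * A4 + 5) * x + 5 ≤ 2 ^ (x - 2) := fun x h => by
    have := hx' x h; have h8 : 8 ≤ x := hb8.trans h
    refine le_trans ?_ this; nlinarith
  set r : ℝ := (1 + θ) / 2 with hr
  have hr1 : r < 1 := by rw [hr]; linarith
  have hr0 : 0 ≤ r := by rw [hr]; linarith
  have hθb : θ * Real.exp (4 / 4 ^ b) ≤ r := by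
    have h2 : (4 : ℝ) / 4 ^ b ≤ Real.log ((1 + θ) / (2 * θ)) := by
      have h3 : (1 / 4 : ℝ) ^ b ≤ (1 / 4) ^ n0 :=
        pow_le_pow_of_le_one (by norm_num) (by norm_num) hbn
      have h4 : (4 : ℝ) / 4 ^ b = 4 * (1 / 4) ^ b := by rw [one_div_pow]; ring
      rw [h4]
      have := hn0.le
      rw [le_div_iff₀ (by norm_num)] at this
      linarith
    have h3 : Real.exp (4 / 4 ^ b) ≤ (1 + θ) / (2 * θ) := by
      calc Real.exp (4 / 4 ^ b) ≤ Real.exp (Real.log ((1 + θ) / (2 * θ))) :=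
            Real.exp_le_exp.mpr h2
        _ = _ := Real.exp_log (by positivity)
    calc θ * Real.exp (4 / 4 ^ b) ≤ θ * ((1 + θ) / (2 * θ)) :=
          mul_le_mul_of_nonneg_left h3 h0.le
      _ = r := by rw [hr]; field_simp
  set C1 : ℝ := Real.exp 7 * (1 + 1 / (1 - r)) with hC1
  have h1r : 0 < 1 - r := by linarith
  have hC1p : 0 < C1 := by positivity
  set β0 : ℝ := (par b A1 A2 A3 A4 c).β 0 with hβ0
  have hβ0n : 0 ≤ β0 := β_nonneg 0
  refine ⟨β0 * C1 + 2 * C1 + 2 * (16 * Real.exp 6), by positivity, fun T => ?_⟩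
  unfold Lev.total
  calc _ ≤ ∑ l ∈ Finset.range T, ((if l = 0 then β0 else 0) * C1 + (1 / 2) ^ l * C1
        + 16 * Real.exp 6 * (1 / 2) ^ l) := by
        apply Finset.sum_le_sum
        intro l _
        have f1 := first_sum (A1 := A1) (A2 := A2) (A3 := A3) (A4 := A4) (c := c) hb8 hb
          (E := 4 * A4 + 1) (by omega) hE hD h0 hr1 hr0 hθb l T
        have f2 := second_sum (A1 := A1) (A2 := A2) (A3 := A3) (A4 := A4) (c := c) hb8 hb hE
          hGx l T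
        refine add_le_add (f1.trans ?_) f2
        rw [← add_mul]
        apply mul_le_mul_of_nonneg_right _ hC1p.le
        split_ifs with hl
        · subst hl
          have : (0 : ℝ) ≤ (1 / 2) ^ 0 := by positivity
          linarith
        · rw [zero_add]
          rw [K_pos_lt, if_neg hl]
          refine le_trans ?_ (inv_X_le hb8 hb (s := l) (by omega))
          apply one_div_le_one_div_of_le (by positivity)
          exact pow_le_pow_left₀ (by norm_num) (by norm_num) _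
    _ = (∑ l ∈ Finset.range T, (if l = 0 then β0 else 0)) * C1
        + (∑ l ∈ Finset.range T, (1 / (2 : ℝ)) ^ l) * C1
        + 16 * Real.exp 6 * ∑ l ∈ Finset.range T, (1 / (2 : ℝ)) ^ l := by
        rw [Finset.sum_add_distrib, Finset.sum_add_distrib, ← Finset.sum_mul, ← Finset.sum_mul,
          ← Finset.mul_sum]
    _ ≤ β0 * C1 + 2 * C1 + 2 * (16 * Real.exp 6) := by
        have g1 : ∑ l ∈ Finset.range T, (if l = 0 then β0 else 0) ≤ β0 := by
          rw [Finset.sum_ite_eq']; split_ifs <;> linarith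
        have g2 := sum_geometric_two_le T
        have g3 : 0 < Real.exp 6 := Real.exp_pos 6
        nlinarith

end Pool.MP_10effd_pr
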