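import Pool.Agent.MP_10effd_pr.LL.Defs
import Pool.Agent.MP_10effd_pr.LL.Near
import Pool.Agent.MP_10effd_pr.LL.Path

/-! Visiting single vertices (one stage). -/

set_option autoImplicit false
set_option linter.unusedSectionVars false

namespace Pool.MP_10effd_pr

open Finset

variable {V : Type} [Fintype V] [DecidableEq V] {G : SimpleGraph V} [DecidableRel G.Adj] {ε : ℝ}

namespace Lev

variable {P : Lev} {θ : ℝ} {Δ : ℕ} {c : ℝ} {ctr : ℕ → V → V} {T : ℕ}

/-- Visiting single vertices. -/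
theorem stage_vert (hG : G.Connected) (hΔ : 2 ≤ Δ) (hdeg : ∀ x, G.degree x ≤ Δ)
    (hP : P.Good θ Δ c) (hθ0 : 0 < θ) (hθ1 : θ < 1) (hc1 : 1 ≤ c) (hst : StageOK G ε θ Δ c)
    {t i : ℕ} (hi : 1 ≤ i) (hit : i ≤ t) {N Y U S : Finset V} {o : V} {Z : Finset V}
    {Rt : V → ℕ → Finset V} {Rf : ℕ → Finset V} (hoY : o ∈ Y)
    (hYN : nb G Y (P.mm t - 1) ⊆ N) (hSY : S ⊆ nb G Y (P.D (t - 1)))
    (hup : P.Up G t i Y o Z Rt Rf) (hacc : ∀ x ∈ U, ∃ z ∈ Z, PathIn G S (P.D i) x z) (k : ℕ) :
    CovN G ε N (P.Lam t) o U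
      (2 * c * (P.Wc (i - 1) * ((U.card : ℝ) * (P.D i + 1) * (Δ : ℝ) ^ (k + 1)
          + (θ ^ 2) ^ k * ∑ x ∈ N, dec G (θ ^ 2) S x)
        + ∑ l ∈ Finset.Ico i t, P.W G θ l N (Rf l))) := by
  classical
  have hA := hP.toGoodA
  have hC := hP.toGoodC
  have ht : 1 ≤ t := hi.trans hit
  have hDi : (100 : ℕ) ≤ P.D i := hA.D1 i hi
  have hDpos : ∀ l, (0 : ℝ) < (P.D (l + 1) : ℝ) := fun l => by
    have := hA.D1 (l + 1) (by omega)
    exact_mod_cast (show 0 < P.D (l + 1) by omega)
  have hi1 : i - 1 + 1 = i := by omega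
  -- the access paths
  choose z hz hpath using fun u : {x // x ∈ U} => hacc u.1 u.2
  choose Q hQS hQc hQb hQx hQz hQe using fun u : {x // x ∈ U} => (hpath u).res
  let R : {x // x ∈ U} → ℕ → Finset V := fun u l => if l = i - 1 then Q u else Rt (z u) l
  have hR0 : ∀ u, R u (i - 1) = Q u := fun u => if_pos rfl
  have hR1 : ∀ u l, i ≤ l → R u l = Rt (z u) l := fun u l hl => if_neg (by omega)
  have hnbD : ∀ u l, l ∈ Finset.Ico (i - 1) t → R u l ⊆ nb G Y (P.D (t - 1)) := by
    intro u l hl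
    rw [Finset.mem_Ico] at hl
    by_cases h : l = i - 1
    · subst h
      rw [hR0]
      exact (hQS u).trans hSY
    · have hl' : i ≤ l := by omega
      rw [hR1 u l hl']
      exact (hup.sub _ (hz u) l hl' hl.2).trans (hup.far l hl' hl.2)
  have hhyp : StageHyp G ε θ Δ N (P.Lam t) o (fun u : {x // x ∈ U} => u.1)
      (fun u => {u.1}) (fun u => {u.1}) (fun _ => 0) (fun _ _ => 0) (Finset.Ico (i - 1) t) R
      (fun l => (P.D (l + 1) : ℝ) ^ 3) (fun l => 3 * P.D (l + 1) + 1) (i - 1)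
      (P.mm t - 1 - P.D (t - 1)) 1 0 := by
    refine
      { oN := hYN (subset_nb Y _ hoY)
        L1 := ?_
        τ0 := one_pos
        τ1 := le_rfl
        νm0 := le_rfl
        νm1 := by norm_num
        T0 := fun _ => le_rfl
        nu0 := fun _ _ => le_rfl
        nu1 := fun _ => by simp
        nuS := fun _ _ _ => rfl
        pNu := fun u => Finset.mem_singleton_self _
        cNu := fun u x hx => by
          rw [Finset.mem_singleton.1 hx]
          exact Relation.ReflTransGen.refl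
        sess := ?_
        lFs := Finset.mem_Ico.2 ⟨le_rfl, by omega⟩
        NuR := fun u => by
          rw [hR0, Finset.singleton_subset_iff]
          exact hQx u
        w0 := fun l _ => pow_pos (hDpos l) 3
        flow := ?_
        res := ?_
        far := ?_
        far' := hC.far t ht
        cnt := ?_ }
    · -- L1
      have h1 : 1 ≤ P.Lc t := by
        have h2 := hA.LcM t ht
        have h3 := hA.M1 t ht
        omega
      exact one_le_pow₀ (by exact_mod_cast h1)
    · -- sess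
      intro u F hF m S' hS'
      have h1 : S' ∪ {u.1} = S' := Finset.union_eq_left.2 (Finset.singleton_subset_iff.2 hS')
      rw [h1]
      simp
    · -- flow
      intro x
      have h1 : θ ^ 32 ≤ 1 := pow_le_one₀ hθ0.le hθ1.le
      have h2 : 0 ≤ (1 - θ ^ 32) / 2 * (P.D (i - 1 + 1) : ℝ) ^ 3 :=
        mul_nonneg (by linarith) (by positivity)
      simpa using h2
    · -- res
      intro u a f ha hw
      have hen : 0 ≤ en G a f := by
        unfold en
        refine mul_nonneg (by norm_num) (Finset.sum_nonneg fun x _ => Finset.sum_nonneg fun y _ =>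
          mul_nonneg (add_nonneg (ha x) (ha y)) (sq_nonneg _))
      have e1 : (f u.1 - f (z u)) ^ 2 ≤ (P.D i : ℝ) / (P.D i : ℝ) ^ 3 * en G a f := by
        refine hQe u a f _ ha (pow_pos (by exact_mod_cast (show 0 < P.D i by omega)) 3)
          fun v hv => ?_
        have := hw (i - 1) (Finset.mem_Ico.2 ⟨le_rfl, by omega⟩) v (by rw [hR0]; exact hv)
        rwa [hi1] at this
      have hDi0 : (0 : ℝ) < P.D i := by exact_mod_cast (show 0 < P.D i by omega)
      have e2 : |f u.1 - f (z u)| ≤ 1 / (P.D i : ℝ) * Real.sqrt (en G a f) := by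
        rw [← Real.sqrt_sq (abs_nonneg (f u.1 - f (z u))), sq_abs]
        have h1 : 1 / (P.D i : ℝ) * Real.sqrt (en G a f)
            = Real.sqrt ((P.D i : ℝ) / (P.D i : ℝ) ^ 3 * en G a f) := by
          rw [show (P.D i : ℝ) / (P.D i : ℝ) ^ 3 = (1 / (P.D i : ℝ)) ^ 2 by field_simp,
            Real.sqrt_mul (by positivity), Real.sqrt_sq (by positivity)]
        rw [h1]
        exact Real.sqrt_le_sqrt e1
      have e3 : |f (z u) - f o| ≤ (∑ l ∈ Finset.Ico i t, 1 / (P.D (l + 1) : ℝ)) *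
          Real.sqrt (en G a f) := by
        refine hup.res _ (hz u) a f ha fun l hl hlt x hx => ?_
        refine hw l (Finset.mem_Ico.2 ⟨by omega, hlt⟩) x ?_
        rw [hR1 u l hl]
        exact hx
      have e4 : 1 / (P.D i : ℝ) + ∑ l ∈ Finset.Ico i t, 1 / (P.D (l + 1) : ℝ) ≤ 1 / 4 := by
        refine le_trans ?_ (hC.Dsum t)
        have h1 : 1 / (P.D i : ℝ) + ∑ l ∈ Finset.Ico i t, 1 / (P.D (l + 1) : ℝ)
            = ∑ l ∈ Finset.Ico (i - 1) t, 1 / (P.D (l + 1) : ℝ) := by
          rw [Finset.sum_eq_sum_Ico_succ_bot (show i - 1 < t by omega), hi1]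
        rw [h1]
        refine Finset.sum_le_sum_of_subset_of_nonneg (fun l hl => ?_) fun l _ _ => ?_
        · rw [Finset.mem_Ico] at hl
          exact Finset.mem_range.2 hl.2
        · have := hDpos l
          positivity
      have hsq : 0 ≤ Real.sqrt (en G a f) := Real.sqrt_nonneg _
      have e5 : |f u.1 - f o| ≤ 1 / 4 * Real.sqrt (en G a f) := by
        calc |f u.1 - f o| ≤ |f u.1 - f (z u)| + |f (z u) - f o| := abs_sub_le _ _ _
          _ ≤ (1 / (P.D i : ℝ) + ∑ l ∈ Finset.Ico i t, 1 / (P.D (l + 1) : ℝ)) *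
              Real.sqrt (en G a f) := by rw [add_mul]; exact add_le_add e2 e3
          _ ≤ _ := mul_le_mul_of_nonneg_right e4 hsq
      have e6 : (f u.1 - f o) ^ 2 ≤ (1 / 4 * Real.sqrt (en G a f)) ^ 2 := by
        rw [← sq_abs]
        exact pow_le_pow_left₀ (abs_nonneg _) e5 2
      rw [mul_pow, Real.sq_sqrt hen] at e6
      linarith
    · -- far
      intro u l hl
      have h1 : nb G (R u l) (P.mm t - 1 - P.D (t - 1)) ⊆
          nb G (nb G Y (P.D (t - 1))) (P.mm t - 1 - P.D (t - 1)) := nb_mono (hnbD u l hl) le_rfl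
      refine (h1.trans (nb_nb_subset hG Y _ _)).trans ?_
      have h2 := hA.Dmm t ht
      rw [show P.D (t - 1) + (P.mm t - 1 - P.D (t - 1)) = P.mm t - 1 by omega]
      exact hYN
    · -- cnt
      intro l hl x k'
      rw [Finset.mem_Ico] at hl
      have hzd : ∀ u, G.dist u.1 (z u) ≤ P.D i := fun u => mem_ball.1 (hQb u (hQz u))
      have hsub : ∀ u : {x // x ∈ U}, x ∈ nb G (R u l) k' →
          u.1 ∈ ball G x (k' + 3 * P.D (l + 1)) := by
        intro u hu
        obtain ⟨y, hy, hxy⟩ := mem_nb.1 hu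
        rw [mem_ball]
        by_cases h : l = i - 1
        · subst h
          rw [hR0] at hy
          have h1 : G.dist u.1 y ≤ P.D i := mem_ball.1 (hQb u hy)
          have h2 := hG.dist_triangle (u := x) (v := y) (w := u.1)
          rw [G.dist_comm (u := y) (v := u.1)] at h2
          rw [hi1]
          omega
        · have hl' : i ≤ l := by omega
          rw [hR1 u l hl'] at hy
          have h1 := hup.spread _ (hz u) l hl' hl.2 y hy
          have h2 := hG.dist_triangle (u := x) (v := y) (w := u.1)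
          have h3 := hG.dist_triangle (u := y) (v := z u) (w := u.1)
          rw [G.dist_comm (u := y) (v := z u), G.dist_comm (u := z u) (v := u.1)] at h3
          have h4 := hzd u
          omega
      have hcard : (Finset.univ.filter fun u : {x // x ∈ U} => x ∈ nb G (R u l) k').card
          ≤ (ball G x (k' + 3 * P.D (l + 1))).card := by
        refine Finset.card_le_card_of_injOn (fun u => u.1) (fun u hu => ?_)
          (fun u _ v _ h => Subtype.ext h)
        rw [Finset.mem_coe, Finset.mem_filter] at hu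
        exact hsub u hu.2
      have h2 := hcard.trans (card_ball_le hG hΔ hdeg x (k' + 3 * P.D (l + 1)))
      calc (((Finset.univ.filter fun u : {x // x ∈ U} => x ∈ nb G (R u l) k').card : ℕ) : ℝ)
          ≤ ((Δ ^ (k' + 3 * P.D (l + 1) + 1) : ℕ) : ℝ) := by exact_mod_cast h2
        _ = (Δ : ℝ) ^ (k' + (3 * P.D (l + 1) + 1)) := by push_cast; rw [add_assoc]
  have hcov := hst N (P.Lam t) o {x // x ∈ U} _ _ _ _ _ _ R _ _ _ _ _ _ hhyp
  have hU : U ⊆ Finset.univ.biUnion fun u : {x // x ∈ U} => ({u.1} : Finset V) := fun x hx =>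
    Finset.mem_biUnion.2 ⟨⟨x, hx⟩, Finset.mem_univ _, Finset.mem_singleton_self x⟩
  refine (hcov.subset hU).mono ?_
  have hc0 : 0 ≤ c := by linarith
  have hθ4 : (0 : ℝ) ≤ θ ^ 4 := by positivity
  have hθ41 : θ ^ 4 ≤ 1 := pow_le_one₀ hθ0.le hθ1.le
  have hbot : ∑ x ∈ N, dec G (θ ^ 4) (Finset.univ.biUnion fun u => R u (i - 1)) x
      ≤ (U.card : ℝ) * (P.D i + 1) * (Δ : ℝ) ^ (k + 1)
        + (θ ^ 2) ^ k * ∑ x ∈ N, dec G (θ ^ 2) S x := by
    have hsub : (Finset.univ.biUnion fun u => R u (i - 1)) ⊆ S := by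
      intro x hx
      obtain ⟨u, -, hu⟩ := Finset.mem_biUnion.1 hx
      rw [hR0] at hu
      exact hQS u hu
    have h1 := near_far hG hΔ hdeg (r := θ ^ 2) (by positivity)
      (pow_lt_one₀ hθ0.le hθ1 (by norm_num)) (N := N) hsub k
    rw [show (θ ^ 2) ^ 2 = θ ^ 4 by ring] at h1
    refine h1.trans (add_le_add_left (mul_le_mul_of_nonneg_right ?_ (by positivity)) _) |>.trans
      le_rfl
    have h2 : (Finset.univ.biUnion fun u => R u (i - 1)).card ≤ U.card * (P.D i + 1) := by
      refine (Finset.card_biUnion_le).trans ?_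
      refine (Finset.sum_le_card_nsmul _ _ (P.D i + 1) fun u _ => ?_).trans ?_
      · rw [hR0]; exact hQc u
      · rw [Finset.card_univ, Fintype.card_coe, smul_eq_mul]
    calc (((Finset.univ.biUnion fun u => R u (i - 1)).card : ℕ) : ℝ)
        ≤ ((U.card * (P.D i + 1) : ℕ) : ℝ) := by exact_mod_cast h2
      _ = (U.card : ℝ) * (P.D i + 1) := by push_cast; ring
  have hsum : ∑ l ∈ Finset.Ico (i - 1) t, (P.D (l + 1) : ℝ) ^ 3 * (((3 * P.D (l + 1) + 1 : ℕ) : ℝ) + 1) *
        ∑ x ∈ N, dec G (θ ^ 4) (Finset.univ.biUnion fun u => R u l) x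
      ≤ P.Wc (i - 1) * ((U.card : ℝ) * (P.D i + 1) * (Δ : ℝ) ^ (k + 1)
          + (θ ^ 2) ^ k * ∑ x ∈ N, dec G (θ ^ 2) S x)
        + ∑ l ∈ Finset.Ico i t, P.W G θ l N (Rf l) := by
    have hWc : ∀ l, (P.D (l + 1) : ℝ) ^ 3 * (((3 * P.D (l + 1) + 1 : ℕ) : ℝ) + 1) = P.Wc l := by
      intro l
      unfold Wc
      push_cast
      ring
    have hWc0 : ∀ l, 0 ≤ P.Wc l := fun l => by
      unfold Wc
      positivity
    rw [Finset.sum_eq_sum_Ico_succ_bot (show i - 1 < t by omega), hi1]
    refine add_le_add ?_ (Finset.sum_le_sum fun l hl => ?_)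
    · have := hWc (i - 1)
      rw [hi1] at this
      rw [this]
      exact mul_le_mul_of_nonneg_left hbot (hWc0 _)
    · rw [Finset.mem_Ico] at hl
      rw [hWc]
      unfold W
      refine mul_le_mul_of_nonneg_left (Finset.sum_le_sum fun x _ => ?_) (hWc0 _)
      refine dec_mono hθ4 hθ41 (fun y hy => ?_) x
      obtain ⟨u, -, hu⟩ := Finset.mem_biUnion.1 hy
      rw [hR1 u l hl.1] at hu
      exact hup.sub _ (hz u) l hl.1 hl.2 hu
  have hfin := mul_le_mul_of_nonneg_left hsum (show 0 ≤ 2 * c by linarith)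
  simp only [Finset.sum_const_zero, mul_zero, add_zero]
  refine le_trans (le_of_eq ?_) hfin
  norm_num
  left
  ring

end Lev

end Pool.MP_10effd_pr
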