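import Pool.Agent.MP_10effd_pr.LL.Near
import Pool.Agent.MP_10effd_pr.LL.Budget
import Pool.Agent.MP_10effd_pr.LL.StageVert

/-! The first level of the multi-scale induction. -/

set_option autoImplicit false
set_option linter.unusedSectionVars false

namespace Pool.MP_10effd_pr

open Finset

variable {V : Type} [Fintype V] [DecidableEq V] {G : SimpleGraph V} [DecidableRel G.Adj] {ε : ℝ}

namespace Lev

variable {P : Lev} {θ : ℝ} {Δ : ℕ} {c : ℝ} {ctr : ℕ → V → V} {T : ℕ}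

/-- The first level. -/
theorem rest_one (hG : G.Connected) (hΔ : 2 ≤ Δ) (hdeg : ∀ x, G.degree x ≤ Δ)
    (hP : P.Good θ Δ c) (hθ0 : 0 < θ) (hθ1 : θ < 1) (hc1 : 1 ≤ c) (hst : StageOK G ε θ Δ c) :
    P.RestCov G ε θ ctr T 1 := by
  classical
  intro t N Y U S o Z Rt Rf hit htT hctx
  obtain ⟨k, hk1, hk2⟩ := hP.k2_0
  have hacc : ∀ x ∈ U, ∃ z ∈ Z, PathIn G S (P.D 1) x z := hctx.acc
  have h := stage_vert (P := P) hG hΔ hdeg hP hθ0 hθ1 hc1 hst le_rfl hit hctx.oY hctx.YN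
    hctx.SY hctx.up hacc k
  refine h.mono ?_
  have hK : 2 * P.D 0 < P.K 0 := hP.DK 0
  have hU : (U.card : ℝ) ≤ P.Bud G θ 0 U := by
    have h1 := card_nb_le_Bud (P := P) (G := G) (θ := θ) hθ0 hK (Nat.zero_le (2 * P.D 0)) U
    have h2 : (U.card : ℝ) ≤ ((nb G U 0).card : ℝ) := by
      exact_mod_cast card_le_card (subset_nb U 0)
    exact h2.trans h1
  have hlow : P.LowH G ctr T θ 1 U = (P.β 0 * P.Bud G θ 0 U
      + P.Csp 0 * ((U.filter fun x => P.spec G ctr T 0 x).card : ℝ)) / 2 := by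
    unfold LowH
    have h1 : P.lowPart G ctr T θ 1 (1 - 1) U = P.lowPart G ctr T θ (0 + 1) 0 U := rfl
    rw [h1, lowPart_top hG 0 (by omega) U]
    simp
  have hβ := hP.β0 0
  have hC := hP.Csp0 0
  have hsp : 0 ≤ P.Csp 0 * ((U.filter fun x => P.spec G ctr T 0 x).card : ℝ) :=
    mul_nonneg hC (Nat.cast_nonneg _)
  have hdec : 0 ≤ ∑ x ∈ N, dec G (θ ^ 2) S x :=
    sum_nonneg fun x _ => dec_nonneg (by positivity) S x
  have e1 : 2 * c * P.Wc 0 * (P.D 1 + 1) * (Δ : ℝ) ^ (k + 1) * (U.card : ℝ)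
      ≤ P.β 0 / 2 * P.Bud G θ 0 U := by
    have h0 : 0 ≤ P.β 0 / 2 := by linarith
    exact mul_le_mul hk2 hU (Nat.cast_nonneg _) h0
  have e2 : 2 * c * P.Wc 0 * (θ ^ 2) ^ k * ∑ x ∈ N, dec G (θ ^ 2) S x
      ≤ ((P.D 1 : ℝ) ^ 10)⁻¹ * ∑ x ∈ N, dec G (θ ^ 2) S x :=
    mul_le_mul_of_nonneg_right hk1 hdec
  have e3 : P.tt 1 * P.tl G θ (1 - 1) N U = 0 := by rw [hP.tt1, zero_mul]
  rw [hlow, e3, hP.cc1]
  have e4 : 2 * c * (P.Wc (1 - 1) * ((U.card : ℝ) * (P.D 1 + 1) * (Δ : ℝ) ^ (k + 1)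
          + (θ ^ 2) ^ k * ∑ x ∈ N, dec G (θ ^ 2) S x)
        + ∑ l ∈ Finset.Ico 1 t, P.W G θ l N (Rf l))
      = 2 * c * P.Wc 0 * (P.D 1 + 1) * (Δ : ℝ) ^ (k + 1) * (U.card : ℝ)
        + 2 * c * P.Wc 0 * (θ ^ 2) ^ k * ∑ x ∈ N, dec G (θ ^ 2) S x
        + 2 * c * ∑ l ∈ Finset.Ico 1 t, P.W G θ l N (Rf l) := by
    have : (1 - 1 : ℕ) = 0 := rfl
    rw [this]
    ring
  rw [e4]
  linarith

end Lev

end Pool.MP_10effd_pr
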