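import Pool.Agent.MP_10effd_pr.LL.Defs0

/-! The total weight of a phase. -/

set_option autoImplicit false
set_option linter.unusedSectionVars false

namespace Pool.MP_10effd_pr

open Finset

variable {V : Type} [Fintype V] [DecidableEq V] {G : SimpleGraph V} [DecidableRel G.Adj] {ε : ℝ}

theorem dec_nonneg' {r : ℝ} (hr : 0 ≤ r) (C : Finset V) (x : V) : 0 ≤ dec G r C x := by
  unfold dec
  split_ifs
  · exact pow_nonneg hr _
  · exact le_rfl

/-- Comparison of the decay at neighbouring vertices. -/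
theorem dec_adj_le {r : ℝ} (hr0 : 0 < r) (hr1 : r ≤ 1) (hG : G.Connected) (C : Finset V)
    {x y : V} (h : G.Adj x y) : dec G r C y ≤ 1 / r * dec G r C x := by
  unfold dec
  split_ifs with hC
  · have e1 := dset_adj hG hC h.symm
    have e2 : r ^ (dset G C y + 1) ≤ r ^ dset G C x := pow_le_pow_of_le_one hr0.le hr1 e1
    rw [pow_succ] at e2
    rw [div_mul_eq_mul_div, one_mul, le_div_iff₀ hr0]
    exact e2
  · simp

theorem stage_weight {θ : ℝ} {Δ : ℕ} (hθ0 : 0 < θ) (hθ1 : θ < 1)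
    (hG : G.Connected) (hdeg : ∀ x, G.degree x ≤ Δ) {N : Finset V} {L : ℝ}
    {o : V} {ι : Type} [Fintype ι] [DecidableEq ι] {p : ι → V} {A Nu : ι → Finset V}
    {T : ι → ℝ} {ν : ι → V → ℝ} {Ls : Finset ℕ} {R : ι → ℕ → Finset V} {w : ℕ → ℝ} {σ : ℕ → ℕ}
    {lF m' : ℕ} {τ νm : ℝ} (hS : StageHyp G ε θ Δ N L o p A Nu T ν Ls R w σ lF m' τ νm)
    (X : Finset ι) :
    ∑ x ∈ N, ∑ y ∈ G.neighborFinset x, (wt G θ Ls R w X x + wt G θ Ls R w X y)
      + L * ∑ x ∈ N, ∑ y ∈ (G.neighborFinset x).filter (fun y => y ∉ N),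
            (wt G θ Ls R w X x + wt G θ Ls R w X y)
    ≤ 2 * Δ * (1 + 1 / θ ^ 16) *
        ∑ x ∈ N, ∑ l ∈ Ls, w l * dec G (θ ^ 8) (X.biUnion fun u => R u l) x := by
  have hr0 : (0 : ℝ) < θ ^ 16 := pow_pos hθ0 _
  have hr1 : (θ : ℝ) ^ 16 ≤ 1 := pow_le_one₀ hθ0.le hθ1.le
  have hL0 : 0 ≤ L := le_trans zero_le_one hS.L1
  set c : ℝ := 1 + 1 / θ ^ 16 with hc
  have hc0 : 0 ≤ c := by positivity
  set D : V → ℝ := fun x => ∑ l ∈ Ls, w l * dec G (θ ^ 8) (X.biUnion fun u => R u l) x with hD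
  have hwt0 : ∀ x, 0 ≤ wt G θ Ls R w X x := fun x =>
    Finset.sum_nonneg fun l hl => mul_nonneg (hS.w0 l hl).le (dec_nonneg' hr0.le _ _)
  have hD0 : ∀ x, 0 ≤ D x := fun x =>
    Finset.sum_nonneg fun l hl => mul_nonneg (hS.w0 l hl).le (dec_nonneg' (pow_nonneg hθ0.le _) _ _)
  have hadj : ∀ x y, G.Adj x y → wt G θ Ls R w X x + wt G θ Ls R w X y
      ≤ c * wt G θ Ls R w X x := by
    intro x y hxy
    have : wt G θ Ls R w X y ≤ 1 / θ ^ 16 * wt G θ Ls R w X x := by
      unfold wt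
      rw [Finset.mul_sum]
      apply Finset.sum_le_sum
      intro l hl
      have e1 := dec_adj_le (G := G) hr0 hr1 hG (X.biUnion fun u => R u l) hxy
      have e2 := mul_le_mul_of_nonneg_left e1 (hS.w0 l hl).le
      refine e2.trans (le_of_eq ?_)
      ring
    have e3 : c * wt G θ Ls R w X x
        = wt G θ Ls R w X x + 1 / θ ^ 16 * wt G θ Ls R w X x := by rw [hc]; ring
    rw [e3]
    linarith
  -- sums over neighbours
  have hsum : ∀ (x : V) (Y : Finset V), Y ⊆ G.neighborFinset x →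
      ∑ y ∈ Y, (wt G θ Ls R w X x + wt G θ Ls R w X y) ≤ Δ * (c * wt G θ Ls R w X x) := by
    intro x Y hY
    calc ∑ y ∈ Y, (wt G θ Ls R w X x + wt G θ Ls R w X y)
        ≤ ∑ _y ∈ Y, c * wt G θ Ls R w X x := by
          apply Finset.sum_le_sum
          intro y hy
          exact hadj x y (by simpa using hY hy)
      _ = Y.card * (c * wt G θ Ls R w X x) := by rw [Finset.sum_const, nsmul_eq_mul]
      _ ≤ Δ * (c * wt G θ Ls R w X x) := by
          apply mul_le_mul_of_nonneg_right _ (mul_nonneg hc0 (hwt0 x))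
          have h1 := Finset.card_le_card hY
          rw [SimpleGraph.card_neighborFinset_eq_degree] at h1
          exact_mod_cast h1.trans (hdeg x)
  have h1 : ∑ x ∈ N, ∑ y ∈ G.neighborFinset x, (wt G θ Ls R w X x + wt G θ Ls R w X y)
      ≤ ∑ x ∈ N, Δ * (c * D x) := by
    apply Finset.sum_le_sum
    intro x _
    refine (hsum x _ (Finset.Subset.refl _)).trans ?_
    apply mul_le_mul_of_nonneg_left _ (Nat.cast_nonneg _)
    apply mul_le_mul_of_nonneg_left _ hc0
    apply Finset.sum_le_sum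
    intro l hl
    apply mul_le_mul_of_nonneg_left _ (hS.w0 l hl).le
    unfold dec
    split_ifs with hC
    · rw [← pow_mul, ← pow_mul]
      exact pow_le_pow_of_le_one hθ0.le hθ1.le (by omega)
    · exact le_rfl
  have h2 : L * ∑ x ∈ N, ∑ y ∈ (G.neighborFinset x).filter (fun y => y ∉ N),
            (wt G θ Ls R w X x + wt G θ Ls R w X y) ≤ ∑ x ∈ N, Δ * (c * D x) := by
    rw [Finset.mul_sum]
    apply Finset.sum_le_sum
    intro x _
    rcases ((G.neighborFinset x).filter (fun y => y ∉ N)).eq_empty_or_nonempty with he | hne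
    · rw [he, Finset.sum_empty, mul_zero]
      exact mul_nonneg (Nat.cast_nonneg _) (mul_nonneg hc0 (hD0 x))
    · obtain ⟨y, hy⟩ := hne
      rw [Finset.mem_filter, SimpleGraph.mem_neighborFinset] at hy
      have e1 := mul_le_mul_of_nonneg_left
        (hsum x ((G.neighborFinset x).filter (fun y => y ∉ N)) (Finset.filter_subset _ _)) hL0
      refine e1.trans ?_
      have e2 : L * (Δ * (c * wt G θ Ls R w X x)) = Δ * (c * (L * wt G θ Ls R w X x)) := by ring
      rw [e2]
      apply mul_le_mul_of_nonneg_left _ (Nat.cast_nonneg _)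
      apply mul_le_mul_of_nonneg_left _ hc0
      unfold wt
      rw [Finset.mul_sum]
      apply Finset.sum_le_sum
      intro l hl
      have e3 : L * (w l * dec G (θ ^ 16) (X.biUnion fun u => R u l) x)
          = w l * (L * dec G (θ ^ 16) (X.biUnion fun u => R u l) x) := by ring
      rw [e3]
      apply mul_le_mul_of_nonneg_left _ (hS.w0 l hl).le
      unfold dec
      split_ifs with hC
      · -- the distance is at least `m'`
        obtain ⟨r, hr, hrd⟩ := exists_dset (G := G) hC x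
        rw [Finset.mem_biUnion] at hr
        obtain ⟨u, _, hru⟩ := hr
        have hd : m' ≤ dset G (X.biUnion fun u => R u l) x := by
          by_contra hcon
          push Not at hcon
          apply hy.2
          apply hS.far u l hl
          rw [mem_nb]
          refine ⟨r, hru, ?_⟩
          have t1 : G.dist y r ≤ G.dist y x + G.dist x r := hG.dist_triangle
          have t2 : G.dist y x = 1 := SimpleGraph.dist_eq_one_iff_adj.mpr hy.1.symm
          omega
        set d := dset G (X.biUnion fun u => R u l) x with hdd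
        have e4 : (θ ^ 16) ^ d = (θ ^ 8) ^ d * (θ ^ 8) ^ d := by
          rw [← mul_pow, ← pow_add]
        have h8 : (0 : ℝ) < θ ^ 8 := pow_pos hθ0 _
        have h81 : (θ : ℝ) ^ 8 ≤ 1 := pow_le_one₀ hθ0.le hθ1.le
        have e5 : (θ ^ 8) ^ d ≤ (θ ^ 8) ^ m' := pow_le_pow_of_le_one h8.le h81 hd
        have e6 : L * (θ ^ 8) ^ d ≤ 1 :=
          (mul_le_mul_of_nonneg_left e5 hL0).trans hS.far'
        rw [e4, ← mul_assoc]
        calc L * (θ ^ 8) ^ d * (θ ^ 8) ^ d ≤ 1 * (θ ^ 8) ^ d :=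
              mul_le_mul_of_nonneg_right e6 (pow_nonneg h8.le _)
          _ = (θ ^ 8) ^ d := one_mul _
      · rw [mul_zero]
  have h3 : ∑ x ∈ N, (Δ : ℝ) * (c * D x) = Δ * (c * ∑ x ∈ N, D x) := by
    rw [Finset.mul_sum, Finset.mul_sum]
  rw [h3] at h1 h2
  have h4 : 2 * (Δ : ℝ) * c * ∑ x ∈ N, D x = Δ * (c * ∑ x ∈ N, D x) + Δ * (c * ∑ x ∈ N, D x) := by
    ring
  rw [h4]
  exact add_le_add h1 h2

end Pool.MP_10effd_pr
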