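import Pool.Agent.MP_10effd_pr.LL.StagePhase
import Pool.Agent.MP_10effd_pr.LL.StageWeight
import Pool.Agent.MP_10effd_pr.LL.Iterate

/-! The stage theorem: layers. -/

set_option autoImplicit false
set_option linter.unusedSectionVars false

namespace Pool.MP_10effd_pr

open Finset

section layers

variable {V : Type} [Fintype V] [DecidableEq V] {G : SimpleGraph V} [DecidableRel G.Adj]

theorem mem_nb_iff_dset {C : Finset V} {k : ℕ} {x : V} :
    x ∈ nb G C k ↔ C.Nonempty ∧ dset G C x ≤ k := by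
  rw [mem_nb]
  constructor
  · rintro ⟨c, hc, h⟩
    exact ⟨⟨c, hc⟩, (dset_le hc).trans h⟩
  · rintro ⟨hC, h⟩
    obtain ⟨c, hc, hd⟩ := exists_dset (G := G) hC x
    exact ⟨c, hc, hd ▸ h⟩

/-- Layer cake formula for the exponential decay. -/
theorem dec_layer {q : ℝ} {C : Finset V} {x : V} {D0 : ℕ}
    (hD : C.Nonempty → dset G C x ≤ D0) :
    dec G q C x = ∑ k : Fin (D0 + 1), if x ∈ nb G C k then gw q D0 k else 0 := by
  by_cases hC : C.Nonempty
  · have h1 : ∀ k : Fin (D0 + 1), (if x ∈ nb G C k then gw q D0 k else 0) =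
        if dset G C x ≤ (k : ℕ) then gw q D0 k else 0 := by
      intro k
      simp only [mem_nb_iff_dset, hC, true_and]
    rw [Finset.sum_congr rfl fun k _ => h1 k, tail, if_pos (hD hC), dec, if_pos hC]
  · have h1 : ∀ k : Fin (D0 + 1), (if x ∈ nb G C k then gw q D0 k else 0) = 0 := by
      intro k
      rw [if_neg]
      rw [mem_nb_iff_dset]
      exact fun h => hC h.1
    rw [Finset.sum_congr rfl fun k _ => h1 k, Finset.sum_const_zero, dec, if_neg hC]

theorem succ_mul_pow_le {r : ℝ} (h0 : 0 < r) (h1 : r < 1) (k : ℕ) :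
    ((k : ℝ) + 1) * r ^ k ≤ 1 / (1 - r) := by
  have h2 : ((k : ℝ) + 1) * r ^ k ≤ ∑ j ∈ Finset.range (k + 1), r ^ j := by
    have : ((k : ℝ) + 1) * r ^ k = ∑ _j ∈ Finset.range (k + 1), r ^ k := by
      rw [Finset.sum_const, Finset.card_range, nsmul_eq_mul]
      push_cast
      ring
    rw [this]
    refine Finset.sum_le_sum fun j hj => ?_
    exact pow_le_pow_of_le_one h0.le h1.le (by rw [Finset.mem_range] at hj; omega)
  have h3 := geom_sum_mul r (k + 1)
  have h4 : 0 < 1 - r := by linarith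
  rw [le_div_iff₀ h4]
  have h5 : 0 < r ^ (k + 1) := pow_pos h0 _
  nlinarith

theorem gw_sq_le {r : ℝ} (h0 : 0 < r) (h1 : r < 1) {M k : ℕ} (hk : k ≤ M) :
    gw (r ^ 2) M k * ((k : ℝ) + 1) ≤ 2 / (1 - r) * gw r M k := by
  have h4 : 0 < 1 - r := by linarith
  have h2 := succ_mul_pow_le h0 h1 k
  have h5 : 0 < r ^ k := pow_pos h0 _
  have h6 : (r ^ 2) ^ k = r ^ k * r ^ k := by rw [← pow_mul, ← pow_add]; congr 1; omega
  unfold gw
  split_ifs with h
  · have h7 : (r ^ 2) ^ k * (1 - r ^ 2) * ((k : ℝ) + 1) =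
        (1 + r) * (r ^ k * (1 - r)) * (((k : ℝ) + 1) * r ^ k) := by
      rw [h6]; ring
    rw [h7]
    have h8 : 0 ≤ (1 + r) * (r ^ k * (1 - r)) := by positivity
    calc (1 + r) * (r ^ k * (1 - r)) * (((k : ℝ) + 1) * r ^ k)
        ≤ (1 + r) * (r ^ k * (1 - r)) * (1 / (1 - r)) := mul_le_mul_of_nonneg_left h2 h8
      _ ≤ 2 * (r ^ k * (1 - r)) * (1 / (1 - r)) := by
        refine mul_le_mul_of_nonneg_right ?_ (by positivity)
        refine mul_le_mul_of_nonneg_right (by linarith) (by positivity)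
      _ = 2 / (1 - r) * (r ^ k * (1 - r)) := by ring
  · have hkM : k = M := by omega
    subst hkM
    rw [h6]
    calc r ^ k * r ^ k * ((k : ℝ) + 1) = r ^ k * (((k : ℝ) + 1) * r ^ k) := by ring
      _ ≤ r ^ k * (1 / (1 - r)) := mul_le_mul_of_nonneg_left h2 h5.le
      _ ≤ r ^ k * (2 / (1 - r)) := by
        refine mul_le_mul_of_nonneg_left ?_ h5.le
        exact div_le_div_of_nonneg_right (by norm_num) h4.le
      _ = 2 / (1 - r) * r ^ k := by ring

/-- The logarithmic sum over the layers. -/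
theorem layer_log {r : ℝ} (h0 : 0 < r) (h1 : r < 1) {Δ : ℕ} (hΔ : 2 ≤ Δ) {C : Finset V} {x : V}
    {D0 σ : ℕ} (hD : C.Nonempty → dset G C x ≤ D0) (cnt : ℕ → ℕ)
    (hz : ∀ k, x ∉ nb G C k → cnt k = 0) (hc : ∀ k, (cnt k : ℝ) ≤ (Δ : ℝ) ^ (k + σ)) :
    ∑ k : Fin (D0 + 1), gw (r ^ 2) D0 k * Real.log (1 + cnt k) ≤
      Real.log Δ * (2 / (1 - r)) * ((σ + 1) * dec G r C x) := by
  have hr2 : r ^ 2 < 1 := by nlinarith
  have hΔ1 : (1 : ℝ) ≤ Δ := by exact_mod_cast (by omega : 1 ≤ Δ)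
  have hlog : 0 ≤ Real.log Δ := Real.log_nonneg hΔ1
  rw [dec_layer hD, Finset.mul_sum, Finset.mul_sum]
  refine Finset.sum_le_sum fun k _ => ?_
  by_cases hx : x ∈ nb G C k
  · rw [if_pos hx]
    have hk : (k : ℕ) ≤ D0 := by omega
    have e1 : Real.log (1 + cnt k) ≤ ((k : ℕ) + 1) * (σ + 1) * Real.log Δ := by
      have e2 : (1 : ℝ) + cnt k ≤ (Δ : ℝ) ^ ((k : ℕ) + σ + 1) := by
        have e3 := hc k
        have e4 : (1 : ℝ) ≤ (Δ : ℝ) ^ ((k : ℕ) + σ) := one_le_pow₀ hΔ1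
        have e5 : (2 : ℝ) ≤ Δ := by exact_mod_cast hΔ
        rw [pow_succ]
        nlinarith
      have e6 : Real.log (1 + cnt k) ≤ Real.log ((Δ : ℝ) ^ ((k : ℕ) + σ + 1)) :=
        Real.log_le_log (by positivity) e2
      rw [Real.log_pow] at e6
      refine e6.trans (mul_le_mul_of_nonneg_right ?_ hlog)
      push_cast
      have : (0 : ℝ) ≤ ((k : ℕ) : ℝ) * σ := by positivity
      nlinarith
    have e7 := gw_sq_le h0 h1 hk
    have e8 : 0 ≤ gw (r ^ 2) D0 k := gw_nonneg (by positivity) hr2 _ _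
    calc gw (r ^ 2) D0 k * Real.log (1 + cnt k)
        ≤ gw (r ^ 2) D0 k * (((k : ℕ) + 1) * (σ + 1) * Real.log Δ) :=
          mul_le_mul_of_nonneg_left e1 e8
      _ = (σ + 1) * Real.log Δ * (gw (r ^ 2) D0 k * (((k : ℕ) : ℝ) + 1)) := by ring
      _ ≤ (σ + 1) * Real.log Δ * (2 / (1 - r) * gw r D0 k) :=
          mul_le_mul_of_nonneg_left e7 (by positivity)
      _ = Real.log Δ * (2 / (1 - r)) * ((σ + 1) * gw r D0 k) := by ring
  · rw [if_neg hx, hz k hx]
    simp

end layers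

/-- The stage theorem. -/
theorem exists_stage {ε θ : ℝ} (h0 : 0 < ε) (h1 : ε < 1) (hθ0 : 0 < θ) (hθ1 : θ < 1)
    (hθ : θ ^ 64 = 1 - ε) (Δ : ℕ) (hΔ : 2 ≤ Δ) :
    ∃ c : ℝ, 1 ≤ c ∧ ∀ (V : Type) [Fintype V] [DecidableEq V] (G : SimpleGraph V)
      [DecidableRel G.Adj], G.Connected → (∀ x, 0 < G.degree x) → (∀ x, G.degree x ≤ Δ) →
      StageOK G ε θ Δ c := by
  classical
  obtain ⟨C0, hC0⟩ : ∃ C0 : ℝ, C0 = 32 * Δ * (1 + 1 / θ ^ 16) := ⟨_, rfl⟩
  have hC0pos : 0 < C0 := by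
    rw [hC0]
    have : (0 : ℝ) < Δ := by exact_mod_cast (by omega : 0 < Δ)
    positivity
  have hr0 : 0 < θ ^ 4 := by positivity
  have hr1 : θ ^ 4 < 1 := pow_lt_one₀ hθ0.le hθ1 (by norm_num)
  have hlog : 0 ≤ Real.log Δ := Real.log_nonneg (by exact_mod_cast (by omega : 1 ≤ Δ))
  obtain ⟨C1, hC1⟩ : ∃ C1 : ℝ, C1 = C0 * (Real.log Δ * (2 / (1 - θ ^ 4))) := ⟨_, rfl⟩
  have hC1nn : 0 ≤ C1 := by
    rw [hC1]
    have : 0 < 1 - θ ^ 4 := by linarith
    positivity
  refine ⟨max 1 (3 * C1), le_max_left _ _, ?_⟩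
  intro V _ _ G _ hG hd hdeg
  unfold StageOK
  intro N L o ι _ _ p A Nu T ν Ls R w σ lF m' τ νm hS
  obtain ⟨D0, hD0⟩ : ∃ D0 : ℕ, ∀ x y : V, G.dist x y ≤ D0 :=
    ⟨(Finset.univ : Finset (V × V)).sup fun z => G.dist z.1 z.2, fun x y =>
      Finset.le_sup (f := fun z : V × V => G.dist z.1 z.2) (Finset.mem_univ (x, y))⟩
  have hdset : ∀ (C : Finset V) (x : V), C.Nonempty → dset G C x ≤ D0 := by
    intro C x hC
    obtain ⟨c, -, hc⟩ := exists_dset (G := G) hC x
    rw [← hc]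
    exact hD0 _ _
  have hq0 : 0 < θ ^ 8 := by positivity
  have hq1 : θ ^ 8 < 1 := pow_lt_one₀ hθ0.le hθ1 (by norm_num)
  have hτ := hS.τ0
  have hνm1 := hS.νm1
  have hνm0 := hS.νm0
  have h1ν : 0 < 1 - νm := by linarith
  -- the parameters of the iteration
  obtain ⟨Q, hQ⟩ : ∃ Q : ℝ, Q = (1 / 16) * (1 + 1 / (τ * (1 - νm))) := ⟨_, rfl⟩
  have hQ0 : 0 < Q := by rw [hQ]; positivity
  have hth : 1 - Q / (1 + Q) = 1 / (1 + Q) := by
    field_simp
    ring
  let I : {l // l ∈ Ls} × {x // x ∈ N} × Fin (D0 + 1) → Finset ι := fun j =>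
    Finset.univ.filter fun u => (j.2.1 : V) ∈ nb G (R u j.1) (j.2.2 : ℕ)
  let a : {l // l ∈ Ls} × {x // x ∈ N} × Fin (D0 + 1) → ℝ := fun j =>
    C0 * w j.1 * gw (θ ^ 8) D0 (j.2.2 : ℕ)
  have ha : ∀ j, 0 ≤ a j := by
    intro j
    have e1 := (hS.w0 j.1 j.1.2).le
    have e2 := gw_nonneg hq0 hq1 D0 (j.2.2 : ℕ)
    positivity
  have hsum : ∀ f : ℕ → V → Fin (D0 + 1) → ℝ,
      ∑ j : {l // l ∈ Ls} × {x // x ∈ N} × Fin (D0 + 1), f j.1 j.2.1 j.2.2 =
        ∑ l ∈ Ls, ∑ x ∈ N, ∑ k : Fin (D0 + 1), f l x k := by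
    intro f
    rw [Fintype.sum_prod_type, ← Finset.sum_coe_sort Ls]
    refine Finset.sum_congr rfl fun l _ => ?_
    rw [Fintype.sum_prod_type, ← Finset.sum_coe_sort N]
  have key := iterate_phase (G := G) (ε := ε) (N := N) (L := L) (o := o) (A := A) (T := T) hS.T0 I ha
    (s := 16 * τ) (θ := Q / (1 + Q)) (by positivity) (by positivity)
    (by rw [div_lt_one (by positivity)]; linarith) (by
      intro X hX
      have hph := stage_phase h0 h1 hθ0 hθ1 hθ hG hd hS hX
      have hwt := stage_weight hθ0 hθ1 hG hdeg hS X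
      rw [← hQ] at hph
      obtain ⟨W, hW⟩ : ∃ W : ℝ, W = ∑ x ∈ N, ∑ l ∈ Ls, w l * dec G (θ ^ 8)
        (X.biUnion fun u => R u l) x := ⟨_, rfl⟩
      rw [← hW] at hwt
      have hTX : 0 ≤ ∑ u ∈ X, T u := Finset.sum_nonneg fun u _ => hS.T0 u
      have hdec0 : ∀ (C : Finset V) (x : V), 0 ≤ dec G (θ ^ 8) C x := by
        intro C x
        unfold dec
        split_ifs
        · positivity
        · exact le_rfl
      have hWpos : 0 < W := by
        obtain ⟨u, hu⟩ := hX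
        have e1 : p u ∈ R u lF := hS.NuR u (hS.pNu u)
        have e2 : p u ∈ N := by
          refine hS.far u lF hS.lFs ?_
          rw [mem_nb]
          exact ⟨p u, e1, by rw [SimpleGraph.dist_self]; exact Nat.zero_le _⟩
        rw [hW]
        refine Finset.sum_pos' (fun x _ => Finset.sum_nonneg fun l hl =>
          mul_nonneg (hS.w0 l hl).le (hdec0 _ _)) ⟨p u, e2, ?_⟩
        refine Finset.sum_pos' (fun l hl => mul_nonneg (hS.w0 l hl).le (hdec0 _ _))
          ⟨lF, hS.lFs, ?_⟩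
        refine mul_pos (hS.w0 lF hS.lFs) ?_
        have e3 : p u ∈ X.biUnion fun u => R u lF := Finset.mem_biUnion.2 ⟨u, hu, e1⟩
        unfold dec
        rw [if_pos ⟨_, e3⟩]
        positivity
      refine ⟨C0 * W + 16 * τ * ∑ u ∈ X, T u, ?_, ?_, ?_⟩
      · have : 0 ≤ 16 * τ * ∑ u ∈ X, T u := by positivity
        have : 0 < C0 * W := by positivity
        linarith
      · refine add_le_add (le_of_eq ?_) le_rfl
        rw [Finset.sum_filter]
        have e1 : ∀ j : {l // l ∈ Ls} × {x // x ∈ N} × Fin (D0 + 1),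
            (if (I j ∩ X).Nonempty then a j else 0) =
              (fun (l : ℕ) (x : V) (k : Fin (D0 + 1)) => C0 * w l *
                (if x ∈ nb G (X.biUnion fun u => R u l) (k : ℕ) then gw (θ ^ 8) D0 k else 0))
                j.1 j.2.1 j.2.2 := by
          intro j
          have e2 : (I j ∩ X).Nonempty ↔
              (j.2.1 : V) ∈ nb G (X.biUnion fun u => R u j.1) (j.2.2 : ℕ) := by
            constructor
            · rintro ⟨u, hu⟩
              rw [Finset.mem_inter] at hu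
              have hu1 := (Finset.mem_filter.1 hu.1).2
              rw [mem_nb] at hu1 ⊢
              obtain ⟨c, hc, hc'⟩ := hu1
              exact ⟨c, Finset.mem_biUnion.2 ⟨u, hu.2, hc⟩, hc'⟩
            · intro h
              rw [mem_nb] at h
              obtain ⟨c, hc, hc'⟩ := h
              obtain ⟨u, hu, hcu⟩ := Finset.mem_biUnion.1 hc
              refine ⟨u, Finset.mem_inter.2 ⟨Finset.mem_filter.2 ⟨Finset.mem_univ _, ?_⟩, hu⟩⟩
              rw [mem_nb]
              exact ⟨c, hcu, hc'⟩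
          by_cases h : (I j ∩ X).Nonempty
          · rw [if_pos h]
            change a j = C0 * w j.1 * (if _ then _ else _)
            rw [if_pos (e2.1 h)]
          · rw [if_neg h]
            change 0 = C0 * w j.1 * (if _ then _ else _)
            rw [if_neg (fun h' => h (e2.2 h')), mul_zero]
        refine Eq.trans ?_ (Eq.trans (hsum (fun (l : ℕ) (x : V) (k : Fin (D0 + 1)) => C0 * w l *
          (if x ∈ nb G (X.biUnion fun u => R u l) (k : ℕ) then gw (θ ^ 8) D0 k else 0))).symm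
          (Finset.sum_congr rfl fun j _ => (e1 j).symm))
        rw [hW, Finset.mul_sum, Finset.sum_comm]
        refine Finset.sum_congr rfl fun x _ => ?_
        rw [Finset.mul_sum]
        refine Finset.sum_congr rfl fun l _ => ?_
        rw [dec_layer (hdset _ x), Finset.mul_sum, Finset.mul_sum]
        refine Finset.sum_congr rfl fun k _ => ?_
        ring
      · intro F hF M S₀ K₀ lam hlam hyp S hS0 hoS
        have e1 := hph F hF M S₀ K₀ lam hlam hyp S hS0 hoS
        refine e1.trans ?_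
        have e2 : C0 * W = 16 * (2 * Δ * (1 + 1 / θ ^ 16) * W) := by rw [hC0]; ring
        have e3 := mul_le_mul_of_nonneg_left hwt (by norm_num : (0 : ℝ) ≤ 16)
        rw [e2]
        linarith)
  refine key.mono ?_
  -- the two terms
  rw [hth]
  have hcoef : 2 / (1 / (1 + Q)) ≤ 3 * (1 + 1 / τ) := by
    have e1 : 2 / (1 / (1 + Q)) = 2 * (1 + Q) := by field_simp
    rw [e1, hQ]
    have e2 : 1 / (τ * (1 - νm)) ≤ 2 * (1 / τ) := by
      rw [one_div_le (by positivity) (by positivity)]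
      rw [show 1 / (2 * (1 / τ)) = τ * (1 / 2) by field_simp]
      exact mul_le_mul_of_nonneg_left (by linarith) hτ.le
    have e3 : 0 < 1 / τ := by positivity
    linarith
  have hcoef2 : 16 * τ / (1 / (1 + Q)) = 17 * τ + 1 / (1 - νm) := by
    rw [hQ]
    field_simp
    ring
  rw [hcoef2]
  refine add_le_add ?_ le_rfl
  have hlogsum : ∑ j, a j * Real.log (1 + (I j).card) ≤
      C1 * ∑ l ∈ Ls, w l * (σ l + 1) *
        ∑ x ∈ N, dec G (θ ^ 4) (Finset.univ.biUnion fun u => R u l) x := by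
    have e1 : ∀ j : {l // l ∈ Ls} × {x // x ∈ N} × Fin (D0 + 1),
        a j * Real.log (1 + (I j).card) =
          (fun (l : ℕ) (x : V) (k : Fin (D0 + 1)) => C0 * w l * (gw ((θ ^ 4) ^ 2) D0 k *
            Real.log (1 + ((Finset.univ.filter fun u => x ∈ nb G (R u l) (k : ℕ)).card : ℕ))))
            j.1 j.2.1 j.2.2 := by
      intro j
      change C0 * w j.1 * gw (θ ^ 8) D0 (j.2.2 : ℕ) * _ = C0 * w j.1 * (gw ((θ ^ 4) ^ 2) D0 _ * _)
      rw [← pow_mul]
      norm_num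
      ring
    rw [Finset.sum_congr rfl fun j _ => e1 j]
    refine le_trans (le_of_eq (hsum (fun (l : ℕ) (x : V) (k : Fin (D0 + 1)) =>
      C0 * w l * (gw ((θ ^ 4) ^ 2) D0 k * Real.log (1 +
        ((Finset.univ.filter fun u => x ∈ nb G (R u l) (k : ℕ)).card : ℕ)))))) ?_
    rw [Finset.mul_sum]
    refine Finset.sum_le_sum fun l hl => ?_
    have hw := (hS.w0 l hl).le
    rw [Finset.mul_sum, Finset.mul_sum]
    refine Finset.sum_le_sum fun x _ => ?_
    rw [← Finset.mul_sum]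
    have e2 := layer_log (G := G) hr0 hr1 hΔ (C := Finset.univ.biUnion fun u => R u l) (x := x)
      (D0 := D0) (σ := σ l) (hdset _ x)
      (fun k => (Finset.univ.filter fun u => x ∈ nb G (R u l) k).card) (by
        intro k hx
        rw [Finset.card_eq_zero, Finset.filter_eq_empty_iff]
        intro u _ hu
        apply hx
        rw [mem_nb] at hu ⊢
        obtain ⟨c, hc, hc'⟩ := hu
        exact ⟨c, Finset.mem_biUnion.2 ⟨u, Finset.mem_univ _, hc⟩, hc'⟩)
      (fun k => hS.cnt l hl x k)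
    calc C0 * w l * _ ≤ C0 * w l * _ := mul_le_mul_of_nonneg_left e2 (by positivity)
      _ = _ := by rw [hC1]; ring
  have hSnn : 0 ≤ ∑ l ∈ Ls, w l * (σ l + 1) *
      ∑ x ∈ N, dec G (θ ^ 4) (Finset.univ.biUnion fun u => R u l) x := by
    refine Finset.sum_nonneg fun l hl => ?_
    have hw := (hS.w0 l hl).le
    refine mul_nonneg (by positivity) (Finset.sum_nonneg fun x _ => ?_)
    unfold dec
    split_ifs
    · positivity
    · exact le_rfl
  have e3 : 0 < 1 + 1 / τ := by positivity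
  calc 2 / (1 / (1 + Q)) * ∑ j, a j * Real.log (1 + (I j).card)
      ≤ 3 * (1 + 1 / τ) * (C1 * ∑ l ∈ Ls, w l * (σ l + 1) *
        ∑ x ∈ N, dec G (θ ^ 4) (Finset.univ.biUnion fun u => R u l) x) := by
        refine mul_le_mul hcoef hlogsum ?_ (by positivity)
        refine Finset.sum_nonneg fun j _ => mul_nonneg (ha j) (Real.log_nonneg ?_)
        have : (0 : ℝ) ≤ (I j).card := Nat.cast_nonneg _
        linarith
    _ = (3 * C1) * (1 + 1 / τ) * ∑ l ∈ Ls, w l * (σ l + 1) *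
        ∑ x ∈ N, dec G (θ ^ 4) (Finset.univ.biUnion fun u => R u l) x := by ring
    _ ≤ _ := by
        refine mul_le_mul_of_nonneg_right ?_ hSnn
        exact mul_le_mul_of_nonneg_right (le_max_right _ _) e3.le

end Pool.MP_10effd_pr
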