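import Pool.Agent.MP_10effd_pr.LL.Defs
import Pool.Agent.MP_10effd_pr.LL.Tour

/-! The bound obtained from a hierarchy of clusterings. -/

set_option autoImplicit false
set_option linter.unusedSectionVars false

namespace Pool.MP_10effd_pr

open Finset

variable {V : Type} [Fintype V] [DecidableEq V] {G : SimpleGraph V} [DecidableRel G.Adj] {ε : ℝ}

/-- The optimal values form a family. -/
theorem val_famN (h0 : 0 < ε) (h1 : ε < 1) (hd : ∀ x, 0 < G.degree x) (L : ℝ) :
    FamN G ε Finset.univ L (fun m x S => val G ε m x S) where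
  pre :=
    { mono := fun m x S => val_succ_mono h0 h1 hd m x S
      anti := fun m x S S' h => val_anti h0 h1 hd m x S S' h
      step := fun P hP m x S _ => val_le_ker hP h0 h1 hd m x S }
  base := ⟨0, fun x S => rfl, fun m x S => val_nonneg h0 h1 hd m x S,
    fun m x S hx => absurd (Finset.mem_univ x) hx⟩

namespace Lev

variable {P : Lev} {θ : ℝ} {Δ : ℕ} {c : ℝ} {ctr : ℕ → V → V} {T : ℕ}

theorem top_cf_nonneg (hP : P.Good θ Δ c) (h0 : 0 < θ) (l : ℕ) (x : V) (k : ℕ) :
    0 ≤ P.cf G ctr T θ l x k := by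
  unfold cf cb
  have h1 := (hP.β0 l).le
  have h2 := hP.Csp0 l
  have h3 : 0 ≤ θ ^ (k - 2 * P.D l) := by positivity
  apply add_nonneg
  · apply mul_nonneg h1
    split_ifs <;> linarith
  · split_ifs <;> linarith

theorem top_eta_nonneg (P : Lev) (s : ℕ) : 0 ≤ P.eta s := by unfold eta; positivity

theorem top_nt_nonneg (P : Lev) (ctr : ℕ → V → V) (s : ℕ) (x : V) (κ : ℕ) :
    0 ≤ P.nt G ctr s x κ := by
  unfold nt
  split_ifs <;> positivity

theorem top_Pr_nonneg (P : Lev) (ctr : ℕ → V → V) (l i : ℕ) (x : V) (k : ℕ) :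
    0 ≤ P.Pr G ctr l i x k := by
  unfold Pr
  apply Finset.prod_nonneg
  intro s _
  exact mul_nonneg (by linarith [top_eta_nonneg P s]) (top_nt_nonneg P ctr s x _)

theorem top_LowF_nonneg (hP : P.Good θ Δ c) (h0 : 0 < θ) (i : ℕ) (U : Finset V) :
    0 ≤ P.LowF G ctr T θ i U := by
  unfold LowF lowPart
  refine Finset.sum_nonneg fun l _ => Finset.sum_nonneg fun x _ => Finset.sum_nonneg fun k _ => ?_
  apply mul_nonneg (mul_nonneg (top_cf_nonneg hP h0 l x k) (top_Pr_nonneg P ctr l i x k))
  split_ifs <;> norm_num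

open Classical in
/-- The bound obtained from a hierarchy of clusterings. -/
theorem val_le_hier (h0 : 0 < ε) (h1 : ε < 1) (hG : G.Connected) (hd : ∀ x, 0 < G.degree x)
    (hP : P.Good θ Δ c) (hθ0 : 0 < θ) (hT : 1 ≤ T) (hcard : Fintype.card V < P.Lc T)
    (hc : Clustering G (ctr T) (P.M T)) (hhub : P.HubCov G ε θ ctr T T) (m : ℕ) (v : V) :
    val G ε m v {v} ≤ ∑ l ∈ Finset.range T, ∑ x, ∑ k ∈ Finset.range (P.K l),
      P.cf G ctr T θ l x k * P.Pr G ctr l (T + 1) x k := by
  have hball : ∀ x k, (ball G x k).card < P.Lc T := fun x k =>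
    lt_of_le_of_lt (by rw [← Finset.card_univ]; exact Finset.card_le_card (Finset.subset_univ _))
      hcard
  have hconn : ∀ x ∈ (Finset.univ : Finset V), ∀ y ∈ (Finset.univ : Finset V),
      conn G Finset.univ x y := by
    intro x _ y _
    obtain ⟨p⟩ := hG.preconnected x y
    induction p with
    | nil => exact Relation.ReflTransGen.refl
    | cons h p ih =>
      exact Relation.ReflTransGen.head ⟨h, Finset.mem_univ _, Finset.mem_univ _⟩
        (ih (Finset.mem_univ _) (Finset.mem_univ _))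
  have htour := tour (ε := ε) h1 hG hc (N := Finset.univ) (L := P.Lam T) (X := Finset.univ)
    (cst := fun u => P.LowF G ctr T θ T (nb G (cl (ctr T) u) 1))
    (fun u => top_LowF_nonneg hP hθ0 T _) hconn (fun x _ y _ => Finset.mem_univ y)
    (by
      intro u _ hu g hg
      refine hhub Finset.univ u hu (fun x _ => hball x _) (Finset.subset_univ _) ?_ g hg
      rw [Finset.card_univ]
      have h3 : 1 ≤ P.Lc T := by omega
      calc Fintype.card V ≤ P.Lc T ^ 1 := by rw [pow_one]; exact hcard.le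
        _ ≤ P.Lc T ^ 5 := Nat.pow_le_pow_right h3 (by norm_num))
    (y := v) (Finset.mem_univ v)
  have h4 := htour _ (val_famN h0 h1 hd (P.Lam T)) m {v} (Finset.mem_singleton_self v)
  have e : ({v} : Finset V) ∪ Finset.univ = Finset.univ := by
    ext; simp
  rw [e] at h4
  simp only [val_univ, add_zero] at h4
  refine h4.trans ?_
  unfold LowF lowPart
  rw [Finset.sum_comm]
  apply Finset.sum_le_sum
  intro l hl
  rw [Finset.mem_range] at hl
  rw [Finset.sum_comm]
  apply Finset.sum_le_sum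
  intro x _
  rw [Finset.sum_comm]
  apply Finset.sum_le_sum
  intro k _
  rw [← Finset.mul_sum, mul_assoc]
  apply mul_le_mul_of_nonneg_left _ (top_cf_nonneg hP hθ0 l x k)
  have hPr : P.Pr G ctr l (T + 1) x k
      = P.Pr G ctr l T x k * ((1 + P.eta T) * P.nt G ctr T x (P.kap T l k)) := by
    unfold Pr
    rw [Finset.prod_Ico_succ_top (by omega)]
  rw [hPr]
  apply mul_le_mul_of_nonneg_left _ (top_Pr_nonneg P ctr l T x k)
  have hnt : P.nt G ctr T x (P.kap T l k)
      = (((ball G x (P.kap T l k + 1)).image (ctr T)).card : ℝ) := by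
    unfold nt
    rw [if_neg (by have := hball x (8 * P.M T); omega)]
  have hle : ∑ u ∈ Finset.univ.filter (fun u => ctr T u = u),
      (if x ∈ nb G (nb G (cl (ctr T) u) 1) (P.kap T l k) then (1 : ℝ) else 0)
      ≤ (((ball G x (P.kap T l k + 1)).image (ctr T)).card : ℝ) := by
    rw [Finset.sum_boole]
    norm_cast
    apply Finset.card_le_card
    intro u hu
    rw [Finset.mem_filter] at hu
    obtain ⟨_, hu⟩ := hu
    rw [mem_nb] at hu
    obtain ⟨a, ha, hxa⟩ := hu
    rw [mem_nb] at ha
    obtain ⟨b, hb, hab⟩ := ha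
    rw [mem_cl] at hb
    rw [Finset.mem_image]
    refine ⟨b, ?_, hb⟩
    rw [mem_ball]
    have : G.dist x b ≤ G.dist x a + G.dist a b := hG.dist_triangle
    omega
  rw [hnt]
  have h5 : (0 : ℝ) ≤ (((ball G x (P.kap T l k + 1)).image (ctr T)).card : ℝ) := by positivity
  have h6 := top_eta_nonneg P T
  nlinarith

end Lev

end Pool.MP_10effd_pr
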