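import Pool.Agent.MP_10effd_pr.LL.RestStep
import Pool.Agent.MP_10effd_pr.LL.RestOne
import Pool.Agent.MP_10effd_pr.LL.Hub
import Pool.Agent.MP_10effd_pr.LL.Top
import Pool.Agent.MP_10effd_pr.LL.Hier
import Pool.Agent.MP_10effd_pr.LL.Stage
import Pool.Agent.MP_10effd_pr.LL.ParA
import Pool.Agent.MP_10effd_pr.LL.ParC
import Pool.Agent.MP_10effd_pr.LL.ParK
import Pool.Agent.MP_10effd_pr.LL.ParT

set_option autoImplicit false
set_option linter.unusedSectionVars false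

namespace Pool.MP_10effd_pr

open Finset

/-- The linear bound for the values. -/
theorem val_linear {ε : ℝ} (h0 : 0 < ε) (h1 : ε < 1) (Δ : ℕ) :
    ∃ C : ℝ, 0 < C ∧ ∀ (V : Type) [Fintype V] [DecidableEq V] (G : SimpleGraph V)
      [DecidableRel G.Adj], G.Connected → (∀ x, 0 < G.degree x) → (∀ x, G.degree x ≤ Δ) →
      ∀ (m : ℕ) (v : V), val G ε m v {v} ≤ C * Fintype.card V := by
  set θ : ℝ := (1 - ε) ^ ((1 : ℝ) / 64) with hθ
  have he : 0 < 1 - ε := by linarith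
  have hθ0 : 0 < θ := Real.rpow_pos_of_pos he _
  have hθ1 : θ < 1 := Real.rpow_lt_one he.le (by linarith) (by norm_num)
  have hθ64 : θ ^ 64 = 1 - ε := by
    rw [hθ, ← Real.rpow_natCast, ← Real.rpow_mul he.le]
    norm_num
  set Δ' := max Δ 2 with hΔ'
  have hΔ2 : 2 ≤ Δ' := le_max_right _ _
  obtain ⟨c, hc1, hst⟩ := exists_stage h0 h1 hθ0 hθ1 hθ64 Δ' hΔ2
  obtain ⟨A1, A2, A3, A4, hA1, hA2, hA3, bK, hK⟩ := par_goodK hθ0 hθ1 hΔ2 hc1
  obtain ⟨bA, hA⟩ := par_goodA (A4 := A4) hA1 hA2 hA3 Δ' c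
  obtain ⟨bC, hC⟩ := par_goodC (A4 := A4) hA1 hA2 hA3 hθ0 hθ1 hc1
  obtain ⟨bT, hT⟩ := par_total (A4 := A4) hA1 hA2 hA3 hθ0 hθ1 hc1
  obtain ⟨bL, hL⟩ := par_Lc (A4 := A4) hA1 hA2 hA3 c
  set b := max (max (max bK bA) (max bC bT)) bL with hb
  set P := par b A1 A2 A3 A4 c with hPdef
  have hP : P.Good θ Δ' c :=
    { toGoodA := hA b (by omega), toGoodC := hC b (by omega), toGoodK := hK b (by omega) }
  obtain ⟨C, hC0, hCT⟩ := hT b (by omega)
  refine ⟨C, hC0, ?_⟩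
  intro V _ _ G _ hG hd hdeg m v
  obtain ⟨T, hT1, hTn⟩ := hL b (by omega) (Fintype.card V)
  obtain ⟨ctr, hctr, hsum⟩ := Lev.exists_hier (P := P) hP hθ0 hG T
  have hdeg' : ∀ x, G.degree x ≤ Δ' := fun x => (hdeg x).trans (le_max_left _ _)
  have hS : StageOK G ε θ Δ' c := hst V G hG hd hdeg'
  have hrest : ∀ i, 1 ≤ i → i ≤ T → P.RestCov G ε θ ctr T i := by
    intro i hi
    induction i, hi using Nat.le_induction with
    | base => intro _; exact Lev.rest_one hG hΔ2 hdeg' hP hθ0 hθ1 hc1 hS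
    | succ i hi ih =>
      intro hiT
      have h := ih (by omega)
      exact Lev.rest_step h0 h1 hG hd hΔ2 hdeg' hP hθ0 hθ1 hc1 hS hi (by omega)
        (hctr i hi (by omega)) h
        (Lev.hub_step hG hΔ2 hdeg' hP hθ0 hθ1 hi (by omega) (hctr i hi (by omega)) h)
  have hhub := Lev.hub_step hG hΔ2 hdeg' hP hθ0 hθ1 hT1 le_rfl (hctr T hT1 le_rfl)
    (hrest T hT1 le_rfl)
  refine (Lev.val_le_hier h0 h1 hG hd hP hθ0 hT1 hTn (hctr T hT1 le_rfl) hhub m v).trans ?_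
  refine hsum.trans ?_
  exact mul_le_mul_of_nonneg_right (hCT T) (Nat.cast_nonneg _)

end Pool.MP_10effd_pr
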