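import Pool.Agent.MP_10effd_pr.LL.Basic

/-! Cutting a saturated set into connected saturated pieces. -/

set_option autoImplicit false
set_option linter.unusedSectionVars false

namespace Pool.MP_10effd_pr

open Finset

variable {V : Type} [Fintype V] [DecidableEq V] {G : SimpleGraph V} [DecidableRel G.Adj] {ε : ℝ}

namespace Pieces

/-- Saturated with respect to the cells. -/
def PSat (ctr : V → V) (K : Finset V) : Prop := ∀ x ∈ K, ∀ x', ctr x' = ctr x → x' ∈ K

/-- Connected. -/
def PConn (G : SimpleGraph V) (K : Finset V) : Prop := ∀ x ∈ K, ∀ y ∈ K, conn G K x y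

theorem PConn.of_root {K : Finset V} {r : V} (h : ∀ x ∈ K, conn G K x r) : PConn G K :=
  fun x hx y hy => conn_trans (h x hx) (conn_symm (h y hy))

theorem PSat.sdiff {ctr : V → V} {K P : Finset V} (hK : PSat ctr K) (hP : PSat ctr P) :
    PSat ctr (K \ P) := by
  intro x hx x' hx'
  rw [Finset.mem_sdiff] at hx ⊢
  exact ⟨hK x hx.1 x' hx', fun h => hx.2 (hP x' h x hx'.symm)⟩

theorem PSat.cl (ctr : V → V) (u : V) : PSat ctr (cl ctr u) := by
  intro x hx x' hx'
  rw [mem_cl] at hx ⊢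
  rw [hx', hx]

theorem PSat.cl_subset {ctr : V → V} {K : Finset V} (hK : PSat ctr K) {x : V} (hx : x ∈ K) :
    Pool.MP_10effd_pr.cl ctr (ctr x) ⊆ K := by
  intro w hw
  rw [mem_cl] at hw
  exact hK x hx w hw

/-- Points of the same cell are connected inside the cell. -/
theorem conn_cell (hG : G.Connected) {ctr : V → V} {M : ℕ} (hc : Clustering G ctr M) {x x' : V}
    (h : ctr x' = ctr x) : conn G (Pool.MP_10effd_pr.cl ctr (ctr x)) x' x := by
  have h1 := hc.conn_cl hG _ x rfl
  have h2 := hc.conn_cl hG _ x' rfl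
  rw [h] at h2
  exact conn_trans h2 (conn_symm h1)

theorem PSat.comp (hG : G.Connected) {ctr : V → V} {M : ℕ} (hc : Clustering G ctr M)
    {R : Finset V} (hR : PSat ctr R) (z : V) : PSat ctr (comp G R z) := by
  intro x hx x' hx'
  rw [mem_comp] at hx ⊢
  refine ⟨hR x hx.1 x' hx', conn_trans hx.2 (conn_symm ?_)⟩
  exact conn_mono (hR.cl_subset hx.1) (conn_cell hG hc hx')

theorem PConn.comp (R : Finset V) (z : V) : PConn G (comp G R z) :=
  fun _ hx _ hy => comp_conn hx hy

/-- Every component of the rest is adjacent to the removed set. -/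
theorem comp_adj {X C : Finset V} (hX : PConn G X) (hCX : C ⊆ X) {y : V} (hy : y ∈ C) {z : V}
    (hz : z ∈ X \ C) : ∃ e ∈ comp G (X \ C) z, ∃ c ∈ C, G.Adj e c := by
  by_contra hcon
  push Not at hcon
  have hzX := (Finset.mem_sdiff.mp hz).1
  have : ∀ w, conn G X z w → w ∈ Pool.MP_10effd_pr.comp G (X \ C) z := by
    intro w hw
    induction hw with
    | refl => exact comp_self hz
    | @tail b c h1 h2 ih2 =>
      have hcC : c ∉ C := fun hcC => hcon b ih2 c hcC h2.1
      have hcR : c ∈ X \ C := Finset.mem_sdiff.mpr ⟨h2.2.2, hcC⟩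
      rw [mem_comp] at ih2 ⊢
      exact ⟨hcR, Relation.ReflTransGen.tail ih2.2 ⟨h2.1, ih2.1, hcR⟩⟩
  have hyR := comp_subset (this y (hX z hzX y (hCX hy)))
  exact (Finset.mem_sdiff.mp hyR).2 hy

theorem split (hG : G.Connected) {Δ : ℕ} (hdeg : ∀ x, G.degree x ≤ Δ)
    {ctr : V → V} {M : ℕ} (hc : Clustering G ctr M) {ℓ g : ℕ} :
    ∀ (n : ℕ) (K : Finset V), K.card ≤ n → PConn G K → PSat ctr K →
      (∀ x ∈ K, (cl ctr (ctr x)).card ≤ ℓ) → g ≤ K.card → ∀ r ∈ K,
      ∃ P, P ⊆ K ∧ PConn G P ∧ PSat ctr P ∧ g ≤ P.card ∧ P.card ≤ ℓ + Δ * ℓ * g ∧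
        (K \ P = ∅ ∨ (r ∈ K \ P ∧ PConn G (K \ P))) := by
  intro n
  induction n with
  | zero =>
    intro K hK _ _ _ _ r hr
    have : K = ∅ := Finset.card_eq_zero.mp (by omega)
    rw [this] at hr
    simp at hr
  | succ n ih =>
    intro K hKn hK hsat hℓ hg r hr
    set C := cl ctr (ctr r) with hC
    have hCK : C ⊆ K := hsat.cl_subset hr
    have hrC : r ∈ C := mem_cl.mpr rfl
    have hCr : ∀ c ∈ C, conn G C c r := fun c hcC => conn_cell hG hc (mem_cl.mp hcC)
    set R := K \ C with hR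
    have hRsat : PSat ctr R := hsat.sdiff (PSat.cl ctr _)
    by_cases hall : ∀ z ∈ R, (comp G R z).card < g
    · refine ⟨K, Finset.Subset.refl K, hK, hsat, hg, ?_, Or.inl (Finset.sdiff_self K)⟩
      have h1 : K ⊆ C ∪ C.biUnion fun c => (G.neighborFinset c).biUnion fun y =>
          if y ∈ R then comp G R y else ∅ := by
        intro x hx
        rw [Finset.mem_union]
        by_cases hxC : x ∈ C
        · exact Or.inl hxC
        right
        have hxR : x ∈ R := Finset.mem_sdiff.mpr ⟨hx, hxC⟩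
        obtain ⟨e, he, c, hcC, hec⟩ := comp_adj hK hCK hrC hxR
        have heR := comp_subset he
        refine Finset.mem_biUnion.mpr ⟨c, hcC, Finset.mem_biUnion.mpr ⟨e, ?_, ?_⟩⟩
        · rw [SimpleGraph.mem_neighborFinset]
          exact hec.symm
        · rw [if_pos heR, comp_eq he]
          exact comp_self hxR
      have h2 : ∀ c ∈ C, ((G.neighborFinset c).biUnion fun y =>
          if y ∈ R then comp G R y else ∅).card ≤ Δ * g := by
        intro c _
        refine (Finset.card_biUnion_le_card_mul _ _ g ?_).trans ?_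
        · intro y _
          split_ifs with hy
          · exact (hall y hy).le
          · simp
        · exact Nat.mul_le_mul_right g (by
            rw [SimpleGraph.card_neighborFinset_eq_degree]; exact hdeg c)
      calc K.card ≤ _ := Finset.card_le_card h1
        _ ≤ _ := Finset.card_union_le _ _
        _ ≤ ℓ + ℓ * (Δ * g) := by
            apply Nat.add_le_add (hℓ r hr)
            refine (Finset.card_biUnion_le_card_mul _ _ (Δ * g) h2).trans ?_
            exact Nat.mul_le_mul_right _ (hℓ r hr)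
        _ = ℓ + Δ * ℓ * g := by ring
    · push Not at hall
      obtain ⟨z, hz, hzg⟩ := hall
      set E := comp G R z with hE
      have hER : E ⊆ R := comp_subset
      have hEK : E ⊆ K := hER.trans Finset.sdiff_subset
      have hEC : ∀ x ∈ E, x ∉ C := fun x hx => (Finset.mem_sdiff.mp (hER hx)).2
      obtain ⟨r', hr', c, hcC, hrc⟩ := comp_adj hK hCK hrC hz
      have hEn : E.card ≤ n := by
        have : E.card < K.card := Finset.card_lt_card (by
          rw [Finset.ssubset_iff_of_subset hEK]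
          exact ⟨r, hr, fun h => hEC r h hrC⟩)
        omega
      obtain ⟨P, hPE, hPc, hPs, hP1, hP2, hP3⟩ := ih E hEn (PConn.comp R z)
        (hRsat.comp hG hc z) (fun x hx => hℓ x (hEK hx)) hzg r' hr'
      have hCP : C ⊆ K \ P := by
        intro x hx
        exact Finset.mem_sdiff.mpr ⟨hCK hx, fun h => hEC x (hPE h) hx⟩
      refine ⟨P, hPE.trans hEK, hPc, hPs, hP1, hP2, Or.inr ⟨hCP hrC, ?_⟩⟩
      apply PConn.of_root (r := r)
      intro x hx
      obtain ⟨hxK, hxP⟩ := Finset.mem_sdiff.mp hx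
      by_cases hxE : x ∈ E
      · rcases hP3 with h3 | ⟨h3, h4⟩
        · exact absurd (Finset.mem_sdiff.mpr ⟨hxE, hxP⟩) (by rw [h3]; simp)
        · have e1 : conn G (K \ P) x r' :=
            conn_mono (Finset.sdiff_subset_sdiff hEK (Finset.Subset.refl P))
              (h4 x (Finset.mem_sdiff.mpr ⟨hxE, hxP⟩) r' h3)
          have e2 : conn G (K \ P) r' c := Relation.ReflTransGen.single
            ⟨hrc, Finset.mem_sdiff.mpr ⟨hEK hr', (Finset.mem_sdiff.mp h3).2⟩, hCP hcC⟩
          exact conn_trans e1 (conn_trans e2 (conn_mono hCP (hCr c hcC)))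
      · by_cases hxC : x ∈ C
        · exact conn_mono hCP (hCr x hxC)
        · have hxR : x ∈ R := Finset.mem_sdiff.mpr ⟨hxK, hxC⟩
          obtain ⟨e, he, c', hc'C, hec⟩ := comp_adj hK hCK hrC hxR
          have hsub : comp G R x ⊆ K \ P := by
            intro w hw
            refine Finset.mem_sdiff.mpr ⟨Finset.sdiff_subset (comp_subset hw), fun hwP => ?_⟩
            apply hxE
            have h5 := comp_eq hw
            have h6 := comp_eq (hPE hwP)
            rw [hE, ← h6, h5]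
            exact comp_self hxR
          have e1 : conn G (K \ P) x e := conn_mono hsub (comp_conn (comp_self hxR) he)
          have e2 : conn G (K \ P) e c' := Relation.ReflTransGen.single
            ⟨hec, hsub he, hCP hc'C⟩
          exact conn_trans e1 (conn_trans e2 (conn_mono hCP (hCr c' hc'C)))

theorem pieces_conn (hG : G.Connected) {Δ : ℕ} (hdeg : ∀ x, G.degree x ≤ Δ)
    {ctr : V → V} {M : ℕ} (hc : Clustering G ctr M) {ℓ g : ℕ} (hg1 : 1 ≤ g) :
    ∀ (n : ℕ) (K : Finset V), K.card ≤ n → PConn G K → PSat ctr K →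
      (∀ x ∈ K, (cl ctr (ctr x)).card ≤ ℓ) → g ≤ K.card →
      ∃ PP : Finset (Finset V),
        (∀ P ∈ PP, P ⊆ K ∧ PConn G P ∧ PSat ctr P ∧ g ≤ P.card ∧
          P.card ≤ g + ℓ + Δ * ℓ * g) ∧
        (∀ P ∈ PP, ∀ Q ∈ PP, P ≠ Q → Disjoint P Q) ∧ K ⊆ PP.biUnion id := by
  intro n
  induction n with
  | zero => intro K hK _ _ _ hg; omega
  | succ n ih =>
    intro K hKn hK hsat hℓ hg
    obtain ⟨r, hr⟩ : K.Nonempty := Finset.card_pos.mp (by omega)
    obtain ⟨P, hPK, hPc, hPs, hP1, hP2, hP3⟩ := split hG hdeg hc K.card K le_rfl hK hsat hℓ hg r hr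
    by_cases hbig : g ≤ (K \ P).card
    · have hne : K \ P ≠ ∅ := by
        intro h
        rw [h] at hbig
        simp at hbig
        omega
      obtain ⟨_, h4⟩ := hP3.resolve_left hne
      have hlt : (K \ P).card ≤ n := by
        rw [Finset.card_sdiff_of_subset hPK]
        omega
      obtain ⟨PP, h5, h6, h7⟩ := ih (K \ P) hlt h4 (hsat.sdiff hPs)
        (fun x hx => hℓ x (Finset.sdiff_subset hx)) hbig
      have hd : ∀ Q ∈ PP, Disjoint P Q := by
        intro Q hQ
        exact Finset.disjoint_of_subset_right (h5 Q hQ).1 Finset.disjoint_sdiff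
      refine ⟨insert P PP, ?_, ?_, ?_⟩
      · intro Q hQ
        rcases Finset.mem_insert.mp hQ with rfl | hQ
        · exact ⟨hPK, hPc, hPs, hP1, by omega⟩
        · obtain ⟨h8, h9⟩ := h5 Q hQ
          exact ⟨h8.trans Finset.sdiff_subset, h9⟩
      · intro Q hQ Q' hQ' hne'
        rcases Finset.mem_insert.mp hQ with e1 | e1
        · rcases Finset.mem_insert.mp hQ' with e2 | e2
          · exact absurd (e1.trans e2.symm) hne'
          · rw [e1]; exact hd Q' e2
        · rcases Finset.mem_insert.mp hQ' with e2 | e2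
          · rw [e2]; exact (hd Q e1).symm
          · exact h6 Q e1 Q' e2 hne'
      · intro x hx
        rw [Finset.biUnion_insert, Finset.mem_union]
        by_cases hxP : x ∈ P
        · exact Or.inl hxP
        · exact Or.inr (h7 (Finset.mem_sdiff.mpr ⟨hx, hxP⟩))
    · refine ⟨{K}, ?_, ?_, ?_⟩
      · intro Q hQ
        rw [Finset.mem_singleton] at hQ
        subst hQ
        refine ⟨Finset.Subset.refl _, hK, hsat, hg, ?_⟩
        have := Finset.card_sdiff_add_card_eq_card hPK
        omega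
      · intro Q hQ Q' hQ' hne'
        rw [Finset.mem_singleton] at hQ hQ'
        exact absurd (hQ.trans hQ'.symm) hne'
      · simp

end Pieces

/-- Partition of a saturated set into connected saturated pieces: a piece is either a whole
component with fewer than `g` vertices, or has between `g` and `g + ℓ + Δ ℓ g` vertices. -/
theorem exists_pieces (hG : G.Connected) {Δ : ℕ} (hdeg : ∀ x, G.degree x ≤ Δ)
    {ctr : V → V} {M : ℕ} (hc : Clustering G ctr M) {J : Finset V}
    (hsat : ∀ x ∈ J, ∀ x', ctr x' = ctr x → x' ∈ J) {ℓ g : ℕ}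
    (hℓ : ∀ x ∈ J, (cl ctr (ctr x)).card ≤ ℓ) (hg : 1 ≤ g) :
    ∃ PP : Finset (Finset V),
      (∀ P ∈ PP, P.Nonempty ∧ P ⊆ J ∧ (∀ x ∈ P, ∀ y ∈ P, conn G P x y) ∧
        (∀ x ∈ P, ∀ x', ctr x' = ctr x → x' ∈ P) ∧
        ((∀ x ∈ P, comp G J x = P ∧ P.card < g) ∨
          (g ≤ P.card ∧ P.card ≤ g + ℓ + Δ * ℓ * g))) ∧
      (∀ P ∈ PP, ∀ Q ∈ PP, P ≠ Q → Disjoint P Q) ∧
      J ⊆ PP.biUnion id := by
  classical
  have hJs : Pieces.PSat ctr J := hsat
  have key : ∀ z ∈ J, ∃ PP : Finset (Finset V),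
      (∀ P ∈ PP, P.Nonempty ∧ P ⊆ comp G J z ∧ (∀ x ∈ P, ∀ y ∈ P, conn G P x y) ∧
        (∀ x ∈ P, ∀ x', ctr x' = ctr x → x' ∈ P) ∧
        ((∀ x ∈ P, comp G J x = P ∧ P.card < g) ∨
          (g ≤ P.card ∧ P.card ≤ g + ℓ + Δ * ℓ * g))) ∧
      (∀ P ∈ PP, ∀ Q ∈ PP, P ≠ Q → Disjoint P Q) ∧
      comp G J z ⊆ PP.biUnion id := by
    intro z hz
    by_cases hb : g ≤ (comp G J z).card
    · obtain ⟨PP, h1, h2, h3⟩ := Pieces.pieces_conn hG hdeg hc (ℓ := ℓ) hg _ (comp G J z) le_rfl
        (Pieces.PConn.comp J z) (hJs.comp hG hc z) (fun x hx => hℓ x (comp_subset hx)) hb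
      refine ⟨PP, ?_, h2, h3⟩
      intro P hP
      obtain ⟨a1, a2, a3, a4, a5⟩ := h1 P hP
      exact ⟨Finset.card_pos.mp (by omega), a1, a2, a3, Or.inr ⟨a4, a5⟩⟩
    · refine ⟨{comp G J z}, ?_, ?_, ?_⟩
      · intro P hP
        rw [Finset.mem_singleton] at hP
        subst hP
        refine ⟨⟨z, comp_self hz⟩, Finset.Subset.refl _, Pieces.PConn.comp J z,
          hJs.comp hG hc z, Or.inl ?_⟩
        intro x hx
        exact ⟨comp_eq hx, by omega⟩
      · intro Q hQ Q' hQ' hne'
        rw [Finset.mem_singleton] at hQ hQ'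
        exact absurd (hQ.trans hQ'.symm) hne'
      · simp
  -- one family for each component
  let f : Finset V → Finset (Finset V) := fun K =>
    if h : ∃ z ∈ J, comp G J z = K then (key h.choose h.choose_spec.1).choose else ∅
  have hf : ∀ z ∈ J, (∀ P ∈ f (comp G J z), P.Nonempty ∧ P ⊆ comp G J z ∧
        (∀ x ∈ P, ∀ y ∈ P, conn G P x y) ∧
        (∀ x ∈ P, ∀ x', ctr x' = ctr x → x' ∈ P) ∧
        ((∀ x ∈ P, comp G J x = P ∧ P.card < g) ∨
          (g ≤ P.card ∧ P.card ≤ g + ℓ + Δ * ℓ * g))) ∧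
      (∀ P ∈ f (comp G J z), ∀ Q ∈ f (comp G J z), P ≠ Q → Disjoint P Q) ∧
      comp G J z ⊆ (f (comp G J z)).biUnion id := by
    intro z hz
    have h : ∃ z' ∈ J, comp G J z' = comp G J z := ⟨z, hz, rfl⟩
    have e : f (comp G J z) = (key h.choose h.choose_spec.1).choose := dif_pos h
    have := (key h.choose h.choose_spec.1).choose_spec
    rw [← e, h.choose_spec.2] at this
    exact this
  refine ⟨J.biUnion fun z => f (comp G J z), ?_, ?_, ?_⟩
  · intro P hP
    obtain ⟨z, hz, hP⟩ := Finset.mem_biUnion.mp hP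
    obtain ⟨a1, a2, a3⟩ := (hf z hz).1 P hP
    exact ⟨a1, a2.trans comp_subset, a3⟩
  · intro P hP Q hQ hne
    obtain ⟨z, hz, hP⟩ := Finset.mem_biUnion.mp hP
    obtain ⟨w, hw, hQ⟩ := Finset.mem_biUnion.mp hQ
    by_cases hzw : comp G J z = comp G J w
    · rw [← hzw] at hQ
      exact (hf z hz).2.1 P hP Q hQ hne
    · rw [Finset.disjoint_left]
      intro x hx hx'
      apply hzw
      have h1 := comp_eq (((hf z hz).1 P hP).2.1 hx)
      have h2 := comp_eq (((hf w hw).1 Q hQ).2.1 hx')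
      rw [← h1, ← h2]
  · intro x hx
    obtain ⟨P, hP, hxP⟩ := Finset.mem_biUnion.mp ((hf x hx).2.2 (comp_self hx))
    exact Finset.mem_biUnion.mpr ⟨P, Finset.mem_biUnion.mpr ⟨x, hx, hP⟩, hxP⟩

end Pool.MP_10effd_pr
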