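import Pool.Agent.MP_10effd_pr.LL.Defs
import Pool.Agent.MP_10effd_pr.LL.Near
import Pool.Agent.MP_10effd_pr.LL.Path

/-! Performing a family of jobs. -/

set_option autoImplicit false
set_option linter.unusedSectionVars false

namespace Pool.MP_10effd_pr

open Finset

variable {V : Type} [Fintype V] [DecidableEq V] {G : SimpleGraph V} [DecidableRel G.Adj] {ε : ℝ}

private theorem sj_conn_of_pathIn {R : Finset V} {k : ℕ} {x y : V} (h : PathIn G R k x y) :
    conn G R x y := by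
  obtain ⟨n, v, _, rfl, rfl, hadj, hR⟩ := h
  have : ∀ i, i ≤ n → conn G R (v 0) (v i) := by
    intro i
    induction i with
    | zero => intro _; exact Relation.ReflTransGen.refl
    | succ i ih =>
      intro hi
      exact Relation.ReflTransGen.tail (ih (by omega))
        ⟨hadj i (by omega), hR i (by omega), hR (i + 1) hi⟩
  exact this n le_rfl

/-- Disjoint sets, each having a point in a ball. -/
private theorem sj_count {PP : Finset (Finset V)}
    (hdisj : ∀ Q ∈ PP, ∀ Q' ∈ PP, Q ≠ Q' → Disjoint Q Q') (x : V) (r : ℕ)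
    (F : Finset {Q // Q ∈ PP}) (hF : ∀ u ∈ F, ∃ y ∈ u.1, G.dist x y ≤ r) :
    F.card ≤ (ball G x r).card := by
  classical
  have : Nonempty V := ⟨x⟩
  choose! g hg using hF
  refine Finset.card_le_card_of_injOn g ?_ ?_
  · intro u hu
    exact mem_ball.2 (hg u hu).2
  · intro u hu u' hu' he
    by_contra hne
    have hd := hdisj u.1 u.2 u'.1 u'.2 (fun h => hne (Subtype.ext h))
    exact Finset.disjoint_left.1 hd (hg u hu).1 (he ▸ (hg u' hu').1)

private theorem sj_en_nonneg {a f : V → ℝ} (ha : ∀ x, 0 ≤ a x) : 0 ≤ en G a f := by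
  unfold en
  refine mul_nonneg (by norm_num) (Finset.sum_nonneg fun x _ => Finset.sum_nonneg fun y _ => ?_)
  exact mul_nonneg (add_nonneg (ha x) (ha y)) (sq_nonneg _)

namespace Lev

variable {P : Lev} {θ : ℝ} {Δ : ℕ} {c : ℝ} {ctr : ℕ → V → V} {T : ℕ}

/-- Performing a family of jobs (pieces `Q ∈ PP` of level `i`), with hubs of level `j`. -/
theorem stage_job (hG : G.Connected) (hΔ : 2 ≤ Δ) (hdeg : ∀ x, G.degree x ≤ Δ)
    (hP : P.Good θ Δ c) (hθ0 : 0 < θ) (hθ1 : θ < 1) (hc1 : 1 ≤ c) (hst : StageOK G ε θ Δ c)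
    {t i j : ℕ} (hi : 1 ≤ i) (hij : i ≤ j) (hjt : j ≤ t) {N Y S : Finset V} {o : V}
    {Z : Finset V} {Rt : V → ℕ → Finset V} {Rf : ℕ → Finset V} (hoY : o ∈ Y)
    (hYN : nb G Y (P.mm t - 1) ⊆ N) (hSY : S ⊆ nb G Y (P.D (t - 1)))
    (hup : P.Up G t j Y o Z Rt Rf) {PP : Finset (Finset V)}
    (hdisj : ∀ Q ∈ PP, ∀ Q' ∈ PP, Q ≠ Q' → Disjoint Q Q')
    (hthin : ∀ Q ∈ PP, ∀ x ∈ Q, (ball G x (16 * P.M i)).card < P.Lc i)
    (hQc : ∀ Q ∈ PP, ∀ x ∈ Q, ∀ y ∈ Q, conn G Q x y)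
    (hQY : ∀ Q ∈ PP, nb G Q (P.mm i + 1) ⊆ nb G Y (P.D (t - 1)))
    {port : Finset V → V} (hport : ∀ Q ∈ PP, port Q ∈ Q) {lam : ℕ} (hlam : 4 ≤ lam)
    (hlamD : lam ≤ P.D j) (hacc : ∀ Q ∈ PP, ∃ z ∈ Z, PathIn G S lam (port Q) z)
    {Tm : Finset V → ℝ} {ν : Finset V → V → ℝ} (hT0 : ∀ Q ∈ PP, 0 ≤ Tm Q)
    (hν0 : ∀ Q ∈ PP, ∀ z, 0 ≤ ν Q z) (hνS : ∀ Q ∈ PP, ∀ z, z ∉ nb G Q (P.mm i + 1) → ν Q z = 0)
    (hν1 : ∀ Q ∈ PP, ∑ z, ν Q z ≤ ((P.Lc i : ℝ) ^ 28)⁻¹)
    (hsess : ∀ Q ∈ PP, Sess G ε N (port Q) Q (Tm Q) (ν Q)) (k : ℕ) :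
    CovN G ε N (P.Lam t) o (PP.biUnion id)
      (c * (1 + P.M i) * ((lam : ℝ) ^ 3 * (3 * lam + 2) *
            ((PP.card : ℝ) * (lam + 1) * (Δ : ℝ) ^ (k + 1)
              + (θ ^ 2) ^ k * ∑ x ∈ N, dec G (θ ^ 2) S x)
          + ∑ l ∈ Finset.Ico j t, P.W G θ l N (Rf l)
          + P.Fl θ i * (P.mm i + 3) *
            ∑ x ∈ N, dec G (θ ^ 4) (PP.biUnion fun Q => nb G Q (P.mm i + 1)) x)
        + (1 + P.eta i) * ∑ Q ∈ PP, Tm Q) := by
  classical
  -- data of the local routes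
  have hloc : ∀ Q : {Q // Q ∈ PP}, ∃ (z : V) (R : Finset V), z ∈ Z ∧ G.dist (port Q.1) z ≤ lam ∧
      R ⊆ S ∧ R.card ≤ lam + 1 ∧ R ⊆ ball G (port Q.1) lam ∧
      ∀ (a f : V → ℝ) (w : ℝ), (∀ v, 0 ≤ a v) → 0 < w → (∀ v ∈ R, w ≤ a v) →
        (f (port Q.1) - f z) ^ 2 ≤ lam / w * en G a f := by
    intro Q
    obtain ⟨z, hz, hp⟩ := hacc Q.1 Q.2
    obtain ⟨R, h1, h2, h3, h4, h5, h6⟩ := hp.res
    exact ⟨z, R, hz, mem_ball.1 (h3 h5), h1, h2, h3, h6⟩
  choose zz RR hzZ hzd hRS hRc hRb hRres using hloc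
  have ht1 : 1 ≤ t := hi.trans (hij.trans hjt)
  have hj1 : 1 ≤ j := hi.trans hij
  have hjt' : j - 1 < t := by omega
  -- routes, weights
  let R : {Q // Q ∈ PP} → ℕ → Finset V := fun Q l =>
    if l = t then nb G Q.1 (P.mm i + 1) else if l = j - 1 then RR Q else Rt (zz Q) l
  let w : ℕ → ℝ := fun l =>
    if l = t then P.Fl θ i else if l = j - 1 then (lam : ℝ) ^ 3 else (P.D (l + 1) : ℝ) ^ 3
  let σ : ℕ → ℕ := fun l =>
    if l = t then P.mm i + 2 else if l = j - 1 then 3 * lam + 1 else 3 * P.D (l + 1) + 1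
  have hRt : ∀ Q, R Q t = nb G Q.1 (P.mm i + 1) := fun Q => if_pos rfl
  have hRj : ∀ Q, R Q (j - 1) = RR Q := fun Q => by
    simp only [R, if_neg hjt'.ne, if_true]
  have hRl : ∀ Q l, j ≤ l → l < t → R Q l = Rt (zz Q) l := fun Q l h1 h2 => by
    simp only [R, if_neg h2.ne, if_neg (show ¬ l = j - 1 by omega)]
  have hwt : w t = P.Fl θ i := if_pos rfl
  have hwj : w (j - 1) = (lam : ℝ) ^ 3 := by
    simp only [w, if_neg hjt'.ne, if_true]
  have hwl : ∀ l, j ≤ l → l < t → w l = (P.D (l + 1) : ℝ) ^ 3 := fun l h1 h2 => by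
    simp only [w, if_neg h2.ne, if_neg (show ¬ l = j - 1 by omega)]
  have hσt : σ t = P.mm i + 2 := if_pos rfl
  have hσj : σ (j - 1) = 3 * lam + 1 := by
    simp only [σ, if_neg hjt'.ne, if_true]
  have hσl : ∀ l, j ≤ l → l < t → σ l = 3 * P.D (l + 1) + 1 := fun l h1 h2 => by
    simp only [σ, if_neg h2.ne, if_neg (show ¬ l = j - 1 by omega)]
  have hLs : ∀ l, l ∈ insert t (Finset.Ico (j - 1) t) → l = t ∨ l = j - 1 ∨ (j ≤ l ∧ l < t) := by
    intro l hl
    rw [Finset.mem_insert, Finset.mem_Ico] at hl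
    omega
  have htLs : t ∈ insert t (Finset.Ico (j - 1) t) := Finset.mem_insert_self _ _
  have hjLs : j - 1 ∈ insert t (Finset.Ico (j - 1) t) := by
    rw [Finset.mem_insert, Finset.mem_Ico]; omega
  have hlLs : ∀ l, j ≤ l → l < t → l ∈ insert t (Finset.Ico (j - 1) t) := by
    intro l h1 h2
    rw [Finset.mem_insert, Finset.mem_Ico]; omega
  -- constants
  have hM := hP.M1 i hi
  have hLcM := hP.LcM i hi
  have hMR : (100 : ℝ) ≤ P.M i := by exact_mod_cast hM
  have hLcR : 2 * (P.M i : ℝ) ≤ P.Lc i := by exact_mod_cast hLcM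
  have hLcpos : (0 : ℝ) < P.Lc i := by linarith
  have hLc1 : (1 : ℝ) ≤ P.Lc i := by linarith
  have hθ32 : θ ^ 32 < 1 := pow_lt_one₀ hθ0.le hθ1 (by norm_num)
  have hLc28 : (P.Lc i : ℝ) ≤ (P.Lc i : ℝ) ^ 28 := le_self_pow₀ hLc1 (by norm_num)
  have hν28 : ((P.Lc i : ℝ) ^ 28)⁻¹ ≤ 1 / (P.M i + 1) := by
    rw [← one_div]
    exact one_div_le_one_div_of_le (by linarith) (by linarith)
  have hνhalf : ((P.Lc i : ℝ) ^ 28)⁻¹ ≤ 1 / 2 := by
    refine hν28.trans (one_div_le_one_div_of_le (by norm_num) (by linarith))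
  have hν28pos : 0 < ((P.Lc i : ℝ) ^ 28)⁻¹ := by positivity
  have hFlpos : 0 < P.Fl θ i := by
    unfold Fl
    exact mul_pos (div_pos (by norm_num) (by linarith)) (by positivity)
  have hlamR : (4 : ℝ) ≤ lam := by exact_mod_cast hlam
  have hDpos : ∀ l, (0 : ℝ) < (P.D (l + 1) : ℝ) := by
    intro l
    have := hP.D1 (l + 1) (by omega)
    exact_mod_cast (by omega : 0 < P.D (l + 1))
  have hRY : ∀ Q : {Q // Q ∈ PP}, ∀ l ∈ insert t (Finset.Ico (j - 1) t),
      R Q l ⊆ nb G Y (P.D (t - 1)) := by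
    intro Q l hl
    rcases hLs l hl with rfl | rfl | ⟨h1, h2⟩
    · rw [hRt]; exact hQY Q.1 Q.2
    · rw [hRj]; exact (hRS Q).trans hSY
    · rw [hRl Q l h1 h2]
      exact (hup.sub _ (hzZ Q) l h1 h2).trans (hup.far l h1 h2)
  have hpow : ∀ a b : ℕ, a ≤ b → ((Δ : ℝ)) ^ a ≤ (Δ : ℝ) ^ b := fun a b hab =>
    pow_le_pow_right₀ (by exact_mod_cast (by omega : 1 ≤ Δ)) hab
  have hcount : ∀ (x : V) (r s : ℕ) (F : Finset {Q // Q ∈ PP}),
      (∀ u ∈ F, ∃ y ∈ u.1, G.dist x y ≤ r) → r + 1 ≤ s → ((F.card : ℕ) : ℝ) ≤ (Δ : ℝ) ^ s := by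
    intro x r s F hF hrs
    have h1 := sj_count hdisj x r F hF
    have h2 := card_ball_le hG hΔ hdeg x r
    calc ((F.card : ℕ) : ℝ) ≤ ((Δ ^ (r + 1) : ℕ) : ℝ) := by exact_mod_cast h1.trans h2
      _ = (Δ : ℝ) ^ (r + 1) := by push_cast; rfl
      _ ≤ _ := hpow _ _ hrs
  have hyp : StageHyp G ε θ Δ N (P.Lam t) o (fun Q : {Q // Q ∈ PP} => port Q.1)
      (fun Q => Q.1) (fun Q => nb G Q.1 (P.mm i + 1)) (fun Q => Tm Q.1) (fun Q => ν Q.1)
      (insert t (Finset.Ico (j - 1) t)) R w σ t (P.mm t - 1 - P.D (t - 1)) (1 / (P.M i : ℝ))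
      (((P.Lc i : ℝ) ^ 28)⁻¹) := by
    refine
      { oN := hYN (subset_nb _ _ hoY)
        L1 := ?_
        τ0 := by positivity
        τ1 := ?_
        νm0 := hν28pos.le
        νm1 := hνhalf
        T0 := fun u => hT0 u.1 u.2
        nu0 := fun u z => hν0 u.1 u.2 z
        nu1 := fun u => hν1 u.1 u.2
        nuS := fun u z hz => hνS u.1 u.2 z hz
        pNu := fun u => subset_nb _ _ (hport u.1 u.2)
        cNu := ?_
        sess := fun u => hsess u.1 u.2
        lFs := htLs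
        NuR := fun u => by rw [hRt]
        w0 := ?_
        flow := ?_
        res := ?_
        far := ?_
        far' := hP.far t ht1
        cnt := ?_ }
    · unfold Lam
      apply one_le_pow₀
      have := hP.LcM t ht1
      have := hP.M1 t ht1
      exact_mod_cast (by omega : 1 ≤ P.Lc t)
    · rw [div_le_one (by linarith)]; linarith
    · intro u z hz
      obtain ⟨y, hy, hd⟩ := mem_nb.1 hz
      have h1 := sj_conn_of_pathIn (pathIn_of_dist hG (U := u.1) (Or.inr hy) hd)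
      exact conn_trans h1 (conn_mono (subset_nb _ _) (hQc u.1 u.2 y hy _ (hport u.1 u.2)))
    · intro l hl
      rcases hLs l hl with rfl | rfl | ⟨h1, h2⟩
      · rw [hwt]; exact hFlpos
      · rw [hwj]; positivity
      · rw [hwl l h1 h2]
        exact pow_pos (hDpos l) 3
    · intro x
      rw [hwt]
      have e1 : (1 - θ ^ 32) / 2 * P.Fl θ i = ((P.Lc i : ℝ) ^ 27)⁻¹ := by
        unfold Fl
        have : (1 - θ ^ 32) ≠ 0 := by linarith
        field_simp
      rw [e1]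
      set F := Finset.univ.filter (fun u : {Q // Q ∈ PP} => x ∈ nb G u.1 (P.mm i + 1)) with hF
      rcases F.eq_empty_or_nonempty with hE | ⟨u0, hu0⟩
      · rw [hE, Finset.sum_empty, mul_zero]; positivity
      · have hcard : F.card ≤ P.Lc i := by
          have h1 : F.card ≤ (ball G x (P.mm i + 1)).card := by
            apply sj_count hdisj
            intro u hu
            rw [hF, Finset.mem_filter] at hu
            exact mem_nb.1 hu.2
          rw [hF, Finset.mem_filter] at hu0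
          obtain ⟨y, hy, hd⟩ := mem_nb.1 hu0.2
          have h2 : ball G x (P.mm i + 1) ⊆ ball G y (16 * P.M i) := by
            apply ball_subset_ball hG
            have := hP.mm8 i hi
            omega
          have h3 := hthin u0.1 u0.2 y hy
          exact h1.trans ((Finset.card_le_card h2).trans h3.le)
        have h2 : ∑ u ∈ F, ∑ z, ν u.1 z ≤ (P.Lc i : ℝ) * ((P.Lc i : ℝ) ^ 28)⁻¹ := by
          calc ∑ u ∈ F, ∑ z, ν u.1 z ≤ ∑ _u ∈ F, ((P.Lc i : ℝ) ^ 28)⁻¹ :=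
                Finset.sum_le_sum fun u _ => hν1 u.1 u.2
            _ = (F.card : ℝ) * ((P.Lc i : ℝ) ^ 28)⁻¹ := by
                rw [Finset.sum_const, nsmul_eq_mul]
            _ ≤ _ := by
                apply mul_le_mul_of_nonneg_right _ hν28pos.le
                exact_mod_cast hcard
        have h3 : (P.Lc i : ℝ) * ((P.Lc i : ℝ) ^ 28)⁻¹ = ((P.Lc i : ℝ) ^ 27)⁻¹ := by
          field_simp
        rw [h3] at h2
        have h4 : 0 ≤ ∑ u ∈ F, ∑ z, ν u.1 z :=
          Finset.sum_nonneg fun u _ => Finset.sum_nonneg fun z _ => hν0 u.1 u.2 z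
        calc 1 / (P.M i : ℝ) * ∑ u ∈ F, ∑ z, ν u.1 z ≤ 1 * ∑ u ∈ F, ∑ z, ν u.1 z := by
              apply mul_le_mul_of_nonneg_right _ h4
              rw [div_le_one (by linarith)]; linarith
          _ ≤ _ := by rw [one_mul]; exact h2
    · intro u a f ha hw
      have hen := sj_en_nonneg (G := G) (f := f) ha
      have h1 : (f (port u.1) - f (zz u)) ^ 2 ≤ (lam : ℝ) / (lam : ℝ) ^ 3 * en G a f := by
        apply hRres u a f _ ha (by positivity)
        intro v hv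
        have := hw (j - 1) hjLs v (by rw [hRj]; exact hv)
        rwa [hwj] at this
      have h2 : |f (zz u) - f o| ≤ (∑ l ∈ Finset.Ico j t, 1 / (P.D (l + 1) : ℝ)) *
          Real.sqrt (en G a f) := by
        apply hup.res _ (hzZ u) a f ha
        intro l h1 h2 x hx
        have := hw l (hlLs l h1 h2) x (by rw [hRl u l h1 h2]; exact hx)
        rwa [hwl l h1 h2] at this
      have h3 : ∑ l ∈ Finset.Ico j t, 1 / (P.D (l + 1) : ℝ) ≤ 1 / 4 := by
        refine le_trans ?_ (hP.Dsum t)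
        apply Finset.sum_le_sum_of_subset_of_nonneg
        · intro l hl
          rw [Finset.mem_Ico] at hl
          rw [Finset.mem_range]; omega
        · intro l _ _
          have := hDpos l
          positivity
      have hsq : Real.sqrt (en G a f) ^ 2 = en G a f := Real.sq_sqrt hen
      have hs0 : 0 ≤ Real.sqrt (en G a f) := Real.sqrt_nonneg _
      have h4 : |f (port u.1) - f (zz u)| ≤ 1 / 4 * Real.sqrt (en G a f) := by
        apply abs_le_of_sq_le_sq _ (by positivity)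
        refine h1.trans ?_
        rw [mul_pow, hsq]
        apply mul_le_mul_of_nonneg_right _ hen
        rw [div_le_iff₀ (by positivity)]
        nlinarith [mul_nonneg (sub_nonneg.2 hlamR) (sub_nonneg.2 hlamR),
          mul_nonneg (mul_nonneg (sub_nonneg.2 hlamR) (sub_nonneg.2 hlamR)) (sub_nonneg.2 hlamR)]
      have h5 : |f (zz u) - f o| ≤ 1 / 4 * Real.sqrt (en G a f) :=
        h2.trans (mul_le_mul_of_nonneg_right h3 hs0)
      have h6 : |f (port u.1) - f o| ≤ 1 / 2 * Real.sqrt (en G a f) := by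
        calc |f (port u.1) - f o| = |(f (port u.1) - f (zz u)) + (f (zz u) - f o)| := by
              congr 1; ring
          _ ≤ _ := abs_add_le _ _
          _ ≤ _ := by linarith
      calc (f (port u.1) - f o) ^ 2 = |f (port u.1) - f o| ^ 2 := (sq_abs _).symm
        _ ≤ (1 / 2 * Real.sqrt (en G a f)) ^ 2 :=
            pow_le_pow_left₀ (abs_nonneg _) h6 2
        _ = 1 / 4 * en G a f := by rw [mul_pow, hsq]; norm_num
        _ ≤ en G a f := by linarith
    · intro u l hl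
      refine subset_trans (nb_mono (hRY u l hl) le_rfl) ?_
      refine subset_trans (nb_nb_subset hG _ _ _) ?_
      refine subset_trans (nb_mono (le_refl Y) ?_) hYN
      have := hP.Dmm t ht1
      omega
    · intro l hl x k'
      rcases hLs l hl with rfl | rfl | ⟨h1, h2⟩
      · rw [hσt]
        apply hcount x (P.mm i + 1 + k') _ _ _ (by omega)
        intro u hu
        rw [Finset.mem_filter, hRt] at hu
        exact mem_nb.1 (nb_nb_subset hG _ _ _ hu.2)
      · rw [hσj]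
        apply hcount x (k' + lam) _ _ _ (by omega)
        intro u hu
        rw [Finset.mem_filter, hRj] at hu
        obtain ⟨y, hy, hd⟩ := mem_nb.1 hu.2
        have h3 := mem_ball.1 (hRb u hy)
        refine ⟨port u.1, hport u.1 u.2, ?_⟩
        have h4 := hG.dist_triangle (u := x) (v := y) (w := port u.1)
        rw [SimpleGraph.dist_comm (u := y)] at h4
        omega
      · rw [hσl l h1 h2]
        apply hcount x (k' + 3 * P.D (l + 1)) _ _ _ (by omega)
        intro u hu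
        rw [Finset.mem_filter, hRl u l h1 h2] at hu
        obtain ⟨y, hy, hd⟩ := mem_nb.1 hu.2
        have h3 := hup.spread _ (hzZ u) l h1 h2 y hy
        refine ⟨port u.1, hport u.1 u.2, ?_⟩
        have h4 := hG.dist_triangle (u := x) (v := y) (w := port u.1)
        have h5 := hG.dist_triangle (u := y) (v := zz u) (w := port u.1)
        have h6 := hzd u
        rw [SimpleGraph.dist_comm (u := y) (v := zz u),
          SimpleGraph.dist_comm (u := zz u) (v := port u.1)] at h5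
        omega
  have main := hst N (P.Lam t) o {Q // Q ∈ PP} _ _ _ _ _ _ _ _ _ _ _ _ _ hyp
  have hA : PP.biUnion id ⊆ Finset.univ.biUnion (fun Q : {Q // Q ∈ PP} => Q.1) := by
    intro x hx
    obtain ⟨Q, hQ, hxQ⟩ := Finset.mem_biUnion.1 hx
    exact Finset.mem_biUnion.2 ⟨⟨Q, hQ⟩, Finset.mem_univ _, hxQ⟩
  refine (main.subset hA).mono ?_
  have hθ4 : (θ ^ 2) ^ 2 = θ ^ 4 := by ring
  have hθ40 : (0 : ℝ) ≤ θ ^ 4 := by positivity
  have hθ41 : θ ^ 4 ≤ 1 := pow_le_one₀ hθ0.le hθ1.le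
  have hθ21 : θ ^ 2 < 1 := pow_lt_one₀ hθ0.le hθ1 (by norm_num)
  -- the three parts of the sum over the routes
  have p1 : w t * (σ t + 1) * ∑ x ∈ N, dec G (θ ^ 4) (Finset.univ.biUnion fun u => R u t) x
      ≤ P.Fl θ i * (P.mm i + 3) *
            ∑ x ∈ N, dec G (θ ^ 4) (PP.biUnion fun Q => nb G Q (P.mm i + 1)) x := by
    rw [hwt, hσt]
    have e1 : (((P.mm i + 2 : ℕ) : ℝ) + 1) = (P.mm i : ℝ) + 3 := by push_cast; ring
    rw [e1]
    apply mul_le_mul_of_nonneg_left _ (by positivity)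
    apply Finset.sum_le_sum
    intro x _
    apply dec_mono hθ40 hθ41
    intro y hy
    obtain ⟨u, _, hu⟩ := Finset.mem_biUnion.1 hy
    rw [hRt] at hu
    exact Finset.mem_biUnion.2 ⟨u.1, u.2, hu⟩
  have p2 : w (j - 1) * (σ (j - 1) + 1) *
      ∑ x ∈ N, dec G (θ ^ 4) (Finset.univ.biUnion fun u => R u (j - 1)) x
      ≤ (lam : ℝ) ^ 3 * (3 * lam + 2) *
            ((PP.card : ℝ) * (lam + 1) * (Δ : ℝ) ^ (k + 1)
              + (θ ^ 2) ^ k * ∑ x ∈ N, dec G (θ ^ 2) S x) := by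
    rw [hwj, hσj]
    have e1 : (((3 * lam + 1 : ℕ) : ℝ) + 1) = 3 * (lam : ℝ) + 2 := by push_cast; ring
    rw [e1]
    apply mul_le_mul_of_nonneg_left _ (by positivity)
    have hsub : (Finset.univ.biUnion fun u => R u (j - 1)) ⊆ S := by
      intro y hy
      obtain ⟨u, _, hu⟩ := Finset.mem_biUnion.1 hy
      rw [hRj] at hu
      exact hRS u hu
    have h1 := near_far hG hΔ hdeg (r := θ ^ 2) (by positivity) hθ21 (N := N) hsub k
    rw [hθ4] at h1
    refine h1.trans ?_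
    apply add_le_add_left
    apply mul_le_mul_of_nonneg_right _ (by positivity)
    have h2 : (Finset.univ.biUnion fun u => R u (j - 1)).card ≤ PP.card * (lam + 1) := by
      refine Finset.card_biUnion_le.trans ?_
      calc ∑ u : {Q // Q ∈ PP}, (R u (j - 1)).card ≤ ∑ _u : {Q // Q ∈ PP}, (lam + 1) :=
            Finset.sum_le_sum fun u _ => by rw [hRj]; exact hRc u
        _ = PP.card * (lam + 1) := by
            rw [Finset.sum_const, smul_eq_mul, Finset.card_univ, Fintype.card_coe]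
    exact_mod_cast h2
  have p3 : ∀ l ∈ Finset.Ico j t, w l * (σ l + 1) *
      ∑ x ∈ N, dec G (θ ^ 4) (Finset.univ.biUnion fun u => R u l) x ≤ P.W G θ l N (Rf l) := by
    intro l hl
    rw [Finset.mem_Ico] at hl
    rw [hwl l hl.1 hl.2, hσl l hl.1 hl.2]
    unfold W Wc
    have e1 : (((3 * P.D (l + 1) + 1 : ℕ) : ℝ) + 1) = 3 * (P.D (l + 1) : ℝ) + 2 := by
      push_cast; ring
    rw [e1]
    have := hDpos l
    apply mul_le_mul_of_nonneg_left _ (by positivity)
    apply Finset.sum_le_sum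
    intro x _
    apply dec_mono hθ40 hθ41
    intro y hy
    obtain ⟨u, _, hu⟩ := Finset.mem_biUnion.1 hy
    rw [hRl u l hl.1 hl.2] at hu
    exact hup.sub _ (hzZ u) l hl.1 hl.2 hu
  have hsum : ∑ l ∈ insert t (Finset.Ico (j - 1) t), w l * (σ l + 1) *
      ∑ x ∈ N, dec G (θ ^ 4) (Finset.univ.biUnion fun u => R u l) x ≤
      (lam : ℝ) ^ 3 * (3 * lam + 2) *
            ((PP.card : ℝ) * (lam + 1) * (Δ : ℝ) ^ (k + 1)
              + (θ ^ 2) ^ k * ∑ x ∈ N, dec G (θ ^ 2) S x)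
          + ∑ l ∈ Finset.Ico j t, P.W G θ l N (Rf l)
          + P.Fl θ i * (P.mm i + 3) *
            ∑ x ∈ N, dec G (θ ^ 4) (PP.biUnion fun Q => nb G Q (P.mm i + 1)) x := by
    rw [Finset.sum_insert (by simp), Finset.sum_eq_sum_Ico_succ_bot hjt',
      show j - 1 + 1 = j by omega]
    have := Finset.sum_le_sum p3
    linarith
  have hTsum : ∑ u : {Q // Q ∈ PP}, Tm u.1 = ∑ Q ∈ PP, Tm Q := Finset.sum_coe_sort PP Tm
  have hT0' : 0 ≤ ∑ Q ∈ PP, Tm Q := Finset.sum_nonneg fun Q hQ => hT0 Q hQ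
  have hcoef : 17 * (1 / (P.M i : ℝ)) + 1 / (1 - ((P.Lc i : ℝ) ^ 28)⁻¹) ≤ 1 + P.eta i := by
    have h1 : 1 / (1 - ((P.Lc i : ℝ) ^ 28)⁻¹) ≤ 1 / (1 - 1 / (P.M i + 1)) := by
      apply one_div_le_one_div_of_le
      · rw [sub_pos, div_lt_one (by linarith)]; linarith
      · linarith
    have h2 : 1 / (1 - 1 / ((P.M i : ℝ) + 1)) = 1 + 1 / (P.M i : ℝ) := by
      have h3 : (P.M i : ℝ) ≠ 0 := by linarith
      have h4 : (P.M i : ℝ) + 1 ≠ 0 := by linarith
      have h5 : 1 - 1 / ((P.M i : ℝ) + 1) = (P.M i : ℝ) / ((P.M i : ℝ) + 1) := by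
        field_simp; ring
      rw [h5, one_div_div]
      field_simp
    have h6 : P.eta i = 17 * (1 / (P.M i : ℝ)) + 1 / (P.M i : ℝ) := by
      unfold eta; ring
    rw [h6]
    linarith
  have hinv : (1 + 1 / (1 / (P.M i : ℝ))) = 1 + P.M i := by rw [one_div_one_div]
  rw [hinv, hTsum]
  apply add_le_add
  · apply mul_le_mul_of_nonneg_left hsum
    have : (0 : ℝ) ≤ P.M i := by linarith
    positivity
  · exact mul_le_mul_of_nonneg_right hcoef hT0'

end Lev

end Pool.MP_10effd_pr
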