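import Pool.Agent.MP_10effd_pr.LL.Level
import Pool.Agent.MP_10effd_pr.LL.Pieces
import Pool.Agent.MP_10effd_pr.LL.Jobs
import Pool.Agent.MP_10effd_pr.LL.Budget
import Pool.Agent.MP_10effd_pr.LL.StageVert
import Pool.Agent.MP_10effd_pr.LL.StageJob
import Pool.Agent.MP_10effd_pr.LL.Down

set_option autoImplicit false
set_option linter.unusedSectionVars false

namespace Pool.MP_10effd_pr

open Finset

variable {V : Type} [Fintype V] [DecidableEq V] {G : SimpleGraph V} [DecidableRel G.Adj] {ε : ℝ}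

namespace Lev

variable {P : Lev} {θ : ℝ} {Δ : ℕ} {c : ℝ} {ctr : ℕ → V → V} {T : ℕ}

/-- The numerical accounting of one level. -/
theorem step_account {c m1 A B Cl F η β v g Lc E nsp nm nl nz Di Dn la Bud tl tl' Sdec Udec Wi Wup
    F2 F3 Lm Ll LU LUF Lmain Csp tti ttn cci ccn i10 n10 X0 X1 X2 Y0 Y1 Y2 th : ℝ}
    (hc : 1 ≤ c) (hm1 : 1 ≤ m1) (hA : 0 ≤ A) (hB : 0 ≤ B) (hCl : 0 ≤ Cl) (hF : 0 ≤ F)
    (hη : 0 ≤ η) (hβ : 0 < β)
    (hE0 : 0 ≤ E) (hnm : 0 ≤ nm) (hnl : 0 ≤ nl) (hnz : 0 ≤ nz)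
    (hDi : 0 ≤ Di) (hDn : 0 ≤ Dn) (hla : 0 ≤ la)
    (hBud : 0 ≤ Bud) (htl : 0 ≤ tl) (hSdec : 0 ≤ Sdec) (hUdec : 0 ≤ Udec)
    (hX0 : 0 ≤ X0) (hX1 : 0 ≤ X1) (hX2 : 0 ≤ X2) (hY0 : 0 ≤ Y0) (hY1 : 0 ≤ Y1) (hY2 : 0 ≤ Y2)
    (hCsp : 0 ≤ Csp) (htti : 0 ≤ tti) (hcci : 0 ≤ cci)
    (e1 : 2 * c * A * (Di + 1) * X0 ≤ Csp / 2) (e1' : E ≤ nsp)
    (e2 : 2 * c * A * Y0 ≤ β / 32) (e2' : Udec ≤ Bud + tl)
    (e3 : c * m1 * Cl * (la + 1) * X1 ≤ β / 32 * v) (e3' : (nm + nl) * v ≤ Bud)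
    (hv : 0 ≤ v)
    (e4 : c * m1 * Cl * Y1 ≤ β / 32)
    (e5 : 2 * c * m1 * F ≤ β / 32) (e5a : F2 ≤ Udec) (e5b : F3 ≤ Udec)
    (e6 : Wi ≤ B * (nz * (Dn + 1) * X2 + Y2 * Sdec)) (e6' : nz * Lc ≤ Bud)
    (e6'' : ccn * B * (Dn + 1) * X2 ≤ β / 32 * Lc)
    (e7 : c * m1 * B * (Dn + 1) * X2 ≤ β / 32 * g) (e7' : nl * g ≤ Bud)
    (e8 : ccn * B * Y2 ≤ n10)
    (e9 : 1 + η ≤ β / 32 * v)
    (e10 : i10 ≤ β / 32)
    (e11 : tl' ≤ th * Bud + tl) (e11' : tti * th ≤ β / 32)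
    (e12 : LUF + (1 + η) * (Lm + Ll) ≤ Lmain) (e12' : LU ≤ LUF)
    (ett : ttn = tti + 1 / (m1 - 1)) (hm2 : 1 < m1) (hβM : β ≤ 1 / (m1 - 1))
    (ecc : ccn = cci + 2 * c + 2 * c * m1) :
    (2 * c * (A * (E * (Di + 1) * X0 + Y0 * Udec) + (Wi + Wup)))
      + (c * m1 * (Cl * (nm * (la + 1) * X1 + Y1 * Udec) + (Wi + Wup) + F * F2)
          + (1 + η) * (nm + Lm))
      + (c * m1 * (B * (nl * (Dn + 1) * X2 + Y2 * Sdec) + Wup + F * F3)
          + (1 + η) * (nl + Ll))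
      + (LU + tti * tl' + i10 * Udec + cci * (Wi + Wup))
    ≤ (Lmain + (β * Bud + Csp * nsp) / 2) + ttn * tl + n10 * Sdec + ccn * Wup := by
  have hc0 : 0 ≤ c := by linarith
  have hcm : 0 ≤ c * m1 := mul_nonneg hc0 (by linarith)
  -- special vertices
  have s1 : 2 * c * (A * (E * (Di + 1) * X0)) ≤ Csp * nsp / 2 := by
    have h1 : 2 * c * (A * (E * (Di + 1) * X0)) = (2 * c * A * (Di + 1) * X0) * E := by ring
    rw [h1]
    calc (2 * c * A * (Di + 1) * X0) * E ≤ (Csp / 2) * E := mul_le_mul_of_nonneg_right e1 hE0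
      _ ≤ (Csp / 2) * nsp := mul_le_mul_of_nonneg_left e1' (by linarith)
      _ = Csp * nsp / 2 := by ring
  have s2 : 2 * c * (A * (Y0 * Udec)) ≤ β / 32 * Udec := by
    have h1 : 2 * c * (A * (Y0 * Udec)) = (2 * c * A * Y0) * Udec := by ring
    rw [h1]
    exact mul_le_mul_of_nonneg_right e2 hUdec
  have hnmv : nm * v ≤ Bud := by
    have h1 : (nm + nl) * v = nm * v + nl * v := by ring
    have h2 := mul_nonneg hnl hv
    linarith
  have s3 : c * m1 * (Cl * (nm * (la + 1) * X1)) ≤ β / 32 * Bud := by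
    have h1 : c * m1 * (Cl * (nm * (la + 1) * X1)) = (c * m1 * Cl * (la + 1) * X1) * nm := by ring
    rw [h1]
    calc (c * m1 * Cl * (la + 1) * X1) * nm ≤ (β / 32 * v) * nm :=
          mul_le_mul_of_nonneg_right e3 hnm
      _ = β / 32 * (nm * v) := by ring
      _ ≤ β / 32 * Bud := mul_le_mul_of_nonneg_left hnmv (by linarith)
  have s4 : c * m1 * (Cl * (Y1 * Udec)) ≤ β / 32 * Udec := by
    have h1 : c * m1 * (Cl * (Y1 * Udec)) = (c * m1 * Cl * Y1) * Udec := by ring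
    rw [h1]
    exact mul_le_mul_of_nonneg_right e4 hUdec
  have s5 : c * m1 * (F * F2) + c * m1 * (F * F3) ≤ β / 32 * Udec := by
    have h0 : 0 ≤ c * m1 * F := mul_nonneg hcm hF
    have h2 : c * m1 * (F * F2) ≤ c * m1 * F * Udec := by
      have := mul_le_mul_of_nonneg_left e5a h0
      linarith
    have h3 : c * m1 * (F * F3) ≤ c * m1 * F * Udec := by
      have := mul_le_mul_of_nonneg_left e5b h0
      linarith
    have h4 := mul_le_mul_of_nonneg_right e5 hUdec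
    have h5 : 2 * c * m1 * F * Udec = c * m1 * F * Udec + c * m1 * F * Udec := by ring
    linarith
  -- the hub routes
  have hcoef : 0 ≤ cci + 2 * c + c * m1 := by linarith
  have s6 : (cci + 2 * c + c * m1) * Wi
      ≤ β / 32 * Bud + (ccn - c * m1) * B * Y2 * Sdec := by
    have h1 := mul_le_mul_of_nonneg_left e6 hcoef
    have h2 : cci + 2 * c + c * m1 = ccn - c * m1 := by rw [ecc]; ring
    have h3 : (ccn - c * m1) * (B * (nz * (Dn + 1) * X2 + Y2 * Sdec))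
        = (ccn * B * (Dn + 1) * X2) * nz - (c * m1 * B * (Dn + 1) * X2) * nz
          + (ccn - c * m1) * B * Y2 * Sdec := by ring
    have h4 : (ccn * B * (Dn + 1) * X2) * nz ≤ β / 32 * Bud := by
      calc (ccn * B * (Dn + 1) * X2) * nz ≤ (β / 32 * Lc) * nz :=
            mul_le_mul_of_nonneg_right e6'' hnz
        _ = β / 32 * (nz * Lc) := by ring
        _ ≤ β / 32 * Bud := mul_le_mul_of_nonneg_left e6' (by linarith)
    have h5 : 0 ≤ (c * m1 * B * (Dn + 1) * X2) * nz := by positivity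
    rw [h2] at h1 ⊢
    linarith
  have s7 : c * m1 * (B * (nl * (Dn + 1) * X2)) ≤ β / 32 * Bud := by
    have h1 : c * m1 * (B * (nl * (Dn + 1) * X2)) = (c * m1 * B * (Dn + 1) * X2) * nl := by ring
    rw [h1]
    calc (c * m1 * B * (Dn + 1) * X2) * nl ≤ (β / 32 * g) * nl :=
          mul_le_mul_of_nonneg_right e7 hnl
      _ = β / 32 * (nl * g) := by ring
      _ ≤ β / 32 * Bud := mul_le_mul_of_nonneg_left e7' (by linarith)
  have s8 : c * m1 * (B * (Y2 * Sdec)) + (ccn - c * m1) * B * Y2 * Sdec ≤ n10 * Sdec := by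
    have h1 : c * m1 * (B * (Y2 * Sdec)) + (ccn - c * m1) * B * Y2 * Sdec
        = (ccn * B * Y2) * Sdec := by ring
    rw [h1]
    exact mul_le_mul_of_nonneg_right e8 hSdec
  have s9 : (1 + η) * (nm + nl) ≤ β / 32 * Bud := by
    calc (1 + η) * (nm + nl) ≤ (β / 32 * v) * (nm + nl) :=
          mul_le_mul_of_nonneg_right e9 (by linarith)
      _ = β / 32 * ((nm + nl) * v) := by ring
      _ ≤ β / 32 * Bud := mul_le_mul_of_nonneg_left e3' (by linarith)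
  have s10 : i10 * Udec ≤ β / 32 * Udec := mul_le_mul_of_nonneg_right e10 hUdec
  have s11 : tti * tl' ≤ β / 32 * Bud + tti * tl := by
    have h1 := mul_le_mul_of_nonneg_left e11 htti
    have h2 := mul_le_mul_of_nonneg_right e11' hBud
    have h3 : tti * (th * Bud + tl) = tti * th * Bud + tti * tl := by ring
    linarith
  have s12 : β / 32 * Udec ≤ β / 32 * Bud + β / 32 * tl := by
    have := mul_le_mul_of_nonneg_left e2' (show 0 ≤ β / 32 by linarith)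
    linarith
  have s13 : β * tl ≤ 1 / (m1 - 1) * tl := mul_le_mul_of_nonneg_right hβM htl
  have s14 : 0 ≤ β * Bud := mul_nonneg hβ.le hBud
  have s15 : 0 ≤ β * tl := mul_nonneg hβ.le htl
  have s16 : ccn * Wup = cci * Wup + 2 * c * Wup + 2 * (c * m1 * Wup) := by rw [ecc]; ring
  rw [ett, s16]
  have s17 : (tti + 1 / (m1 - 1)) * tl = tti * tl + 1 / (m1 - 1) * tl := by ring
  rw [s17]
  have expand1 : 2 * c * (A * (E * (Di + 1) * X0 + Y0 * Udec) + (Wi + Wup))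
      = 2 * c * (A * (E * (Di + 1) * X0)) + 2 * c * (A * (Y0 * Udec)) + 2 * c * Wi
        + 2 * c * Wup := by ring
  have expand2 : c * m1 * (Cl * (nm * (la + 1) * X1 + Y1 * Udec) + (Wi + Wup) + F * F2)
      = c * m1 * (Cl * (nm * (la + 1) * X1)) + c * m1 * (Cl * (Y1 * Udec)) + c * m1 * Wi
        + c * m1 * Wup + c * m1 * (F * F2) := by ring
  have expand3 : c * m1 * (B * (nl * (Dn + 1) * X2 + Y2 * Sdec) + Wup + F * F3)
      = c * m1 * (B * (nl * (Dn + 1) * X2)) + c * m1 * (B * (Y2 * Sdec)) + c * m1 * Wup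
        + c * m1 * (F * F3) := by ring
  have expand4 : (1 + η) * (nm + Lm) + (1 + η) * (nl + Ll)
      = (1 + η) * (nm + nl) + (1 + η) * (Lm + Ll) := by ring
  have expand5 : (cci + 2 * c + c * m1) * Wi = cci * Wi + 2 * c * Wi + c * m1 * Wi := by ring
  rw [expand5] at s6
  have expand6 : cci * (Wi + Wup) = cci * Wi + cci * Wup := by ring
  rw [expand1, expand2, expand3, expand6]
  clear e1 e2 e3 e4 e5 e6 e7 e8 e9 e11 e11' ett ecc expand1 expand2 expand3 expand5 expand6 s16 s17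
  clear e6'' e7' e6' e3' hnmv
  linarith

theorem nbY_sub (hP : P.Good θ Δ c) (Y : Finset V) {t : ℕ} (ht : 1 ≤ t) :
    nb G Y (P.D (t - 1)) ⊆ nb G Y (P.mm t - 1) := by
  apply nb_mono le_rfl
  have := hP.Dmm t ht
  omega

/-- Jobs for a family of pieces. -/
theorem job_family (h0 : 0 < ε) (h1 : ε < 1) (hG : G.Connected) (hd : ∀ x, 0 < G.degree x)
    (hΔ : 2 ≤ Δ) (hdeg : ∀ x, G.degree x ≤ Δ)
    (hP : P.Good θ Δ c) (hθ0 : 0 < θ) (hθ1 : θ < 1) (hc1 : 1 ≤ c) (hst : StageOK G ε θ Δ c)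
    {t i j : ℕ} (hi : 1 ≤ i) (hij : i ≤ j) (hjt : j ≤ t)
    (hc : Clustering G (ctr i) (P.M i)) (hhub : P.HubCov G ε θ ctr T i)
    {N Y S : Finset V} {o : V}
    {Z : Finset V} {Rt : V → ℕ → Finset V} {Rf : ℕ → Finset V} (hoY : o ∈ Y)
    (hYN : nb G Y (P.mm t - 1) ⊆ N) (hSY : S ⊆ nb G Y (P.D (t - 1)))
    (hup : P.Up G t j Y o Z Rt Rf) {PP : Finset (Finset V)}
    (hdisj : ∀ Q ∈ PP, ∀ Q' ∈ PP, Q ≠ Q' → Disjoint Q Q')
    (hthin : ∀ Q ∈ PP, ∀ x ∈ Q, (ball G x (16 * P.M i)).card < P.Lc i)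
    (hQc : ∀ Q ∈ PP, ∀ x ∈ Q, ∀ y ∈ Q, conn G Q x y)
    (hQs : ∀ Q ∈ PP, ∀ x ∈ Q, ∀ x', ctr i x' = ctr i x → x' ∈ Q)
    (hQn : ∀ Q ∈ PP, Q.card ≤ P.Lc i ^ 3)
    (hQY : ∀ Q ∈ PP, nb G Q (P.mm i + 1) ⊆ nb G Y (P.D (t - 1)))
    {port : Finset V → V} (hport : ∀ Q ∈ PP, port Q ∈ Q) {lam : ℕ} (hlam : 4 ≤ lam)
    (hlamD : lam ≤ P.D j) (hacc : ∀ Q ∈ PP, ∃ z ∈ Z, PathIn G S lam (port Q) z) (k : ℕ) :
    CovN G ε N (P.Lam t) o (PP.biUnion id)
      (c * (1 + P.M i) * ((lam : ℝ) ^ 3 * (3 * lam + 2) *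
            ((PP.card : ℝ) * (lam + 1) * (Δ : ℝ) ^ (k + 1)
              + (θ ^ 2) ^ k * ∑ x ∈ N, dec G (θ ^ 2) S x)
          + ∑ l ∈ Finset.Ico j t, P.W G θ l N (Rf l)
          + P.Fl θ i * (P.mm i + 3) *
            ∑ x ∈ N, dec G (θ ^ 4) (PP.biUnion fun Q => nb G Q (P.mm i + 1)) x)
        + (1 + P.eta i) * ((PP.card : ℝ) + ∑ Q ∈ PP, ∑ u ∈ Q.filter (fun u => ctr i u = u),
            P.LowF G ctr T θ i (nb G (cl (ctr i) u) 1))) := by
  have hjob : ∀ Q : Finset V, ∃ (Tm : ℝ) (ν : V → ℝ), Q ∈ PP → (0 ≤ Tm ∧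
      Tm ≤ 1 + ∑ u ∈ Q.filter (fun u => ctr i u = u), P.LowF G ctr T θ i (nb G (cl (ctr i) u) 1) ∧
      (∀ z, 0 ≤ ν z) ∧ (∀ z, z ∉ nb G Q (P.mm i + 1) → ν z = 0) ∧
      ∑ z, ν z ≤ ((P.Lc i : ℝ) ^ 28)⁻¹ ∧ Sess G ε N (port Q) Q Tm ν) := by
    intro Q
    by_cases hQ : Q ∈ PP
    · obtain ⟨Tm, ν, h⟩ := exists_job h0 h1 hG hd hP hθ0 hθ1 hi hc hhub (hQc Q hQ) (hQs Q hQ)
        (hthin Q hQ) (hQn Q hQ) (N := N)
        ((nb_mono le_rfl (Nat.le_succ _)).trans ((hQY Q hQ).trans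
          ((nbY_sub hP Y (by omega)).trans hYN))) (hport Q hQ)
      exact ⟨Tm, ν, fun _ => h⟩
    · exact ⟨0, fun _ => 0, fun h => absurd h hQ⟩
  choose Tm ν hj using hjob
  have key := stage_job hG hΔ hdeg hP hθ0 hθ1 hc1 hst hi hij hjt hoY hYN hSY hup hdisj hthin hQc
    hQY hport hlam hlamD hacc (fun Q hQ => (hj Q hQ).1) (fun Q hQ => (hj Q hQ).2.2.1)
    (fun Q hQ => (hj Q hQ).2.2.2.1) (fun Q hQ => (hj Q hQ).2.2.2.2.1)
    (fun Q hQ => (hj Q hQ).2.2.2.2.2) k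
  refine key.mono ?_
  have hη : 0 ≤ 1 + P.eta i := by
    have : 0 ≤ P.eta i := by unfold Lev.eta; positivity
    linarith
  have h2 : ∑ Q ∈ PP, Tm Q ≤ (PP.card : ℝ) + ∑ Q ∈ PP, ∑ u ∈ Q.filter (fun u => ctr i u = u),
            P.LowF G ctr T θ i (nb G (cl (ctr i) u) 1) := by
    have : (PP.card : ℝ) = ∑ Q ∈ PP, (1 : ℝ) := by simp
    rw [this, ← Finset.sum_add_distrib]
    exact Finset.sum_le_sum fun Q hQ => (hj Q hQ).2.1
  have := mul_le_mul_of_nonneg_left h2 hη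
  linarith

theorem eta_nonneg (P : Lev) (i : ℕ) : 0 ≤ P.eta i := by unfold Lev.eta; positivity

theorem Wc_nonneg (P : Lev) (i : ℕ) : 0 ≤ P.Wc i := by unfold Lev.Wc; positivity

theorem Lam_nonneg (P : Lev) (i : ℕ) : 0 ≤ P.Lam i := by unfold Lev.Lam; positivity

theorem tt_nonneg (hP : P.Good θ Δ c) {i : ℕ} (hi : 1 ≤ i) : 0 ≤ P.tt i := by
  induction i, hi using Nat.le_induction with
  | base => rw [hP.tt1]
  | succ n hn ih => rw [hP.ttS n hn]; positivity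

theorem cc_nonneg (hP : P.Good θ Δ c) (hc1 : 1 ≤ c) {i : ℕ} (hi : 1 ≤ i) : 0 ≤ P.cc i := by
  induction i, hi using Nat.le_induction with
  | base => rw [hP.cc1]; linarith
  | succ n hn ih =>
    rw [hP.ccS n hn]
    have : 0 ≤ 2 * c * (1 + (P.M n : ℝ)) := by positivity
    linarith

open Classical in
/-- The induction step. -/
theorem rest_step (h0 : 0 < ε) (h1 : ε < 1) (hG : G.Connected) (hd : ∀ x, 0 < G.degree x)
    (hΔ : 2 ≤ Δ) (hdeg : ∀ x, G.degree x ≤ Δ)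
    (hP : P.Good θ Δ c) (hθ0 : 0 < θ) (hθ1 : θ < 1) (hc1 : 1 ≤ c) (hst : StageOK G ε θ Δ c)
    {i : ℕ} (hi : 1 ≤ i) (hiT : i < T) (hc : Clustering G (ctr i) (P.M i))
    (hrest : P.RestCov G ε θ ctr T i) (hhub : P.HubCov G ε θ ctr T i) :
    P.RestCov G ε θ ctr T (i + 1) := by
  intro t N Y U S o Z Rt Rf hit htT hctx
  have hM1 : 100 ≤ P.M i := hP.M1 i hi
  have hDN : nb G Y (P.D (t - 1)) ⊆ N := (nbY_sub hP Y (by omega)).trans hctx.YN
  have hDi : P.D i ≤ P.D (t - 1) := hP.Dmono _ _ (by omega)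
  have hUY : nb G U (P.D i) ⊆ nb G Y (P.D (t - 1)) := nb_mono hctx.UY hDi
  obtain ⟨J, Eb, U', hcov, hU'U, hEbU, hdis, hsat, hmeet, hthin, hvJ, hmed, hthick, hbig, hbd, hEb⟩ :=
    level_step hG hc (by omega) (U := U) (o := o) (Lc := P.Lc i) (v := P.v i) (gs := P.g (i - 1))
      (gb := P.g i) (hP.vg i hi) (hP.gLc i hi) (by
        intro x hx hox
        have := hctx.big x hx hox
        simpa using this)
  -- the net
  obtain ⟨Zn, hZnT, hnet, hZnc⟩ := exists_net hG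
    (U.filter fun y => P.Lc i ≤ (ball G y (48 * P.M i)).card) (48 * P.M i) (P.Lc i)
    (fun y hy => (Finset.mem_filter.mp hy).2)
  have hZnU : Zn ⊆ U := hZnT.trans (Finset.filter_subset _ _)
  have hnet' : ∀ y ∈ U, P.Lc i ≤ (ball G y (48 * P.M i)).card →
      ∃ z ∈ Zn, G.dist y z ≤ 96 * P.M i := by
    intro y hy hyt
    obtain ⟨z, hz, hyz⟩ := hnet y (Finset.mem_filter.mpr ⟨hy, hyt⟩)
    exact ⟨z, hz, by omega⟩
  obtain ⟨Rt', Rf', hup', hctx', hRfl, hRfS, hRfc, hacc'⟩ := ctx_down hG hP hi hit hctx hU'U hEbU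
    hdis hsat hthin hthick hbig hbd hZnU hnet'
  -- pieces
  have hcell : ∀ x ∈ J, (cl (ctr i) (ctr i x)).card ≤ P.Lc i := by
    intro x hx
    refine le_trans (Finset.card_le_card ?_) (hthin x hx).le
    intro y hy
    rw [mem_cl] at hy
    rw [mem_ball]
    have e1 : G.dist x y ≤ G.dist x (ctr i x) + G.dist (ctr i x) y := hG.dist_triangle
    have e2 := hc.rad x
    have e3 := hc.rad y
    rw [hy, SimpleGraph.dist_comm] at e3
    omega
  have hg1 : 1 ≤ P.g i := (hP.v1 i hi).trans (hP.vg i hi)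
  obtain ⟨PP, hPP, hPd, hPcov⟩ := exists_pieces hG hdeg hc hsat hcell hg1
  have hJU : J ⊆ nb G U (2 * P.M i) := by
    intro x hx
    obtain ⟨y, hy, hxy⟩ := hmeet x hx
    rw [mem_nb]
    refine ⟨y, hy, ?_⟩
    have e1 : G.dist x y ≤ G.dist x (ctr i x) + G.dist (ctr i x) y := hG.dist_triangle
    have e2 := hc.rad x
    have e3 := hc.rad y
    rw [hxy, SimpleGraph.dist_comm] at e3
    omega
  have hQD : ∀ Q ∈ PP, nb G Q (P.mm i + 1) ⊆ nb G U (P.D i) := by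
    intro Q hQ
    have e1 : nb G Q (P.mm i + 1) ⊆ nb G (nb G U (2 * P.M i)) (P.mm i + 1) :=
      nb_mono ((hPP Q hQ).2.1.trans hJU) le_rfl
    refine (e1.trans (nb_nb_subset hG _ _ _)).trans (nb_mono le_rfl ?_)
    have := hP.Dm i hi
    omega
  have hsize : ∀ Q ∈ PP, P.v i ≤ Q.card := by
    intro Q hQ
    obtain ⟨⟨x, hx⟩, hQJ, _, _, h | h⟩ := hPP Q hQ
    · have := hvJ x (hQJ hx)
      rwa [(h x hx).1] at this
    · exact (hP.vg i hi).trans h.1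
  have hcube : ∀ Q ∈ PP, Q.card ≤ P.Lc i ^ 3 := by
    intro Q hQ
    have hgs := hP.gsz i hi
    obtain ⟨⟨x, hx⟩, _, _, _, h | h⟩ := hPP Q hQ
    · have := (h x hx).2
      omega
    · omega
  set PPm := PP.filter fun Q => Q.card < P.g i with hPPm
  set PPl := PP.filter fun Q => ¬ Q.card < P.g i with hPPl
  have hmPP : ∀ Q ∈ PPm, Q ∈ PP := fun Q hQ => (Finset.mem_filter.mp hQ).1
  have hlPP : ∀ Q ∈ PPl, Q ∈ PP := fun Q hQ => (Finset.mem_filter.mp hQ).1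
  -- ports of the medium pieces
  have hportm : ∀ Q : Finset V, ∃ z, Q ∈ PPm → (z ∈ Q ∧
      ∃ z' ∈ insert o Zn, PathIn G (nb G U (P.D i)) (P.lam i) z z') := by
    intro Q
    by_cases hQ : Q ∈ PPm
    swap
    · exact ⟨o, fun h => absurd h hQ⟩
    have hQ1 := hmPP Q hQ
    have hQ2 := (Finset.mem_filter.mp hQ).2
    obtain ⟨⟨x, hx⟩, hQJ, _, _, h⟩ := hPP Q hQ1
    have hcx : comp G J x = Q := by
      rcases h with h | h
      · exact (h x hx).1
      · omega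
    have hlamD : P.lam i ≤ P.D i := by
      have := hP.Dv i hi
      unfold Lev.lam
      omega
    rcases hmed x (hQJ hx) (by rw [hcx]; exact hQ2) with ho | ⟨z, hz, y, hy, hzy, hyt⟩
    · rw [hcx] at ho
      refine ⟨o, fun _ => ⟨ho, o, Finset.mem_insert_self _ _, PathIn.refl ?_ _⟩⟩
      refine nb_mono le_rfl ?_ (hJU (hQJ ho))
      have := hP.Dm i hi
      omega
    · rw [hcx] at hz
      obtain ⟨z', hz', hyz'⟩ := hnet' y hy hyt
      refine ⟨z, fun _ => ⟨hz, z', Finset.mem_insert_of_mem hz', ?_⟩⟩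
      have e1 : G.dist z z' ≤ G.dist z y + G.dist y z' := hG.dist_triangle
      have e2 : G.dist z y = 1 := SimpleGraph.dist_eq_one_iff_adj.mpr hzy
      have e3 : G.dist z z' ≤ P.lam i := by unfold Lev.lam; omega
      exact (pathIn_of_dist hG (Or.inr (hZnU hz')) e3).mono (nb_mono le_rfl hlamD) le_rfl
  choose portm hportm using hportm
  -- ports of the large pieces
  have hportl : ∀ Q : Finset V, ∃ z, Q ∈ PPl → (z ∈ Q ∧
      ∃ z' ∈ Z, PathIn G S (P.D (i + 1)) z z') := by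
    intro Q
    by_cases hQ : Q ∈ PPl
    swap
    · exact ⟨o, fun h => absurd h hQ⟩
    obtain ⟨⟨x, hx⟩, hQJ, _, hQsat, _⟩ := hPP Q (hlPP Q hQ)
    obtain ⟨y, hy, hxy⟩ := hmeet x (hQJ hx)
    obtain ⟨z', hz', hp⟩ := hctx.acc y hy
    exact ⟨y, fun _ => ⟨hQsat x hx y hxy, z', hz', hp⟩⟩
  choose portl hportl using hportl
  -- cut-off distances
  obtain ⟨k0, hk0a, hk0b⟩ := hP.k0 i hi
  obtain ⟨k1, hk1a, hk1b⟩ := hP.k1 i hi
  obtain ⟨k2, hk2a, hk2b, hk2c⟩ := hP.k2 i hi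
  -- the four stages
  have C1 := stage_vert hG hΔ hdeg hP hθ0 hθ1 hc1 hst hi (by omega : i ≤ t) hctx.oY hctx.YN hUY
    hup' (U := Eb) (fun x hx => hacc' x (Finset.mem_union_left _ hx)) k0
  have C2 := job_family h0 h1 hG hd hΔ hdeg hP hθ0 hθ1 hc1 hst hi le_rfl (by omega : i ≤ t) hc hhub
    hctx.oY hctx.YN hUY hup' (PP := PPm)
    (fun Q hQ Q' hQ' h => hPd Q (hmPP Q hQ) Q' (hmPP Q' hQ') h)
    (fun Q hQ x hx => hthin x ((hPP Q (hmPP Q hQ)).2.1 hx))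
    (fun Q hQ => (hPP Q (hmPP Q hQ)).2.2.1)
    (fun Q hQ => (hPP Q (hmPP Q hQ)).2.2.2.1)
    (fun Q hQ => hcube Q (hmPP Q hQ))
    (fun Q hQ => (hQD Q (hmPP Q hQ)).trans hUY)
    (port := portm) (fun Q hQ => (hportm Q hQ).1) (lam := P.lam i) (by unfold Lev.lam; omega)
    (by have := hP.Dv i hi; unfold Lev.lam; omega) (fun Q hQ => (hportm Q hQ).2) k1
  have C3 := job_family h0 h1 hG hd hΔ hdeg hP hθ0 hθ1 hc1 hst hi (Nat.le_succ i) hit hc hhub
    hctx.oY hctx.YN hctx.SY hctx.up (PP := PPl)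
    (fun Q hQ Q' hQ' h => hPd Q (hlPP Q hQ) Q' (hlPP Q' hQ') h)
    (fun Q hQ x hx => hthin x ((hPP Q (hlPP Q hQ)).2.1 hx))
    (fun Q hQ => (hPP Q (hlPP Q hQ)).2.2.1)
    (fun Q hQ => (hPP Q (hlPP Q hQ)).2.2.2.1)
    (fun Q hQ => hcube Q (hlPP Q hQ))
    (fun Q hQ => (hQD Q (hlPP Q hQ)).trans hUY)
    (port := portl) (fun Q hQ => (hportl Q hQ).1) (lam := P.D (i + 1))
    (by have := hP.D1 (i + 1) (by omega); omega) le_rfl (fun Q hQ => (hportl Q hQ).2) k2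
  have C4 := hrest t N Y U' (nb G U (P.D i)) o (insert o Zn) Rt' Rf' (by omega) htT hctx'
  have hall := ((C1.union C2).union C3).union C4
  refine (hall.subset ?_).mono ?_
  · intro x hx
    rcases Finset.mem_union.mp (hcov hx) with h | h
    · rcases Finset.mem_union.mp h with h | h
      · have := hPcov h
        rw [Finset.mem_biUnion] at this
        obtain ⟨Q, hQ, hxQ⟩ := this
        by_cases hq : Q.card < P.g i
        · refine Finset.mem_union_left _ (Finset.mem_union_left _ (Finset.mem_union_right _ ?_))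
          exact Finset.mem_biUnion.mpr ⟨Q, Finset.mem_filter.mpr ⟨hQ, hq⟩, hxQ⟩
        · refine Finset.mem_union_left _ (Finset.mem_union_right _ ?_)
          exact Finset.mem_biUnion.mpr ⟨Q, Finset.mem_filter.mpr ⟨hQ, hq⟩, hxQ⟩
      · exact Finset.mem_union_left _ (Finset.mem_union_left _ (Finset.mem_union_left _ h))
    · exact Finset.mem_union_right _ h
  -- accounting
  have hBud0 : 0 ≤ P.Bud G θ i U := Bud_nonneg hθ0 i U
  have hDv := hP.Dv i hi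
  have hJB : (J.card : ℝ) ≤ P.Bud G θ i U := by
    refine le_trans ?_ (card_nb_le_Bud hθ0 (hP.DK i) (r := 2 * P.M i) (by omega) U)
    exact_mod_cast Finset.card_le_card hJU
  have hPPsum : ∑ Q ∈ PP, Q.card ≤ J.card := by
    have hbi : (PP.biUnion fun Q => Q).card = ∑ Q ∈ PP, Q.card :=
      Finset.card_biUnion (fun Q hQ Q' hQ' h => hPd Q hQ Q' hQ' h)
    rw [← hbi]
    apply Finset.card_le_card
    intro x hx
    obtain ⟨Q, hQ, hxQ⟩ := Finset.mem_biUnion.mp hx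
    exact (hPP Q hQ).2.1 hxQ
  have hcardsum : PPm.card + PPl.card = PP.card :=
    Finset.card_filter_add_card_filter_not _
  have hvPP : ((PPm.card : ℝ) + PPl.card) * P.v i ≤ P.Bud G θ i U := by
    refine le_trans ?_ hJB
    have h1 : PP.card * P.v i ≤ J.card := by
      refine le_trans ?_ hPPsum
      rw [← smul_eq_mul]
      exact Finset.card_nsmul_le_sum _ _ _ hsize
    rw [← hcardsum] at h1
    exact_mod_cast h1
  have hgPP : (PPl.card : ℝ) * P.g i ≤ P.Bud G θ i U := by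
    refine le_trans ?_ hJB
    have h1 : PPl.card * P.g i ≤ J.card := by
      refine le_trans ?_ hPPsum
      refine le_trans ?_ (Finset.sum_le_sum_of_subset (Finset.filter_subset _ _ : PPl ⊆ PP))
      rw [← smul_eq_mul]
      exact Finset.card_nsmul_le_sum _ _ _ fun Q hQ => not_lt.mp (Finset.mem_filter.mp hQ).2
    exact_mod_cast h1
  have hZB : (Zn.card : ℝ) * P.Lc i ≤ P.Bud G θ i U := by
    have h1 : (Zn.card * P.Lc i : ℕ) ≤ (nb G U (48 * P.M i)).card :=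
      hZnc.trans (Finset.card_le_card (nb_mono (Finset.filter_subset _ _) le_rfl))
    refine le_trans ?_ (card_nb_le_Bud hθ0 (hP.DK i) (r := 48 * P.M i) (by omega) U)
    exact_mod_cast h1
  have hEn : (Eb.card : ℝ) ≤ ((U.filter fun x => P.spec G ctr T i x).card : ℝ) := by
    have h1 : Eb ⊆ U.filter fun x => P.spec G ctr T i x := by
      intro x hx
      rw [Finset.mem_filter]
      refine ⟨hEbU hx, ?_⟩
      obtain ⟨x', hx', hd', y, hxy, hyU⟩ := hEb x hx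
      obtain ⟨s, hs1, hs2, hs3, x1, hx1, x2, hx2, hne⟩ := hctx.bd x' hx' y hxy hyU
      refine ⟨s, by omega, hs2.trans htT, ?_, x1, ?_, x2, ?_, hne⟩
      · refine lt_of_le_of_lt (Finset.card_le_card (ball_subset_ball hG ?_)) hs3
        have e1 := hP.gM i hi
        have e2 := hP.Mmono (i + 1) s (by omega) hs1
        omega
      · rw [mem_ball] at hx1 ⊢
        have e1 : G.dist x x1 ≤ G.dist x x' + G.dist x' x1 := hG.dist_triangle
        omega
      · rw [mem_ball] at hx2 ⊢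
        have e1 : G.dist x x2 ≤ G.dist x x' + G.dist x' x2 := hG.dist_triangle
        omega
    exact_mod_cast Finset.card_le_card h1
  have hF : ∀ PQ : Finset (Finset V), PQ ⊆ PP →
      ∑ x ∈ N, dec G (θ ^ 4) (PQ.biUnion fun Q => nb G Q (P.mm i + 1)) x
        ≤ ∑ x ∈ N, dec G (θ ^ 2) (nb G U (P.D i)) x := by
    intro PQ hPQ
    apply Finset.sum_le_sum
    intro x _
    refine (dec_rate_mono (by positivity) (pow_le_pow_of_le_one hθ0.le hθ1.le (by norm_num))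
      _ x).trans (dec_mono (by positivity) (pow_le_one₀ hθ0.le hθ1.le) ?_ x)
    intro y hy
    obtain ⟨Q, hQ, hyQ⟩ := Finset.mem_biUnion.mp hy
    exact hQD Q (hPQ hQ) hyQ
  have hWi : P.W G θ i N (Rf' i) ≤ P.Wc i * ((Zn.card : ℝ) * (P.D (i + 1) + 1) *
      (Δ : ℝ) ^ (k2 + 1) + (θ ^ 2) ^ k2 * ∑ x ∈ N, dec G (θ ^ 2) S x) := by
    unfold Lev.W
    apply mul_le_mul_of_nonneg_left _ (Wc_nonneg P i)
    have h1 := near_far hG hΔ hdeg (r := θ ^ 2) (by positivity)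
      (pow_lt_one₀ hθ0.le hθ1 (by norm_num)) (N := N) hRfS k2
    have h2 : (θ ^ 2) ^ 2 = θ ^ 4 := by ring
    rw [h2] at h1
    refine h1.trans ?_
    have h3 : ((Rf' i).card : ℝ) ≤ (Zn.card : ℝ) * (P.D (i + 1) + 1) := by exact_mod_cast hRfc
    have h4 := mul_le_mul_of_nonneg_right h3 (show (0 : ℝ) ≤ (Δ : ℝ) ^ (k2 + 1) by positivity)
    linarith
  have hLow : P.LowF G ctr T θ i U' + (1 + P.eta i) *
      (∑ Q ∈ PPm, ∑ u ∈ Q.filter (fun u => ctr i u = u),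
          P.LowF G ctr T θ i (nb G (cl (ctr i) u) 1)
        + ∑ Q ∈ PPl, ∑ u ∈ Q.filter (fun u => ctr i u = u),
          P.LowF G ctr T θ i (nb G (cl (ctr i) u) 1))
      ≤ ∑ l ∈ Finset.range i, P.lowPart G ctr T θ (i + 1) l U := by
    refine le_trans ?_ (low_rec (T := T) hP hθ0 hG hi hc hU'U hdis hsat hmeet hthin)
    have h1 : ∑ Q ∈ PPm, ∑ u ∈ Q.filter (fun u => ctr i u = u),
          P.LowF G ctr T θ i (nb G (cl (ctr i) u) 1)
        + ∑ Q ∈ PPl, ∑ u ∈ Q.filter (fun u => ctr i u = u),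
          P.LowF G ctr T θ i (nb G (cl (ctr i) u) 1)
        = ∑ Q ∈ PP, ∑ u ∈ Q.filter (fun u => ctr i u = u),
          P.LowF G ctr T θ i (nb G (cl (ctr i) u) 1) := by
      rw [hPPm, hPPl]
      exact Finset.sum_filter_add_sum_filter_not _ _ _
    have h2 : ∑ Q ∈ PP, ∑ u ∈ Q.filter (fun u => ctr i u = u),
          P.LowF G ctr T θ i (nb G (cl (ctr i) u) 1)
        = ∑ u ∈ PP.biUnion (fun Q => Q.filter (fun u => ctr i u = u)),
          P.LowF G ctr T θ i (nb G (cl (ctr i) u) 1) := by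
      rw [Finset.sum_biUnion]
      intro Q hQ Q' hQ' hne
      exact Finset.disjoint_filter_filter (hPd Q hQ Q' hQ' hne)
    have h3 : ∑ u ∈ PP.biUnion (fun Q => Q.filter (fun u => ctr i u = u)),
          P.LowF G ctr T θ i (nb G (cl (ctr i) u) 1)
        ≤ ∑ u ∈ J.filter (fun u => ctr i u = u), P.LowF G ctr T θ i (nb G (cl (ctr i) u) 1) := by
      apply Finset.sum_le_sum_of_subset_of_nonneg
      · intro u hu
        obtain ⟨Q, hQ, huQ⟩ := Finset.mem_biUnion.mp hu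
        rw [Finset.mem_filter] at huQ ⊢
        exact ⟨(hPP Q hQ).2.1 huQ.1, huQ.2⟩
      · intro u _ _
        exact (LowH_nonneg hP hθ0 i _).trans (LowH_le hP hθ0 hi _)
    rw [h1, h2]
    have := mul_le_mul_of_nonneg_left h3 (show 0 ≤ 1 + P.eta i by linarith [eta_nonneg P i])
    linarith
  have hWsplit : ∑ l ∈ Finset.Ico i t, P.W G θ l N (Rf' l)
      = P.W G θ i N (Rf' i) + ∑ l ∈ Finset.Ico (i + 1) t, P.W G θ l N (Rf l) := by
    rw [Finset.sum_eq_sum_Ico_succ_bot (by omega : i < t)]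
    congr 1
    apply Finset.sum_congr rfl
    intro l hl
    rw [Finset.mem_Ico] at hl
    rw [hRfl l (by omega)]
  have hMr : (100 : ℝ) ≤ P.M i := by exact_mod_cast hM1
  have key := step_account (c := c) (m1 := 1 + P.M i) (A := P.Wc (i - 1)) (B := P.Wc i)
    (Cl := P.Wl i) (F := P.Fl θ i * (P.mm i + 3)) (η := P.eta i) (β := P.β i) (v := P.v i)
    (g := P.g i) (Lc := P.Lc i) (E := Eb.card)
    (nsp := ((U.filter fun x => P.spec G ctr T i x).card : ℝ)) (nm := PPm.card)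
    (nl := PPl.card) (nz := Zn.card) (Di := P.D i) (Dn := P.D (i + 1)) (la := P.lam i)
    (Bud := P.Bud G θ i U) (tl := P.tl G θ i N U) (tl' := P.tl G θ (i - 1) N U')
    (Sdec := ∑ x ∈ N, dec G (θ ^ 2) S x) (Udec := ∑ x ∈ N, dec G (θ ^ 2) (nb G U (P.D i)) x)
    (Wi := P.W G θ i N (Rf' i)) (Wup := ∑ l ∈ Finset.Ico (i + 1) t, P.W G θ l N (Rf l))
    (F2 := ∑ x ∈ N, dec G (θ ^ 4) (PPm.biUnion fun Q => nb G Q (P.mm i + 1)) x)
    (F3 := ∑ x ∈ N, dec G (θ ^ 4) (PPl.biUnion fun Q => nb G Q (P.mm i + 1)) x)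
    (Lm := ∑ Q ∈ PPm, ∑ u ∈ Q.filter (fun u => ctr i u = u),
          P.LowF G ctr T θ i (nb G (cl (ctr i) u) 1))
    (Ll := ∑ Q ∈ PPl, ∑ u ∈ Q.filter (fun u => ctr i u = u),
          P.LowF G ctr T θ i (nb G (cl (ctr i) u) 1))
    (LU := P.LowH G ctr T θ i U') (LUF := P.LowF G ctr T θ i U')
    (Lmain := ∑ l ∈ Finset.range i, P.lowPart G ctr T θ (i + 1) l U) (Csp := P.Csp i)
    (tti := P.tt i) (ttn := P.tt (i + 1)) (cci := P.cc i) (ccn := P.cc (i + 1))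
    (i10 := ((P.D i : ℝ) ^ 10)⁻¹) (n10 := ((P.D (i + 1) : ℝ) ^ 10)⁻¹)
    (X0 := (Δ : ℝ) ^ (k0 + 1)) (X1 := (Δ : ℝ) ^ (k1 + 1)) (X2 := (Δ : ℝ) ^ (k2 + 1))
    (Y0 := (θ ^ 2) ^ k0) (Y1 := (θ ^ 2) ^ k1) (Y2 := (θ ^ 2) ^ k2)
    (th := θ ^ (P.K (i - 1)) + θ ^ (2 * P.D i))
    hc1 (by linarith) (Wc_nonneg P _) (Wc_nonneg P _) (by unfold Lev.Wl; positivity)
    (by
      have h32 : θ ^ 32 < 1 := pow_lt_one₀ hθ0.le hθ1 (by norm_num)
      have : 0 < 1 - θ ^ 32 := by linarith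
      unfold Lev.Fl
      positivity)
    (eta_nonneg P i) (hP.β0 i) (by positivity) (by positivity) (by positivity) (by positivity)
    (by positivity) (by positivity) (by positivity) hBud0 (tl_nonneg hθ0 i N U)
    (Finset.sum_nonneg fun x _ => dec_nonneg (by positivity) _ _)
    (Finset.sum_nonneg fun x _ => dec_nonneg (by positivity) _ _)
    (by positivity) (by positivity) (by positivity) (by positivity) (by positivity)
    (by positivity) (hP.Csp0 i) (tt_nonneg hP hi) (cc_nonneg hP hc1 hi)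
    hk0b hEn hk0a (dec_le_Bud hG hθ0 hθ1 (hP.DK i) N U) hk1b hvPP (by positivity) hk1a
    (by have := hP.fl i hi; linarith)
    (hF PPm (Finset.filter_subset _ _)) (hF PPl (Finset.filter_subset _ _))
    hWi hZB hk2b hk2c hgPP hk2a (hP.job1 i hi) (hP.dten i hi)
    (tl_le_Bud hG hθ0 hθ1 (hP.DK i) hU'U) (hP.tail i hi) hLow (LowH_le hP hθ0 hi U')
    (by rw [hP.ttS i hi]; congr 2; ring) (by linarith)
    (by have := hP.βM i hi; rwa [show (1 : ℝ) + P.M i - 1 = P.M i by ring])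
    (hP.ccS i hi)
  have hH : P.LowH G ctr T θ (i + 1) U = ∑ l ∈ Finset.range i, P.lowPart G ctr T θ (i + 1) l U
      + (P.β i * P.Bud G θ i U
        + P.Csp i * ((U.filter fun x => P.spec G ctr T i x).card : ℝ)) / 2 := by
    unfold Lev.LowH
    rw [show i + 1 - 1 = i by omega, lowPart_top hG i (by have := hP.DK i; omega) U]
  rw [hWsplit, hH, show i + 1 - 1 = i by omega]
  refine le_trans (le_of_eq ?_) key
  unfold Lev.Wl
  have hB : (P.D (i + 1) : ℝ) ^ 3 * (3 * P.D (i + 1) + 2) = P.Wc i := rfl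
  rw [hB]

end Lev

end Pool.MP_10effd_pr
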