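import Pool.Agent.MP_10effd_pr.LL.Basic

set_option autoImplicit false
set_option linter.unusedSectionVars false

namespace Pool.MP_10effd_pr

open Finset

variable {V : Type} [Fintype V] [DecidableEq V] {G : SimpleGraph V} [DecidableRel G.Adj] {ε : ℝ}

/-- Minimum principle for the Dirichlet problem with killing. -/
theorem solve_min_principle (hG : G.Connected) {N : Finset V} {K : V → V → ℝ} {q : V → ℝ} {o : V}
    (hK0 : ∀ x y, 0 ≤ K x y) (hKadj : ∀ x y, G.Adj x y → 0 < K x y)
    (hq : ∀ x, 0 ≤ q x) (hqo : 0 < q o) {f : V → ℝ} (hf0 : ∀ x, x ∉ N → 0 ≤ f x)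
    (hf : ∀ x ∈ N, 0 ≤ ∑ y, K x y * (f x - f y) + q x * f x) (x : V) : 0 ≤ f x := by
  haveI : Nonempty V := ⟨x⟩
  obtain ⟨x₀, hx₀⟩ := Finite.exists_min f
  by_contra hneg
  push Not at hneg
  have hx0neg : f x₀ < 0 := lt_of_le_of_lt (hx₀ x) hneg
  have key : ∀ u, f u = f x₀ → q u = 0 ∧ ∀ v, G.Adj u v → f v = f x₀ := by
    intro u hu
    have huN : u ∈ N := by
      by_contra h
      have := hf0 u h
      linarith
    have h1 := hf u huN
    have hterm : ∀ y ∈ Finset.univ, K u y * (f u - f y) ≤ 0 := fun y _ =>
      mul_nonpos_of_nonneg_of_nonpos (hK0 u y) (by rw [hu]; linarith [hx₀ y])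
    have hsum : ∑ y, K u y * (f u - f y) ≤ 0 := Finset.sum_nonpos hterm
    have hqf : q u * f u ≤ 0 := mul_nonpos_of_nonneg_of_nonpos (hq u) (by rw [hu]; exact hx0neg.le)
    have hsum0 : ∑ y, K u y * (f u - f y) = 0 := by linarith
    have hqf0 : q u * f u = 0 := by linarith
    constructor
    · rcases mul_eq_zero.mp hqf0 with h | h
      · exact h
      · rw [hu] at h; linarith
    · intro v hv
      have := (Finset.sum_eq_zero_iff_of_nonpos hterm).mp hsum0 v (Finset.mem_univ v)
      rcases mul_eq_zero.mp this with h | h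
      · exact absurd h (hKadj u v hv).ne'
      · rw [← hu]; linarith
  have main : ∀ u v : V, G.Walk u v → f u = f x₀ → f v = f x₀ := by
    intro u v p
    induction p with
    | nil => intro e; exact e
    | @cons u v w huv p ih =>
      intro e
      exact ih ((key u e).2 v huv)
  obtain ⟨p⟩ := hG.preconnected x₀ o
  have := (key o (main x₀ o p rfl)).1
  linarith

/-- Dirichlet problem with killing. -/
theorem exists_solve (hG : G.Connected) {N : Finset V} {K : V → V → ℝ} {q s : V → ℝ} {o : V}
    {β : ℝ} (hK0 : ∀ x y, 0 ≤ K x y) (hKadj : ∀ x y, G.Adj x y → 0 < K x y)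
    (hq : ∀ x, 0 ≤ q x) (ho : o ∈ N) (hqo : 0 < q o) (hs : ∀ x ∈ N, 0 ≤ s x) (hβ : 0 ≤ β) :
    ∃ f : V → ℝ, (∀ x, 0 ≤ f x) ∧ (∀ x, x ∉ N → f x = β) ∧
      ∀ x ∈ N, ∑ y, K x y * (f x - f y) + q x * f x = s x := by
  classical
  let L : (V → ℝ) →ₗ[ℝ] (V → ℝ) :=
    { toFun := fun h x => if x ∈ N then ∑ y, K x y * (h x - h y) + q x * h x else h x
      map_add' := by
        intro f g
        funext x
        simp only [Pi.add_apply]
        have : ∑ y, K x y * (f x + g x - (f y + g y))
            = ∑ y, K x y * (f x - f y) + ∑ y, K x y * (g x - g y) := by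
          rw [← Finset.sum_add_distrib]
          exact Finset.sum_congr rfl fun y _ => by ring
        rw [this]
        split_ifs <;> ring
      map_smul' := by
        intro c f
        funext x
        simp only [Pi.smul_apply, smul_eq_mul, RingHom.id_apply]
        have : ∑ y, K x y * (c * f x - c * f y) = c * ∑ y, K x y * (f x - f y) := by
          rw [Finset.mul_sum]
          exact Finset.sum_congr rfl fun y _ => by ring
        rw [this]
        split_ifs <;> ring }
  have hL : ∀ (h : V → ℝ) (x : V),
      L h x = if x ∈ N then ∑ y, K x y * (h x - h y) + q x * h x else h x := fun h x => rfl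
  have hinj : Function.Injective L := by
    rw [← LinearMap.ker_eq_bot, LinearMap.ker_eq_bot']
    intro f hf
    have h1 : ∀ x, x ∉ N → f x = 0 := by
      intro x hx
      have := congrFun hf x
      rw [hL, if_neg hx] at this
      exact this
    have h2 : ∀ x ∈ N, ∑ y, K x y * (f x - f y) + q x * f x = 0 := by
      intro x hx
      have := congrFun hf x
      rw [hL, if_pos hx] at this
      exact this
    have hge := solve_min_principle hG hK0 hKadj hq hqo (N := N) (f := f)
      (fun x hx => (h1 x hx).ge) (fun x hx => (h2 x hx).ge)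
    have hle := solve_min_principle hG hK0 hKadj hq hqo (N := N) (f := fun x => - f x)
      (fun x hx => by simp [h1 x hx]) (fun x hx => by
        have e : ∑ y, K x y * (- f x - - f y) + q x * - f x
            = - (∑ y, K x y * (f x - f y) + q x * f x) := by
          rw [neg_add, ← Finset.sum_neg_distrib]
          congr 1
          · exact Finset.sum_congr rfl fun y _ => by ring
          · ring
        show 0 ≤ ∑ y, K x y * (- f x - - f y) + q x * - f x
        rw [e, h2 x hx, neg_zero])
    funext x
    have e1 := hge x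
    have e2 := hle x
    simp only [Pi.zero_apply]
    linarith
  have hsurj : Function.Surjective L := LinearMap.injective_iff_surjective.mp hinj
  obtain ⟨f, hf⟩ := hsurj (fun x => if x ∈ N then s x else β)
  have h1 : ∀ x, x ∉ N → f x = β := by
    intro x hx
    have := congrFun hf x
    rw [hL, if_neg hx] at this
    simpa [hx] using this
  have h2 : ∀ x ∈ N, ∑ y, K x y * (f x - f y) + q x * f x = s x := by
    intro x hx
    have := congrFun hf x
    rw [hL, if_pos hx] at this
    simpa [hx] using this
  exact ⟨f, solve_min_principle hG hK0 hKadj hq hqo (N := N) (f := f)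
    (fun x hx => by rw [h1 x hx]; exact hβ) (fun x hx => by rw [h2 x hx]; exact hs x hx), h1, h2⟩

end Pool.MP_10effd_pr
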