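import Pool.Agent.MP_10effd_pr.LL.Defs0

/-! Supersolution argument. -/

set_option autoImplicit false
set_option linter.unusedSectionVars false

namespace Pool.MP_10effd_pr

open Finset

variable {V : Type} [Fintype V] [DecidableEq V] {G : SimpleGraph V} [DecidableRel G.Adj] {ε : ℝ}

/-- The kernel built from positive edge weights. -/
theorem ker_of_weights (hd : ∀ x, 0 < G.degree x) {w : V → V → ℝ}
    (hpos : ∀ x y, G.Adj x y → 0 < w x y)
    (hker : ∀ x y y', G.Adj x y → G.Adj x y' → (1 - ε) * w x y' ≤ w x y) :
    (∀ x, 0 < ∑ y ∈ G.neighborFinset x, w x y) ∧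
    Ker G ε (fun x y => (if G.Adj x y then w x y else 0) / ∑ y ∈ G.neighborFinset x, w x y) := by
  have hC : ∀ x, 0 < ∑ y ∈ G.neighborFinset x, w x y := by
    intro x
    apply Finset.sum_pos
    · intro y hy
      rw [SimpleGraph.mem_neighborFinset] at hy
      exact hpos x y hy
    · have := hd x
      rw [← SimpleGraph.card_neighborFinset_eq_degree, Finset.card_pos] at this
      exact this
  refine ⟨hC, ?_, ?_, ?_⟩
  · intro x y hxy
    simp [hxy]
  · intro x y hxy
    simp only [hxy, if_true]
    rw [div_le_div_iff₀ (by exact_mod_cast hd x) (hC x), Finset.mul_sum]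
    calc ∑ i ∈ G.neighborFinset x, (1 - ε) * w x i
        ≤ ∑ i ∈ G.neighborFinset x, w x y := by
          apply Finset.sum_le_sum
          intro i hi
          rw [SimpleGraph.mem_neighborFinset] at hi
          exact hker x y i hxy hi
      _ = w x y * (G.degree x : ℝ) := by
          rw [Finset.sum_const, SimpleGraph.card_neighborFinset_eq_degree, nsmul_eq_mul, mul_comm]
  · intro x
    rw [← Finset.sum_div]
    have e : ∑ y, (if G.Adj x y then w x y else 0) = ∑ y ∈ G.neighborFinset x, w x y := by
      rw [← Finset.sum_filter]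
      apply Finset.sum_congr _ (fun _ _ => rfl)
      ext y
      simp
    rw [e]
    exact div_self (hC x).ne'

/-- The phase inequality, from supersolutions `f u`, `h` of the macroscopic equations. -/
theorem super_phase (h0 : 0 < ε) (h1 : ε < 1) (hd : ∀ x, 0 < G.degree x)
    {ι : Type} [Fintype ι] [DecidableEq ι] {N : Finset V} {L : ℝ} (hL : 0 ≤ L) {o : V}
    (ho : o ∈ N) {A : ι → Finset V} {a : V → ℝ}
    {J : V → V → ℝ} {r : ℝ} {X : Finset ι} {p : ι → V} {T : ι → ℝ} {ν : ι → V → ℝ}
    (hB : Bal G N a J r X p ν) (hT : ∀ u ∈ X, 0 ≤ T u) (hν1 : ∀ u ∈ X, ∑ z, ν u z ≤ 1)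
    (hs : ∀ u ∈ X, Sess G ε N (p u) (A u) (T u) (ν u))
    (hker : ∀ x y y', G.Adj x y → G.Adj x y' →
      (1 - ε) * (a x + a y' + J x y') ≤ a x + a y + J x y)
    {κ : ℝ} (hκ : 0 < κ) {h : V → ℝ} (hh0 : ∀ x, 0 ≤ h x) (hhN : ∀ x, x ∉ N → h x = L)
    (hh : ∀ x ∈ N, ∑ y, mk G a J r X p ν x y * (h x - h y) + (if x = o then κ else 0) * h x
      = ∑ y ∈ G.neighborFinset x, (a x + a y + J x y)
        + r * ∑ u ∈ X.filter (fun u => p u = x), T u)
    {f : ι → V → ℝ} (hf0 : ∀ u x, 0 ≤ f u x) (hfN : ∀ u ∈ X, ∀ x, x ∉ N → f u x = 0)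
    (hf : ∀ u ∈ X, ∀ x ∈ N, ∑ y, mk G a J r X p ν x y * (f u x - f u y)
      + ((if x = p u then r * (1 - ∑ z, ν u z) else 0) + (if x = o then κ else 0)) * f u x
      = if x = o then κ else 0)
    {H th : ℝ} (hH : h o ≤ H) (hth : ∀ u ∈ X, f u o ≤ th) :
    Phase G ε N L o A X H th := by
  intro F hF M S₀ K₀ lam hlam hyp S hS₀ hoS
  obtain ⟨b, hb0, hbl, hbN⟩ := hF.base
  obtain ⟨hC, hK⟩ := ker_of_weights (G := G) (ε := ε) hd (w := fun x y => a x + a y + J x y)
    hB.pos hker
  set Φ : V → Finset V → ℝ := fun x S =>
    K₀ + h x + ∑ u ∈ X.filter (fun u => ¬ A u ⊆ S), lam u * f u x with hΦ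
  have hbK : b ≤ K₀ := by
    have := hyp 0 (Nat.zero_le _) Finset.univ (Finset.subset_univ _) (Finset.mem_univ _)
    rw [hb0] at this
    simpa using this
  have hsum0 : ∀ x S, 0 ≤ ∑ u ∈ X.filter (fun u => ¬ A u ⊆ S), lam u * f u x :=
    fun x S => Finset.sum_nonneg fun u _ => mul_nonneg (hlam u) (hf0 u x)
  have hΦK : ∀ x S, K₀ + h x ≤ Φ x S := by
    intro x S
    have := hsum0 x S
    simp only [hΦ]
    linarith
  have hΦanti : ∀ x S S', S ⊆ S' → Φ x S' ≤ Φ x S := by
    intro x S S' hSS
    simp only [hΦ]
    have : ∑ u ∈ X.filter (fun u => ¬ A u ⊆ S'), lam u * f u x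
        ≤ ∑ u ∈ X.filter (fun u => ¬ A u ⊆ S), lam u * f u x := by
      apply Finset.sum_le_sum_of_subset_of_nonneg
      · intro u hu
        rw [Finset.mem_filter] at hu ⊢
        exact ⟨hu.1, fun hcon => hu.2 (hcon.trans hSS)⟩
      · intro u _ _
        exact mul_nonneg (hlam u) (hf0 u x)
    linarith
  have hoff : ∀ m x S, x ∉ N → F m x S ≤ Φ x S := by
    intro m x S hx
    have e1 := hbN m x S hx
    have e2 := hΦK x S
    rw [hhN x hx] at e2
    linarith
  have main : ∀ m, m ≤ M → ∀ x S, S₀ ⊆ S → x ∈ S → F m x S ≤ Φ x S := by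
    intro m
    induction m with
    | zero =>
      intro _ x S _ _
      rw [hb0]
      have := hΦK x S
      have := hh0 x
      linarith
    | succ m ih =>
      intro hm x1 S1 hS1 hx1
      by_contra hcon
      have hcon' : 0 < F (m + 1) x1 S1 - Φ x1 S1 := by
        rw [not_le] at hcon
        linarith
      obtain ⟨⟨x, S⟩, hmem, hmax⟩ := Finset.exists_max_image
        ((Finset.univ : Finset (V × Finset V)).filter (fun q => S₀ ⊆ q.2 ∧ q.1 ∈ q.2))
        (fun q => F (m + 1) q.1 q.2 - Φ q.1 q.2) ⟨(x1, S1), by simp [hS1, hx1]⟩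
      rw [Finset.mem_filter] at hmem
      obtain ⟨-, hS0S, hxS⟩ := hmem
      simp only at hS0S hxS
      set D : ℝ := F (m + 1) x S - Φ x S with hD
      have hD0 : 0 < D := by
        have := hmax (x1, S1) (by simp [hS1, hx1])
        simp only at this
        linarith
      have hall : ∀ y S', S₀ ⊆ S' → y ∈ S' → F (m + 1) y S' ≤ Φ y S' + D := by
        intro y S' hS' hy
        have := hmax (y, S') (by simp [hS', hy])
        simp only at this
        linarith
      have hxN : x ∈ N := by
        by_contra hx
        have := hoff (m + 1) x S hx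
        linarith
      -- notation
      set kk : ℝ := if x = o then κ else 0 with hkk
      have hkk0 : 0 ≤ kk := by
        rw [hkk]
        split_ifs
        · exact hκ.le
        · exact le_rfl
      set C : ℝ := ∑ y ∈ G.neighborFinset x, (a x + a y + J x y) with hCdef
      have hCx : 0 < C := hC x
      set Q : Finset ι := X.filter (fun u => p u = x) with hQ
      set Y : Finset ι := X.filter (fun u => ¬ A u ⊆ S) with hY
      set w : V → ℝ := fun y => if G.Adj x y then a x + a y + J x y else 0 with hw
      have hw0 : ∀ y, 0 ≤ w y := by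
        intro y
        simp only [hw]
        split_ifs with hxy
        · exact (hB.pos x y hxy).le
        · exact le_rfl
      have hwsum : ∑ y, w y = C := by
        simp only [hw, hCdef]
        rw [← Finset.sum_filter]
        apply Finset.sum_congr _ (fun _ _ => rfl)
        ext y
        simp
      have hmk : ∀ y, mk G a J r X p ν x y = w y + r * ∑ u ∈ Q, ν u y := fun y => rfl
      -- (1)
      have ineq1 : C * F (m + 1) x S ≤ C + ∑ y, w y * Φ y S := by
        have e1 := hF.pre.step _ hK m x S hxN
        have e2 : ∑ y, ((if G.Adj x y then a x + a y + J x y else 0) /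
            ∑ y ∈ G.neighborFinset x, (a x + a y + J x y)) * F m y (insert y S)
            ≤ (∑ y, w y * Φ y S) / C := by
          rw [Finset.sum_div]
          apply Finset.sum_le_sum
          intro y _
          rw [div_mul_eq_mul_div]
          apply div_le_div_of_nonneg_right _ hCx.le
          apply mul_le_mul_of_nonneg_left _ (hw0 y)
          exact (ih (by omega) y (insert y S) (hS0S.trans (Finset.subset_insert _ _))
            (Finset.mem_insert_self _ _)).trans (hΦanti y S _ (Finset.subset_insert _ _))
        have e3 : F (m + 1) x S ≤ 1 + (∑ y, w y * Φ y S) / C := e1.trans (by linarith)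
        calc C * F (m + 1) x S ≤ C * (1 + (∑ y, w y * Φ y S) / C) :=
              mul_le_mul_of_nonneg_left e3 hCx.le
          _ = C + ∑ y, w y * Φ y S := by
              field_simp
      -- (2)
      have ineq2 : ∀ u ∈ Q, F (m + 1) x S ≤ T u + (1 - ∑ z, ν u z) * Φ x S
          - (if u ∈ Y then (1 - ∑ z, ν u z) * (lam u * f u x) else 0)
          + ∑ z, ν u z * Φ z S + D := by
        intro u hu
        rw [hQ, Finset.mem_filter] at hu
        obtain ⟨huX, hpu⟩ := hu
        have e1 := hs u huX F hF.pre (m + 1) S (by rw [hpu]; exact hxS)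
        rw [hpu] at e1
        have hs1 : 0 ≤ 1 - ∑ z, ν u z := by
          have := hν1 u huX
          linarith
        have e2 : F (m + 1) x (S ∪ A u) ≤ Φ x (S ∪ A u) + D :=
          hall x _ (hS0S.trans Finset.subset_union_left) (Finset.mem_union_left _ hxS)
        have e3 : Φ x (S ∪ A u) ≤ Φ x S - (if u ∈ Y then lam u * f u x else 0) := by
          split_ifs with huY
          · simp only [hΦ]
            have : ∑ v ∈ X.filter (fun v => ¬ A v ⊆ S ∪ A u), lam v * f v x
                ≤ ∑ v ∈ Y.erase u, lam v * f v x := by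
              apply Finset.sum_le_sum_of_subset_of_nonneg
              · intro v hv
                rw [Finset.mem_filter] at hv
                rw [Finset.mem_erase, hY, Finset.mem_filter]
                refine ⟨?_, hv.1, fun hcon => hv.2 (hcon.trans Finset.subset_union_left)⟩
                rintro rfl
                exact hv.2 Finset.subset_union_right
              · intro v _ _
                exact mul_nonneg (hlam v) (hf0 v x)
            have e := Finset.sum_erase_add Y (fun v => lam v * f v x) huY
            linarith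
          · have := hΦanti x S (S ∪ A u) Finset.subset_union_left
            linarith
        have e4 : ∑ z, ν u z * F (m + 1) z (insert z S) ≤ ∑ z, ν u z * (Φ z S + D) := by
          apply Finset.sum_le_sum
          intro z _
          apply mul_le_mul_of_nonneg_left _ (hB.nu0 u huX z)
          have e5 := hall z (insert z S) (hS0S.trans (Finset.subset_insert _ _))
            (Finset.mem_insert_self _ _)
          have e6 := hΦanti z S _ (Finset.subset_insert z S)
          linarith
        have e7 : ∑ z, ν u z * (Φ z S + D) = ∑ z, ν u z * Φ z S + (∑ z, ν u z) * D := by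
          rw [Finset.sum_mul, ← Finset.sum_add_distrib]
          apply Finset.sum_congr rfl
          intro z _
          ring
        have e8 : (1 - ∑ z, ν u z) * F (m + 1) x (S ∪ A u)
            ≤ (1 - ∑ z, ν u z) * (Φ x S - (if u ∈ Y then lam u * f u x else 0) + D) := by
          apply mul_le_mul_of_nonneg_left _ hs1
          linarith
        have e9 : (1 - ∑ z, ν u z) * (Φ x S - (if u ∈ Y then lam u * f u x else 0) + D)
            = (1 - ∑ z, ν u z) * Φ x S
              - (if u ∈ Y then (1 - ∑ z, ν u z) * (lam u * f u x) else 0)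
              + (1 - ∑ z, ν u z) * D := by
          split_ifs <;> ring
        rw [e9] at e8
        rw [e7] at e4
        linarith
      have ineq2s : (Q.card : ℝ) * F (m + 1) x S ≤ ∑ u ∈ Q, T u
          + (∑ u ∈ Q, (1 - ∑ z, ν u z)) * Φ x S
          - (∑ u ∈ Q, if u ∈ Y then (1 - ∑ z, ν u z) * (lam u * f u x) else 0)
          + ∑ u ∈ Q, ∑ z, ν u z * Φ z S + Q.card * D := by
        have e1 := Finset.sum_le_sum ineq2
        rw [Finset.sum_const, nsmul_eq_mul] at e1
        refine e1.trans (le_of_eq ?_)
        rw [Finset.sum_add_distrib, Finset.sum_add_distrib, Finset.sum_sub_distrib,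
          Finset.sum_add_distrib, Finset.sum_const, nsmul_eq_mul, ← Finset.sum_mul]
      -- (3)
      have ineq3 : kk * F (m + 1) x S ≤ kk * (K₀ + ∑ u ∈ Y, lam u) := by
        by_cases hxo : x = o
        · apply mul_le_mul_of_nonneg_left _ hkk0
          rw [hxo]
          exact hyp (m + 1) hm S hS0S (hxo ▸ hxS)
        · have : kk = 0 := by
            rw [hkk, if_neg hxo]
          rw [this]
          simp
      -- equations
      have eqh := hh x hxN
      have eqf : ∀ u ∈ Y, ∑ y, mk G a J r X p ν x y * (f u x - f u y)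
          = kk - ((if x = p u then r * (1 - ∑ z, ν u z) else 0) + kk) * f u x := by
        intro u hu
        rw [hY, Finset.mem_filter] at hu
        have := hf u hu.1 x hxN
        rw [← hkk] at this
        linarith
      have eqPhi : ∑ y, mk G a J r X p ν x y * (Φ x S - Φ y S)
          = ∑ y, mk G a J r X p ν x y * (h x - h y)
            + ∑ u ∈ Y, lam u * ∑ y, mk G a J r X p ν x y * (f u x - f u y) := by
        have e1 : ∀ y, Φ x S - Φ y S = (h x - h y) + ∑ u ∈ Y, lam u * (f u x - f u y) := by
          intro y
          simp only [hΦ]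
          have : ∑ u ∈ Y, lam u * (f u x - f u y)
              = ∑ u ∈ Y, lam u * f u x - ∑ u ∈ Y, lam u * f u y := by
            rw [← Finset.sum_sub_distrib]
            apply Finset.sum_congr rfl
            intro u _
            ring
          rw [this]
          ring
        have e2 : ∀ y, mk G a J r X p ν x y * (Φ x S - Φ y S)
            = mk G a J r X p ν x y * (h x - h y)
              + ∑ u ∈ Y, lam u * (mk G a J r X p ν x y * (f u x - f u y)) := by
          intro y
          rw [e1 y, mul_add, Finset.mul_sum]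
          congr 1
          apply Finset.sum_congr rfl
          intro u _
          ring
        rw [Finset.sum_congr rfl (fun y _ => e2 y), Finset.sum_add_distrib, Finset.sum_comm]
        congr 1
        apply Finset.sum_congr rfl
        intro u _
        rw [Finset.mul_sum]
      have eqPhi2 : ∑ y, mk G a J r X p ν x y * (Φ x S - Φ y S)
          = (C + r * ∑ u ∈ Q, ∑ z, ν u z) * Φ x S
            - (∑ y, w y * Φ y S + r * ∑ u ∈ Q, ∑ z, ν u z * Φ z S) := by
        have e1 : ∀ y, mk G a J r X p ν x y * (Φ x S - Φ y S)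
            = (w y * Φ x S + r * ((∑ u ∈ Q, ν u y) * Φ x S))
              - (w y * Φ y S + r * ∑ u ∈ Q, ν u y * Φ y S) := by
          intro y
          rw [hmk y, ← Finset.sum_mul]
          ring
        rw [Finset.sum_congr rfl (fun y _ => e1 y), Finset.sum_sub_distrib,
          Finset.sum_add_distrib, Finset.sum_add_distrib, ← Finset.sum_mul, hwsum,
          ← Finset.mul_sum, ← Finset.sum_mul, ← Finset.mul_sum, Finset.sum_comm,
          Finset.sum_comm (s := Finset.univ) (t := Q) (f := fun y u => ν u y * Φ y S)]
        ring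
      have eqsum : ∑ u ∈ Y, lam u * ∑ y, mk G a J r X p ν x y * (f u x - f u y)
          = kk * ∑ u ∈ Y, lam u - kk * ∑ u ∈ Y, lam u * f u x
            - r * ∑ u ∈ Q, (if u ∈ Y then (1 - ∑ z, ν u z) * (lam u * f u x) else 0) := by
        have e1 : ∀ u ∈ Y, lam u * ∑ y, mk G a J r X p ν x y * (f u x - f u y)
            = kk * lam u - kk * (lam u * f u x)
              - r * (if p u = x then (1 - ∑ z, ν u z) * (lam u * f u x) else 0) := by
          intro u hu
          rw [eqf u hu]
          by_cases hpu : x = p u
          · rw [if_pos hpu, if_pos hpu.symm]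
            ring
          · rw [if_neg hpu, if_neg (fun hh => hpu hh.symm)]
            ring
        rw [Finset.sum_congr rfl e1, Finset.sum_sub_distrib, Finset.sum_sub_distrib,
          ← Finset.mul_sum, ← Finset.mul_sum, ← Finset.mul_sum]
        congr 2
        rw [← Finset.sum_filter, ← Finset.sum_filter]
        apply Finset.sum_congr _ (fun _ _ => rfl)
        ext u
        simp only [hY, hQ, Finset.mem_filter]
        tauto
      have hr := hB.r0
      have hcardQ : ∑ u ∈ Q, (1 - ∑ z, ν u z) = (Q.card : ℝ) - ∑ u ∈ Q, ∑ z, ν u z := by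
        rw [Finset.sum_sub_distrib, Finset.sum_const, nsmul_eq_mul, mul_one]
      have hPhix : Φ x S = K₀ + h x + ∑ u ∈ Y, lam u * f u x := rfl
      have hFx : F (m + 1) x S = Φ x S + D := by rw [hD]; ring
      have fin : (C + kk) * D ≤ 0 := by
        rw [hcardQ] at ineq2s
        have e1 := mul_le_mul_of_nonneg_left ineq2s hr.le
        have e2 := eqPhi2.symm.trans eqPhi
        rw [eqsum] at e2
        rw [hFx] at e1 ineq1 ineq3
        rw [← hkk] at eqh
        have e4 : kk * Φ x S = kk * (K₀ + h x + ∑ u ∈ Y, lam u * f u x) := by rw [hPhix]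
        nlinarith [e1, e2, e4, ineq1, ineq3, eqh]
      have : 0 < (C + kk) * D := mul_pos (by linarith) hD0
      linarith
  have e1 := main M le_rfl o S hS₀ hoS
  have e2 : ∑ u ∈ X.filter (fun u => ¬ A u ⊆ S), lam u * f u o
      ≤ th * ∑ u ∈ X.filter (fun u => ¬ A u ⊆ S), lam u := by
    rw [Finset.mul_sum]
    apply Finset.sum_le_sum
    intro u hu
    rw [Finset.mem_filter] at hu
    rw [mul_comm th]
    exact mul_le_mul_of_nonneg_left (hth u hu.1) (hlam u)
  simp only [hΦ] at e1
  linarith

end Pool.MP_10effd_pr
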