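import Pool.Agent.MP_10effd_pr.LL.Defs0
import Pool.Agent.MP_10effd_pr.LL.Solve
import Pool.Agent.MP_10effd_pr.LL.Energy
import Pool.Agent.MP_10effd_pr.LL.Super
import Pool.Agent.MP_10effd_pr.LL.Flow

/-! One phase of a stage. -/

set_option autoImplicit false
set_option linter.unusedSectionVars false

namespace Pool.MP_10effd_pr

open Finset

variable {V : Type} [Fintype V] [DecidableEq V] {G : SimpleGraph V} [DecidableRel G.Adj] {ε : ℝ}

theorem stage_phase_dec_nonneg {r : ℝ} (hr : 0 ≤ r) (C : Finset V) (x : V) :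
    0 ≤ dec G r C x := by
  unfold dec
  split_ifs
  · exact pow_nonneg hr _
  · exact le_rfl

theorem stage_phase_dec_pos {r : ℝ} (hr : 0 < r) {C : Finset V} (hC : C.Nonempty) (x : V) :
    0 < dec G r C x := by
  unfold dec
  rw [if_pos hC]
  exact pow_pos hr _

theorem stage_phase_dec_mem {r : ℝ} {C : Finset V} {x : V} (hx : x ∈ C) :
    dec G r C x = 1 := by
  unfold dec
  rw [if_pos ⟨x, hx⟩, dset_mem hx, pow_zero]

theorem stage_phase_dec_adj (hG : G.Connected) {r : ℝ} (hr : 0 < r) (hr1 : r ≤ 1)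
    (C : Finset V) {x y : V} (h : G.Adj x y) : r * dec G r C x ≤ dec G r C y := by
  unfold dec
  split_ifs with hC
  · have h1 := dset_adj hG hC h
    calc r * r ^ dset G C x = r ^ (dset G C x + 1) := by ring
      _ ≤ r ^ dset G C y := pow_le_pow_of_le_one hr.le hr1 h1
  · simp

theorem stage_phase_ineq {θ η : ℝ} (hθ0 : 0 < θ) (hθ1 : θ < 1) (hη : η = (1 - θ ^ 32) / 2) :
    θ ^ 48 * (1 + η) ≤ 1 - η := by
  subst hη
  have h1 : θ ^ 48 ≤ θ ^ 32 := pow_le_pow_of_le_one hθ0.le hθ1.le (by norm_num)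
  have h2 : (0 : ℝ) < θ ^ 32 := pow_pos hθ0 _
  have h3 : θ ^ 32 ≤ 1 := pow_le_one₀ hθ0.le hθ1.le
  have h4 : θ ^ 48 * (1 + (1 - θ ^ 32) / 2) ≤ θ ^ 32 * (1 + (1 - θ ^ 32) / 2) :=
    mul_le_mul_of_nonneg_right h1 (by linarith)
  nlinarith [sq_nonneg (θ ^ 32 - 1)]

theorem stage_phase {θ : ℝ} {Δ : ℕ} (h0 : 0 < ε) (h1 : ε < 1) (hθ0 : 0 < θ) (hθ1 : θ < 1)
    (hθ : θ ^ 64 = 1 - ε) (hG : G.Connected) (hd : ∀ x, 0 < G.degree x) {N : Finset V} {L : ℝ}
    {o : V} {ι : Type} [Fintype ι] [DecidableEq ι] {p : ι → V} {A Nu : ι → Finset V}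
    {T : ι → ℝ} {ν : ι → V → ℝ} {Ls : Finset ℕ} {R : ι → ℕ → Finset V} {w : ℕ → ℝ} {σ : ℕ → ℕ}
    {lF m' : ℕ} {τ νm : ℝ} (hS : StageHyp G ε θ Δ N L o p A Nu T ν Ls R w σ lF m' τ νm)
    {X : Finset ι} (hX : X.Nonempty) :
    Phase G ε N L o A X
      (16 * (∑ x ∈ N, ∑ y ∈ G.neighborFinset x, (wt G θ Ls R w X x + wt G θ Ls R w X y)
        + τ * ∑ u ∈ X, T u
        + L * ∑ x ∈ N, ∑ y ∈ (G.neighborFinset x).filter (fun y => y ∉ N),
            (wt G θ Ls R w X x + wt G θ Ls R w X y)))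
      ((1 / 16) * (1 + 1 / (τ * (1 - νm))) / (1 + (1 / 16) * (1 + 1 / (τ * (1 - νm))))) := by
  classical
  set a : V → ℝ := wt G θ Ls R w X with ha
  set η : ℝ := (1 - θ ^ 32) / 2 with hη
  have hr16 : (0 : ℝ) < θ ^ 16 := pow_pos hθ0 _
  have hr16' : θ ^ 16 ≤ 1 := pow_le_one₀ hθ0.le hθ1.le
  have hr32 : (0 : ℝ) < θ ^ 32 := pow_pos hθ0 _
  have hr32' : θ ^ 32 < 1 := pow_lt_one₀ hθ0.le hθ1 (by norm_num)
  have hη0 : 0 < η := by rw [hη]; linarith
  have hη1 : η < 1 := by rw [hη]; linarith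
  -- weights
  have hterm : ∀ x, ∀ l ∈ Ls, 0 ≤ w l * dec G (θ ^ 16) (X.biUnion fun u => R u l) x :=
    fun x l hl => mul_nonneg (hS.w0 l hl).le (stage_phase_dec_nonneg hr16.le _ _)
  have ha0' : ∀ x, 0 ≤ a x := fun x => by
    rw [ha]; exact Finset.sum_nonneg (hterm x)
  have hage : ∀ l ∈ Ls, ∀ u ∈ X, ∀ x ∈ R u l, w l ≤ a x := by
    intro l hl u hu x hx
    have e1 : w l * dec G (θ ^ 16) (X.biUnion fun u => R u l) x = w l := by
      rw [stage_phase_dec_mem (Finset.mem_biUnion.mpr ⟨u, hu, hx⟩), mul_one]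
    calc w l = w l * dec G (θ ^ 16) (X.biUnion fun u => R u l) x := e1.symm
      _ ≤ a x := by
        rw [ha]
        exact Finset.single_le_sum (f := fun l => w l * dec G (θ ^ 16)
          (X.biUnion fun u => R u l) x) (hterm x) hl
  have hap : ∀ x, 0 < a x := by
    intro x
    obtain ⟨u, hu⟩ := hX
    have hne : (X.biUnion fun u => R u lF).Nonempty :=
      ⟨p u, Finset.mem_biUnion.mpr ⟨u, hu, hS.NuR u (hS.pNu u)⟩⟩
    have e1 : 0 < w lF * dec G (θ ^ 16) (X.biUnion fun u => R u lF) x :=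
      mul_pos (hS.w0 _ hS.lFs) (stage_phase_dec_pos hr16 hne x)
    refine e1.trans_le ?_
    rw [ha]
    exact Finset.single_le_sum (f := fun l => w l * dec G (θ ^ 16)
      (X.biUnion fun u => R u l) x) (hterm x) hS.lFs
  have haadj : ∀ x y, G.Adj x y → θ ^ 16 * a x ≤ a y := by
    intro x y hxy
    rw [ha]
    simp only [wt]
    rw [Finset.mul_sum]
    apply Finset.sum_le_sum
    intro l hl
    have := stage_phase_dec_adj hG hr16 hr16' (X.biUnion fun u => R u l) hxy
    calc θ ^ 16 * (w l * dec G (θ ^ 16) (X.biUnion fun u => R u l) x)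
        = w l * (θ ^ 16 * dec G (θ ^ 16) (X.biUnion fun u => R u l) x) := by ring
      _ ≤ _ := mul_le_mul_of_nonneg_left this (hS.w0 l hl).le
  -- flows
  have hflow : ∀ (u : ι) (z : V), ∃ φ : V → V → ℝ, (∀ x y, φ x y = - φ y x) ∧
      (∀ x y, |φ x y| ≤ 1) ∧
      (∀ x y, ¬ (G.Adj x y ∧ x ∈ Nu u ∧ y ∈ Nu u) → φ x y = 0) ∧
      (z ∈ Nu u → ∀ x, ∑ y, φ x y = (if x = z then 1 else 0) - (if x = p u then 1 else 0)) := by
    intro u z
    by_cases hz : z ∈ Nu u
    · obtain ⟨φ, e1, e2, e3, e4⟩ := exists_flow (hS.cNu u z hz)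
      exact ⟨φ, e1, e2, e3, fun _ => e4⟩
    · exact ⟨fun _ _ => 0, by simp, by simp, by simp, fun h => absurd h hz⟩
  choose φ hφa hφ1 hφs hφd using hflow
  set J : V → V → ℝ := fun x y => ∑ u ∈ X, ∑ z, τ / 2 * ν u z * φ u z x y with hJ
  have hNuN : ∀ u, Nu u ⊆ N := by
    intro u x hx
    refine hS.far u lF hS.lFs ?_
    rw [mem_nb]
    exact ⟨x, hS.NuR u hx, by rw [SimpleGraph.dist_self]; omega⟩
  have hanti : ∀ x y, J x y = - J y x := by
    intro x y
    simp only [hJ]
    rw [← Finset.sum_neg_distrib]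
    refine Finset.sum_congr rfl fun u _ => ?_
    rw [← Finset.sum_neg_distrib]
    refine Finset.sum_congr rfl fun z _ => ?_
    rw [hφa u z x y]; ring
  have hsupp : ∀ x y, x ∉ N → J x y = 0 := by
    intro x y hx
    simp only [hJ]
    refine Finset.sum_eq_zero fun u _ => Finset.sum_eq_zero fun z _ => ?_
    rw [hφs u z x y (fun h => hx (hNuN u h.2.1)), mul_zero]
  have hadj : ∀ x y, ¬ G.Adj x y → J x y = 0 := by
    intro x y hx
    simp only [hJ]
    refine Finset.sum_eq_zero fun u _ => Finset.sum_eq_zero fun z _ => ?_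
    rw [hφs u z x y (fun h => hx h.1), mul_zero]
  have hJabs : ∀ x y, |J x y| ≤ η / 2 * a x := by
    intro x y
    have hbound : |J x y| ≤ τ / 2 * ∑ u ∈ X.filter (fun u => x ∈ Nu u), ∑ z, ν u z := by
      simp only [hJ]
      rw [Finset.mul_sum, Finset.sum_filter]
      refine (Finset.abs_sum_le_sum_abs _ _).trans (Finset.sum_le_sum fun u hu => ?_)
      split_ifs with hx
      · rw [Finset.mul_sum]
        refine (Finset.abs_sum_le_sum_abs _ _).trans (Finset.sum_le_sum fun z _ => ?_)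
        rw [abs_mul, abs_of_nonneg (mul_nonneg (half_pos hS.τ0).le (hS.nu0 u z))]
        exact mul_le_of_le_one_right (mul_nonneg (half_pos hS.τ0).le (hS.nu0 u z)) (hφ1 u z x y)
      · refine le_of_eq ?_
        rw [abs_eq_zero]
        refine Finset.sum_eq_zero fun z _ => ?_
        rw [hφs u z x y (fun h => hx h.2.1), mul_zero]
    by_cases hex : ∃ u ∈ X, x ∈ Nu u
    · obtain ⟨u, hu, hxu⟩ := hex
      have hw : w lF ≤ a x := hage lF hS.lFs u hu x (hS.NuR u hxu)
      have hfl := hS.flow x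
      have hsub : ∑ u ∈ X.filter (fun u => x ∈ Nu u), ∑ z, ν u z
          ≤ ∑ u ∈ Finset.univ.filter (fun u => x ∈ Nu u), ∑ z, ν u z := by
        refine Finset.sum_le_sum_of_subset_of_nonneg ?_ ?_
        · intro v hv
          rw [Finset.mem_filter] at hv ⊢
          exact ⟨Finset.mem_univ _, hv.2⟩
        · intro v _ _
          exact Finset.sum_nonneg fun z _ => hS.nu0 v z
      have e1 : τ * ∑ u ∈ X.filter (fun u => x ∈ Nu u), ∑ z, ν u z ≤ η * w lF :=
        (mul_le_mul_of_nonneg_left hsub hS.τ0.le).trans hfl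
      have e2 : η * w lF ≤ η * a x := mul_le_mul_of_nonneg_left hw hη0.le
      calc |J x y| ≤ _ := hbound
        _ = (τ * ∑ u ∈ X.filter (fun u => x ∈ Nu u), ∑ z, ν u z) / 2 := by ring
        _ ≤ η / 2 * a x := by linarith
    · have e0 : X.filter (fun u => x ∈ Nu u) = ∅ := by
        rw [Finset.filter_eq_empty_iff]
        intro u hu hxu
        exact hex ⟨u, hu, hxu⟩
      rw [e0, Finset.sum_empty, mul_zero] at hbound
      exact hbound.trans (mul_nonneg (half_pos hη0).le (ha0' x))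
  have hJabs' : ∀ x y, |J x y| ≤ η * (a x + a y) := by
    intro x y
    have e1 := hJabs x y
    have e2 := mul_nonneg hη0.le (ha0' x)
    have e3 := mul_nonneg hη0.le (ha0' y)
    nlinarith
  have hνle : ∀ u, ∑ z, ν u z ≤ 1 / 2 := fun u => (hS.nu1 u).trans hS.νm1
  have hB : Bal G N a J τ X p ν := by
    refine ⟨hS.τ0, hap, hanti, hsupp, hadj, ?_, ?_, ?_, ?_, ?_⟩
    · intro x y _
      have e1 := neg_abs_le (J x y)
      have e2 := hJabs x y
      have e3 := hap x
      have e4 := hap y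
      nlinarith
    · exact fun u _ z => hS.nu0 u z
    · exact fun u _ z hz => hS.nuS u z (fun h => hz (hNuN u h))
    · exact fun u _ => hNuN u (hS.pNu u)
    · intro x
      have e1 : ∑ y, J x y = ∑ u ∈ X, ∑ z, τ / 2 * ν u z * ∑ y, φ u z x y := by
        simp only [hJ]
        rw [Finset.sum_comm]
        refine Finset.sum_congr rfl fun u _ => ?_
        rw [Finset.sum_comm]
        refine Finset.sum_congr rfl fun z _ => ?_
        rw [Finset.mul_sum]
      have e2 : ∀ u ∈ X, ∑ z, τ / 2 * ν u z * ∑ y, φ u z x y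
          = τ / 2 * ν u x - (if p u = x then τ / 2 * ∑ z, ν u z else 0) := by
        intro u _
        have e3 : ∀ z, τ / 2 * ν u z * ∑ y, φ u z x y
            = (if x = z then τ / 2 * ν u z else 0)
              - (if p u = x then τ / 2 * ν u z else 0) := by
          intro z
          by_cases hz : z ∈ Nu u
          · rw [hφd u z hz x]
            by_cases c1 : x = z <;> by_cases c2 : x = p u
            · rw [if_pos c1, if_pos c2, if_pos c1, if_pos c2.symm]; ring
            · rw [if_pos c1, if_neg c2, if_pos c1, if_neg (fun h => c2 h.symm)]; ring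
            · rw [if_neg c1, if_pos c2, if_neg c1, if_pos c2.symm]; ring
            · rw [if_neg c1, if_neg c2, if_neg c1, if_neg (fun h => c2 h.symm)]; ring
          · rw [hS.nuS u z hz]
            simp
        rw [Finset.sum_congr rfl fun z _ => e3 z, Finset.sum_sub_distrib,
          Finset.sum_ite_eq Finset.univ x, if_pos (Finset.mem_univ _)]
        congr 1
        split_ifs with h
        · rw [Finset.mul_sum]
        · simp
      rw [e1, Finset.sum_congr rfl e2, Finset.sum_sub_distrib, ← Finset.sum_filter,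
        ← Finset.mul_sum, ← Finset.mul_sum]
      ring
  have hker : ∀ x y y', G.Adj x y → G.Adj x y' →
      (1 - ε) * (a x + a y' + J x y') ≤ a x + a y + J x y := by
    intro x y y' hxy hxy'
    have e1 : a x + a y' + J x y' ≤ (1 + η) * (a x + a y') := by
      have := le_abs_self (J x y')
      have := hJabs' x y'
      linarith
    have e2 : (1 - η) * (a x + a y) ≤ a x + a y + J x y := by
      have := neg_abs_le (J x y)
      have := hJabs' x y
      linarith
    have e3 : θ ^ 16 * a x ≤ a y := haadj x y hxy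
    have e4 : θ ^ 16 * a y' ≤ a x := haadj y' x hxy'.symm
    have e5 : θ ^ 16 * (a x + a y') ≤ (1 + θ ^ 16) * a x := by linarith
    have e6 : (1 + θ ^ 16) * a x ≤ a x + a y := by linarith
    have e7 := stage_phase_ineq hθ0 hθ1 hη
    have hθ48 : (0 : ℝ) ≤ θ ^ 48 := pow_nonneg hθ0.le _
    have hpos : 0 ≤ (1 + θ ^ 16) * a x := mul_nonneg (by linarith) (ha0' x)
    calc (1 - ε) * (a x + a y' + J x y')
        ≤ (1 - ε) * ((1 + η) * (a x + a y')) := mul_le_mul_of_nonneg_left e1 (by linarith)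
      _ = θ ^ 48 * (1 + η) * (θ ^ 16 * (a x + a y')) := by rw [← hθ]; ring
      _ ≤ θ ^ 48 * (1 + η) * ((1 + θ ^ 16) * a x) :=
          mul_le_mul_of_nonneg_left e5 (mul_nonneg hθ48 (by linarith))
      _ ≤ (1 - η) * ((1 + θ ^ 16) * a x) := mul_le_mul_of_nonneg_right e7 hpos
      _ ≤ (1 - η) * (a x + a y) := mul_le_mul_of_nonneg_left e6 (by linarith)
      _ ≤ _ := e2
  -- the two Dirichlet problems
  have hK0 : ∀ x y, 0 ≤ mk G a J τ X p ν x y := by
    intro x y
    unfold mk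
    refine add_nonneg ?_ (mul_nonneg hS.τ0.le (Finset.sum_nonneg fun u _ => hS.nu0 u y))
    split_ifs with h
    · exact (hB.pos x y h).le
    · exact le_rfl
  have hKadj : ∀ x y, G.Adj x y → 0 < mk G a J τ X p ν x y := by
    intro x y hxy
    unfold mk
    rw [if_pos hxy]
    exact add_pos_of_pos_of_nonneg (hB.pos x y hxy)
      (mul_nonneg hS.τ0.le (Finset.sum_nonneg fun u _ => hS.nu0 u y))
  have hqu : ∀ u, 0 < τ * (1 - ∑ z, ν u z) := fun u =>
    mul_pos hS.τ0 (by have := hνle u; linarith)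
  have hf : ∀ u : ι, ∃ f : V → ℝ, (∀ x, 0 ≤ f x) ∧ (∀ x, x ∉ N → f x = 0) ∧
      ∀ x ∈ N, ∑ y, mk G a J τ X p ν x y * (f x - f y)
        + ((if x = p u then τ * (1 - ∑ z, ν u z) else 0) + (if x = o then (1 / 16 : ℝ) else 0))
          * f x = if x = o then (1 / 16 : ℝ) else 0 := by
    intro u
    refine exists_solve hG (q := fun x => (if x = p u then τ * (1 - ∑ z, ν u z) else 0)
      + (if x = o then (1 / 16 : ℝ) else 0)) (s := fun x => if x = o then (1 / 16 : ℝ) else 0)
      hK0 hKadj ?_ hS.oN ?_ ?_ le_rfl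
    · intro x
      refine add_nonneg ?_ ?_
      · split_ifs
        · exact (hqu u).le
        · exact le_rfl
      · split_ifs <;> norm_num
    · show 0 < (if o = p u then τ * (1 - ∑ z, ν u z) else 0) + (if o = o then (1 / 16 : ℝ) else 0)
      rw [if_pos rfl]
      refine add_pos_of_nonneg_of_pos ?_ (by norm_num)
      split_ifs
      · exact (hqu u).le
      · exact le_rfl
    · intro x _
      show 0 ≤ (if x = o then (1 / 16 : ℝ) else 0)
      split_ifs <;> norm_num
  choose f hf0 hfN hfe using hf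
  have hL0 : (0 : ℝ) ≤ L := by linarith [hS.L1]
  obtain ⟨h, hh0, hhN, hhe⟩ := exists_solve hG (N := N) (K := mk G a J τ X p ν)
    (q := fun x => if x = o then (1 / 16 : ℝ) else 0)
    (s := fun x => ∑ y ∈ G.neighborFinset x, (a x + a y + J x y)
        + τ * ∑ u ∈ X.filter (fun u => p u = x), T u) (o := o) (β := L)
    hK0 hKadj (by intro x; show 0 ≤ (if x = o then (1 / 16 : ℝ) else 0); split_ifs <;> norm_num)
    hS.oN (by show 0 < (if o = o then (1 / 16 : ℝ) else 0); rw [if_pos rfl]; norm_num)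
    (by
      intro x _
      refine add_nonneg (Finset.sum_nonneg fun y hy => ?_)
        (mul_nonneg hS.τ0.le (Finset.sum_nonneg fun u _ => hS.T0 u))
      rw [SimpleGraph.mem_neighborFinset] at hy
      exact (hB.pos x y hy).le) hL0
  -- conclusion
  refine super_phase h0 h1 hd hL0 hS.oN hB (fun u _ => hS.T0 u)
    (fun u _ => (hνle u).trans (by norm_num)) (fun u _ => hS.sess u) hker
    (κ := 1 / 16) (by norm_num) hh0 hhN hhe hf0 (fun u _ x hx => hfN u x hx)
    (fun u _ x hx => hfe u x hx) ?_ ?_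
  · have e := cost_bound hB hS.oN (κ := 1 / 16) (by norm_num) hL0 hh0 hhN hhe
    refine e.trans (le_of_eq ?_)
    rw [div_eq_iff (by norm_num)]
    ring
  · intro u hu
    have hres := hS.res u a (f u) ha0' (fun l hl x hx => hage l hl u hu x hx)
    have e := energy_bound hB hS.oN (hNuN u (hS.pNu u)) (κ := 1 / 16) (by norm_num) (hqu u)
      (hf0 u) (hfN u) (hfe u) hres
    refine e.trans ?_
    have hνm : 0 < τ * (1 - νm) := mul_pos hS.τ0 (by linarith [hS.νm1])
    have hq' : τ * (1 - νm) ≤ τ * (1 - ∑ z, ν u z) :=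
      mul_le_mul_of_nonneg_left (by linarith [hS.nu1 u]) hS.τ0.le
    have e1 : 1 / (τ * (1 - ∑ z, ν u z)) ≤ 1 / (τ * (1 - νm)) :=
      one_div_le_one_div_of_le hνm hq'
    have e2 : 0 < 1 / (τ * (1 - ∑ z, ν u z)) := one_div_pos.mpr (hqu u)
    rw [div_le_div_iff₀ (by linarith) (by linarith)]
    nlinarith

end Pool.MP_10effd_pr
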